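import Pool.Agent.Helper475.Base

open scoped BigOperators

namespace H475
open Module

section alt_of_restrict_aux

/-- adding multiples of the first argument to the other ones -/
theorem alt_of_restrict_shear {M : Type} [AddCommGroup M] [Module ℂ M] {k : ℕ}
    (A : M [⋀^Fin (k+1)]→ₗ[ℂ] ℂ) (u : M) (x : Fin k → M) (c : Fin k → ℂ) :
    A (Matrix.vecCons u (fun i => x i - c i • u)) = A (Matrix.vecCons u x) := by
  classical
  have key : ∀ s : Finset (Fin k),
      A (Matrix.vecCons u (fun i => if i ∈ s then x i - c i • u else x i)) =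
        A (Matrix.vecCons u x) := by
    intro s
    induction s using Finset.induction_on with
    | empty => simp
    | insert j s hj ih =>
      rw [← ih]
      have h1 : (Matrix.vecCons u (fun i => if i ∈ insert j s then x i - c i • u else x i) :
          Fin (k+1) → M) = Function.update
            (Matrix.vecCons u (fun i => if i ∈ s then x i - c i • u else x i)) j.succ
            (x j - c j • u) := by
        funext m
        refine Fin.cases ?_ (fun m => ?_) m
        · rw [Function.update_of_ne (Fin.succ_ne_zero j).symm]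
          simp
        · by_cases hm : m = j
          · subst hm
            simp
          · rw [Function.update_of_ne (fun h => hm (Fin.succ_injective _ h))]
            simp [Finset.mem_insert, hm]
      have h2 : Function.update
            (Matrix.vecCons u (fun i => if i ∈ s then x i - c i • u else x i)) j.succ
            (x j) = (Matrix.vecCons u (fun i => if i ∈ s then x i - c i • u else x i)) := by
        funext m
        refine Fin.cases ?_ (fun m => ?_) m
        · rw [Function.update_of_ne (Fin.succ_ne_zero j).symm]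
        · by_cases hm : m = j
          · subst hm
            simp [hj]
          · rw [Function.update_of_ne (fun h => hm (Fin.succ_injective _ h))]
      rw [h1, AlternatingMap.map_update_sub, AlternatingMap.map_update_smul, h2]
      have h3 : A (Function.update
            (Matrix.vecCons u (fun i => if i ∈ s then x i - c i • u else x i)) j.succ u) = 0 := by
        have h4 := A.map_update_self
          (Matrix.vecCons u (fun i => if i ∈ s then x i - c i • u else x i))
          (i := j.succ) (j := 0) (Fin.succ_ne_zero j)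
        simpa using h4
      rw [h3, smul_zero, sub_zero]
  have := key Finset.univ
  simpa using this

/-- the bilinear map obtained by fixing the last arguments -/
noncomputable def alt_of_restrict_bil {M : Type} [AddCommGroup M] [Module ℂ M] {k : ℕ}
    (B : M →ₗ[ℂ] M [⋀^Fin (k+1)]→ₗ[ℂ] ℂ) (x : Fin k → M) : M →ₗ[ℂ] M →ₗ[ℂ] ℂ :=
  LinearMap.mk₂ ℂ (fun u v => B u (Matrix.vecCons v x))
    (fun u u' v => by simp) (fun c u v => by simp)
    (fun u v v' => by simp [AlternatingMap.map_vecCons_add])
    (fun c u v => by simp [AlternatingMap.map_vecCons_smul])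

theorem alt_of_restrict_bil_apply {M : Type} [AddCommGroup M] [Module ℂ M] {k : ℕ}
    (B : M →ₗ[ℂ] M [⋀^Fin (k+1)]→ₗ[ℂ] ℂ) (x : Fin k → M) (u v : M) :
    alt_of_restrict_bil B x u v = B u (Matrix.vecCons v x) := rfl

/-- LEMMA P -/
theorem alt_of_restrict_P {M : Type} [AddCommGroup M] [Module ℂ M] {k : ℕ}
    (B : M →ₗ[ℂ] M [⋀^Fin (k+1)]→ₗ[ℂ] ℂ) (H : Submodule ℂ M) (θ : M →ₗ[ℂ] ℂ) (T : Set M)
    (hTH : T ⊆ H) (hsp : H ≤ Submodule.span ℂ T)
    (hT : ∀ z ∈ T, ∀ x : Fin k → M, (∀ i, x i ∈ H) → B z (Matrix.vecCons z x) = 0)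
    (hθ : ∀ z ∈ T, θ z ≠ 0)
    (h0 : ∀ u ∈ H, θ u = 0 → ∀ x : Fin k → M, (∀ i, x i ∈ H) → (∀ i, θ (x i) = 0) →
      B u (Matrix.vecCons u x) = 0) :
    ∀ u ∈ H, ∀ x : Fin k → M, (∀ i, x i ∈ H) → B u (Matrix.vecCons u x) = 0 := by
  rcases Set.eq_empty_or_nonempty T with hTe | ⟨z0, hz0⟩
  · intro u hu x _
    have : u = 0 := by
      have := hsp hu
      rw [hTe, Submodule.span_empty] at this
      simpa using this
    subst this
    simp
  · -- a vector with θ s = 1
    obtain ⟨s, hs⟩ : ∃ s : M, s = (θ z0)⁻¹ • z0 := ⟨_, rfl⟩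
    have hsH : s ∈ H := by rw [hs]; exact H.smul_mem _ (hTH hz0)
    have hs1 : θ s = 1 := by
      rw [hs, map_smul, smul_eq_mul, inv_mul_cancel₀ (hθ z0 hz0)]
    have hss : ∀ x : Fin k → M, (∀ i, x i ∈ H) → alt_of_restrict_bil B x s s = 0 := by
      intro x hx
      have h1 : alt_of_restrict_bil B x z0 z0 = 0 := hT z0 hz0 x hx
      rw [hs]
      simp only [map_smul, LinearMap.smul_apply, h1, smul_zero]
    -- arguments in ker θ
    have stepA : ∀ x : Fin k → M, (∀ i, x i ∈ H) → (∀ i, θ (x i) = 0) → ∀ u ∈ H,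
        alt_of_restrict_bil B x u u = 0 := by
      intro x hx hx0
      set b := alt_of_restrict_bil B x with hb
      have e1 : ∀ u ∈ H, b u u = θ u * (b u s + b s u) := by
        intro u hu
        have h1 : b (u - θ u • s) (u - θ u • s) = 0 := by
          refine h0 _ (H.sub_mem hu (H.smul_mem _ hsH)) ?_ x hx hx0
          rw [map_sub, map_smul, hs1, smul_eq_mul, mul_one, sub_self]
        have h2 := hss x hx
        rw [← hb] at h2
        simp only [map_sub, map_smul, LinearMap.sub_apply, LinearMap.smul_apply, smul_eq_mul,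
          h2] at h1
        linear_combination h1
      have e2 : ∀ u ∈ Submodule.span ℂ T, (b.flip s + b s) u = 0 := by
        intro u hu
        induction hu using Submodule.span_induction with
        | mem z hz =>
          have h1 : b z z = 0 := hT z hz x hx
          have h2 := e1 z (hTH hz)
          rw [h1] at h2
          have h3 := (mul_eq_zero.1 h2.symm).resolve_left (hθ z hz)
          simpa using h3
        | zero => simp
        | add p q _ _ hp hq => rw [map_add, hp, hq, add_zero]
        | smul c p _ hp => rw [map_smul, hp, smul_zero]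
      intro u hu
      have h1 := e2 u (hsp hu)
      rw [e1 u hu]
      have h2 : b u s + b s u = 0 := by simpa using h1
      rw [h2, mul_zero]
    -- θ u ≠ 0
    have stepB : ∀ u ∈ H, θ u ≠ 0 → ∀ x : Fin k → M, (∀ i, x i ∈ H) →
        alt_of_restrict_bil B x u u = 0 := by
      intro u hu hu0 x hx
      have h1 := stepA (fun i => x i - (θ (x i) / θ u) • u)
        (fun i => H.sub_mem (hx i) (H.smul_mem _ hu)) (fun i => by
          rw [map_sub, map_smul, smul_eq_mul, div_mul_cancel₀ _ hu0, sub_self]) u hu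
      rw [alt_of_restrict_bil_apply, alt_of_restrict_shear] at h1
      exact h1
    intro u hu x hx
    change alt_of_restrict_bil B x u u = 0
    by_cases hu0 : θ u = 0
    · have h1 := stepB (u + s) (H.add_mem hu hsH) (by rw [map_add, hu0, hs1]; simp) x hx
      have h2 := stepB (u - s) (H.sub_mem hu hsH) (by rw [map_sub, hu0, hs1]; simp) x hx
      have h3 := hss x hx
      simp only [map_add, map_sub, LinearMap.add_apply, LinearMap.sub_apply, h3] at h1 h2
      linear_combination (h1 + h2) / 2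
    · exact stepB u hu hu0 x hx

theorem alt_of_restrict_dif_add {X : Type} [Fintype X] [DecidableEq X] (x y z : X) :
    dif x y + dif y z = dif x z := by
  apply Subtype.ext
  simp [dif]

theorem alt_of_restrict_dif_self {X : Type} [Fintype X] [DecidableEq X] (x : X) :
    dif x x = 0 := by
  apply Subtype.ext
  simp [dif]

theorem alt_of_restrict_sum {X : Type} [Fintype X] [DecidableEq X] (x0 : X) (f : Z0 X) :
    f = ∑ a, f.1 a • dif a x0 := by
  apply Subtype.ext
  have hf := (mem_Z0 f.1).1 f.2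
  funext b
  rw [AddSubmonoidClass.coe_finsetSum, Finset.sum_apply]
  simp only [Submodule.coe_smul, dif, Pi.smul_apply, Pi.sub_apply, smul_eq_mul, mul_sub,
    Finset.sum_sub_distrib]
  rw [← Finset.sum_mul, hf, zero_mul, sub_zero]
  rw [Finset.sum_eq_single b]
  · simp
  · intro a _ hab
    simp [Pi.single_apply, hab.symm]
  · simp

/-- a functional vanishing at the nodes is zero -/
theorem alt_of_restrict_nodes {n : ℕ} [Fact n.Prime] (ω : ZMod n)
    (ν : UU n →ₗ[ℂ] ℂ) (h : ∀ e, ν (node ω e) = 0) : ν = 0 := by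
  have hn : (n : ℂ) ≠ 0 := by
    have := (Fact.out : n.Prime).pos
    exact_mod_cast this.ne'
  have hsplit : ∀ (a b : ZMod n) (i j : Fin 3),
      ν (dif a b, dif i j) = ν (dif a b, 0) + ν (0, dif i j) := by
    intro a b i j
    rw [← map_add]
    simp
  have g1 : ∀ (i : Fin 3) (a : ZMod n),
      ν (dif (a + ω ^ (i : ℕ)) a, 0) = - ν (0, dif i (i + 1)) := by
    intro i a
    have h1 := h (a, i)
    rw [node, hsplit] at h1
    linear_combination h1
  have gadd : ∀ a b c : ZMod n, ν (dif a b, 0) + ν (dif b c, 0) = ν (dif a c, 0) := by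
    intro a b c
    rw [← map_add]
    simp [alt_of_restrict_dif_add]
  have g2 : ∀ (i : Fin 3) (a : ZMod n) (m : ℕ),
      ν (dif (a + (m : ZMod n) * ω ^ (i : ℕ)) a, 0) = - (m : ℂ) * ν (0, dif i (i + 1)) := by
    intro i a m
    induction m with
    | zero =>
      simp only [Nat.cast_zero, zero_mul, add_zero, neg_zero, alt_of_restrict_dif_self]
      exact map_zero ν
    | succ m ih =>
      have h1 := gadd (a + ((m + 1 : ℕ) : ZMod n) * ω ^ (i : ℕ))
        (a + (m : ZMod n) * ω ^ (i : ℕ)) a
      have h2 := g1 i (a + (m : ZMod n) * ω ^ (i : ℕ))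
      have h3 : a + (m : ZMod n) * ω ^ (i : ℕ) + ω ^ (i : ℕ) =
          a + ((m + 1 : ℕ) : ZMod n) * ω ^ (i : ℕ) := by push_cast; ring
      rw [h3] at h2
      rw [← h1, h2, ih]
      push_cast
      ring
  have c0 : ∀ i : Fin 3, ν (0, dif i (i + 1)) = 0 := by
    intro i
    have h1 := g2 i 0 n
    have h2 : ν ((dif (0 : ZMod n) 0, 0) : UU n) = 0 := by
      rw [alt_of_restrict_dif_self]
      exact map_zero ν
    rw [ZMod.natCast_self, zero_mul, add_zero, h2] at h1
    have h3 := mul_eq_zero.1 h1.symm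
    exact h3.resolve_left (neg_ne_zero.2 hn)
  have g3 : ∀ a : ZMod n, ν (dif a 0, 0) = 0 := by
    intro a
    have h1 := g2 0 0 a.val
    rw [c0] at h1
    simpa using h1
  have c1 : ∀ i : Fin 3, ν (0, dif i 0) = 0 := by
    have cadd : ∀ a b c : Fin 3, ν (0, dif a b) + ν (0, dif b c) = ν (0, dif a c) := by
      intro a b c
      rw [← map_add]
      simp [alt_of_restrict_dif_add]
    have q0 := c0 0
    have q1 := c0 1
    have q2 := c0 2
    intro i
    fin_cases i
    · change ν (0, dif 0 0) = 0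
      rw [alt_of_restrict_dif_self]
      exact map_zero ν
    · change ν (0, dif 1 0) = 0
      have h1 := cadd 1 2 0
      change ν (0, dif 1 2) = 0 at q1
      change ν (0, dif 2 0) = 0 at q2
      rw [q1, q2, add_zero] at h1
      exact h1.symm
    · exact q2
  apply LinearMap.ext
  rintro ⟨f, g⟩
  have hfg : ((f, g) : UU n) = (f, 0) + (0, g) := by simp
  rw [hfg, map_add]
  have hf : ν ((f, 0) : UU n) = 0 := by
    have h1 : ((f, 0) : UU n) = LinearMap.inl ℂ (Z0 (ZMod n)) (Z0 (Fin 3)) f := rfl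
    rw [h1, alt_of_restrict_sum (0 : ZMod n) f, map_sum, map_sum]
    refine Finset.sum_eq_zero fun a _ => ?_
    rw [map_smul, map_smul, LinearMap.inl_apply, g3, smul_zero]
  have hg : ν ((0, g) : UU n) = 0 := by
    have h1 : ((0, g) : UU n) = LinearMap.inr ℂ (Z0 (ZMod n)) (Z0 (Fin 3)) g := rfl
    rw [h1, alt_of_restrict_sum (0 : Fin 3) g, map_sum, map_sum]
    refine Finset.sum_eq_zero fun a _ => ?_
    rw [map_smul, map_smul, LinearMap.inr_apply, c1, smul_zero]
  rw [hf, hg]
  simp

/-- the functional `2 c_0 + c_1` -/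
noncomputable def alt_of_restrict_th1 (n : ℕ) [NeZero n] : UU n →ₗ[ℂ] ℂ :=
  ((2 : ℂ) • LinearMap.proj (0 : Fin 3) + LinearMap.proj (1 : Fin 3)) ∘ₗ
    ((Z0 (Fin 3)).subtype ∘ₗ LinearMap.snd ℂ _ _)

/-- the functional `c_1` -/
noncomputable def alt_of_restrict_th2 (n : ℕ) [NeZero n] : UU n →ₗ[ℂ] ℂ :=
  (LinearMap.proj (1 : Fin 3)) ∘ₗ ((Z0 (Fin 3)).subtype ∘ₗ LinearMap.snd ℂ _ _)

theorem alt_of_restrict_th1_apply {n : ℕ} [NeZero n] (u : UU n) :
    alt_of_restrict_th1 n u = 2 * u.2.1 0 + u.2.1 1 := by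
  simp [alt_of_restrict_th1]

theorem alt_of_restrict_th2_apply {n : ℕ} [NeZero n] (u : UU n) :
    alt_of_restrict_th2 n u = u.2.1 1 := by
  simp [alt_of_restrict_th2]

theorem alt_of_restrict_th1_0 {n : ℕ} [NeZero n] (ω : ZMod n) (a : ZMod n) :
    alt_of_restrict_th1 n (node ω (a, 0)) = 1 := by
  rw [alt_of_restrict_th1_apply]
  simp [node, dif, Pi.single_apply]
  norm_num

theorem alt_of_restrict_th1_1 {n : ℕ} [NeZero n] (ω : ZMod n) (a : ZMod n) :
    alt_of_restrict_th1 n (node ω (a, 1)) = 1 := by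
  rw [alt_of_restrict_th1_apply]
  simp [node, dif, Pi.single_apply]

theorem alt_of_restrict_th1_2 {n : ℕ} [NeZero n] (ω : ZMod n) (a : ZMod n) :
    alt_of_restrict_th1 n (node ω (a, 2)) = -2 := by
  rw [alt_of_restrict_th1_apply]
  simp [node, dif, Pi.single_apply]

theorem alt_of_restrict_th2_0 {n : ℕ} [NeZero n] (ω : ZMod n) (a : ZMod n) :
    alt_of_restrict_th2 n (node ω (a, 0)) = -1 := by
  rw [alt_of_restrict_th2_apply]
  simp [node, dif, Pi.single_apply]

theorem alt_of_restrict_th2_1 {n : ℕ} [NeZero n] (ω : ZMod n) (a : ZMod n) :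
    alt_of_restrict_th2 n (node ω (a, 1)) = 1 := by
  rw [alt_of_restrict_th2_apply]
  simp [node, dif, Pi.single_apply]

/-- the triangle `up a` -/
theorem alt_of_restrict_up {n : ℕ} [NeZero n] (ω : ZMod n) (hω : ω ^ 2 + ω + 1 = 0)
    (a : ZMod n) : node ω (a, 0) + node ω (a + 1, 1) + node ω (a + 1 + ω, 2) = 0 := by
  have h1 : a + 1 + ω + ω ^ 2 = a := by linear_combination hω
  apply Prod.ext
  · change dif (a + ω ^ 0) a + dif (a + 1 + ω ^ 1) (a + 1) + dif (a + 1 + ω + ω ^ 2) (a + 1 + ω) = 0
    rw [h1, pow_zero, pow_one]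
    rw [add_comm (dif (a + 1) a), alt_of_restrict_dif_add, alt_of_restrict_dif_add,
      alt_of_restrict_dif_self]
  · change dif 0 1 + dif 1 2 + dif 2 0 = 0
    rw [alt_of_restrict_dif_add, alt_of_restrict_dif_add, alt_of_restrict_dif_self]

/-- the triangle `dn a` -/
theorem alt_of_restrict_dn {n : ℕ} [NeZero n] (ω : ZMod n) (hω : ω ^ 2 + ω + 1 = 0)
    (a : ZMod n) : node ω (a + ω, 0) + node ω (a, 1) + node ω (a + 1 + ω, 2) = 0 := by
  have h1 : a + 1 + ω + ω ^ 2 = a := by linear_combination hω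
  have h2 : a + ω + 1 = a + 1 + ω := by ring
  apply Prod.ext
  · change dif (a + ω + ω ^ 0) (a + ω) + dif (a + ω ^ 1) a + dif (a + 1 + ω + ω ^ 2) (a + 1 + ω) = 0
    rw [h1, pow_zero, pow_one, h2, alt_of_restrict_dif_add, alt_of_restrict_dif_add,
      alt_of_restrict_dif_self]
  · change dif 0 1 + dif 1 2 + dif 2 0 = 0
    rw [alt_of_restrict_dif_add, alt_of_restrict_dif_add, alt_of_restrict_dif_self]

/-- the differences of the first two nodes of the triangles -/
def alt_of_restrict_T {n : ℕ} [NeZero n] (ω : ZMod n) : Set (UU n) :=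
  {z | ∃ a, z = node ω (a, 0) - node ω (a + 1, 1) ∨ z = node ω (a + ω, 0) - node ω (a, 1)}

/-- they span the kernel of `θ1` -/
theorem alt_of_restrict_span {n : ℕ} [Fact n.Prime] (ω : ZMod n) (hω : ω ^ 2 + ω + 1 = 0) :
    LinearMap.ker (alt_of_restrict_th1 n) ≤ Submodule.span ℂ (alt_of_restrict_T ω) := by
  intro v hv
  by_contra hne
  obtain ⟨μ, hμ1, hμ2⟩ := Submodule.exists_dual_map_eq_bot_of_notMem hne inferInstance
  have hμ : ∀ z ∈ alt_of_restrict_T ω, μ z = 0 := by
    intro z hz
    have h1 : μ z ∈ (Submodule.span ℂ (alt_of_restrict_T ω)).map μ :=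
      Submodule.mem_map_of_mem (Submodule.subset_span hz)
    rw [hμ2] at h1
    simpa using h1
  have hup : ∀ a, μ (node ω (a, 0)) = μ (node ω (a + 1, 1)) := by
    intro a
    have h1 := hμ _ ⟨a, Or.inl rfl⟩
    rw [map_sub] at h1
    exact sub_eq_zero.1 h1
  have hdn : ∀ a, μ (node ω (a + ω, 0)) = μ (node ω (a, 1)) := by
    intro a
    have h1 := hμ _ ⟨a, Or.inr rfl⟩
    rw [map_sub] at h1
    exact sub_eq_zero.1 h1
  have hsh : ∀ a, μ (node ω (a + (1 + ω), 0)) = μ (node ω (a, 0)) := by
    intro a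
    rw [hup a, ← hdn (a + 1), add_assoc]
  have hne1 : (1 + ω : ZMod n) ≠ 0 := by
    intro h1
    have h2 : ω ^ 2 = 0 := by linear_combination hω - h1
    have h3 : ω = 0 := pow_eq_zero_iff (two_ne_zero) |>.1 h2
    rw [h3] at h1
    simp at h1
  have hm : ∀ (m : ℕ) (a : ZMod n), μ (node ω (a + (m : ZMod n) * (1 + ω), 0)) =
      μ (node ω (a, 0)) := by
    intro m a
    induction m with
    | zero => simp
    | succ m ih =>
      have h1 := hsh (a + (m : ZMod n) * (1 + ω))
      rw [ih] at h1
      rw [← h1]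
      congr 2
      push_cast
      ring_nf
  have hp : ∀ a, μ (node ω (a, 0)) = μ (node ω (0, 0)) := by
    intro a
    have h1 := hm (a / (1 + ω)).val 0
    have h2 : (0 : ZMod n) + (((a / (1 + ω)).val : ℕ) : ZMod n) * (1 + ω) = a := by
      rw [ZMod.natCast_zmod_val, zero_add, div_mul_cancel₀ _ hne1]
    rw [h2] at h1
    exact h1
  have hq : ∀ a, μ (node ω (a, 1)) = μ (node ω (0, 0)) := by
    intro a
    rw [← hdn a, hp]
  have hr : ∀ a, μ (node ω (a, 2)) = -2 * μ (node ω (0, 0)) := by
    intro a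
    have h1 := alt_of_restrict_up ω hω (a - 1 - ω)
    have h2 : a - 1 - ω + 1 + ω = a := by ring
    rw [h2] at h1
    have h3 := congrArg μ h1
    rw [map_add, map_add, map_zero, hp, hq] at h3
    linear_combination h3
  have hz : μ - μ (node ω (0, 0)) • alt_of_restrict_th1 n = 0 := by
    apply alt_of_restrict_nodes ω
    rintro ⟨a, i⟩
    fin_cases i
    · change (μ - μ (node ω (0, 0)) • alt_of_restrict_th1 n) (node ω (a, 0)) = 0
      rw [LinearMap.sub_apply, LinearMap.smul_apply, alt_of_restrict_th1_0, hp]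
      simp
    · change (μ - μ (node ω (0, 0)) • alt_of_restrict_th1 n) (node ω (a, 1)) = 0
      rw [LinearMap.sub_apply, LinearMap.smul_apply, alt_of_restrict_th1_1, hq]
      simp
    · change (μ - μ (node ω (0, 0)) • alt_of_restrict_th1 n) (node ω (a, 2)) = 0
      rw [LinearMap.sub_apply, LinearMap.smul_apply, alt_of_restrict_th1_2, hr]
      simp only [smul_eq_mul]
      ring
  apply hμ1
  have h1 := congrArg (fun f => f v) hz
  simp only [LinearMap.sub_apply, LinearMap.smul_apply, LinearMap.zero_apply] at h1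
  rw [LinearMap.mem_ker.1 hv, smul_zero, sub_zero] at h1
  exact h1

end alt_of_restrict_aux

theorem alt_of_restrict {n : ℕ} [Fact n.Prime] (ω : ZMod n) (hω : ω ^ 2 + ω + 1 = 0)
    (k : ℕ) (B : UU n →ₗ[ℂ] (UU n) [⋀^Fin (k+1)]→ₗ[ℂ] ℂ) (hB : B ∈ Ktil ω k)
    (h : ∀ x : Z0 (ZMod n), ∀ y : Fin k → Z0 (ZMod n),
      B (x, 0) (Matrix.vecCons (x, 0) (fun i => (y i, 0))) = 0) :
    ∀ u : UU n, ∀ y : Fin k → UU n, B u (Matrix.vecCons u y) = 0 := by
  -- the quadratic form vanishes on the planes of the triangles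
  have hnode : ∀ e, ∀ x : Fin k → UU n, alt_of_restrict_bil B x (node ω e) (node ω e) = 0 :=
    fun e x => hB e x
  have htri : ∀ e0 e1 e2, node ω e0 + node ω e1 + node ω e2 = 0 → ∀ x : Fin k → UU n,
      B (node ω e0 - node ω e1) (Matrix.vecCons (node ω e0 - node ω e1) x) = 0 := by
    intro e0 e1 e2 h1 x
    change alt_of_restrict_bil B x (node ω e0 - node ω e1) (node ω e0 - node ω e1) = 0
    have q0 := hnode e0 x
    have q1 := hnode e1 x
    have q2 := hnode e2 x
    have h2 : node ω e2 = - (node ω e0 + node ω e1) := by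
      rw [eq_neg_iff_add_eq_zero, add_comm]
      exact h1
    rw [h2] at q2
    simp only [map_neg, LinearMap.neg_apply, neg_neg, map_add, LinearMap.add_apply, q0, q1] at q2
    simp only [map_sub, LinearMap.sub_apply, q0, q1]
    linear_combination - q2
  have hTH : alt_of_restrict_T ω ⊆ (LinearMap.ker (alt_of_restrict_th1 n) : Set (UU n)) := by
    rintro z ⟨a, rfl | rfl⟩
    · rw [SetLike.mem_coe, LinearMap.mem_ker, map_sub, alt_of_restrict_th1_0,
        alt_of_restrict_th1_1, sub_self]
    · rw [SetLike.mem_coe, LinearMap.mem_ker, map_sub, alt_of_restrict_th1_0,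
        alt_of_restrict_th1_1, sub_self]
  have hzero : ∀ u : UU n, alt_of_restrict_th1 n u = 0 → alt_of_restrict_th2 n u = 0 →
      u = (u.1, 0) := by
    intro u h1 h2
    rw [alt_of_restrict_th1_apply] at h1
    rw [alt_of_restrict_th2_apply] at h2
    rw [h2, add_zero] at h1
    have h3 : u.2.1 0 = 0 := by
      rcases mul_eq_zero.1 h1 with h | h
      · norm_num at h
      · exact h
    have h4 := (mem_Z0 u.2.1).1 u.2.2
    rw [Fin.sum_univ_three, h3, h2, zero_add, zero_add] at h4
    refine Prod.ext (by rfl) ?_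
    apply Subtype.ext
    funext i
    fin_cases i
    · exact h3
    · exact h2
    · exact h4
  have first : ∀ u ∈ LinearMap.ker (alt_of_restrict_th1 n), ∀ x : Fin k → UU n,
      (∀ i, x i ∈ LinearMap.ker (alt_of_restrict_th1 n)) → B u (Matrix.vecCons u x) = 0 := by
    refine alt_of_restrict_P B (LinearMap.ker (alt_of_restrict_th1 n)) (alt_of_restrict_th2 n)
      (alt_of_restrict_T ω) hTH (alt_of_restrict_span ω hω) ?_ ?_ ?_
    · rintro z ⟨a, rfl | rfl⟩ x _
      · exact htri _ _ _ (alt_of_restrict_up ω hω a) x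
      · exact htri _ _ _ (alt_of_restrict_dn ω hω a) x
    · rintro z ⟨a, rfl | rfl⟩
      · rw [map_sub, alt_of_restrict_th2_0, alt_of_restrict_th2_1]
        norm_num
      · rw [map_sub, alt_of_restrict_th2_0, alt_of_restrict_th2_1]
        norm_num
    · intro u hu hu2 x hx hx2
      have h1 := hzero u (LinearMap.mem_ker.1 hu) hu2
      have h2 : x = fun i => ((x i).1, 0) := by
        funext i
        exact hzero (x i) (LinearMap.mem_ker.1 (hx i)) (hx2 i)
      have h3 := h u.1 (fun i => (x i).1)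
      rw [← h1] at h3
      rw [h2]
      exact h3
  have hspan : (⊤ : Submodule ℂ (UU n)) ≤ Submodule.span ℂ (Set.range (node ω)) := by
    intro v _
    by_contra hne
    obtain ⟨μ, hμ1, hμ2⟩ := Submodule.exists_dual_map_eq_bot_of_notMem hne inferInstance
    apply hμ1
    have h1 : μ = 0 := by
      apply alt_of_restrict_nodes ω
      intro e
      have h1 : μ (node ω e) ∈ (Submodule.span ℂ (Set.range (node ω))).map μ :=
        Submodule.mem_map_of_mem (Submodule.subset_span ⟨e, rfl⟩)
      rw [hμ2] at h1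
      simpa using h1
    rw [h1]
    rfl
  intro u y
  refine alt_of_restrict_P B ⊤ (alt_of_restrict_th1 n) (Set.range (node ω))
    (fun _ _ => Submodule.mem_top) hspan ?_ ?_ ?_ u Submodule.mem_top y
    (fun _ => Submodule.mem_top)
  · rintro z ⟨e, rfl⟩ x _
    exact hB e x
  · rintro z ⟨⟨a, i⟩, rfl⟩
    fin_cases i
    · change alt_of_restrict_th1 n (node ω (a, 0)) ≠ 0
      rw [alt_of_restrict_th1_0]
      norm_num
    · change alt_of_restrict_th1 n (node ω (a, 1)) ≠ 0
      rw [alt_of_restrict_th1_1]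
      norm_num
    · change alt_of_restrict_th1 n (node ω (a, 2)) ≠ 0
      rw [alt_of_restrict_th1_2]
      norm_num
  · intro u _ hu x _ hx
    exact first u (LinearMap.mem_ker.2 hu) x (fun i => LinearMap.mem_ker.2 (hx i))

end H475

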