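import Pool.Agent.Helper475.Base

open scoped BigOperators

namespace H475
open Module

theorem char_basis_finrank (N : ℕ) [NeZero N] : finrank ℂ (Z0 (ZMod N)) = N - 1 := by
  have hsurj : Function.Surjective (sumL (ZMod N)) := by
    intro c
    refine ⟨Pi.single 0 c, ?_⟩
    simp [sumL]
  have h1 := LinearMap.finrank_range_add_finrank_ker (sumL (ZMod N))
  rw [LinearMap.range_eq_top.2 hsurj, finrank_top, finrank_self, finrank_fintype_fun_eq_card, ZMod.card] at h1
  change finrank ℂ (LinearMap.ker (sumL (ZMod N))) = N - 1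
  omega

theorem char_basis (N : ℕ) [NeZero N] (ζ : ℂ) (hζ : IsPrimitiveRoot ζ N) :
    ∃ f : Basis {j : ZMod N // j ≠ 0} ℂ (Z0 (ZMod N)),
      ∀ j a, (f j : ZMod N → ℂ) a = ζ ^ ((j : ZMod N) * a).val := by
  classical
  set ψ : AddChar (ZMod N) ℂ := AddChar.zmodChar N hζ.pow_eq_one with hψ
  have hprim : ψ.IsPrimitive := AddChar.zmodChar_primitive_of_primitive_root N hζ
  have hinj : Function.Injective ψ.mulShift := AddChar.to_mulShift_inj_of_isPrimitive hprim
  have happ : ∀ j a : ZMod N, ψ.mulShift j a = ζ ^ (j * a).val := by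
    intro j a
    rw [AddChar.mulShift_apply, hψ, AddChar.zmodChar_apply]
  have hmem : ∀ j : {j : ZMod N // j ≠ 0}, (fun a => ψ.mulShift j a) ∈ Z0 (ZMod N) := by
    intro j
    rw [mem_Z0]
    refine AddChar.sum_eq_zero_of_ne_one ?_
    exact hprim j.2
  let v : {j : ZMod N // j ≠ 0} → Z0 (ZMod N) := fun j => ⟨fun a => ψ.mulShift j a, hmem j⟩
  have hli : LinearIndependent ℂ v := by
    have h1 : LinearIndependent ℂ (fun φ : AddChar (ZMod N) ℂ => (φ : ZMod N → ℂ)) :=
      AddChar.linearIndependent _ _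
    have h2 : LinearIndependent ℂ (fun j : {j : ZMod N // j ≠ 0} => ((ψ.mulShift (j : ZMod N) : AddChar (ZMod N) ℂ) : ZMod N → ℂ)) :=
      h1.comp (fun j : {j : ZMod N // j ≠ 0} => ψ.mulShift (j : ZMod N)) (hinj.comp Subtype.val_injective)
    exact LinearIndependent.of_comp (Z0 (ZMod N)).subtype h2
  have hcard : Fintype.card {j : ZMod N // j ≠ 0} = finrank ℂ (Z0 (ZMod N)) := by
    rw [char_basis_finrank, Fintype.card_subtype_compl, ZMod.card, Fintype.card_subtype_eq]
  haveI : Nonempty {j : ZMod N // j ≠ 0} ∨ IsEmpty {j : ZMod N // j ≠ 0} := (isEmpty_or_nonempty _).symm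
  rcases this with hne | hem
  · refine ⟨basisOfLinearIndependentOfCardEqFinrank hli hcard, fun j a => ?_⟩
    rw [coe_basisOfLinearIndependentOfCardEqFinrank]
    exact happ j a
  · have h0 : finrank ℂ (Z0 (ZMod N)) = 0 := by rw [← hcard, Fintype.card_eq_zero]
    haveI : Subsingleton (Z0 (ZMod N)) := finrank_zero_iff.1 h0
    exact ⟨Basis.empty _, fun j => (hem.false j).elim⟩

end H475
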