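import Pool.Agent.Helper475.Base

open scoped BigOperators

namespace H475
open Module

theorem curryLeft_mem_Wsp {M : Type} [AddCommGroup M] [Module ℂ M] (k : ℕ)
    (A : M [⋀^Fin (k+2)]→ₗ[ℂ] ℂ) (hA : A.curryLeft ∈ Wsp M k) : A = 0 := by
  have h1 : AlternatingMap.alternatizeUncurryFin A.curryLeft = 0 := by
    ext x
    rw [AlternatingMap.alternatizeUncurryFin_apply, AlternatingMap.zero_apply]
    refine Eq.trans (Finset.sum_congr rfl fun i _ => ?_) (hA x)
    rw [zsmul_eq_mul]; push_cast; rfl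
  rw [AlternatingMap.alternatizeUncurryFin_curryLeft] at h1
  have h2 : ((k + 1 + 1 : ℕ) : ℂ) • A = 0 := by
    rw [Nat.cast_smul_eq_nsmul]
    exact_mod_cast h1
  rcases smul_eq_zero.1 h2 with h3 | h3
  · exact absurd h3 (Nat.cast_ne_zero.2 (by omega))
  · exact h3

end H475
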