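import Pool.Agent.Helper475.Base

open scoped BigOperators

namespace H475
open Module

theorem exists_Inj_many {M J : Type} [AddCommGroup M] [Module ℂ M] [FiniteDimensional ℂ M]
    [Fintype J] {r : ℕ} (K : Submodule ℂ (MultilinearMap ℂ (fun _ : Fin r => M) ℂ))
    (b : Basis J ℂ M) (A : Set (Fin r → J)) (N : ℕ)
    (KA : Submodule ℂ (MultilinearMap ℂ (fun _ : Fin r => M) ℂ))
    (hKA : ∀ τ, τ ∈ KA ↔ τ ∈ K ∧ ∀ y ∈ A, τ (fun m => b (y m)) = 0)
    (hN : N + finrank ℂ KA ≤ finrank ℂ K) :
    ∃ y : Fin (finrank ℂ K) → Fin r → J, Inj K b y ∧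
      ∃ S : Finset (Fin (finrank ℂ K)), N ≤ S.card ∧ ∀ i ∈ S, y i ∈ A := by
  classical
  let lin : (Fin r → J) → (MultilinearMap ℂ (fun _ : Fin r => M) ℂ →ₗ[ℂ] ℂ) := fun y =>
    { toFun := fun τ => τ (fun m => b (y m))
      map_add' := fun _ _ => rfl
      map_smul' := fun _ _ => rfl }
  let ev : (Fin r → J) → Module.Dual ℂ K := fun y => (lin y).comp K.subtype
  have hev : ∀ (y : Fin r → J) (τ : K), ev y τ = (τ : MultilinearMap ℂ (fun _ : Fin r => M) ℂ)
      (fun m => b (y m)) := fun _ _ => rfl
  have hcard : ∀ T : Set (Fin r → J), LinearIndepOn ℂ ev T →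
      finrank ℂ (Submodule.span ℂ (ev '' T)) = Fintype.card T := by
    intro T hT
    have h1 := finrank_span_eq_card (R := ℂ) (b := fun t : T => ev t) hT
    rw [← h1, Set.image_eq_range]
  have hfin : ∀ B : Set (Fin r → J), finrank ℂ (Submodule.span ℂ (ev '' B)) +
      finrank ℂ (Submodule.span ℂ (ev '' B)).dualCoannihilator = finrank ℂ K := fun B =>
    Subspace.finrank_add_finrank_dualCoannihilator_eq _
  have hcoann : ∀ (B : Set (Fin r → J)) (τ : K),
      τ ∈ (Submodule.span ℂ (ev '' B)).dualCoannihilator ↔ ∀ y ∈ B, ev y τ = 0 := by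
    intro B τ
    rw [Submodule.mem_dualCoannihilator]
    constructor
    · intro h y hy
      exact h _ (Submodule.subset_span ⟨y, hy, rfl⟩)
    · intro h φ hφ
      induction hφ using Submodule.span_induction with
      | mem x hx => obtain ⟨y, hy, rfl⟩ := hx; exact h y hy
      | zero => rfl
      | add x z _ _ hx hz => rw [LinearMap.add_apply, hx, hz, add_zero]
      | smul c x _ hx => rw [LinearMap.smul_apply, hx, smul_zero]
  obtain ⟨T, hTA, -, hAT, hT⟩ := exists_linearIndepOn_extension (K := ℂ) (v := ev)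
    (linearIndepOn_empty ℂ ev) (Set.empty_subset A)
  obtain ⟨T', -, hTT', hUT', hT'⟩ := exists_linearIndepOn_extension (K := ℂ) (v := ev)
    hT (Set.subset_univ T)
  have hinj : ∀ τ : K, (∀ y ∈ T', ev y τ = 0) → τ = 0 := by
    intro τ h
    have h1 : ∀ y, ev y τ = 0 := by
      intro y
      have h2 : ev y ∈ Submodule.span ℂ (ev '' T') := hUT' ⟨y, Set.mem_univ _, rfl⟩
      have h3 := (hcoann T' τ).2 h
      rw [Submodule.mem_dualCoannihilator] at h3
      exact h3 _ h2
    apply Subtype.ext
    refine Module.Basis.ext_multilinear (fun _ => b) ?_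
    intro v
    exact h1 v
  have hcardT' : Fintype.card T' = finrank ℂ K := by
    rw [← hcard T' hT', ← hfin T']
    have h1 : (Submodule.span ℂ (ev '' T')).dualCoannihilator = ⊥ := by
      rw [Submodule.eq_bot_iff]
      intro τ hτ
      exact hinj τ ((hcoann T' τ).1 hτ)
    rw [h1, finrank_bot, add_zero]
  have hKAK : KA ≤ K := fun τ hτ => ((hKA τ).1 hτ).1
  have hKAfin : finrank ℂ (Submodule.span ℂ (ev '' A)).dualCoannihilator = finrank ℂ KA := by
    have h1 : (Submodule.span ℂ (ev '' A)).dualCoannihilator = KA.comap K.subtype := by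
      ext τ
      rw [hcoann, Submodule.mem_comap, hKA]
      constructor
      · intro h
        exact ⟨τ.2, fun y hy => h y hy⟩
      · intro h y hy
        exact h.2 y hy
    rw [h1]
    exact LinearEquiv.finrank_eq (Submodule.comapSubtypeEquivOfLe hKAK)
  have hcardT : N ≤ Fintype.card T := by
    rw [← hcard T hT]
    have h1 : Submodule.span ℂ (ev '' T) = Submodule.span ℂ (ev '' A) := by
      apply le_antisymm
      · exact Submodule.span_mono (Set.image_mono hTA)
      · exact Submodule.span_le.2 hAT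
    rw [h1]
    have h2 := hfin A
    rw [hKAfin] at h2
    omega
  let e : Fin (finrank ℂ K) ≃ T' := (Fintype.equivFinOfCardEq hcardT').symm
  refine ⟨fun i => (e i : Fin r → J), ?_, Finset.univ.filter (fun i => (e i : Fin r → J) ∈ T), ?_, ?_⟩
  · intro τ hτ h
    have h1 := hinj ⟨τ, hτ⟩ (by
      intro y hy
      have h2 := h (e.symm ⟨y, hy⟩)
      show τ (fun m => b (y m)) = 0
      simpa only [Equiv.apply_symm_apply] using h2)
    exact congrArg Subtype.val h1
  · refine hcardT.trans ?_
    rw [← Set.toFinset_card]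
    have h1 : T.toFinset ⊆ (Finset.univ.filter (fun i => (e i : Fin r → J) ∈ T)).image
        (fun i => (e i : Fin r → J)) := by
      intro y hy
      have hy' : y ∈ T := Set.mem_toFinset.1 hy
      rw [Finset.mem_image]
      refine ⟨e.symm ⟨y, hTT' hy'⟩, ?_, ?_⟩
      · rw [Finset.mem_filter]
        refine ⟨Finset.mem_univ _, ?_⟩
        rw [Equiv.apply_symm_apply]
        exact hy'
      · rw [Equiv.apply_symm_apply]
    exact (Finset.card_le_card h1).trans Finset.card_image_le
  · intro i hi
    rw [Finset.mem_filter] at hi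
    exact hTA hi.2

end H475
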