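import Pool.Agent.Helper475.Base
import Pool.Agent.Helper475.ExistsInjMany

open scoped BigOperators

namespace H475
open Module



theorem Dact_mem_of_const_apply {M : Type} [AddCommGroup M] [Module ℂ M] {r : ℕ} (ξ : M →ₗ[ℂ] M)
    (τ : MultilinearMap ℂ (fun _ : Fin r => M) ℂ) (x : Fin r → M) :
    Dact ξ τ x = ∑ m : Fin r, τ (Function.update x m (ξ (x m))) := by
  unfold Dact
  rw [MultilinearMap.sum_apply]
  refine Finset.sum_congr rfl fun m _ => ?_
  rw [MultilinearMap.compLinearMap_apply]
  congr 1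
  funext i
  by_cases h : i = m
  · subst h
    simp
  · simp [h]

theorem Dact_mem_of_const_sum {M : Type} [AddCommGroup M] [Module ℂ M] {r d : ℕ} (ξ : M →ₗ[ℂ] M)
    (c : Fin d → ℂ) (τ : Fin d → MultilinearMap ℂ (fun _ : Fin r => M) ℂ) :
    Dact ξ (∑ i, c i • τ i) = ∑ i, c i • Dact ξ (τ i) := by
  ext x
  rw [Dact_mem_of_const_apply, MultilinearMap.sum_apply]
  simp only [MultilinearMap.sum_apply, MultilinearMap.smul_apply, Dact_mem_of_const_apply,
    smul_eq_mul, Finset.mul_sum]
  rw [Finset.sum_comm]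

theorem Dact_mem_of_const_basis {M J : Type} [AddCommGroup M] [Module ℂ M] {r : ℕ}
    (b : Basis J ℂ M) (w : J → ℝ) (ξ : M →ₗ[ℂ] M) (hξ : ∀ j, ξ (b j) = (w j : ℂ) • b j)
    (τ : MultilinearMap ℂ (fun _ : Fin r => M) ℂ) (z : Fin r → J) :
    Dact ξ τ (fun m => b (z m)) = ((∑ m, w (z m) : ℝ) : ℂ) * τ (fun m => b (z m)) := by
  rw [Dact_mem_of_const_apply, Complex.ofReal_sum, Finset.sum_mul]
  refine Finset.sum_congr rfl fun m _ => ?_
  rw [hξ, MultilinearMap.map_update_smul, smul_eq_mul]
  congr 2
  exact Function.update_eq_self m (fun m => b (z m))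

theorem Dact_mem_of_const {M J : Type} [AddCommGroup M] [Module ℂ M] [FiniteDimensional ℂ M]
    [Fintype J] {r : ℕ} (K : Submodule ℂ (MultilinearMap ℂ (fun _ : Fin r => M) ℂ))
    (b : Basis J ℂ M) (w : J → ℝ)
    (h : ∀ y : Fin (finrank ℂ K) → Fin r → J, Inj K b y → ∑ i, ∑ m, w (y i m) = 0)
    (ξ : M →ₗ[ℂ] M) (hξ : ∀ j, ξ (b j) = (w j : ℂ) • b j) :
    ∀ τ ∈ K, Dact ξ τ ∈ K := by
  classical
  obtain ⟨y0, hy0, -⟩ := exists_Inj_many K b ∅ 0 K (by simp) (by simp)
  haveI : FiniteDimensional ℂ (MultilinearMap ℂ (fun _ : Fin r => M) ℂ) := inferInstance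
  -- the evaluation map
  let E : K →ₗ[ℂ] (Fin (finrank ℂ K) → ℂ) :=
    { toFun := fun τ i => τ.1 (fun m => b (y0 i m))
      map_add' := fun _ _ => rfl
      map_smul' := fun _ _ => rfl }
  have hE : Function.Injective E := by
    rw [injective_iff_map_eq_zero]
    intro τ hτ
    apply Subtype.ext
    exact hy0 τ.1 τ.2 fun i => congrFun hτ i
  let e : K ≃ₗ[ℂ] (Fin (finrank ℂ K) → ℂ) :=
    LinearMap.linearEquivOfInjective E hE (by rw [Module.finrank_fintype_fun_eq_card, Fintype.card_fin])
  have he : ∀ (τ : K) (i), e τ i = τ.1 (fun m => b (y0 i m)) := fun τ i => rfl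
  let t : Fin (finrank ℂ K) → K := fun i => e.symm (Pi.single i 1)
  have hspan : ∀ τ : K, τ = ∑ i, (τ.1 (fun m => b (y0 i m))) • t i := by
    intro τ
    apply e.injective
    rw [map_sum]
    have : ∀ i, e ((τ.1 (fun m => b (y0 i m))) • t i) =
        (τ.1 (fun m => b (y0 i m))) • (Pi.single i 1 : Fin (finrank ℂ K) → ℂ) := by
      intro i
      rw [map_smul]
      congr 1
      exact e.apply_symm_apply _
    rw [Finset.sum_congr rfl fun i _ => this i]
    funext j
    rw [he, Finset.sum_apply, Finset.sum_eq_single j]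
    · simp
    · intro i _ hij
      simp [Pi.single_apply, Ne.symm hij]
    · intro hj
      exact absurd (Finset.mem_univ j) hj
  -- the key claim
  have hclaim : ∀ (i) (z : Fin r → J), (t i).1 (fun m => b (z m)) ≠ 0 →
      ∑ m, w (z m) = ∑ m, w (y0 i m) := by
    intro i z hz
    have hy1 : Inj K b (Function.update y0 i z) := by
      intro τ hτ hv
      have h1 : ∀ j, j ≠ i → τ (fun m => b (y0 j m)) = 0 := by
        intro j hj
        have := hv j
        rwa [Function.update_of_ne hj] at this
      have h2 : τ (fun m => b (z m)) = 0 := by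
        have := hv i
        rwa [Function.update_self] at this
      have h3 := hspan ⟨τ, hτ⟩
      rw [Finset.sum_eq_single i] at h3
      · have h4 : τ = (τ (fun m => b (y0 i m))) • (t i).1 := congrArg Subtype.val h3
        have h5 : τ (fun m => b (y0 i m)) * (t i).1 (fun m => b (z m)) = 0 := by
          have h6 := congrArg (fun f => f (fun m => b (z m))) h4
          simp only [MultilinearMap.smul_apply, smul_eq_mul] at h6
          rw [← h6, h2]
        have h7 : τ (fun m => b (y0 i m)) = 0 := by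
          rcases mul_eq_zero.1 h5 with h | h
          · exact h
          · exact absurd h hz
        rw [h4, h7, zero_smul]
      · intro j _ hj
        change (τ (fun m => b (y0 j m))) • t j = 0
        rw [h1 j hj, zero_smul]
      · intro hi
        exact absurd (Finset.mem_univ i) hi
    have g0 := h y0 hy0
    have g1 := h _ hy1
    have g2 : (fun j => ∑ m, w (Function.update y0 i z j m)) =
        Function.update (fun j => ∑ m, w (y0 j m)) i (∑ m, w (z m)) := by
      funext j
      by_cases hj : j = i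
      · subst hj
        simp
      · rw [Function.update_of_ne hj, Function.update_of_ne hj]
    rw [g2, Finset.sum_update_of_mem (Finset.mem_univ i)] at g1
    rw [← Finset.add_sum_erase _ _ (Finset.mem_univ i)] at g0
    rw [Finset.sdiff_singleton_eq_erase] at g1
    linarith
  -- the dual basis consists of eigenvectors
  have heig : ∀ i, Dact ξ (t i).1 = ((∑ m, w (y0 i m) : ℝ) : ℂ) • (t i).1 := by
    intro i
    refine Basis.ext_multilinear (fun _ => b) fun z => ?_
    rw [Dact_mem_of_const_basis b w ξ hξ, MultilinearMap.smul_apply, smul_eq_mul]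
    by_cases hz : (t i).1 (fun m => b (z m)) = 0
    · rw [hz, mul_zero, mul_zero]
    · rw [hclaim i z hz]
  intro τ hτ
  have h1 := congrArg Subtype.val (hspan ⟨τ, hτ⟩)
  have h2 : τ = ∑ i, (τ (fun m => b (y0 i m))) • (t i).1 := by
    have h3 : ((∑ i, (τ (fun m => b (y0 i m))) • t i : K) :
        MultilinearMap ℂ (fun _ : Fin r => M) ℂ) = ∑ i, (τ (fun m => b (y0 i m))) • (t i).1 := by
      rw [Submodule.coe_sum]
      rfl
    exact h1.trans h3
  rw [h2, Dact_mem_of_const_sum]
  refine Submodule.sum_mem _ fun i _ => Submodule.smul_mem _ _ ?_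
  rw [heig]
  exact Submodule.smul_mem _ _ (t i).2

end H475
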