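import Pool.Agent.Helper475.Base

open scoped BigOperators

namespace H475
open Module

theorem decomp {M : Type} [AddCommGroup M] [Module ℂ M] (k : ℕ)
    (B : M →ₗ[ℂ] M [⋀^Fin (k+1)]→ₗ[ℂ] ℂ) :
    ∃ A : M [⋀^Fin (k+2)]→ₗ[ℂ] ℂ, B - A.curryLeft ∈ Wsp M k := by
  have hne : ((k : ℂ) + 2) ≠ 0 := by
    have : ((k + 2 : ℕ) : ℂ) ≠ 0 := Nat.cast_ne_zero.mpr (by omega)
    push_cast at this
    exact this
  refine ⟨((k : ℂ) + 2)⁻¹ • AlternatingMap.alternatizeUncurryFin B, ?_⟩
  set C : M →ₗ[ℂ] M [⋀^Fin (k+1)]→ₗ[ℂ] ℂ :=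
    B - (((k : ℂ) + 2)⁻¹ • AlternatingMap.alternatizeUncurryFin B).curryLeft with hC
  have key : AlternatingMap.alternatizeUncurryFin C = 0 := by
    have h1 : AlternatingMap.alternatizeUncurryFin C + AlternatingMap.alternatizeUncurryFin
        (((k : ℂ) + 2)⁻¹ • AlternatingMap.alternatizeUncurryFin B).curryLeft =
        AlternatingMap.alternatizeUncurryFin B := by
      rw [← AlternatingMap.alternatizeUncurryFin_add, hC, sub_add_cancel]
    rw [AlternatingMap.alternatizeUncurryFin_curryLeft] at h1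
    have h2 : (k + 1 + 1) • (((k : ℂ) + 2)⁻¹ • AlternatingMap.alternatizeUncurryFin B) =
        AlternatingMap.alternatizeUncurryFin B := by
      rw [← Nat.cast_smul_eq_nsmul ℂ, smul_smul]
      have : (((k + 1 + 1 : ℕ) : ℂ) * ((k : ℂ) + 2)⁻¹) = 1 := by
        push_cast
        field_simp
        ring
      rw [this, one_smul]
    rw [h2] at h1
    simpa using h1
  intro x
  have h3 := congrArg (fun f => f x) key
  simp only [AlternatingMap.alternatizeUncurryFin_apply, AlternatingMap.zero_apply] at h3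
  rw [← h3]
  refine Finset.sum_congr rfl fun i _ => ?_
  rw [zsmul_eq_mul]
  push_cast
  rfl

end H475
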