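import Pool.Agent.Helper475.Base

open scoped BigOperators

namespace H475
open Module

theorem exists_critical {J P : Type} [Fintype J] [Fintype P] [DecidableEq J] [DecidableEq P]
    (a : (P → J) → ℝ) (ha : ∀ r, 0 ≤ a r) (S : Submodule ℝ (J → ℝ))
    (h : ∀ w ∈ S, w ≠ 0 → ∃ r, 0 < a r ∧ ∑ p, w (r p) < 0) :
    ∃ s ∈ S, ∀ w ∈ S,
      ∑ r : P → J, a r * Real.exp (2 * ∑ p, s (r p)) * (∑ p, w (r p)) = 0 := by
  classical
  by_cases hS : ∀ w ∈ S, w = 0
  · refine ⟨0, S.zero_mem, fun w hw => ?_⟩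
    rw [hS w hw]
    simp
  push Not at hS
  obtain ⟨w0, hw0, hw0'⟩ := hS
  set R : Finset (P → J) := Finset.univ.filter (fun r => 0 < a r) with hR
  have hRne : R.Nonempty := by
    obtain ⟨r, hr, _⟩ := h w0 hw0 hw0'
    exact ⟨r, by simp [hR, hr]⟩
  have hlin : ∀ r : P → J, Continuous fun s : S => ∑ p, (s : J → ℝ) (r p) := by
    intro r
    refine continuous_finsetSum _ fun p _ => ?_
    exact (continuous_apply (r p)).comp continuous_subtype_val
  let g : S → ℝ := fun s => R.sup' hRne (fun r => ∑ p, (s : J → ℝ) (r p))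
  have hg : Continuous g := Continuous.finset_sup'_apply hRne fun r _ => hlin r
  let F : S → ℝ := fun s => ∑ r : P → J, a r * Real.exp (2 * ∑ p, (s : J → ℝ) (r p))
  have hF : Continuous F := by
    refine continuous_finsetSum _ fun r _ => ?_
    exact continuous_const.mul (Real.continuous_exp.comp (continuous_const.mul (hlin r)))
  have : Nontrivial S := ⟨⟨⟨w0, hw0⟩, 0, fun h0 => hw0' (congrArg Subtype.val h0)⟩⟩
  have hpos : ∀ s : S, s ≠ 0 → 0 < g s := by
    intro s hs
    have h1 : -(s : J → ℝ) ≠ 0 := by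
      intro h0
      apply hs
      apply Subtype.ext
      exact neg_eq_zero.1 h0
    obtain ⟨r, hr, hr'⟩ := h (-(s : J → ℝ)) (S.neg_mem s.2) h1
    have h2 : 0 < ∑ p, (s : J → ℝ) (r p) := by
      simp only [Pi.neg_apply, Finset.sum_neg_distrib] at hr'
      linarith
    refine lt_of_lt_of_le h2 ?_
    exact Finset.le_sup' (fun r : P → J => ∑ p, (s : J → ℝ) (r p)) (by simp [hR, hr])
  obtain ⟨s0, hs0, hmin⟩ := (isCompact_sphere (0 : S) 1).exists_isMinOn
    (NormedSpace.sphere_nonempty.2 zero_le_one) hg.continuousOn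
  have hs0ne : s0 ≠ 0 := by
    intro h0
    rw [h0] at hs0
    simp at hs0
  set ε := g s0 with hε
  have hεpos : 0 < ε := hpos s0 hs0ne
  have hscale : ∀ (c : ℝ) (s : S), 0 ≤ c → g (c • s) = c * g s := by
    intro c s hc
    have e1 : ∀ r : P → J, ∑ p, ((c • s : S) : J → ℝ) (r p) = c * ∑ p, (s : J → ℝ) (r p) := by
      intro r
      rw [Finset.mul_sum]
      rfl
    show R.sup' hRne (fun r => ∑ p, ((c • s : S) : J → ℝ) (r p)) =
      c * R.sup' hRne (fun r => ∑ p, (s : J → ℝ) (r p))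
    rw [Finset.mul₀_sup' hc]
    simp only [e1]
  have hge : ∀ s : S, ε * ‖s‖ ≤ g s := by
    intro s
    by_cases hs : s = 0
    · rw [hs, norm_zero, mul_zero]
      have := hscale 0 (0 : S) le_rfl
      rw [zero_smul, zero_mul] at this
      exact this.ge
    · have hn : 0 < ‖s‖ := norm_pos_iff.2 hs
      have h1 : (‖s‖⁻¹ • s) ∈ Metric.sphere (0 : S) 1 := by
        rw [mem_sphere_zero_iff_norm, norm_smul, norm_inv, norm_norm]
        exact inv_mul_cancel₀ hn.ne'
      have h2 : ε ≤ g (‖s‖⁻¹ • s) := hmin h1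
      rw [hscale _ _ (inv_nonneg.2 hn.le)] at h2
      have h3 : ‖s‖ * (‖s‖⁻¹ * g s) = g s := by
        rw [← mul_assoc, mul_inv_cancel₀ hn.ne', one_mul]
      calc ε * ‖s‖ = ‖s‖ * ε := mul_comm _ _
        _ ≤ ‖s‖ * (‖s‖⁻¹ * g s) := mul_le_mul_of_nonneg_left h2 hn.le
        _ = g s := h3
  obtain ⟨r0, hr0, hr0min⟩ := R.exists_min_image a hRne
  have hα : 0 < a r0 := by
    have := hr0
    simp only [hR, Finset.mem_filter, Finset.mem_univ, true_and] at this
    exact this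
  have hFge : ∀ s : S, a r0 * (2 * ε * ‖s‖) ≤ F s := by
    intro s
    obtain ⟨r, hr, hrs⟩ := R.exists_mem_eq_sup' hRne (fun r => ∑ p, (s : J → ℝ) (r p))
    have h1 : a r * Real.exp (2 * ∑ p, (s : J → ℝ) (r p)) ≤ F s :=
      Finset.single_le_sum (f := fun r => a r * Real.exp (2 * ∑ p, (s : J → ℝ) (r p)))
        (fun r _ => mul_nonneg (ha r) (Real.exp_pos _).le) (Finset.mem_univ r)
    have h2 : ε * ‖s‖ ≤ ∑ p, (s : J → ℝ) (r p) := (hge s).trans hrs.le
    have h3 : 2 * ε * ‖s‖ ≤ Real.exp (2 * ∑ p, (s : J → ℝ) (r p)) := by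
      have := Real.add_one_le_exp (2 * ∑ p, (s : J → ℝ) (r p))
      linarith
    refine le_trans ?_ h1
    refine mul_le_mul (hr0min r hr) h3 ?_ (ha r)
    positivity
  have htend : Filter.Tendsto F (Filter.cocompact S) Filter.atTop := by
    refine Filter.tendsto_atTop_mono hFge ?_
    refine Filter.Tendsto.const_mul_atTop hα ?_
    exact Filter.Tendsto.const_mul_atTop (by positivity) (tendsto_norm_cocompact_atTop)
  obtain ⟨s, hs⟩ := hF.exists_forall_le htend
  refine ⟨s, s.2, fun w hw => ?_⟩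
  let φ : ℝ → ℝ := fun t => ∑ r : P → J, a r *
    Real.exp (2 * (∑ p, (s : J → ℝ) (r p) + t * ∑ p, w (r p)))
  have hφF : ∀ t, φ t = F (s + t • ⟨w, hw⟩) := by
    intro t
    refine Finset.sum_congr rfl fun r _ => ?_
    congr 3
    show _ = ∑ p, ((s : J → ℝ) (r p) + t * w (r p))
    rw [Finset.sum_add_distrib, Finset.mul_sum]
  have hφ0 : φ 0 = F s := by
    rw [hφF, zero_smul, add_zero]
  have hmin' : IsLocalMin φ 0 := by
    refine Filter.Eventually.of_forall fun t => ?_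
    rw [hφ0, hφF]
    exact hs _
  have hder : HasDerivAt φ (∑ r : P → J, a r *
      (Real.exp (2 * (∑ p, (s : J → ℝ) (r p) + 0 * ∑ p, w (r p))) *
        (2 * (1 * ∑ p, w (r p))))) 0 := by
    refine HasDerivAt.fun_sum fun r _ => ?_
    refine HasDerivAt.const_mul _ ?_
    refine HasDerivAt.exp ?_
    refine HasDerivAt.const_mul _ ?_
    exact HasDerivAt.const_add _ ((hasDerivAt_id (0 : ℝ)).mul_const _)
  have h0 := hmin'.hasDerivAt_eq_zero hder
  have h1 : ∑ r : P → J, a r * (Real.exp (2 * (∑ p, (s : J → ℝ) (r p) + 0 * ∑ p, w (r p))) *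
        (2 * (1 * ∑ p, w (r p)))) =
      2 * ∑ r : P → J, a r * Real.exp (2 * ∑ p, (s : J → ℝ) (r p)) * (∑ p, w (r p)) := by
    rw [Finset.mul_sum]
    refine Finset.sum_congr rfl fun r _ => ?_
    rw [zero_mul, add_zero]
    ring
  rw [h1] at h0
  linarith

end H475
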