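import Pool.Agent.Helper475.Base

open scoped BigOperators

namespace H475
open Module

section
variable {M : Type} [AddCommGroup M] [Module ℂ M] {r d : ℕ}

/-- The matrix of the values of the forms `τ i` on the tuples `v (k, ·)`. -/
def exists_det_form_mat (τ : Fin d → MultilinearMap ℂ (fun _ : Fin r => M) ℂ)
    (v : Fin d × Fin r → M) : Matrix (Fin d) (Fin d) ℂ :=
  Matrix.of fun i k => τ i (fun m => v (k, m))

theorem exists_det_form_update (τ : Fin d → MultilinearMap ℂ (fun _ : Fin r => M) ℂ)
    (v : Fin d × Fin r → M) (p : Fin d × Fin r) (x : M) :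
    exists_det_form_mat τ (Function.update v p x) =
      (exists_det_form_mat τ v).updateCol p.1
        (fun i => τ i (Function.update (fun m => v (p.1, m)) p.2 x)) := by
  classical
  ext i k
  rw [Matrix.updateCol_apply]
  unfold exists_det_form_mat
  simp only [Matrix.of_apply]
  split_ifs with h
  · subst h
    congr 1
    funext m
    by_cases hm : m = p.2
    · subst hm
      rw [Function.update_self, Function.update_self]
    · rw [Function.update_of_ne hm, Function.update_of_ne]
      intro e
      exact hm (congrArg Prod.snd e)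
  · congr 1
    funext m
    rw [Function.update_of_ne]
    intro e
    exact h (congrArg Prod.fst e)

/-- The determinant of the matrix of values as a multilinear form. -/
noncomputable def exists_det_form_X (τ : Fin d → MultilinearMap ℂ (fun _ : Fin r => M) ℂ) :
    MultilinearMap ℂ (fun _ : Fin d × Fin r => M) ℂ where
  toFun v := (exists_det_form_mat τ v).det
  map_update_add' := by
    intro inst v p x y
    have hi : inst = (instDecidableEqProd : DecidableEq (Fin d × Fin r)) := Subsingleton.elim _ _
    subst hi
    rw [exists_det_form_update, exists_det_form_update, exists_det_form_update,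
      ← Matrix.det_updateCol_add]
    congr 2
    funext i
    rw [MultilinearMap.map_update_add, Pi.add_apply]
  map_update_smul' := by
    intro inst v p c x
    have hi : inst = (instDecidableEqProd : DecidableEq (Fin d × Fin r)) := Subsingleton.elim _ _
    subst hi
    rw [exists_det_form_update, exists_det_form_update, smul_eq_mul,
      ← Matrix.det_updateCol_smul]
    congr 2
    funext i
    rw [MultilinearMap.map_update_smul, Pi.smul_apply]

end

theorem exists_det_form {M : Type} [AddCommGroup M] [Module ℂ M] [FiniteDimensional ℂ M] {r : ℕ}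
    (K : Submodule ℂ (MultilinearMap ℂ (fun _ : Fin r => M) ℂ)) :
    ∃ X : MultilinearMap ℂ (fun _ : Fin (finrank ℂ K) × Fin r => M) ℂ,
      (∀ v : Fin (finrank ℂ K) × Fin r → M,
        X v ≠ 0 ↔ ∀ τ ∈ K, (∀ i, τ (fun m => v (i, m)) = 0) → τ = 0) ∧
      (∀ L : M →ₗ[ℂ] M, (∀ τ ∈ K, τ.compLinearMap (fun _ => L) ∈ K) →
        ∃ κ : ℂ, ∀ v, X (fun q => L (v q)) = κ * X v) := by
  classical
  have hfin : FiniteDimensional ℂ K := inferInstance
  let b := Module.finBasis ℂ K
  refine ⟨exists_det_form_X (fun i => (b i : MultilinearMap ℂ (fun _ : Fin r => M) ℂ)), ?_, ?_⟩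
  · intro v
    show (exists_det_form_mat _ v).det ≠ 0 ↔ _
    rw [Ne, ← Matrix.exists_vecMul_eq_zero_iff]
    have hval : ∀ (c : Fin (finrank ℂ K) → ℂ) (k : Fin (finrank ℂ K)),
        (Matrix.vecMul c (exists_det_form_mat
          (fun i => (b i : MultilinearMap ℂ (fun _ : Fin r => M) ℂ)) v)) k =
        ((∑ i, c i • b i : K) : MultilinearMap ℂ (fun _ : Fin r => M) ℂ)
          (fun m => v (k, m)) := by
      intro c k
      rw [Submodule.coe_sum, sum_apply]
      simp only [Matrix.vecMul, dotProduct, exists_det_form_mat, Matrix.of_apply,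
        Submodule.coe_smul, smul_apply, smul_eq_mul]
    constructor
    · intro h τ hτ hz
      by_contra hne
      apply h
      refine ⟨fun i => b.repr ⟨τ, hτ⟩ i, ?_, ?_⟩
      · intro h0
        apply hne
        have h1 : (⟨τ, hτ⟩ : K) = 0 := by
          rw [← b.sum_repr ⟨τ, hτ⟩]
          exact Finset.sum_eq_zero fun i _ => by
            rw [show b.repr ⟨τ, hτ⟩ i = 0 from congrFun h0 i, zero_smul]
        exact congrArg Subtype.val h1
      · funext k
        rw [hval, b.sum_repr ⟨τ, hτ⟩]
        exact hz k
    · rintro h ⟨c, hc, hc0⟩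
      have h1 : ((∑ i, c i • b i : K) : MultilinearMap ℂ (fun _ : Fin r => M) ℂ) = 0 := by
        refine h _ (Subtype.mem _) fun k => ?_
        rw [← hval, hc0]
        rfl
      have h2 : (∑ i, c i • b i : K) = 0 := Subtype.ext h1
      apply hc
      funext i
      exact Fintype.linearIndependent_iff.1 b.linearIndependent c h2 i
  · intro L hL
    let A : Matrix (Fin (finrank ℂ K)) (Fin (finrank ℂ K)) ℂ :=
      Matrix.of fun i j => b.repr ⟨_, hL _ (b i).2⟩ j
    refine ⟨A.det, fun v => ?_⟩
    show (exists_det_form_mat _ _).det = A.det * (exists_det_form_mat _ v).det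
    rw [← Matrix.det_mul]
    congr 1
    ext i k
    rw [Matrix.mul_apply]
    simp only [exists_det_form_mat, Matrix.of_apply, A]
    have h1 := congrArg (fun t : K => (t : MultilinearMap ℂ (fun _ : Fin r => M) ℂ)
      (fun m => v (k, m))) (b.sum_repr ⟨_, hL _ (b i).2⟩)
    simp only [Submodule.coe_sum, sum_apply, Submodule.coe_smul,
      smul_apply, smul_eq_mul, MultilinearMap.compLinearMap_apply] at h1
    exact h1.symm

end H475
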