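import Pool.Agent.Helper475.Base

open scoped BigOperators

namespace H475
open Module


theorem exists_reps_insert {X : Type} [DecidableEq X] (Adj : X → X → Prop)
    (hsymm : ∀ a b, Adj a b → Adj b a) (v : X) [DecidablePred (Adj v)] (A : Finset X) (hv : v ∉ A) (s : ℕ) :
    ncl Adj (s + 1) (insert v A) = ncl Adj (s + 1) A + ncl Adj s (A.filter (Adj v)) := by
  classical
  unfold ncl
  rw [Finset.powersetCard_succ_insert hv, Finset.filter_union, Finset.card_union_of_disjoint]
  · congr 1
    rw [Finset.filter_image, Finset.card_image_of_injOn]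
    · congr 1
      ext B
      rw [Finset.mem_filter, Finset.mem_filter, Finset.mem_powersetCard, Finset.mem_powersetCard]
      constructor
      · rintro ⟨⟨hB, hc⟩, hcl⟩
        refine ⟨⟨?_, hc⟩, ?_⟩
        · intro b hb
          rw [Finset.mem_filter]
          refine ⟨hB hb, hcl v (Finset.mem_insert_self _ _) b (Finset.mem_insert_of_mem hb) ?_⟩
          rintro rfl
          exact hv (hB hb)
        · intro a ha b hb hab
          exact hcl a (Finset.mem_insert_of_mem ha) b (Finset.mem_insert_of_mem hb) hab
      · rintro ⟨⟨hB, hc⟩, hcl⟩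
        refine ⟨⟨fun b hb => (Finset.mem_filter.mp (hB hb)).1, hc⟩, ?_⟩
        intro a ha b hb hab
        rcases Finset.mem_insert.mp ha with ha1 | ha1
        · rcases Finset.mem_insert.mp hb with hb1 | hb1
          · exact absurd (ha1.trans hb1.symm) hab
          · rw [ha1]
            exact (Finset.mem_filter.mp (hB hb1)).2
        · rcases Finset.mem_insert.mp hb with hb1 | hb1
          · rw [hb1]
            exact hsymm _ _ (Finset.mem_filter.mp (hB ha1)).2
          · exact hcl a ha1 b hb1 hab
    · intro B hB B' hB' h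
      rw [Finset.mem_coe, Finset.mem_filter, Finset.mem_powersetCard] at hB hB'
      have h1 : v ∉ B := fun h => hv (hB.1.1 h)
      have h2 : v ∉ B' := fun h => hv (hB'.1.1 h)
      rw [← Finset.erase_insert h1, ← Finset.erase_insert h2]
      exact congrArg (fun C => Finset.erase C v) h
  · rw [Finset.disjoint_left]
    intro B hB hB'
    rw [Finset.mem_filter, Finset.mem_powersetCard] at hB
    rw [Finset.mem_filter, Finset.mem_image] at hB'
    obtain ⟨⟨C, _, rfl⟩, _⟩ := hB'
    exact hv (hB.1.1 (Finset.mem_insert_self _ _))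

theorem exists_reps_one {X : Type} (Adj : X → X → Prop) (A : Finset X) :
    ncl Adj 1 A = A.card := by
  classical
  unfold ncl
  rw [Finset.filter_true_of_mem, Finset.card_powersetCard, Nat.choose_one_right]
  intro B hB
  obtain ⟨b, rfl⟩ := Finset.card_eq_one.mp (Finset.mem_powersetCard.mp hB).2
  intro a ha a' ha' hne
  rw [Finset.mem_singleton] at ha ha'
  exact absurd (ha.trans ha'.symm) hne

theorem exists_reps_two {X : Type} (Adj : X → X → Prop) (A : Finset X) (h : Cl Adj A) :
    ncl Adj 2 A = A.card.choose 2 := by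
  classical
  unfold ncl
  rw [Finset.filter_true_of_mem, Finset.card_powersetCard]
  intro B hB a ha b hb hab
  have h1 := (Finset.mem_powersetCard.mp hB).1
  exact h a (h1 ha) b (h1 hb) hab

/-- a simplicial vertex -/
theorem exists_reps_simplicial {X : Type} [DecidableEq X] (Adj : X → X → Prop)
    (hsymm : ∀ a b, Adj a b → Adj b a) (hirr : ∀ a, ¬ Adj a a)
    (hC4 : ∀ a b c d, a ≠ c → b ≠ d → Adj a b → Adj b c → Adj c d → Adj d a →
      Adj a c ∨ Adj b d)
    (A : Finset X) (hA : A.card ≤ 4) (hne : A.Nonempty) :
    ∃ v ∈ A, ∀ a ∈ A, ∀ b ∈ A, Adj v a → Adj v b → a ≠ b → Adj a b := by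
  classical
  obtain ⟨v, hv, hmin⟩ := Finset.exists_min_image A (fun v => (A.filter (Adj v)).card) hne
  refine ⟨v, hv, ?_⟩
  intro a ha b hb hva hvb hab
  by_contra hnab
  have hva' : v ≠ a := fun h => hirr a (h ▸ hva)
  have hvb' : v ≠ b := fun h => hirr b (h ▸ hvb)
  -- the other two vertices
  have hcard : ((A.erase a).erase b).card + 2 = A.card := by
    rw [Finset.card_erase_of_mem (Finset.mem_erase.mpr ⟨hab.symm, hb⟩),
      Finset.card_erase_of_mem ha]
    have h1 : 2 ≤ A.card := by
      have h2 : ({a, b} : Finset X).card ≤ A.card := Finset.card_le_card (by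
        intro z hz
        rcases Finset.mem_insert.mp hz with rfl | hz
        · exact ha
        · rw [Finset.mem_singleton.mp hz]
          exact hb)
      rw [Finset.card_pair hab] at h2
      exact h2
    omega
  have hdeg : 2 ≤ (A.filter (Adj v)).card := by
    have h2 : ({a, b} : Finset X).card ≤ (A.filter (Adj v)).card := Finset.card_le_card (by
      intro z hz
      rcases Finset.mem_insert.mp hz with rfl | hz
      · exact Finset.mem_filter.mpr ⟨ha, hva⟩
      · rw [Finset.mem_singleton.mp hz]
        exact Finset.mem_filter.mpr ⟨hb, hvb⟩)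
    rw [Finset.card_pair hab] at h2
    exact h2
  have hsub1 : A.filter (Adj a) ⊆ (A.erase a).erase b := by
    intro z hz
    rw [Finset.mem_filter] at hz
    rw [Finset.mem_erase, Finset.mem_erase]
    refine ⟨?_, ?_, hz.1⟩
    · rintro rfl
      exact hnab hz.2
    · rintro rfl
      exact hirr _ hz.2
  have hsub2 : A.filter (Adj b) ⊆ (A.erase a).erase b := by
    intro z hz
    rw [Finset.mem_filter] at hz
    rw [Finset.mem_erase, Finset.mem_erase]
    refine ⟨?_, ?_, hz.1⟩
    · rintro rfl
      exact hirr _ hz.2
    · rintro rfl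
      exact hnab (hsymm _ _ hz.2)
  have hma := hmin a ha
  have hmb := hmin b hb
  have hca := Finset.card_le_card hsub1
  have hcb := Finset.card_le_card hsub2
  have he1 : A.filter (Adj a) = (A.erase a).erase b :=
    Finset.eq_of_subset_of_card_le hsub1 (by omega)
  have he2 : A.filter (Adj b) = (A.erase a).erase b :=
    Finset.eq_of_subset_of_card_le hsub2 (by omega)
  obtain ⟨w, hw, hwv⟩ := Finset.exists_mem_ne (s := (A.erase a).erase b) (by omega) v
  have hw1 : Adj a w := by
    rw [← he1] at hw
    exact (Finset.mem_filter.mp hw).2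
  have hw2 : Adj b w := by
    rw [← he2] at hw
    exact (Finset.mem_filter.mp hw).2
  rw [Finset.mem_erase, Finset.mem_erase] at hw
  rcases hC4 v a w b hwv.symm hab hva hw1 (hsymm _ _ hw2) (hsymm _ _ hvb) with h | h
  · have h3 : ({a, b, w} : Finset X).card ≤ (A.filter (Adj v)).card := Finset.card_le_card (by
      intro z hz
      rcases Finset.mem_insert.mp hz with rfl | hz
      · exact Finset.mem_filter.mpr ⟨ha, hva⟩
      rcases Finset.mem_insert.mp hz with rfl | hz
      · exact Finset.mem_filter.mpr ⟨hb, hvb⟩
      · rw [Finset.mem_singleton.mp hz]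
        exact Finset.mem_filter.mpr ⟨hw.2.2, h⟩)
    rw [Finset.card_eq_three.mpr ⟨a, b, w, hab, hw.2.1.symm, hw.1.symm, rfl⟩] at h3
    omega
  · exact hnab h

theorem exists_reps {X : Type} [DecidableEq X] (Adj : X → X → Prop)
    (hsymm : ∀ a b, Adj a b → Adj b a) (hirr : ∀ a, ¬ Adj a a)
    (hC4 : ∀ a b c d, a ≠ c → b ≠ d → Adj a b → Adj b c → Adj c d → Adj d a →
      Adj a c ∨ Adj b d)
    (A : Finset X) (hA : A.card ≤ 4) :
    ∃ R ⊆ A, (∀ a ∈ A, ∃ r ∈ R,
      Relation.ReflTransGen (fun u v => Adj u v ∧ u ∈ A ∧ v ∈ A) a r) ∧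
      R.card + ncl Adj 2 A ≤ A.card + ncl Adj 3 A := by
  classical
  induction A using Finset.strongInduction with
  | _ A ih =>
    rcases A.eq_empty_or_nonempty with rfl | hne
    · refine ⟨∅, Finset.Subset.refl _, fun a ha => absurd ha (Finset.notMem_empty a), ?_⟩
      have h : ncl Adj 2 (∅ : Finset X) = 0 := by
        unfold ncl
        rw [Finset.card_eq_zero, Finset.filter_eq_empty_iff]
        intro B hB
        have h1 := Finset.mem_powersetCard.mp hB
        have h2 := Finset.card_le_card h1.1
        rw [h1.2, Finset.card_empty] at h2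
        omega
      rw [h]
      simp
    · obtain ⟨v, hv, hs⟩ := exists_reps_simplicial Adj hsymm hirr hC4 A hA hne
      have hvA : v ∉ A.erase v := Finset.notMem_erase v A
      obtain ⟨R', hR', hreach, hcount⟩ := ih (A.erase v) (Finset.erase_ssubset hv)
        ((Finset.card_le_card (Finset.erase_subset v A)).trans hA)
      have hins : insert v (A.erase v) = A := Finset.insert_erase hv
      have e2 := exists_reps_insert Adj hsymm v (A.erase v) hvA 1
      have e3 := exists_reps_insert Adj hsymm v (A.erase v) hvA 2
      rw [hins] at e2 e3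
      norm_num at e2 e3
      have hcard : A.card = (A.erase v).card + 1 := by
        rw [Finset.card_erase_of_mem hv]
        have := Finset.card_pos.mpr hne
        omega
      obtain ⟨N, hN⟩ : ∃ N, N = (A.erase v).filter (Adj v) := ⟨_, rfl⟩
      rw [← hN] at e2 e3
      rw [exists_reps_one] at e2
      have hNcl : Cl Adj N := by
        intro a ha b hb hab
        rw [hN, Finset.mem_filter] at ha hb
        exact hs a (Finset.mem_of_mem_erase ha.1) b (Finset.mem_of_mem_erase hb.1) ha.2 hb.2 hab
      rw [exists_reps_two Adj N hNcl] at e3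
      have hmono : ∀ a r, Relation.ReflTransGen
          (fun u w => Adj u w ∧ u ∈ A.erase v ∧ w ∈ A.erase v) a r →
          Relation.ReflTransGen (fun u w => Adj u w ∧ u ∈ A ∧ w ∈ A) a r := by
        intro a r h
        refine Relation.ReflTransGen.mono (fun u w h => ?_) a r h
        exact ⟨h.1, Finset.mem_of_mem_erase h.2.1, Finset.mem_of_mem_erase h.2.2⟩
      rcases N.eq_empty_or_nonempty with hN0 | ⟨u, hu⟩
      · rw [hN0, Finset.card_empty] at e2 e3
        refine ⟨insert v R', ?_, ?_, ?_⟩
        · intro z hz
          rcases Finset.mem_insert.mp hz with rfl | hz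
          · exact hv
          · exact Finset.mem_of_mem_erase (hR' hz)
        · intro a ha
          by_cases hav : a = v
          · subst hav
            exact ⟨a, Finset.mem_insert_self _ _, Relation.ReflTransGen.refl⟩
          · obtain ⟨r, hr, h⟩ := hreach a (Finset.mem_erase.mpr ⟨hav, ha⟩)
            exact ⟨r, Finset.mem_insert_of_mem hr, hmono a r h⟩
        · rw [Finset.card_insert_of_notMem (fun h => hvA (hR' h))]
          omega
      · have hN3 : N.card ≤ 3 := by
          have : N.card ≤ (A.erase v).card := by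
            rw [hN]
            exact Finset.card_filter_le _ _
          omega
        have hN1 : 1 ≤ N.card := Finset.card_pos.mpr ⟨u, hu⟩
        have hch : N.card ≤ 1 + N.card.choose 2 := by
          obtain ⟨k, hk⟩ : ∃ k, k = N.card := ⟨_, rfl⟩
          rw [← hk] at hN3 hN1 ⊢
          interval_cases k <;> decide
        rw [hN, Finset.mem_filter] at hu
        refine ⟨R', fun z hz => Finset.mem_of_mem_erase (hR' hz), ?_, ?_⟩
        · intro a ha
          by_cases hav : a = v
          · subst hav
            obtain ⟨r, hr, h⟩ := hreach u hu.1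
            refine ⟨r, hr, Relation.ReflTransGen.head ?_ (hmono u r h)⟩
            exact ⟨hu.2, ha, Finset.mem_of_mem_erase hu.1⟩
          · obtain ⟨r, hr, h⟩ := hreach a (Finset.mem_erase.mpr ⟨hav, ha⟩)
            exact ⟨r, hr, hmono a r h⟩
        · omega

end H475
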