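import Pool.Agent.Helper475.Base

open scoped BigOperators

namespace H475
open Module

theorem exists_unitary_flag {M : Type} [AddCommGroup M] [Module ℂ M] {J : Type} [Fintype J]
    [DecidableEq J] {g : ℕ} (f : Basis J ℂ M) (b : Basis (Fin g) ℂ M) (w : Fin g → ℝ) :
    ∃ (e : Basis (Fin g) ℂ M) (u : Fin g → J → ℂ),
      (∀ i, e i = ∑ j, u i j • f j) ∧
      (∀ j k, ∑ i, u i j * (starRingEnd ℂ) (u i k) = if j = k then 1 else 0) ∧
      (∀ i, ∑ j, u i j * (starRingEnd ℂ) (u i j) = 1) ∧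
      (∀ i, e i ∈ Submodule.span ℂ {x | ∃ k, w k ≤ w i ∧ x = b k}) := by
  classical
  obtain ⟨ψ, hψ⟩ : ∃ ψ : M ≃ₗ[ℂ] EuclideanSpace ℂ J,
      ψ = f.equiv (EuclideanSpace.basisFun J ℂ).toBasis (Equiv.refl J) := ⟨_, rfl⟩
  have hψf : ∀ j, ψ (f j) = EuclideanSpace.single j (1 : ℂ) := by
    intro j
    rw [hψ, Basis.equiv_apply]
    simp
  have hsymm : ∀ x : EuclideanSpace ℂ J, ψ.symm x = ∑ j, x j • f j := by
    intro x
    rw [LinearEquiv.symm_apply_eq, map_sum]
    ext i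
    simp [hψf, Finset.sum_apply, Pi.single_apply]
  obtain ⟨ρ, hρ⟩ : ∃ ρ : Equiv.Perm (Fin g), ρ = Tuple.sort w := ⟨_, rfl⟩
  have hmono : Monotone (w ∘ ρ) := by rw [hρ]; exact Tuple.monotone_sort w
  obtain ⟨bv, hbv⟩ : ∃ bv : Basis (Fin g) ℂ (EuclideanSpace ℂ J), ∀ i, bv i = ψ (b (ρ i)) :=
    ⟨(b.map ψ).reindex ρ.symm, fun i => by simp⟩
  obtain ⟨OB, hOB⟩ : ∃ OB : OrthonormalBasis (Fin g) ℂ (EuclideanSpace ℂ J),
      ∀ i, OB i = InnerProductSpace.gramSchmidtNormed ℂ bv i := by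
    refine ⟨OrthonormalBasis.mk (InnerProductSpace.gramSchmidtNormed_orthonormal
      bv.linearIndependent) ?_, fun i => by rw [OrthonormalBasis.coe_mk]⟩
    rw [InnerProductSpace.span_gramSchmidtNormed_range, InnerProductSpace.span_gramSchmidt,
      bv.span_eq]
  refine ⟨(OB.reindex ρ).toBasis.map ψ.symm, fun i j => OB (ρ.symm i) j, ?_, ?_, ?_, ?_⟩
  · intro i
    simp [hsymm]
  · intro j k
    have h1 := OrthonormalBasis.sum_inner_mul_inner OB (EuclideanSpace.single j (1 : ℂ))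
      (EuclideanSpace.single k (1 : ℂ))
    have h2 : ∑ i, OB (ρ.symm i) j * (starRingEnd ℂ) (OB (ρ.symm i) k) =
        ∑ i, OB i j * (starRingEnd ℂ) (OB i k) :=
      Equiv.sum_comp ρ.symm (fun i => OB i j * (starRingEnd ℂ) (OB i k))
    rw [h2]
    simpa [EuclideanSpace.inner_single_left, EuclideanSpace.inner_single_right,
      Pi.single_apply, eq_comm] using h1
  · intro i
    have h1 : inner ℂ (OB (ρ.symm i)) (OB (ρ.symm i)) = (1 : ℂ) := by
      rw [inner_self_eq_norm_sq_to_K, OB.orthonormal.1]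
      simp
    rw [PiLp.inner_apply] at h1
    rw [← h1]
    refine Finset.sum_congr rfl fun j _ => ?_
    rw [RCLike.inner_apply]
  · intro i
    have h1 : OB (ρ.symm i) ∈ Submodule.span ℂ (bv '' Set.Iic (ρ.symm i)) := by
      rw [← InnerProductSpace.span_gramSchmidt_Iic, ← InnerProductSpace.span_gramSchmidtNormed,
        hOB]
      exact Submodule.subset_span ⟨_, Set.mem_Iic.2 le_rfl, rfl⟩
    have h2 : ψ.symm (OB (ρ.symm i)) ∈
        (Submodule.span ℂ (bv '' Set.Iic (ρ.symm i))).map ψ.symm.toLinearMap :=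
      Submodule.mem_map_of_mem h1
    rw [Submodule.map_span] at h2
    simp only [Basis.map_apply, OrthonormalBasis.coe_toBasis, OrthonormalBasis.reindex_apply]
    refine Submodule.span_mono ?_ h2
    rintro x ⟨y, ⟨k, hk, rfl⟩, rfl⟩
    refine ⟨ρ k, ?_, ?_⟩
    · have := hmono (Set.mem_Iic.1 hk)
      simpa using this
    · rw [hbv]
      simp

end H475
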