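import Pool.Agent.Helper475.Base

open scoped BigOperators

namespace H475
open Module



noncomputable def ext_trick_pi {X : Type} [Fintype X] [DecidableEq X] (a : X) : (X → ℂ) →ₗ[ℂ] Z0 X :=
  LinearMap.codRestrict (Z0 X) (LinearMap.id - (sumL X).smulRight (Pi.single a 1)) (by
    intro x
    rw [mem_Z0]
    simp [sumL, Finset.sum_sub_distrib, ← Finset.mul_sum])

theorem ext_trick_pi_coe {X : Type} [Fintype X] [DecidableEq X] (a : X) (x : X → ℂ) :
    (ext_trick_pi a x : X → ℂ) = x - sumL X x • Pi.single a 1 := rfl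

theorem ext_trick_sumL_single {X : Type} [Fintype X] [DecidableEq X] (a : X) :
    sumL X (Pi.single a 1) = 1 := by
  simp [sumL]

theorem ext_trick_pi_self {X : Type} [Fintype X] [DecidableEq X] (a : X) :
    ext_trick_pi a (Pi.single a 1) = 0 := by
  apply Subtype.ext
  rw [ext_trick_pi_coe, ext_trick_sumL_single]
  simp

theorem ext_trick_pi_single {X : Type} [Fintype X] [DecidableEq X] (a b : X) :
    ext_trick_pi a (Pi.single b 1) = dif b a := by
  apply Subtype.ext
  rw [ext_trick_pi_coe, ext_trick_sumL_single]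
  simp [dif]

theorem ext_trick_pi_sub {X : Type} [Fintype X] [DecidableEq X] (a b : X) (x : X → ℂ) :
    ext_trick_pi b x = ext_trick_pi a x + (-sumL X x) • dif b a := by
  apply Subtype.ext
  rw [Submodule.coe_add, Submodule.coe_smul, ext_trick_pi_coe, ext_trick_pi_coe]
  simp only [dif]
  funext c
  simp only [Pi.sub_apply, Pi.add_apply, Pi.smul_apply, smul_eq_mul]
  ring

theorem ext_trick_pi_mem {X : Type} [Fintype X] [DecidableEq X] (a : X) (z : Z0 X) :
    ext_trick_pi a (z : X → ℂ) = z := by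
  apply Subtype.ext
  rw [ext_trick_pi_coe]
  have h : sumL X (z : X → ℂ) = 0 := z.2
  rw [h]; simp

theorem ext_trick_alt {M : Type} [AddCommGroup M] [Module ℂ M] {q : ℕ}
    (A : M [⋀^Fin (q+1)]→ₗ[ℂ] ℂ) (v : M) (y : Fin q → M) (c : Fin q → ℂ) :
    A (Matrix.vecCons v (fun i => y i + c i • v)) = A (Matrix.vecCons v y) := by
  classical
  have key : ∀ S : Finset (Fin q), A (Matrix.vecCons v (fun i => if i ∈ S then y i + c i • v else y i))
      = A (Matrix.vecCons v y) := by
    intro S
    induction S using Finset.induction_on with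
    | empty => simp
    | insert j S hj ih =>
      set f : Fin q → M := fun i => if i ∈ S then y i + c i • v else y i with hf
      have h1 : (fun i => if i ∈ insert j S then y i + c i • v else y i) =
          Function.update f j (y j + c j • v) := by
        funext i
        by_cases hij : i = j
        · subst hij; simp
        · simp [hf, hij, Finset.mem_insert]
      have h2 : Function.update f j (y j) = f := by
        funext i
        by_cases hij : i = j
        · subst hij; simp [hf, hj]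
        · simp [hij]
      have h3 : ∀ w : M, Matrix.vecCons v (Function.update f j w) =
          Function.update (Matrix.vecCons v f) j.succ w := by
        intro w
        funext i
        refine Fin.cases ?_ (fun i => ?_) i
        · rw [Function.update_of_ne (Fin.succ_ne_zero j).symm]; simp
        · by_cases hij : i = j
          · subst hij; simp
          · rw [Function.update_of_ne (fun h => hij (Fin.succ_injective _ h))]
            simp [hij]
      rw [h1, h3, AlternatingMap.map_update_add, AlternatingMap.map_update_smul, ← h3, h2, ih]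
      have h4 : A (Function.update (Matrix.vecCons v f) j.succ v) = 0 := by
        refine A.map_eq_zero_of_eq _ (i := 0) (j := j.succ) ?_ (Fin.succ_ne_zero j).symm
        rw [Function.update_of_ne (Fin.succ_ne_zero j).symm, Function.update_self]
        simp
      rw [h4]; simp
  have := key Finset.univ
  simpa using this

theorem ext_trick_comp {M N : Type} [AddCommGroup M] [Module ℂ M] [AddCommGroup N] [Module ℂ N] {q : ℕ}
    (f : M →ₗ[ℂ] N) (v : M) (x : Fin q → M) :
    (fun i => f (Matrix.vecCons v x i)) = Matrix.vecCons (f v) (fun i => f (x i)) := by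
  funext i
  refine Fin.cases ?_ (fun i => ?_) i <;> simp

theorem ext_trick_zero {M : Type} [AddCommGroup M] [Module ℂ M] {q : ℕ}
    (A : M [⋀^Fin (q+1)]→ₗ[ℂ] ℂ) (y : Fin q → M) : A (Matrix.vecCons 0 y) = 0 :=
  A.map_coord_zero 0 (by simp)

theorem ext_trick_neg {M : Type} [AddCommGroup M] [Module ℂ M] {q : ℕ}
    (A : M [⋀^Fin (q+1)]→ₗ[ℂ] ℂ) (v : M) (y : Fin q → M) :
    A (Matrix.vecCons (-v) y) = - A (Matrix.vecCons v y) := by
  have h : ∀ w : M, Matrix.vecCons w y = Function.update (Matrix.vecCons v y) 0 w := by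
    intro w
    funext i
    refine Fin.cases ?_ (fun i => ?_) i
    · simp
    · rw [Function.update_of_ne (Fin.succ_ne_zero i)]; simp
  rw [h (-v), AlternatingMap.map_update_neg, ← h v]

theorem ext_trick_dif_neg {X : Type} [Fintype X] [DecidableEq X] (a b : X) :
    dif a b = - dif b a := by
  apply Subtype.ext
  rw [Submodule.coe_neg]
  simp [dif]

theorem ext_trick_dif_sub {X : Type} [Fintype X] [DecidableEq X] (a b o : X) :
    dif a o - dif b o = dif a b := by
  apply Subtype.ext
  rw [Submodule.coe_sub]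
  simp [dif]

/-- The map. -/
noncomputable def ext_trick_T {X : Type} [Fintype X] [DecidableEq X] (o : X) (Adj : X → X → Prop) (q : ℕ) :
    (KP Adj q × (Z0 X [⋀^Fin (q+1)]→ₗ[ℂ] ℂ)) →ₗ[ℂ] (X → (X → ℂ) [⋀^Fin (q+1)]→ₗ[ℂ] ℂ) where
  toFun p a := (p.2 + (p.1 : Z0 X →ₗ[ℂ] (Z0 X) [⋀^Fin (q+1)]→ₗ[ℂ] ℂ) (dif a o)).compLinearMap (ext_trick_pi a)
  map_add' p p' := by
    funext a
    ext x
    simp only [Prod.snd_add, Prod.fst_add, Submodule.coe_add, LinearMap.add_apply,
      AlternatingMap.compLinearMap_apply, AlternatingMap.add_apply, Pi.add_apply]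
    ring
  map_smul' c p := by
    funext a
    ext x
    change c * p.2 (fun i => ext_trick_pi a (x i)) +
      c * (p.1 : Z0 X →ₗ[ℂ] (Z0 X) [⋀^Fin (q+1)]→ₗ[ℂ] ℂ) (dif a o) (fun i => ext_trick_pi a (x i)) =
      c * (p.2 (fun i => ext_trick_pi a (x i)) +
        (p.1 : Z0 X →ₗ[ℂ] (Z0 X) [⋀^Fin (q+1)]→ₗ[ℂ] ℂ) (dif a o) (fun i => ext_trick_pi a (x i)))
    ring

theorem ext_trick_T_apply {X : Type} [Fintype X] [DecidableEq X] (o : X) (Adj : X → X → Prop) (q : ℕ)
    (p : KP Adj q × (Z0 X [⋀^Fin (q+1)]→ₗ[ℂ] ℂ)) (a : X) (x : Fin (q+1) → (X → ℂ)) :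
    ext_trick_T o Adj q p a x = (p.2 + (p.1 : Z0 X →ₗ[ℂ] (Z0 X) [⋀^Fin (q+1)]→ₗ[ℂ] ℂ) (dif a o))
      (fun i => ext_trick_pi a (x i)) := rfl

theorem ext_trick_T_mem {X : Type} [Fintype X] [DecidableEq X] (o : X) (Adj : X → X → Prop) (q : ℕ)
    (p : KP Adj q × (Z0 X [⋀^Fin (q+1)]→ₗ[ℂ] ℂ)) : ext_trick_T o Adj q p ∈ KN Adj q := by
  refine ⟨fun a x => ?_, fun a b hab x => ?_⟩
  · rw [ext_trick_T_apply, ext_trick_comp, ext_trick_pi_self, ext_trick_zero]
  · rw [ext_trick_T_apply, ext_trick_T_apply, ext_trick_comp, ext_trick_comp, ext_trick_pi_single,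
      ext_trick_pi_single, ext_trick_dif_neg a b, ext_trick_neg]
    have h1 : (fun i => ext_trick_pi b (x i)) =
        fun i => ext_trick_pi a (x i) + (-sumL X (x i)) • dif b a := by
      funext i; exact ext_trick_pi_sub a b (x i)
    rw [h1, ext_trick_alt]
    have h2 : (p.1 : Z0 X →ₗ[ℂ] (Z0 X) [⋀^Fin (q+1)]→ₗ[ℂ] ℂ) (dif b a)
        (Matrix.vecCons (dif b a) fun i => ext_trick_pi a (x i)) = 0 := p.1.2 a b hab _
    rw [← ext_trick_dif_sub b a o, map_sub, AlternatingMap.sub_apply, ext_trick_dif_sub] at h2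
    simp only [AlternatingMap.add_apply]
    linear_combination -h2

theorem ext_trick_T_inj {X : Type} [Fintype X] [DecidableEq X] (o : X) (Adj : X → X → Prop) (q : ℕ) :
    Function.Injective (ext_trick_T o Adj q) := by
  rw [injective_iff_map_eq_zero]
  rintro ⟨B, γ⟩ h
  have h0 : ∀ a : X, ∀ z : Fin (q+1) → Z0 X, (γ + (B : Z0 X →ₗ[ℂ] (Z0 X) [⋀^Fin (q+1)]→ₗ[ℂ] ℂ) (dif a o)) z = 0 := by
    intro a z
    have h1 := ext_trick_T_apply o Adj q (B, γ) a (fun i => (z i : X → ℂ))
    rw [h] at h1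
    simp only [ext_trick_pi_mem] at h1
    exact h1.symm
  have hγ : γ = 0 := by
    ext z
    have h1 := h0 o z
    have h2 : dif o o = (0 : Z0 X) := by apply Subtype.ext; simp [dif]
    rw [h2, map_zero, add_zero] at h1
    exact h1
  subst hγ
  have hB : (B : Z0 X →ₗ[ℂ] (Z0 X) [⋀^Fin (q+1)]→ₗ[ℂ] ℂ) = 0 := by
    ext w z
    have h1 : w = ∑ a, (w : X → ℂ) a • dif a o := by
      apply Subtype.ext
      rw [Submodule.coe_sum]
      funext c
      simp only [Submodule.coe_smul, dif, Finset.sum_apply, Pi.smul_apply, Pi.sub_apply, smul_eq_mul, mul_sub,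
        Finset.sum_sub_distrib, ← Finset.sum_mul]
      rw [(mem_Z0 _).1 w.2, zero_mul, sub_zero]
      simp [Pi.single_apply]
    let ev : (Z0 X →ₗ[ℂ] (Z0 X) [⋀^Fin (q+1)]→ₗ[ℂ] ℂ) → (Z0 X →ₗ[ℂ] ℂ) := fun A =>
      { toFun := fun w => A w z
        map_add' := fun w w' => by rw [map_add]; rfl
        map_smul' := fun c w => by rw [map_smul]; rfl }
    have h3 : ev (B : Z0 X →ₗ[ℂ] (Z0 X) [⋀^Fin (q+1)]→ₗ[ℂ] ℂ) w = 0 := by
      rw [h1, map_sum]
      refine Finset.sum_eq_zero fun a _ => ?_
      rw [map_smul]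
      have h2 := h0 a z
      rw [zero_add] at h2
      change _ • ((B : Z0 X →ₗ[ℂ] (Z0 X) [⋀^Fin (q+1)]→ₗ[ℂ] ℂ) (dif a o)) z = 0
      rw [h2]; simp
    exact h3
  exact Prod.ext (Subtype.ext hB) rfl

theorem ext_trick_finrank {X : Type} [Fintype X] [DecidableEq X] [Nonempty X] :
    finrank ℂ (Z0 X) = Fintype.card X - 1 := by
  have h1 := LinearMap.finrank_range_add_finrank_ker (sumL X)
  have h2 : LinearMap.range (sumL X) = ⊤ := by
    rw [LinearMap.range_eq_top]
    intro c
    refine ⟨c • Pi.single (Classical.arbitrary X) 1, ?_⟩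
    rw [map_smul, ext_trick_sumL_single]; simp
  rw [h2, finrank_top, Module.finrank_self, Module.finrank_fintype_fun_eq_card] at h1
  change finrank ℂ (LinearMap.ker (sumL X)) = _
  omega

theorem ext_trick {X : Type} [Fintype X] [DecidableEq X] [Nonempty X] (Adj : X → X → Prop)
    (q : ℕ) :
    finrank ℂ (KP Adj q) + (Fintype.card X - 1).choose (q+1) ≤ finrank ℂ (KN Adj q) := by
  classical
  have hf1 := finrank_alt (Z0 X) (q+1)
  have hf2 := finrank_alt (X → ℂ) (q+1)
  have := hf1.1
  have := hf2.1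
  have : FiniteDimensional ℂ (X → (X → ℂ) [⋀^Fin (q+1)]→ₗ[ℂ] ℂ) := inferInstance
  have : FiniteDimensional ℂ (Z0 X →ₗ[ℂ] (Z0 X) [⋀^Fin (q+1)]→ₗ[ℂ] ℂ) := inferInstance
  have : FiniteDimensional ℂ (KP Adj q) := inferInstance
  have : FiniteDimensional ℂ (KN Adj q) := inferInstance
  have h1 := LinearMap.finrank_le_finrank_of_injective
    (f := LinearMap.codRestrict (KN Adj q) (ext_trick_T (Classical.arbitrary X) Adj q)
      (ext_trick_T_mem (Classical.arbitrary X) Adj q))
    (by
      intro p p' h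
      apply ext_trick_T_inj (Classical.arbitrary X) Adj q
      exact congrArg Subtype.val h)
  have hfree : Module.Free ℂ (KP Adj q) := Module.Free.of_divisionRing ℂ (KP Adj q)
  rw [Module.finrank_prod, hf1.2, ext_trick_finrank] at h1
  exact h1

end H475
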