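import Pool.Agent.Helper475.Base
import Pool.Agent.Helper475.ExistsInjMany
import Pool.Agent.Helper475.AltOfRestrict
import Pool.Agent.Helper475.CurryleftMemWsp

open scoped BigOperators

namespace H475
open Module




theorem F1_exists_aux1 {n : ℕ} [Fact n.Prime]
    {JL JR : Type} [Fintype JL] [Fintype JR] (f : Basis (JL ⊕ JR) ℂ (UU n))
    (hl : ∀ j, (f (Sum.inl j)).2 = 0) (hr : ∀ i, (f (Sum.inr i)).1 = 0) (u : UU n)
    (hu : u.2 = 0) : ∃ a : JL → ℂ, u = ∑ j, a j • f (Sum.inl j) := by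
  refine ⟨fun j => f.repr u (Sum.inl j), ?_⟩
  have h1 := f.sum_repr u
  rw [Fintype.sum_sum_type] at h1
  have h2 : (∑ i, (f.repr u) (Sum.inr i) • f (Sum.inr i)) = 0 := by
    apply Prod.ext
    · rw [Prod.fst_sum]
      refine Finset.sum_eq_zero fun i _ => ?_
      rw [Prod.smul_fst, hr, smul_zero]
    · have h3 := congrArg Prod.snd h1
      rw [Prod.snd_add, hu, Prod.snd_sum (f := fun j => (f.repr u) (Sum.inl j) • f (Sum.inl j)),
        Finset.sum_eq_zero, zero_add] at h3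
      · exact h3
      · intro j _
        rw [Prod.smul_snd, hl, smul_zero]
  rw [h2, add_zero] at h1
  exact h1.symm

theorem F1_exists_aux2 {n : ℕ} [Fact n.Prime] {r : ℕ}
    {JL JR : Type} [Fintype JL] [Fintype JR] (f : Basis (JL ⊕ JR) ℂ (UU n))
    (hl : ∀ j, (f (Sum.inl j)).2 = 0) (hr : ∀ i, (f (Sum.inr i)).1 = 0)
    (τ : MultilinearMap ℂ (fun _ : Fin r => UU n) ℂ)
    (hτ : ∀ y : Fin r → (JL ⊕ JR), (∀ m, (y m).isLeft = true) → τ (fun m => f (y m)) = 0)
    (v : Fin r → UU n) (hv : ∀ m, (v m).2 = 0) : τ v = 0 := by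
  classical
  choose a ha using fun m => F1_exists_aux1 f hl hr (v m) (hv m)
  obtain ⟨g, hg⟩ : ∃ g : (JL → ℂ) →ₗ[ℂ] UU n, ∀ b, g b = ∑ j, b j • f (Sum.inl j) :=
    ⟨Fintype.linearCombination ℂ (fun j => f (Sum.inl j)), fun b => rfl⟩
  have h0 : τ.compLinearMap (fun _ => g) = 0 := by
    refine Basis.ext_multilinear (fun _ => Pi.basisFun ℂ JL) fun y => ?_
    rw [MultilinearMap.compLinearMap_apply]
    have e : (fun i => g ((Pi.basisFun ℂ JL) (y i))) = fun m => f (Sum.inl (y m)) := by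
      funext m
      rw [hg]
      simp [Pi.single_apply]
    rw [e, hτ (fun m => Sum.inl (y m)) (fun m => rfl)]
    rfl
  have h1 : v = fun m => g (a m) := by
    funext m
    rw [hg]
    exact ha m
  rw [h1]
  have h2 : τ.compLinearMap (fun _ => g) a = 0 := by rw [h0]; rfl
  exact h2

theorem F1_exists_aux3 {n : ℕ} [Fact n.Prime] (k : ℕ)
    (B : UU n →ₗ[ℂ] (UU n) [⋀^Fin (k+1)]→ₗ[ℂ] ℂ)
    (h : ∀ u : UU n, ∀ y : Fin k → UU n, B u (Matrix.vecCons u y) = 0)
    (u : UU n) (w : Fin (k+1) → UU n) (j : Fin (k+1)) (hj : w j = u) : B u w = 0 := by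
  have h1 : B u (w ∘ Equiv.swap 0 j) = 0 := by
    have e : w ∘ Equiv.swap 0 j = Matrix.vecCons u (fun i => (w ∘ Equiv.swap 0 j) i.succ) := by
      funext i
      refine Fin.cases ?_ (fun i => ?_) i
      · simp [hj]
      · simp
    rw [e]
    exact h _ _
  by_cases hj0 : (0 : Fin (k+1)) = j
  · subst hj0
    simpa using h1
  · rw [AlternatingMap.map_swap _ _ hj0] at h1
    exact neg_eq_zero.1 h1

theorem F1_exists_aux4 {n : ℕ} [Fact n.Prime] (k : ℕ)
    (B : UU n →ₗ[ℂ] (UU n) [⋀^Fin (k+1)]→ₗ[ℂ] ℂ)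
    (h : ∀ u : UU n, ∀ y : Fin k → UU n, B u (Matrix.vecCons u y) = 0)
    (hW : B ∈ Wsp (UU n) k) : B = 0 := by
  obtain ⟨A, hA⟩ : ∃ A : (UU n) [⋀^Fin (k+2)]→ₗ[ℂ] ℂ, ∀ v, A v = B (v 0) (fun j => v j.succ) := by
    refine ⟨{ toMul (UU n) k B with
      map_eq_zero_of_eq' := ?_ }, fun v => rfl⟩
    intro v i j hij hne
    show toMul (UU n) k B v = 0
    rw [toMul_apply]
    revert hij hne
    refine Fin.cases ?_ (fun i => ?_) i
    · refine Fin.cases ?_ (fun j => ?_) j
      · intro _ hne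
        exact absurd rfl hne
      · intro hij _
        exact F1_exists_aux3 k B h _ _ j hij.symm
    · refine Fin.cases ?_ (fun j => ?_) j
      · intro hij _
        exact F1_exists_aux3 k B h _ _ i hij
      · intro hij hne
        refine (B (v 0)).map_eq_zero_of_eq _ (i := i) (j := j) hij ?_
        intro hcon
        exact hne (by rw [hcon])
  have hB : A.curryLeft = B := by
    refine LinearMap.ext fun x => AlternatingMap.ext fun v => ?_
    rw [AlternatingMap.curryLeft_apply_apply, hA]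
    rfl
  have h0 : A = 0 := curryLeft_mem_Wsp k A (by rw [hB]; exact hW)
  rw [← hB, h0]
  rfl

theorem F1_exists {n : ℕ} [Fact n.Prime] (ω : ZMod n) (hω : ω ^ 2 + ω + 1 = 0) (k : ℕ)
    {JL JR : Type} [Fintype JL] [Fintype JR] (f : Basis (JL ⊕ JR) ℂ (UU n))
    (hl : ∀ j, (f (Sum.inl j)).2 = 0) (hr : ∀ i, (f (Sum.inr i)).1 = 0) :
    ∃ y : Fin (finrank ℂ ((K0 ω k).map (toMul (UU n) k))) → Fin (k+2) → (JL ⊕ JR),
      Inj ((K0 ω k).map (toMul (UU n) k)) f y ∧ ∀ i m, (y i m).isLeft = true := by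
  classical
  obtain ⟨y, hy, S, hS, hSA⟩ := exists_Inj_many ((K0 ω k).map (toMul (UU n) k)) f
    {y | ∀ m, (y m).isLeft = true} (finrank ℂ ((K0 ω k).map (toMul (UU n) k))) ⊥ (by
      intro τ
      rw [Submodule.mem_bot]
      constructor
      · rintro rfl
        exact ⟨Submodule.zero_mem _, fun y _ => rfl⟩
      · rintro ⟨⟨B, hB, rfl⟩, hz⟩
        have hB' : B ∈ Ktil ω k ∧ B ∈ Wsp (UU n) k := hB
        have h1 := F1_exists_aux2 f hl hr (toMul (UU n) k B) hz
        have h2 := alt_of_restrict ω hω k B hB'.1 (by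
          intro x z
          have := h1 (Matrix.vecCons (x, 0) (Matrix.vecCons (x, 0) (fun i => (z i, 0)))) (by
            intro m
            refine Fin.cases rfl (fun m => ?_) m
            refine Fin.cases rfl (fun m => rfl) m)
          rw [toMul_apply] at this
          exact this)
        rw [F1_exists_aux4 k B h2 hB'.2, map_zero]) (by simp)
  refine ⟨y, hy, fun i => ?_⟩
  have hSu : S = Finset.univ := by
    rw [← Finset.card_eq_iff_eq_univ]
    refine le_antisymm (Finset.card_le_univ _) ?_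
    rw [Fintype.card_fin]
    exact hS
  exact hSA i (by rw [hSu]; exact Finset.mem_univ _)

end H475
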