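import Pool.Agent.Helper475.Base
import Pool.Agent.Helper475.ExistsInjMany

open scoped BigOperators

namespace H475
open Module



theorem F2_exists_repr {n : ℕ} [NeZero n] {JL JR : Type} [Fintype JL] [Fintype JR]
    (f : Basis (JL ⊕ JR) ℂ (UU n)) (hl : ∀ j, (f (Sum.inl j)).2 = 0)
    (hr : ∀ i, (f (Sum.inr i)).1 = 0) (u : UU n) (hu : u.1 = 0) (j : JL) :
    f.repr u (Sum.inl j) = 0 := by
  have h1 := f.sum_repr u
  rw [Fintype.sum_sum_type] at h1
  have h2 : ∑ j, f.repr u (Sum.inl j) • f (Sum.inl j) = 0 := by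
    apply Prod.ext
    · have h3 := congrArg Prod.fst h1
      rw [Prod.fst_add, Prod.fst_sum, Prod.fst_sum] at h3
      have h4 : ∑ i, (f.repr u (Sum.inr i) • f (Sum.inr i)).1 = 0 :=
        Finset.sum_eq_zero fun i _ => by rw [Prod.smul_fst, hr, smul_zero]
      rw [h4, add_zero, hu] at h3
      rw [Prod.fst_sum, Prod.fst_zero]
      exact h3
    · rw [Prod.snd_sum, Prod.snd_zero]
      exact Finset.sum_eq_zero fun i _ => by rw [Prod.smul_snd, hl, smul_zero]
  have h5 : LinearIndependent ℂ (fun j => f (Sum.inl j)) :=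
    f.linearIndependent.comp Sum.inl Sum.inl_injective
  exact Fintype.linearIndependent_iff.1 h5 _ h2 j

theorem F2_exists {n : ℕ} [NeZero n] (ω : ZMod n) (k : ℕ)
    {JL JR : Type} [Fintype JL] [Fintype JR] (f : Basis (JL ⊕ JR) ℂ (UU n))
    (hl : ∀ j, (f (Sum.inl j)).2 = 0) (hr : ∀ i, (f (Sum.inr i)).1 = 0) (N : ℕ)
    (hN : N + finrank ℂ (K00 ω k) ≤ finrank ℂ (K0 ω k)) :
    ∃ y : Fin (finrank ℂ ((K0 ω k).map (toMul (UU n) k))) → Fin (k+2) → (JL ⊕ JR),
      Inj ((K0 ω k).map (toMul (UU n) k)) f y ∧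
      N ≤ (Finset.univ.filter
        (fun q : Fin (finrank ℂ ((K0 ω k).map (toMul (UU n) k))) × Fin (k+2) =>
          (y q.1 q.2).isRight = true)).card := by
  classical
  have hfin : FiniteDimensional ℂ (UU n) := Module.Finite.of_basis f
  have e1 : finrank ℂ ((K00 ω k).map (toMul (UU n) k)) = finrank ℂ (K00 ω k) :=
    (Submodule.equivMapOfInjective (toMul (UU n) k) (toMul_injective k) (K00 ω k)).finrank_eq.symm
  have e2 : finrank ℂ ((K0 ω k).map (toMul (UU n) k)) = finrank ℂ (K0 ω k) :=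
    (Submodule.equivMapOfInjective (toMul (UU n) k) (toMul_injective k) (K0 ω k)).finrank_eq.symm
  obtain ⟨y, hy, S, hS, hSA⟩ := exists_Inj_many ((K0 ω k).map (toMul (UU n) k)) f
    {y | ∃ m, (y m).isRight = true} N ((K00 ω k).map (toMul (UU n) k)) (by
      intro τ
      constructor
      · rintro ⟨B, hB, rfl⟩
        refine ⟨⟨B, hB.1, rfl⟩, ?_⟩
        rintro y ⟨m, hm⟩
        rw [toMul_apply]
        refine hB.2 (fun m => f (y m)) ⟨m, ?_⟩
        obtain ⟨i, hi⟩ := Sum.isRight_iff.1 hm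
        show (f (y m)).1 = 0
        rw [hi, hr]
      · rintro ⟨⟨B, hB, rfl⟩, hA⟩
        refine ⟨B, ⟨hB, ?_⟩, rfl⟩
        rintro x ⟨i, hi⟩
        rw [← toMul_apply]
        have hx : x = fun m => ∑ s, f.repr (x m) s • f s := by
          funext m
          exact (f.sum_repr (x m)).symm
        rw [hx, MultilinearMap.map_sum]
        refine Finset.sum_eq_zero fun r _ => ?_
        rw [MultilinearMap.map_smul_univ]
        rcases hri : r i with j | j
        · have : ∏ m, f.repr (x m) (r m) = 0 :=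
            Finset.prod_eq_zero (Finset.mem_univ i) (by
              rw [hri]; exact F2_exists_repr f hl hr (x i) hi j)
          rw [this, zero_smul]
        · rw [hA r ⟨i, by rw [hri]; rfl⟩, smul_zero]) (by rw [e1, e2]; exact hN)
  refine ⟨y, hy, ?_⟩
  have hSA' : ∀ i, ∃ m, i ∈ S → (y i m).isRight = true := by
    intro i
    by_cases h : i ∈ S
    · obtain ⟨m, hm⟩ := hSA i h
      exact ⟨m, fun _ => hm⟩
    · exact ⟨0, fun h' => absurd h' h⟩
  choose g hg using hSA'
  refine hS.trans ?_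
  refine Finset.card_le_card_of_injOn (fun i => (i, g i)) ?_ ?_
  · intro i hi
    simp only [Finset.coe_filter, Finset.mem_univ, true_and, Set.mem_setOf_eq]
    exact hg i hi
  · intro i _ j _ hij
    exact congrArg Prod.fst hij

end H475
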