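import Pool.Agent.Helper475.Base
import Pool.Agent.Helper475.Decomp
import Pool.Agent.Helper475.CurryleftMemWsp

open scoped BigOperators

namespace H475
open Module




theorem finrank_inf_Wsp {M : Type} [AddCommGroup M] [Module ℂ M] [FiniteDimensional ℂ M] (k : ℕ)
    (S : Submodule ℂ (M →ₗ[ℂ] M [⋀^Fin (k+1)]→ₗ[ℂ] ℂ))
    (hS : ∀ A : M [⋀^Fin (k+2)]→ₗ[ℂ] ℂ, A.curryLeft ∈ S) :
    finrank ℂ S = finrank ℂ (S ⊓ Wsp M k : Submodule ℂ _) + (finrank ℂ M).choose (k+2) := by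
  have hfa : FiniteDimensional ℂ (M [⋀^Fin (k+1)]→ₗ[ℂ] ℂ) := (finrank_alt M (k+1)).1
  have hfa2 : FiniteDimensional ℂ (M [⋀^Fin (k+2)]→ₗ[ℂ] ℂ) := (finrank_alt M (k+2)).1
  have hfd : FiniteDimensional ℂ (M →ₗ[ℂ] M [⋀^Fin (k+1)]→ₗ[ℂ] ℂ) := inferInstance
  let φ : (M [⋀^Fin (k+2)]→ₗ[ℂ] ℂ) →ₗ[ℂ] (M →ₗ[ℂ] M [⋀^Fin (k+1)]→ₗ[ℂ] ℂ) :=
    AlternatingMap.curryLeftLinearMap
  have hφ : ∀ A, φ A = A.curryLeft := fun A => rfl
  have hinj : Function.Injective φ := by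
    rw [injective_iff_map_eq_zero]
    intro A hA
    apply curryLeft_mem_Wsp k A
    rw [← hφ, hA]
    exact Submodule.zero_mem _
  have hR : finrank ℂ (LinearMap.range φ) = (finrank ℂ M).choose (k+2) := by
    rw [LinearMap.finrank_range_of_inj hinj, (finrank_alt M (k+2)).2]
  have hinf : LinearMap.range φ ⊓ (S ⊓ Wsp M k) = ⊥ := by
    rw [eq_bot_iff]
    rintro B ⟨⟨A, rfl⟩, -, hB⟩
    have := curryLeft_mem_Wsp k A hB
    rw [this, map_zero]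
    exact Submodule.zero_mem _
  have hsup : LinearMap.range φ ⊔ (S ⊓ Wsp M k) = S := by
    apply le_antisymm
    · refine sup_le ?_ inf_le_left
      rintro _ ⟨A, rfl⟩
      exact hS A
    · intro B hB
      obtain ⟨A, hA⟩ := decomp k B
      rw [Submodule.mem_sup]
      exact ⟨φ A, ⟨A, rfl⟩, B - A.curryLeft, ⟨S.sub_mem hB (hS A), hA⟩, by
        rw [hφ]
        abel⟩
  have h := Submodule.finrank_sup_add_finrank_inf_eq (LinearMap.range φ) (S ⊓ Wsp M k)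
  rw [hsup, hinf, finrank_bot, hR] at h
  omega

end H475
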