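import Pool.Agent.Helper475.Base
import Pool.Agent.Helper475.Decomp
import Pool.Agent.Helper475.CurryleftMemWsp
import Pool.Agent.Helper475.FinrankInfWsp

open scoped BigOperators

namespace H475
open Module






noncomputable def finrank_K00_R {n : ℕ} [NeZero n] (k : ℕ) :
    (UU n →ₗ[ℂ] (UU n) [⋀^Fin (k+1)]→ₗ[ℂ] ℂ) →ₗ[ℂ]
      (Z0 (ZMod n) →ₗ[ℂ] (Z0 (ZMod n)) [⋀^Fin (k+1)]→ₗ[ℂ] ℂ) where
  toFun B :=
    { toFun := fun u => (B (u, 0)).compLinearMap (LinearMap.inl ℂ (Z0 (ZMod n)) (Z0 (Fin 3)))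
      map_add' := by
        intro u v
        have : ((u + v, 0) : UU n) = (u, 0) + (v, 0) := by simp
        rw [this, map_add]
        ext x
        simp
      map_smul' := by
        intro c u
        have : ((c • u, 0) : UU n) = c • (u, 0) := by simp
        rw [this, map_smul]
        ext x
        simp }
  map_add' := by intro A B; ext u x; simp
  map_smul' := by intro c A; ext u x; simp

theorem finrank_K00_R_apply {n : ℕ} [NeZero n] (k : ℕ)
    (B : UU n →ₗ[ℂ] (UU n) [⋀^Fin (k+1)]→ₗ[ℂ] ℂ) (u : Z0 (ZMod n))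
    (x : Fin (k+1) → Z0 (ZMod n)) :
    finrank_K00_R k B u x = B (u, 0) (fun j => (x j, 0)) := rfl

theorem finrank_K00_red {n : ℕ} [NeZero n] (ω : ZMod n) (k : ℕ)
    (B : UU n →ₗ[ℂ] (UU n) [⋀^Fin (k+1)]→ₗ[ℂ] ℂ) (hB : B ∈ K00 ω k) (x : Fin (k+2) → UU n) :
    B (x 0) (fun j => x j.succ) = B ((x 0).1, 0) (fun j => ((x j.succ).1, 0)) := by
  classical
  have h := (toMul (UU n) k B).map_add_univ (fun i => ((x i).1, (0 : Z0 (Fin 3))))
    (fun i => ((0 : Z0 (ZMod n)), (x i).2))
  have e : ((fun i => ((x i).1, (0 : Z0 (Fin 3)))) + fun i => ((0 : Z0 (ZMod n)), (x i).2)) = x := by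
    funext i
    simp
  rw [e] at h
  rw [toMul_apply] at h
  rw [h, Finset.sum_eq_single Finset.univ]
  · rw [Finset.piecewise_univ, toMul_apply]
  · intro s _ hs
    obtain ⟨i, hi⟩ : ∃ i, i ∉ s := by
      by_contra hcon
      push Not at hcon
      exact hs (Finset.eq_univ_iff_forall.2 hcon)
    rw [toMul_apply]
    apply hB.2
    refine ⟨i, ?_⟩
    rw [Finset.piecewise_eq_of_notMem _ _ _ hi]
  · intro h; exact absurd (Finset.mem_univ _) h

theorem finrank_K00_Z0 {n : ℕ} [NeZero n] : finrank ℂ (Z0 (ZMod n)) = n - 1 := by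
  classical
  have h := (sumL (ZMod n)).finrank_range_add_finrank_ker
  have hs : LinearMap.range (sumL (ZMod n)) = ⊤ := by
    rw [LinearMap.range_eq_top]
    intro c
    refine ⟨Pi.single 0 c, ?_⟩
    simp [sumL]
  rw [hs, finrank_top, finrank_self, finrank_fintype_fun_eq_card, ZMod.card] at h
  change 1 + finrank ℂ (Z0 (ZMod n)) = n at h
  omega

theorem finrank_K00 {n : ℕ} [NeZero n] (ω : ZMod n) (k : ℕ) :
    finrank ℂ (K00 ω k) + (n-1).choose (k+2) ≤ finrank ℂ (KP (Adj ω) k) := by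
  classical
  have hS : ∀ A : (Z0 (ZMod n)) [⋀^Fin (k+2)]→ₗ[ℂ] ℂ, A.curryLeft ∈ KP (Adj ω) k := by
    intro A a b _ x
    rw [AlternatingMap.curryLeft_apply_apply]
    exact A.map_eq_zero_of_eq _ (i := 0) (j := 1) (by simp [Matrix.vecCons]) (by simp)
  rw [finrank_inf_Wsp k (KP (Adj ω) k) hS, finrank_K00_Z0]
  apply Nat.add_le_add_right
  have : FiniteDimensional ℂ ((Z0 (ZMod n)) [⋀^Fin (k+1)]→ₗ[ℂ] ℂ) :=
    (finrank_alt (Z0 (ZMod n)) (k+1)).1
  have hmem : ∀ B ∈ K00 ω k, finrank_K00_R k B ∈ KP (Adj ω) k ⊓ Wsp (Z0 (ZMod n)) k := by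
    intro B hB
    refine ⟨?_, ?_⟩
    · have key : ∀ (e : ZMod n × Fin 3) (x : Fin k → Z0 (ZMod n)),
          finrank_K00_R k B (node ω e).1 (Matrix.vecCons (node ω e).1 x) = 0 := by
        intro e x
        have h1 := hB.1.1 e (fun j => (x j, 0))
        have h2 := finrank_K00_red ω k B hB
          (Fin.cons (node ω e) (Matrix.vecCons (node ω e) (fun j => (x j, 0))))
        simp only [Fin.cons_zero, Fin.cons_succ] at h2
        rw [finrank_K00_R_apply]
        have h3 : (fun j => ((Matrix.vecCons (node ω e).1 x j, 0) : UU n)) =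
            fun j => ((Matrix.vecCons (node ω e) (fun j => ((x j, 0) : UU n)) j).1, 0) := by
          funext j
          refine Fin.cases ?_ (fun j => ?_) j
          · simp
          · simp
        rw [h3, ← h2]
        exact h1
      rintro a b ⟨i, hi⟩ x
      rcases hi with rfl | rfl
      · exact key (a, i) x
      · have h1 := key (b, i) x
        have h2 : dif b (b + ω ^ (i : ℕ)) = (-1 : ℂ) • (node ω (b, i)).1 := by
          apply Subtype.ext
          simp [node, dif]
        rw [h2, map_smul, AlternatingMap.smul_apply, AlternatingMap.map_vecCons_smul, h1]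
        simp
    · intro x
      have h1 := hB.1.2 (fun i => ((x i, 0) : UU n))
      simpa [finrank_K00_R_apply] using h1
  let f : K00 ω k →ₗ[ℂ] (KP (Adj ω) k ⊓ Wsp (Z0 (ZMod n)) k : Submodule ℂ _) :=
    ((finrank_K00_R k).comp (K00 ω k).subtype).codRestrict _ (fun B => hmem B.1 B.2)
  have hf : Function.Injective f := by
    rw [injective_iff_map_eq_zero]
    rintro ⟨B, hB⟩ h0
    have h1 : finrank_K00_R k B = 0 := congrArg Subtype.val h0
    apply Subtype.ext
    apply LinearMap.ext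
    intro u
    apply AlternatingMap.ext
    intro v
    have h2 := finrank_K00_red ω k B hB (Fin.cons u v)
    simp only [Fin.cons_zero, Fin.cons_succ] at h2
    change B u v = 0
    rw [h2]
    have h3 := finrank_K00_R_apply k B u.1 (fun j => (v j).1)
    rw [h1] at h3
    exact h3.symm
  exact LinearMap.finrank_le_finrank_of_injective hf

end H475
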