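import Pool.Agent.Helper475.Base

open scoped BigOperators

namespace H475
open Module

/-- apply `σ` to all values -/
noncomputable def galois_Inj_S {X : Type} [Fintype X] (σ : ℂ ≃+* ℂ) (v : Z0 X) : Z0 X :=
  ⟨fun a => σ ((v : X → ℂ) a), by
    have h := (mem_Z0 _).1 v.2
    rw [mem_Z0, ← map_sum, h, map_zero]⟩

noncomputable def galois_Inj_SU {n : ℕ} [NeZero n] (σ : ℂ ≃+* ℂ) (v : UU n) : UU n :=
  (galois_Inj_S σ v.1, galois_Inj_S σ v.2)

theorem galois_Inj_S_add {X : Type} [Fintype X] (σ : ℂ ≃+* ℂ) (v w : Z0 X) :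
    galois_Inj_S σ (v + w) = galois_Inj_S σ v + galois_Inj_S σ w := by
  apply Subtype.ext
  funext a
  simp [galois_Inj_S]

theorem galois_Inj_S_smul {X : Type} [Fintype X] (σ : ℂ ≃+* ℂ) (c : ℂ) (v : Z0 X) :
    galois_Inj_S σ (c • v) = σ c • galois_Inj_S σ v := by
  apply Subtype.ext
  funext a
  simp [galois_Inj_S]

theorem galois_Inj_S_symm {X : Type} [Fintype X] (σ : ℂ ≃+* ℂ) (v : Z0 X) :
    galois_Inj_S σ (galois_Inj_S σ.symm v) = v := by
  apply Subtype.ext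
  funext a
  simp [galois_Inj_S]

theorem galois_Inj_S_dif {X : Type} [Fintype X] [DecidableEq X] (σ : ℂ ≃+* ℂ) (x y : X) :
    galois_Inj_S σ (dif x y) = dif x y := by
  apply Subtype.ext
  funext a
  simp only [galois_Inj_S, dif, Pi.sub_apply, map_sub]
  congr 1
  · by_cases h : a = x
    · subst h; simp
    · simp [h]
  · by_cases h : a = y
    · subst h; simp
    · simp [h]

theorem galois_Inj_SU_add {n : ℕ} [NeZero n] (σ : ℂ ≃+* ℂ) (v w : UU n) :
    galois_Inj_SU σ (v + w) = galois_Inj_SU σ v + galois_Inj_SU σ w :=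
  Prod.ext (galois_Inj_S_add σ _ _) (galois_Inj_S_add σ _ _)

theorem galois_Inj_SU_smul {n : ℕ} [NeZero n] (σ : ℂ ≃+* ℂ) (c : ℂ) (v : UU n) :
    galois_Inj_SU σ (c • v) = σ c • galois_Inj_SU σ v :=
  Prod.ext (galois_Inj_S_smul σ _ _) (galois_Inj_S_smul σ _ _)

theorem galois_Inj_SU_symm {n : ℕ} [NeZero n] (σ : ℂ ≃+* ℂ) (v : UU n) :
    galois_Inj_SU σ (galois_Inj_SU σ.symm v) = v :=
  Prod.ext (galois_Inj_S_symm σ _) (galois_Inj_S_symm σ _)

theorem galois_Inj_SU_node {n : ℕ} [NeZero n] (ω : ZMod n) (σ : ℂ ≃+* ℂ) (e : ZMod n × Fin 3) :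
    galois_Inj_SU σ (node ω e) = node ω e :=
  Prod.ext (galois_Inj_S_dif σ _ _) (galois_Inj_S_dif σ _ _)

theorem galois_Inj_upd {n k : ℕ} [NeZero n] (σ : ℂ ≃+* ℂ) (x : Fin k → UU n) (i : Fin k)
    (v : UU n) [DecidableEq (Fin k)] : (fun j => galois_Inj_SU σ (Function.update x i v j)) =
      Function.update (fun j => galois_Inj_SU σ (x j)) i (galois_Inj_SU σ v) := by
  funext j
  by_cases h : j = i
  · subst h; simp
  · simp [Function.update_of_ne h]

/-- the conjugate form -/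
noncomputable def galois_Inj_B {n : ℕ} [NeZero n] (k : ℕ) (σ : ℂ ≃+* ℂ)
    (B : UU n →ₗ[ℂ] (UU n) [⋀^Fin (k+1)]→ₗ[ℂ] ℂ) : UU n →ₗ[ℂ] (UU n) [⋀^Fin (k+1)]→ₗ[ℂ] ℂ where
  toFun u :=
    { toFun := fun x => σ.symm (B (galois_Inj_SU σ u) (fun i => galois_Inj_SU σ (x i)))
      map_update_add' := by
        intro _ x i a b
        rw [galois_Inj_upd, galois_Inj_upd, galois_Inj_upd, galois_Inj_SU_add,
          AlternatingMap.map_update_add, map_add]
      map_update_smul' := by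
        intro _ x i c a
        rw [galois_Inj_upd, galois_Inj_upd, galois_Inj_SU_smul,
          AlternatingMap.map_update_smul, smul_eq_mul, map_mul, RingEquiv.symm_apply_apply,
          smul_eq_mul]
      map_eq_zero_of_eq' := by
        intro x i j hx hij
        rw [AlternatingMap.map_eq_zero_of_eq _ _ (by rw [hx]) hij, map_zero] }
  map_add' := by
    intro a b
    ext x
    change σ.symm (B (galois_Inj_SU σ (a + b)) _) = σ.symm (B (galois_Inj_SU σ a) _) +
      σ.symm (B (galois_Inj_SU σ b) _)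
    rw [galois_Inj_SU_add, map_add, AlternatingMap.add_apply, map_add]
  map_smul' := by
    intro c a
    ext x
    change σ.symm (B (galois_Inj_SU σ (c • a)) _) = c * σ.symm (B (galois_Inj_SU σ a) _)
    rw [galois_Inj_SU_smul, map_smul, AlternatingMap.smul_apply, smul_eq_mul, map_mul,
      RingEquiv.symm_apply_apply]

theorem galois_Inj_B_apply {n : ℕ} [NeZero n] (k : ℕ) (σ : ℂ ≃+* ℂ)
    (B : UU n →ₗ[ℂ] (UU n) [⋀^Fin (k+1)]→ₗ[ℂ] ℂ) (u : UU n) (x : Fin (k+1) → UU n) :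
    galois_Inj_B k σ B u x = σ.symm (B (galois_Inj_SU σ u) (fun i => galois_Inj_SU σ (x i))) := rfl

theorem galois_Inj_B_mem {n : ℕ} [NeZero n] (ω : ZMod n) (k : ℕ) (σ : ℂ ≃+* ℂ)
    (B : UU n →ₗ[ℂ] (UU n) [⋀^Fin (k+1)]→ₗ[ℂ] ℂ) (hB : B ∈ K0 ω k) :
    galois_Inj_B k σ B ∈ K0 ω k := by
  obtain ⟨h1, h2⟩ := hB
  refine ⟨?_, ?_⟩
  · intro e x
    rw [galois_Inj_B_apply]
    have hv : (fun i => galois_Inj_SU σ (Matrix.vecCons (node ω e) x i)) =
        Matrix.vecCons (node ω e) (fun i => galois_Inj_SU σ (x i)) := by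
      funext i
      refine Fin.cases ?_ (fun j => ?_) i
      · simp [galois_Inj_SU_node]
      · simp
    rw [hv, galois_Inj_SU_node, h1 e, map_zero]
  · intro x
    have h := h2 (fun i => galois_Inj_SU σ (x i))
    have h' := congrArg σ.symm h
    rw [map_sum, map_zero] at h'
    rw [← h']
    refine Finset.sum_congr rfl fun i _ => ?_
    rw [map_mul, map_pow, map_neg, map_one, galois_Inj_B_apply]

theorem galois_Inj {n : ℕ} [NeZero n] (ω : ZMod n) (k : ℕ) (σ : ℂ ≃+* ℂ) {J : Type} {d : ℕ}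
    (f f' : J → UU n)
    (hf1 : ∀ j a, ((f' j).1 : ZMod n → ℂ) a = σ (((f j).1 : ZMod n → ℂ) a))
    (hf2 : ∀ j i, ((f' j).2 : Fin 3 → ℂ) i = σ (((f j).2 : Fin 3 → ℂ) i))
    (y : Fin d → Fin (k+2) → J) (hy : Inj ((K0 ω k).map (toMul (UU n) k)) f y) :
    Inj ((K0 ω k).map (toMul (UU n) k)) f' y := by
  have hf : ∀ j, galois_Inj_SU σ (f j) = f' j := by
    intro j
    refine Prod.ext (Subtype.ext (funext fun a => ?_)) (Subtype.ext (funext fun a => ?_))
    · exact (hf1 j a).symm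
    · exact (hf2 j a).symm
  rintro τ' ⟨B', hB', rfl⟩ h0
  have key : ∀ x : Fin (k+2) → UU n, toMul (UU n) k (galois_Inj_B k σ B') x =
      σ.symm (toMul (UU n) k B' (fun i => galois_Inj_SU σ (x i))) := fun x => rfl
  have h1 := hy (toMul (UU n) k (galois_Inj_B k σ B'))
    ⟨_, galois_Inj_B_mem ω k σ B' hB', rfl⟩ (by
      intro i
      rw [key]
      simp only [hf]
      rw [h0 i, map_zero])
  ext x
  have h2 := key (fun i => galois_Inj_SU σ.symm (x i))
  rw [h1] at h2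
  simp only [galois_Inj_SU_symm, MultilinearMap.zero_apply] at h2 ⊢
  have h3 := congrArg σ h2
  rw [map_zero, RingEquiv.apply_symm_apply] at h3
  exact h3.symm

end H475
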