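import Pool.Agent.Helper475.Base

open scoped BigOperators

namespace H475
open Module


/-- Auxiliary: the sum over `y` factorises. -/
theorem kn_identity_aux1 {I J P : Type} [Fintype I] [Fintype J] [Fintype P]
    [DecidableEq I] [DecidableEq J] [DecidableEq P]
    (u : I → J → ℂ) (w : I → ℝ)
    (hu : ∀ j k, ∑ i, u i j * (starRingEnd ℂ) (u i k) = if j = k then 1 else 0)
    (p : P) (r r' : P → J) :
    ∑ y : P → I, (w (y p) : ℂ) * ∏ q, (u (y q) (r q) * (starRingEnd ℂ) (u (y q) (r' q))) =
      if (∀ q, q ≠ p → r q = r' q) then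
        ∑ i, (w i : ℂ) * (u i (r p) * (starRingEnd ℂ) (u i (r' p))) else 0 := by
  classical
  have h1 := Finset.prod_univ_sum (t := fun _ : P => (Finset.univ : Finset I))
    (f := fun q i => (if q = p then (w i : ℂ) else 1) *
      (u i (r q) * (starRingEnd ℂ) (u i (r' q))))
  rw [Fintype.piFinset_univ] at h1
  have h2 : ∀ y : P → I, ∏ q, ((if q = p then (w (y q) : ℂ) else 1) *
      (u (y q) (r q) * (starRingEnd ℂ) (u (y q) (r' q)))) =
      (w (y p) : ℂ) * ∏ q, (u (y q) (r q) * (starRingEnd ℂ) (u (y q) (r' q))) := by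
    intro y
    rw [Finset.prod_mul_distrib]
    congr 1
    rw [Finset.prod_ite_eq' Finset.univ p (fun q => (w (y q) : ℂ))]
    simp
  rw [Finset.sum_congr rfl (fun y _ => h2 y)] at h1
  rw [← h1, ← Finset.mul_prod_erase Finset.univ _ (Finset.mem_univ p)]
  have h3 : ∀ q ∈ Finset.univ.erase p, ∑ i, ((if q = p then (w i : ℂ) else 1) *
      (u i (r q) * (starRingEnd ℂ) (u i (r' q)))) = if r q = r' q then 1 else 0 := by
    intro q hq
    rw [← hu (r q) (r' q)]
    refine Finset.sum_congr rfl fun i _ => ?_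
    rw [if_neg (Finset.ne_of_mem_erase hq), one_mul]
  rw [Finset.prod_congr rfl h3]
  by_cases h : ∀ q, q ≠ p → r q = r' q
  · rw [if_pos h, Finset.prod_eq_one, mul_one]
    · exact Finset.sum_congr rfl fun i _ => by simp
    · intro q hq
      rw [if_pos (h q (Finset.ne_of_mem_erase hq))]
  · rw [if_neg h]
    push Not at h
    obtain ⟨q, hq, hne⟩ := h
    rw [Finset.prod_eq_zero (i := q) (by simp [hq]) (by rw [if_neg hne]), mul_zero]

theorem kn_identity_aux2 {J P : Type} [Fintype J] [Fintype P]
    [DecidableEq J] [DecidableEq P] (p : P) (r : P → J) (F : (P → J) → ℂ) :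
    ∑ r' : P → J, (if (∀ q, q ≠ p → r q = r' q) then F r' else 0) =
      ∑ k : J, F (Function.update r p k) := by
  classical
  rw [← Finset.sum_filter]
  symm
  refine Finset.sum_nbij (fun k => Function.update r p k) ?_ ?_ ?_ ?_
  · intro k _
    simp only [Finset.mem_filter, Finset.mem_univ, true_and]
    intro q hq
    rw [Function.update_of_ne hq]
  · intro k _ k' _ hkk
    have := congrFun hkk p
    simpa using this
  · intro r' hr'
    simp only [Finset.coe_filter, Finset.mem_univ, true_and, Set.mem_setOf_eq] at hr'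
    refine ⟨r' p, by simp, ?_⟩
    funext q
    by_cases hq : q = p
    · subst hq; simp
    · simp only [Function.update_of_ne hq]
      exact hr' q hq
  · intro k _
    rfl

theorem kn_identity {I J P : Type} [Fintype I] [Fintype J] [Fintype P]
    [DecidableEq I] [DecidableEq J] [DecidableEq P]
    (X : (P → J) → ℂ) (u : I → J → ℂ) (w : I → ℝ) (κ : ℂ)
    (hu : ∀ j k, ∑ i, u i j * (starRingEnd ℂ) (u i k) = if j = k then 1 else 0)
    (hu' : ∀ i, ∑ j, u i j * (starRingEnd ℂ) (u i j) = 1)
    (hm : ∀ j k, ∑ p : P, ∑ r ∈ Finset.univ.filter (fun r : P → J => r p = j),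
      X r * (starRingEnd ℂ) (X (Function.update r p k)) = if j = k then κ else 0)
    (hw : ∑ i, w i = 0) :
    ∑ y : P → I, (‖∑ r : P → J, (∏ p, u (y p) (r p)) * X r‖ ^ 2 * ∑ p, w (y p)) = 0 := by
  classical
  set H : J → J → ℂ := fun j k => ∑ i, (w i : ℂ) * (u i j * (starRingEnd ℂ) (u i k)) with hH
  have key : (((∑ y : P → I, (‖∑ r : P → J, (∏ p, u (y p) (r p)) * X r‖ ^ 2 * ∑ p, w (y p)) : ℝ)) : ℂ)
      = 0 := by
    push_cast
    have e1 : ∀ y : P → I,
        (((‖∑ r : P → J, (∏ p, u (y p) (r p)) * X r‖ : ℝ) : ℂ)) ^ 2 * ∑ p, ((w (y p) : ℝ) : ℂ) =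
        ∑ p : P, ∑ r : P → J, ∑ r' : P → J, (X r * (starRingEnd ℂ) (X r')) *
          ((w (y p) : ℂ) * ∏ q, (u (y q) (r q) * (starRingEnd ℂ) (u (y q) (r' q)))) := by
      intro y
      rw [← Complex.mul_conj', map_sum, Finset.sum_mul_sum, Finset.mul_sum]
      refine Finset.sum_congr rfl fun p _ => ?_
      rw [Finset.sum_mul]
      refine Finset.sum_congr rfl fun r _ => ?_
      rw [Finset.sum_mul]
      refine Finset.sum_congr rfl fun r' _ => ?_
      rw [Finset.prod_mul_distrib, map_mul, map_prod]
      ring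
    rw [Finset.sum_congr rfl (fun y _ => e1 y), Finset.sum_comm]
    have e2 : ∀ p : P, (∑ y : P → I, ∑ r : P → J, ∑ r' : P → J, (X r * (starRingEnd ℂ) (X r')) *
          ((w (y p) : ℂ) * ∏ q, (u (y q) (r q) * (starRingEnd ℂ) (u (y q) (r' q))))) =
        ∑ r : P → J, ∑ k : J, H (r p) k * (X r * (starRingEnd ℂ) (X (Function.update r p k))) := by
      intro p
      rw [Finset.sum_comm]
      refine Finset.sum_congr rfl fun r _ => ?_
      rw [Finset.sum_comm]
      have e3 : ∀ r' : P → J, (∑ y : P → I, (X r * (starRingEnd ℂ) (X r')) *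
          ((w (y p) : ℂ) * ∏ q, (u (y q) (r q) * (starRingEnd ℂ) (u (y q) (r' q))))) =
          if (∀ q, q ≠ p → r q = r' q) then
            H (r p) (r' p) * (X r * (starRingEnd ℂ) (X r')) else 0 := by
        intro r'
        rw [← Finset.mul_sum, kn_identity_aux1 u w hu p r r']
        split_ifs
        · rw [mul_comm]
        · rw [mul_zero]
      rw [Finset.sum_congr rfl (fun r' _ => e3 r'),
        kn_identity_aux2 p r (fun r' => H (r p) (r' p) * (X r * (starRingEnd ℂ) (X r')))]
      refine Finset.sum_congr rfl fun k _ => ?_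
      rw [Function.update_self]
    rw [Finset.sum_congr rfl (fun p _ => e2 p)]
    have e4 : ∀ p : P, (∑ r : P → J, ∑ k : J,
        H (r p) k * (X r * (starRingEnd ℂ) (X (Function.update r p k)))) =
        ∑ j : J, ∑ k : J, H j k * ∑ r ∈ Finset.univ.filter (fun r : P → J => r p = j),
          X r * (starRingEnd ℂ) (X (Function.update r p k)) := by
      intro p
      rw [← Finset.sum_fiberwise Finset.univ (fun r : P → J => r p)]
      refine Finset.sum_congr rfl fun j _ => ?_
      rw [Finset.sum_comm]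
      refine Finset.sum_congr rfl fun k _ => ?_
      rw [Finset.mul_sum]
      refine Finset.sum_congr rfl fun r hr => ?_
      rw [(Finset.mem_filter.mp hr).2]
    rw [Finset.sum_congr rfl (fun p _ => e4 p), Finset.sum_comm]
    have e5 : ∀ j : J, (∑ p : P, ∑ k : J, H j k *
        ∑ r ∈ Finset.univ.filter (fun r : P → J => r p = j),
          X r * (starRingEnd ℂ) (X (Function.update r p k))) = H j j * κ := by
      intro j
      rw [Finset.sum_comm]
      have : ∀ k : J, (∑ p : P, H j k * ∑ r ∈ Finset.univ.filter (fun r : P → J => r p = j),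
          X r * (starRingEnd ℂ) (X (Function.update r p k))) =
          if j = k then H j k * κ else 0 := by
        intro k
        rw [← Finset.mul_sum, hm j k]
        split_ifs <;> simp
      rw [Finset.sum_congr rfl (fun k _ => this k)]
      simp
    rw [Finset.sum_congr rfl (fun j _ => e5 j), ← Finset.sum_mul]
    have e6 : ∑ j, H j j = 0 := by
      simp only [hH]
      rw [Finset.sum_comm]
      have : ∀ i : I, (∑ j : J, (w i : ℂ) * (u i j * (starRingEnd ℂ) (u i j))) = (w i : ℂ) := by
        intro i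
        rw [← Finset.mul_sum, hu' i, mul_one]
      rw [Finset.sum_congr rfl (fun i _ => this i)]
      rw [← Complex.ofReal_sum, hw, Complex.ofReal_zero]
    rw [e6, zero_mul]
  exact_mod_cast key

end H475
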