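import Pool.Agent.Helper475.Base
import Pool.Agent.Helper475.DactMemOfConst
import Pool.Agent.Helper475.ExistsDetForm
import Pool.Agent.Helper475.KnIdentity
import Pool.Agent.Helper475.ExistsCritical
import Pool.Agent.Helper475.ExistsUnitaryFlag

open scoped BigOperators

namespace H475
open Module






/-- reindexing of `m`. -/
theorem kempf_ness_reindex {J P : Type} [Fintype J] [Fintype P] [DecidableEq J] [DecidableEq P]
    (X : (P → J) → ℂ) (π : Equiv.Perm J) (j k : J) :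
    ∑ p : P, ∑ r ∈ Finset.univ.filter (fun r : P → J => r p = π j),
      X r * (starRingEnd ℂ) (X (Function.update r p (π k))) =
    ∑ p : P, ∑ r ∈ Finset.univ.filter (fun r : P → J => r p = j),
      X (fun q => π (r q)) * (starRingEnd ℂ) (X (fun q => π (Function.update r p k q))) := by
  refine Finset.sum_congr rfl fun p _ => ?_
  symm
  refine Finset.sum_bij (fun r _ => fun q => π (r q)) ?_ ?_ ?_ ?_
  · intro r hr
    simp only [Finset.mem_filter, Finset.mem_univ, true_and] at hr ⊢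
    rw [hr]
  · intro r _ r' _ h
    funext q
    exact π.injective (congrFun h q)
  · intro r hr
    refine ⟨fun q => π.symm (r q), ?_, ?_⟩
    · simp only [Finset.mem_filter, Finset.mem_univ, true_and] at hr ⊢
      rw [hr]; simp
    · funext q; simp
  · intro r _
    congr 3
    funext q
    by_cases hq : q = p
    · subst hq; simp
    · simp [Function.update_of_ne hq]

/-- transformation law of `m`. -/
theorem kempf_ness_transform {J P : Type} [Fintype J] [Fintype P] [DecidableEq J] [DecidableEq P]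
    (X : (P → J) → ℂ) (π : Equiv.Perm J) (φ : J → ℂ) (κ : ℂ) (hφ : ∀ i, ‖φ i‖ = 1)
    (hκ : ‖κ‖ = 1) (hX : ∀ r : P → J, (∏ p, φ (r p)) * X (fun q => π (r q)) = κ * X r) (j k : J) :
    (φ j * (starRingEnd ℂ) (φ k)) * (∑ p : P, ∑ r ∈ Finset.univ.filter (fun r : P → J => r p = π j),
      X r * (starRingEnd ℂ) (X (Function.update r p (π k)))) =
    ∑ p : P, ∑ r ∈ Finset.univ.filter (fun r : P → J => r p = j),
      X r * (starRingEnd ℂ) (X (Function.update r p k)) := by
  have hn : ∀ z : ℂ, ‖z‖ = 1 → z * (starRingEnd ℂ) z = 1 := by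
    intro z hz
    rw [Complex.mul_conj, Complex.normSq_eq_norm_sq, hz]; simp
  rw [kempf_ness_reindex, Finset.mul_sum]
  refine Finset.sum_congr rfl fun p _ => ?_
  rw [Finset.mul_sum]
  refine Finset.sum_congr rfl fun r hr => ?_
  simp only [Finset.mem_filter, Finset.mem_univ, true_and] at hr
  have h1 := hX r
  have h2 := hX (Function.update r p k)
  have e1 : ∏ q, φ (r q) = φ j * ∏ q ∈ Finset.univ.erase p, φ (r q) := by
    rw [← Finset.mul_prod_erase Finset.univ _ (Finset.mem_univ p), hr]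
  have e2 : ∏ q, φ (Function.update r p k q) = φ k * ∏ q ∈ Finset.univ.erase p, φ (r q) := by
    rw [← Finset.mul_prod_erase Finset.univ _ (Finset.mem_univ p)]
    simp only [Function.update_self]
    congr 1
    refine Finset.prod_congr rfl fun q hq => ?_
    rw [Function.update_of_ne (Finset.ne_of_mem_erase hq)]
  rw [e1] at h1
  rw [e2] at h2
  set A := ∏ q ∈ Finset.univ.erase p, φ (r q) with hA
  have hAn : A * (starRingEnd ℂ) A = 1 := by
    apply hn
    rw [hA, norm_prod]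
    exact Finset.prod_eq_one fun q _ => hφ _
  have h3 := congrArg (starRingEnd ℂ) h2
  simp only [map_mul] at h3
  have hκn := hn κ hκ
  set Y := X (fun q => π (r q)) with hY
  set Z := (starRingEnd ℂ) (X (fun q => π (Function.update r p k q))) with hZ
  set U := X r with hU
  set V := (starRingEnd ℂ) (X (Function.update r p k)) with hV
  calc φ j * (starRingEnd ℂ) (φ k) * (Y * Z)
      = (φ j * (starRingEnd ℂ) (φ k) * (Y * Z)) * (A * (starRingEnd ℂ) A) := by rw [hAn, mul_one]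
    _ = (φ j * A * Y) * ((starRingEnd ℂ) (φ k) * (starRingEnd ℂ) A * Z) := by ring
    _ = (κ * U) * ((starRingEnd ℂ) κ * V) := by rw [h1, h3]
    _ = (κ * (starRingEnd ℂ) κ) * (U * V) := by ring
    _ = U * V := by rw [hκn, one_mul]


/-- preservation of norms of `κ`. -/
theorem kempf_ness_kappa {J P : Type} [Fintype J] [Fintype P] [DecidableEq J] [DecidableEq P]
    (X : (P → J) → ℂ) (π : Equiv.Perm J) (φ : J → ℂ) (κ : ℂ) (hφ : ∀ i, ‖φ i‖ = 1)
    (hX : ∀ r : P → J, (∏ p, φ (r p)) * X (fun q => π (r q)) = κ * X r) (r₀ : P → J)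
    (h0 : X r₀ ≠ 0) : ‖κ‖ = 1 := by
  have h1 : ∀ r : P → J, ‖X (fun q => π (r q))‖ ^ 2 = ‖κ‖ ^ 2 * ‖X r‖ ^ 2 := by
    intro r
    have := congrArg norm (hX r)
    rw [norm_mul, norm_mul, norm_prod, Finset.prod_eq_one fun q _ => hφ _, one_mul] at this
    rw [this]; ring
  have h2 : ∑ r : P → J, ‖X (fun q => π (r q))‖ ^ 2 = ∑ r : P → J, ‖X r‖ ^ 2 :=
    Equiv.sum_comp (Equiv.arrowCongr (Equiv.refl P) π) (fun r : P → J => ‖X r‖ ^ 2)
  simp only [h1] at h2
  rw [← Finset.mul_sum] at h2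
  have h3 : 0 < ∑ r : P → J, ‖X r‖ ^ 2 := by
    refine Finset.sum_pos' (fun r _ => by positivity) ⟨r₀, Finset.mem_univ _, ?_⟩
    have := norm_pos_iff.2 h0
    positivity
  have h4 : ‖κ‖ ^ 2 = 1 := by
    have : (‖κ‖ ^ 2 - 1) * ∑ r : P → J, ‖X r‖ ^ 2 = 0 := by linarith
    rcases mul_eq_zero.1 this with h | h
    · linarith
    · exact absurd h h3.ne'
  have h5 : 0 ≤ ‖κ‖ := norm_nonneg _
  nlinarith

/-- Steps 1 to 3. -/
theorem kempf_ness_balance {J P : Type} [Fintype J] [Fintype P] [DecidableEq J] [DecidableEq P]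
    (X : (P → J) → ℂ) (Sym : Set (Equiv.Perm J × (J → ℂ)))
    (hφ : ∀ σ ∈ Sym, ∀ i, ‖σ.2 i‖ = 1)
    (hX : ∀ σ ∈ Sym, ∃ κ : ℂ, ∀ r : P → J, (∏ p, σ.2 (r p)) * X (fun q => σ.1 (r q)) = κ * X r)
    (hsep : ∀ j k, j ≠ k → ∃ σ ∈ Sym, σ.1 j = j ∧ σ.1 k = k ∧ σ.2 j ≠ σ.2 k)
    (r₀ : P → J) (h0 : X r₀ ≠ 0)
    (hT : ∀ w : J → ℝ, w ≠ 0 → ∑ j, w j = 0 → ∃ r : P → J, X r ≠ 0 ∧ ∑ p, w (r p) < 0) :
    ∃ (s : J → ℝ) (μ : ℂ), ∀ j k, ∑ p : P, ∑ r ∈ Finset.univ.filter (fun r : P → J => r p = j),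
      ((Real.exp (∑ q, s (r q)) : ℂ) * X r) *
        (starRingEnd ℂ) ((Real.exp (∑ q, s (Function.update r p k q)) : ℂ) *
          X (Function.update r p k)) = if j = k then μ else 0 := by
  let S : Submodule ℝ (J → ℝ) :=
    { carrier := {s | ∑ j, s j = 0 ∧ ∀ σ ∈ Sym, ∀ i, s (σ.1 i) = s i}
      zero_mem' := ⟨by simp, fun _ _ _ => rfl⟩
      add_mem' := by
        rintro a b ⟨ha, ha'⟩ ⟨hb, hb'⟩
        refine ⟨by simp [Finset.sum_add_distrib, ha, hb], fun σ hσ i => ?_⟩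
        simp [ha' σ hσ i, hb' σ hσ i]
      smul_mem' := by
        rintro c a ⟨ha, ha'⟩
        refine ⟨by simp [← Finset.mul_sum, ha], fun σ hσ i => ?_⟩
        simp [ha' σ hσ i] }
  obtain ⟨s, hs, hcrit⟩ := exists_critical (fun r => ‖X r‖ ^ 2) (fun r => by positivity) S (by
    intro w hw hw0
    obtain ⟨r, hr, hr'⟩ := hT w hw0 hw.1
    refine ⟨r, ?_, hr'⟩
    have := norm_pos_iff.2 hr
    positivity)
  set X' : (P → J) → ℂ := fun r => (Real.exp (∑ q, s (r q)) : ℂ) * X r with hX'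
  have hX'0 : X' r₀ ≠ 0 := by
    simp only [hX']
    exact mul_ne_zero (by exact_mod_cast (Real.exp_pos _).ne') h0
  have hnorm : ∀ r, ‖X' r‖ ^ 2 = ‖X r‖ ^ 2 * Real.exp (2 * ∑ p, s (r p)) := by
    intro r
    simp only [hX', norm_mul, Complex.norm_real, Real.norm_eq_abs, abs_of_pos (Real.exp_pos _)]
    rw [mul_pow, two_mul, Real.exp_add]
    ring
  have hX'sym : ∀ σ ∈ Sym, ∃ κ : ℂ, ‖κ‖ = 1 ∧ ∀ r : P → J,
      (∏ p, σ.2 (r p)) * X' (fun q => σ.1 (r q)) = κ * X' r := by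
    intro σ hσ
    obtain ⟨κ, hκ⟩ := hX σ hσ
    have h1 : ∀ r : P → J, (∏ p, σ.2 (r p)) * X' (fun q => σ.1 (r q)) = κ * X' r := by
      intro r
      simp only [hX', hs.2 σ hσ]
      linear_combination (Real.exp (∑ q, s (r q)) : ℂ) * hκ r
    exact ⟨κ, kempf_ness_kappa X' σ.1 σ.2 κ (hφ σ hσ) h1 r₀ hX'0, h1⟩
  set m : J → J → ℂ := fun j k => ∑ p : P, ∑ r ∈ Finset.univ.filter (fun r : P → J => r p = j),
    X' r * (starRingEnd ℂ) (X' (Function.update r p k)) with hm
  have htrans : ∀ σ ∈ Sym, ∀ j k, (σ.2 j * (starRingEnd ℂ) (σ.2 k)) * m (σ.1 j) (σ.1 k) = m j k := by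
    intro σ hσ j k
    obtain ⟨κ, hκ, h⟩ := hX'sym σ hσ
    exact kempf_ness_transform X' σ.1 σ.2 κ (hφ σ hσ) hκ h j k
  have hn : ∀ z : ℂ, ‖z‖ = 1 → z * (starRingEnd ℂ) z = 1 := by
    intro z hz
    rw [Complex.mul_conj, Complex.normSq_eq_norm_sq, hz]; simp
  have hoff : ∀ j k, j ≠ k → m j k = 0 := by
    intro j k hjk
    obtain ⟨σ, hσ, hj, hk, hne⟩ := hsep j k hjk
    have h := htrans σ hσ j k
    rw [hj, hk] at h
    by_contra hmne
    apply hne
    have h1 : (σ.2 j * (starRingEnd ℂ) (σ.2 k)) = 1 := by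
      have : ((σ.2 j * (starRingEnd ℂ) (σ.2 k)) - 1) * m j k = 0 := by
        linear_combination h
      rcases mul_eq_zero.1 this with h' | h'
      · linear_combination h'
      · exact absurd h' hmne
    have h2 := hn _ (hφ σ hσ k)
    calc σ.2 j = σ.2 j * (σ.2 k * (starRingEnd ℂ) (σ.2 k)) := by rw [h2, mul_one]
      _ = (σ.2 j * (starRingEnd ℂ) (σ.2 k)) * σ.2 k := by ring
      _ = σ.2 k := by rw [h1, one_mul]
  set n : J → ℝ := fun j => ∑ p : P, ∑ r ∈ Finset.univ.filter (fun r : P → J => r p = j),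
    ‖X' r‖ ^ 2 with hnn
  have hdiag : ∀ j, m j j = (n j : ℂ) := by
    intro j
    simp only [hm, hnn]
    push_cast
    refine Finset.sum_congr rfl fun p _ => Finset.sum_congr rfl fun r hr => ?_
    simp only [Finset.mem_filter, Finset.mem_univ, true_and] at hr
    rw [← hr, Function.update_eq_self, Complex.mul_conj, Complex.normSq_eq_norm_sq]
    push_cast
    rfl
  have hninv : ∀ σ ∈ Sym, ∀ j, n (σ.1 j) = n j := by
    intro σ hσ j
    have h := htrans σ hσ j j
    rw [hn _ (hφ σ hσ j), one_mul, hdiag, hdiag] at h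
    exact_mod_cast h
  have hwn : ∀ w : J → ℝ, ∑ r : P → J, ‖X' r‖ ^ 2 * ∑ p, w (r p) = ∑ j, w j * n j := by
    intro w
    simp only [hnn, Finset.mul_sum]
    rw [Finset.sum_comm]
    rw [Finset.sum_comm (s := (Finset.univ : Finset J))]
    refine Finset.sum_congr rfl fun p _ => ?_
    rw [← Finset.sum_fiberwise (s := (Finset.univ : Finset (P → J))) (g := fun r => r p)]
    refine Finset.sum_congr rfl fun j _ => Finset.sum_congr rfl fun r hr => ?_
    simp only [Finset.mem_filter, Finset.mem_univ, true_and] at hr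
    rw [hr]; ring
  rcases isEmpty_or_nonempty J with hJ | hJ
  · exact ⟨s, 0, fun j => hJ.elim j⟩
  set μ : ℝ := (∑ j, n j) / Fintype.card J with hμ
  have hcard : (Fintype.card J : ℝ) ≠ 0 := by
    exact_mod_cast Fintype.card_ne_zero
  have hwS : (fun j => n j - μ) ∈ S := by
    refine ⟨?_, fun σ hσ i => ?_⟩
    · rw [Finset.sum_sub_distrib]
      simp only [Finset.sum_const, Finset.card_univ, nsmul_eq_mul, hμ]
      field_simp
      ring
    · simp [hninv σ hσ i]
  have hc := hcrit _ hwS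
  simp only [← hnorm] at hc
  have hc' := hwn (fun j => n j - μ)
  rw [hc] at hc'
  have hsum : ∑ j, (n j - μ) = 0 := hwS.1
  have hsq : ∑ j, (n j - μ) ^ 2 = 0 := by
    have : ∑ j, (n j - μ) ^ 2 = ∑ j, (n j - μ) * n j - μ * ∑ j, (n j - μ) := by
      rw [Finset.mul_sum, ← Finset.sum_sub_distrib]
      exact Finset.sum_congr rfl fun j _ => by ring
    rw [this, ← hc', hsum]; ring
  have hall : ∀ j, n j = μ := by
    intro j
    have := (Finset.sum_eq_zero_iff_of_nonneg (fun j _ => sq_nonneg (n j - μ))).1 hsq j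
      (Finset.mem_univ _)
    have := pow_eq_zero_iff (two_ne_zero) |>.1 this
    linarith
  refine ⟨s, (μ : ℂ), fun j k => ?_⟩
  by_cases hjk : j = k
  · subst hjk
    rw [if_pos rfl]
    have := hdiag j
    rw [hall j] at this
    exact this
  · rw [if_neg hjk]
    exact hoff j k hjk


/-- expansion of a multilinear form along a change of family. -/
theorem kempf_ness_expand {M I J P : Type} [AddCommGroup M] [Module ℂ M] [Fintype J] [Fintype P]
    [DecidableEq J] [DecidableEq P]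
    (X : MultilinearMap ℂ (fun _ : P => M) ℂ) (e : I → M) (f : J → M) (u : I → J → ℂ)
    (h : ∀ i, e i = ∑ j, u i j • f j) (y : P → I) :
    X (fun p => e (y p)) = ∑ r : P → J, (∏ p, u (y p) (r p)) * X (fun p => f (r p)) := by
  have h1 : (fun p => e (y p)) = fun p => ∑ j, u (y p) j • f j := by
    funext p; exact h (y p)
  rw [h1, MultilinearMap.map_sum]
  refine Finset.sum_congr rfl fun r _ => ?_
  rw [MultilinearMap.map_smul_univ]
  rfl

theorem kempf_ness_flag {M : Type} [AddCommGroup M] [Module ℂ M] {g : ℕ}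
    (b : Basis (Fin g) ℂ M) (w : Fin g → ℝ) (i : Fin g) (x : M)
    (hx : x ∈ Submodule.span ℂ {x | ∃ k, w k ≤ w i ∧ x = b k}) (k : Fin g)
    (hk : b.repr x k ≠ 0) : w k ≤ w i := by
  have h1 : {x | ∃ k, w k ≤ w i ∧ x = b k} = b '' {k | w k ≤ w i} := by
    ext y
    constructor
    · rintro ⟨k, hk, rfl⟩
      exact ⟨k, hk, rfl⟩
    · rintro ⟨k, hk, rfl⟩
      exact ⟨k, hk, rfl⟩
  rw [h1, Basis.mem_span_image] at hx
  exact hx (by simpa using hk)

theorem kempf_ness {M J : Type} [AddCommGroup M] [Module ℂ M] [FiniteDimensional ℂ M]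
    [Fintype J] [DecidableEq J] {r : ℕ}
    (K : Submodule ℂ (MultilinearMap ℂ (fun _ : Fin r => M) ℂ)) (f : Basis J ℂ M)
    (hsym : ∀ j k, j ≠ k → ∃ (L : M →ₗ[ℂ] M) (π : Equiv.Perm J) (φ : J → ℂ),
      (∀ i, ‖φ i‖ = 1) ∧ (∀ i, L (f i) = φ i • f (π i)) ∧
      (∀ τ ∈ K, τ.compLinearMap (fun _ => L) ∈ K) ∧ π j = j ∧ π k = k ∧ φ j ≠ φ k)
    (hT : ∀ w : J → ℝ, w ≠ 0 → ∑ j, w j = 0 →
      ∃ y : Fin (finrank ℂ K) → Fin r → J, Inj K f y ∧ ∑ i, ∑ m, w (y i m) < 0)
    (hS : ∀ ξ : M →ₗ[ℂ] M, (∀ τ ∈ K, Dact ξ τ ∈ K) → ∃ c : ℂ, ξ = c • LinearMap.id)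
    {g : ℕ} (b : Basis (Fin g) ℂ M) (w : Fin g → ℝ) (hw : w ≠ 0) (hw0 : ∑ i, w i = 0) :
    ∃ y : Fin (finrank ℂ K) → Fin r → Fin g, Inj K b y ∧ ∑ i, ∑ m, w (y i m) < 0 := by
  classical
  obtain ⟨X, hX1, hX2⟩ := exists_det_form K
  have hInj : ∀ {I : Type} (F : I → M) (y : Fin (finrank ℂ K) × Fin r → I),
      X (fun p => F (y p)) ≠ 0 ↔ Inj K F (fun i m => y (i, m)) := by
    intro I F y
    exact hX1 _
  have hsum : ∀ {I : Type} (v : I → ℝ) (y : Fin (finrank ℂ K) × Fin r → I),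
      ∑ p, v (y p) = ∑ i, ∑ m, v (y (i, m)) := by
    intro I v y
    rw [Fintype.sum_prod_type]
  -- nonvanishing
  have hcard : Fintype.card J = g := by
    have := Module.finrank_eq_card_basis f
    have h2 := Module.finrank_eq_card_basis b
    simp at h2
    omega
  have hg : 2 ≤ g := by
    by_contra hlt
    apply hw
    have hsub : Subsingleton (Fin g) := by
      rw [← Fintype.card_le_one_iff_subsingleton]; simp; omega
    funext i
    have : ∑ j, w j = w i := by
      rw [Fintype.sum_subsingleton _ i]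
    rw [← this, hw0]; rfl
  have hT' : ∀ v : J → ℝ, v ≠ 0 → ∑ j, v j = 0 →
      ∃ r : Fin (finrank ℂ K) × Fin r → J, X (fun p => f (r p)) ≠ 0 ∧ ∑ p, v (r p) < 0 := by
    intro v hv hv0
    obtain ⟨y, hy, hy'⟩ := hT v hv hv0
    refine ⟨fun p => y p.1 p.2, (hInj f _).2 hy, ?_⟩
    rw [hsum]
    exact hy'
  obtain ⟨r₀, hr₀⟩ : ∃ r : Fin (finrank ℂ K) × Fin r → J, X (fun p => f (r p)) ≠ 0 := by
    have : 1 < Fintype.card J := by omega
    obtain ⟨j0, j1, hne⟩ := Fintype.exists_pair_of_one_lt_card this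
    obtain ⟨r, hr, _⟩ := hT' (Pi.single j0 1 - Pi.single j1 1) (by
      intro h
      have := congrFun h j0
      simp [hne] at this) (by simp [Finset.sum_sub_distrib])
    exact ⟨r, hr⟩
  -- symmetries
  let Sym : Set (Equiv.Perm J × (J → ℂ)) := {σ | ∃ L : M →ₗ[ℂ] M, (∀ i, ‖σ.2 i‖ = 1) ∧
    (∀ i, L (f i) = σ.2 i • f (σ.1 i)) ∧ (∀ τ ∈ K, τ.compLinearMap (fun _ => L) ∈ K)}
  obtain ⟨s, μ, hbal⟩ := kempf_ness_balance (fun r : Fin (finrank ℂ K) × Fin r → J =>
      X (fun p => f (r p))) Sym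
    (by rintro σ ⟨L, h, _⟩; exact h)
    (by
      rintro σ ⟨L, h, hL, hK⟩
      obtain ⟨κ, hκ⟩ := hX2 L hK
      refine ⟨κ, fun r => ?_⟩
      rw [← hκ]
      simp only [hL]
      rw [MultilinearMap.map_smul_univ]
      rfl)
    (by
      intro j k hjk
      obtain ⟨L, π, φ, h1, h2, h3, h4, h5, h6⟩ := hsym j k hjk
      exact ⟨(π, φ), ⟨L, h1, h2, h3⟩, h4, h5, h6⟩)
    r₀ hr₀ hT'
  -- rescaled basis
  let f' : Basis J ℂ M := f.unitsSMul (fun j => Units.mk0 (Real.exp (s j) : ℂ)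
    (by exact_mod_cast (Real.exp_pos _).ne'))
  have hf' : ∀ j, f' j = (Real.exp (s j) : ℂ) • f j := by
    intro j
    simp only [f', Basis.unitsSMul_apply]
    rfl
  have hXf' : ∀ r : Fin (finrank ℂ K) × Fin r → J,
      X (fun p => f' (r p)) = (Real.exp (∑ q, s (r q)) : ℂ) * X (fun p => f (r p)) := by
    intro r
    simp only [hf']
    rw [MultilinearMap.map_smul_univ, Real.exp_sum]
    push_cast
    rfl
  obtain ⟨e, u, he, hu, hu', hflag⟩ := exists_unitary_flag f' b w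
  have hexp := fun y => kempf_ness_expand X (fun i => e i) (fun j => f' j) u he y
  have hkn := kn_identity (fun r : Fin (finrank ℂ K) × Fin r → J => X (fun p => f' (r p))) u w μ
    hu hu' (by
      intro j k
      have := hbal j k
      simp only [hXf']
      exact this) hw0
  simp only [← hexp] at hkn
  -- a tuple of `e` with negative weight
  obtain ⟨y, hy, hyw⟩ : ∃ y : Fin (finrank ℂ K) × Fin r → Fin g,
      X (fun p => e (y p)) ≠ 0 ∧ ∑ p, w (y p) < 0 := by
    by_contra hcon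
    push Not at hcon
    have hnn : ∀ y ∈ (Finset.univ : Finset (Fin (finrank ℂ K) × Fin r → Fin g)),
        0 ≤ ‖X (fun p => e (y p))‖ ^ 2 * ∑ p, w (y p) := by
      intro y _
      by_cases h : X (fun p => e (y p)) = 0
      · simp [h]
      · exact mul_nonneg (by positivity) (hcon y h)
    have hz := (Finset.sum_eq_zero_iff_of_nonneg hnn).1 hkn
    have hz' : ∀ y : Fin (finrank ℂ K) → Fin r → Fin g, Inj K e y →
        ∑ i, ∑ m, w (y i m) = 0 := by
      intro y hy
      have h1 := hz (fun p => y p.1 p.2) (Finset.mem_univ _)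
      have h2 : X (fun p => e (y p.1 p.2)) ≠ 0 := (hInj e (fun p => y p.1 p.2)).2 hy
      rcases mul_eq_zero.1 h1 with h | h
      · exact absurd (norm_eq_zero.1 (pow_eq_zero_iff two_ne_zero |>.1 h)) h2
      · rw [hsum] at h
        exact h
    let ξ : M →ₗ[ℂ] M := e.constr ℂ (fun i => (w i : ℂ) • e i)
    have hξ : ∀ i, ξ (e i) = (w i : ℂ) • e i := fun i => e.constr_basis ℂ _ i
    obtain ⟨c, hc⟩ := hS ξ (Dact_mem_of_const K e w hz' ξ hξ)
    have hwc : ∀ i, (w i : ℂ) = c := by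
      intro i
      have h1 := hξ i
      rw [hc] at h1
      simp only [LinearMap.smul_apply, LinearMap.id_apply] at h1
      have h2 : ((w i : ℂ) - c) • e i = 0 := by rw [sub_smul, ← h1, sub_self]
      rcases smul_eq_zero.1 h2 with h | h
      · linear_combination h
      · exact absurd h (e.ne_zero i)
    apply hw
    have i0 : Fin g := ⟨0, by omega⟩
    have hconst : ∀ i, w i = w i0 := by
      intro i
      have : (w i : ℂ) = (w i0 : ℂ) := by rw [hwc i, hwc i0]
      exact_mod_cast this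
    have h3 : (g : ℝ) * w i0 = 0 := by
      have : ∑ i, w i = ∑ _i : Fin g, w i0 := Finset.sum_congr rfl fun i _ => hconst i
      rw [hw0] at this
      simpa using this.symm
    have h4 : w i0 = 0 := by
      rcases mul_eq_zero.1 h3 with h | h
      · exfalso
        have : (g : ℕ) = 0 := by exact_mod_cast h
        omega
      · exact h
    funext i
    rw [hconst i, h4]; rfl
  -- step 5
  have hexp2 := kempf_ness_expand X (fun i => e i) (fun k => b k) (fun i k => b.repr (e i) k)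
    (fun i => (b.sum_repr (e i)).symm) y
  simp only [hexp2] at hy
  obtain ⟨z, _, hz⟩ := Finset.exists_ne_zero_of_sum_ne_zero hy
  refine ⟨fun i m => z (i, m), (hInj b z).1 (right_ne_zero_of_mul hz), ?_⟩
  rw [← hsum w z]
  refine lt_of_le_of_lt (Finset.sum_le_sum fun p _ => ?_) hyw
  refine kempf_ness_flag b w (y p) (e (y p)) (hflag (y p)) (z p) ?_
  exact Finset.prod_ne_zero_iff.1 (left_ne_zero_of_mul hz) p (Finset.mem_univ _)

end H475
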