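import Pool.Agent.Helper475.Base

open scoped BigOperators

namespace H475
open Module

/-- `β a` vanishes at all enumerations of `A` minus `a`. -/
def KN_le_good {X : Type} [DecidableEq X] {q : ℕ}
    (β : X → (X → ℂ) [⋀^Fin (q+1)]→ₗ[ℂ] ℂ) (A : Finset X) (a : X) : Prop :=
  ∀ v : Fin (q+1) → X, Function.Injective v → (∀ x, x ∈ Set.range v ↔ x ∈ A ∧ x ≠ a) →
    β a (fun i => Pi.single (v i) 1) = 0

theorem KN_le_perm {X : Type} [DecidableEq X] {q : ℕ} (g : (X → ℂ) [⋀^Fin (q+1)]→ₗ[ℂ] ℂ)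
    (v : Fin (q+1) → X) (σ : Equiv.Perm (Fin (q+1)))
    (h : g (fun i => Pi.single (v (σ i)) 1) = 0) : g (fun i => Pi.single (v i) 1) = 0 := by
  have h1 := g.map_perm (fun i => (Pi.single (v i) 1 : X → ℂ)) σ
  have h2 : ((fun i => (Pi.single (v i) 1 : X → ℂ)) ∘ σ) = fun i => Pi.single (v (σ i)) 1 := rfl
  rw [h2, h] at h1
  rcases Int.units_eq_one_or (Equiv.Perm.sign σ) with hs | hs
  · rw [hs, one_smul] at h1
    exact h1.symm
  · rw [hs, Units.neg_smul, one_smul] at h1
    exact neg_eq_zero.1 h1.symm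

theorem KN_le_cons {X : Type} [DecidableEq X] {q : ℕ} (v : Fin (q+1) → X) :
    (fun i => (Pi.single (v i) 1 : X → ℂ)) =
      Matrix.vecCons (Pi.single (v 0) 1) (fun i : Fin q => Pi.single (v i.succ) 1) := by
  funext i
  refine Fin.cases ?_ (fun i => ?_) i
  · rfl
  · rfl

theorem KN_le_step {X : Type} [Fintype X] [DecidableEq X] {Adj : X → X → Prop} {q : ℕ}
    {β : X → (X → ℂ) [⋀^Fin (q+1)]→ₗ[ℂ] ℂ} (hβ : β ∈ KN Adj q) {A : Finset X} {u w : X}
    (hadj : Adj u w) (hu : u ∈ A) (hw : w ∈ A) (hg : KN_le_good β A w) : KN_le_good β A u := by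
  intro v hv hr
  by_cases huw : w = u
  · subst huw
    exact hg v hv hr
  obtain ⟨i0, hi0⟩ := (hr w).2 ⟨hw, huw⟩
  apply KN_le_perm (β u) v (Equiv.swap 0 i0)
  set v' : Fin (q+1) → X := fun i => v (Equiv.swap 0 i0 i) with hv'
  have h0 : v' 0 = w := by simp [hv', hi0]
  have hinj : Function.Injective v' := hv.comp (Equiv.injective _)
  have hr' : ∀ x, x ∈ Set.range v' ↔ x ∈ A ∧ x ≠ u := by
    intro x
    rw [← hr x]
    constructor
    · rintro ⟨i, rfl⟩
      exact ⟨_, rfl⟩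
    · rintro ⟨i, rfl⟩
      exact ⟨Equiv.swap 0 i0 i, by simp [hv']⟩
  change β u (fun i => Pi.single (v' i) 1) = 0
  rw [KN_le_cons v', h0]
  have h2 := hβ.2 u w hadj (fun i : Fin q => Pi.single (v' i.succ) 1)
  set v2 : Fin (q+1) → X := Fin.cons u (fun i : Fin q => v' i.succ) with hv2
  have h3 : β w (fun i => Pi.single (v2 i) 1) = 0 := by
    apply hg v2
    · rw [hv2, Fin.cons_injective_iff]
      refine ⟨?_, hinj.comp (Fin.succ_injective q)⟩
      rintro ⟨i, hi⟩
      exact ((hr' u).1 ⟨i.succ, hi⟩).2 rfl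
    · intro x
      constructor
      · rintro ⟨i, rfl⟩
        refine Fin.cases ?_ (fun i => ?_) i
        · exact ⟨hu, fun h => huw h.symm⟩
        · refine ⟨((hr' _).1 ⟨i.succ, rfl⟩).1, ?_⟩
          intro h
          have h4 : v' i.succ = v' 0 := by rw [h0]; exact h
          exact Fin.succ_ne_zero i (hinj h4)
      · rintro ⟨hx, hxw⟩
        by_cases hxu : x = u
        · exact ⟨0, hxu.symm⟩
        · obtain ⟨i, hi⟩ := (hr' x).2 ⟨hx, hxu⟩
          revert hi
          refine Fin.cases ?_ (fun i => ?_) i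
          · intro hi
            exact absurd (hi.symm.trans h0) hxw
          · intro hi
            exact ⟨i.succ, hi⟩
  rw [KN_le_cons v2] at h3
  have h4 : v2 0 = u := rfl
  have h5 : (fun i : Fin q => (Pi.single (v2 i.succ) 1 : X → ℂ)) =
      fun i : Fin q => Pi.single (v' i.succ) 1 := rfl
  rw [h4, h5] at h3
  rw [h3, add_zero] at h2
  exact h2

theorem KN_le_enum {X : Type} [DecidableEq X] {q : ℕ}
    {β : X → (X → ℂ) [⋀^Fin (q+1)]→ₗ[ℂ] ℂ} {A : Finset X} {a : X} (t : Fin (q+1) → X)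
    (ht : Function.Injective t) (hr : ∀ x, x ∈ Set.range t ↔ x ∈ A ∧ x ≠ a)
    (h : β a (fun i => Pi.single (t i) 1) = 0) : KN_le_good β A a := by
  intro v hv hvr
  have h1 : ∀ i, ∃ j, v j = t i := fun i => (hvr (t i)).2 ((hr (t i)).1 ⟨i, rfl⟩)
  choose s hs using h1
  have hsi : Function.Injective s := by
    intro i j hij
    apply ht
    rw [← hs i, ← hs j, hij]
  have hsb : Function.Bijective s := Finite.injective_iff_bijective.1 hsi
  apply KN_le_perm (β a) v (Equiv.ofBijective s hsb)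
  have h2 : (fun i => (Pi.single (v (Equiv.ofBijective s hsb i)) 1 : X → ℂ)) =
      fun i => Pi.single (t i) 1 := by
    funext i
    rw [Equiv.ofBijective_apply, hs]
  rw [h2]
  exact h

theorem KN_le_zero {X : Type} [Fintype X] [DecidableEq X] {Adj : X → X → Prop} {q : ℕ}
    {β : X → (X → ℂ) [⋀^Fin (q+1)]→ₗ[ℂ] ℂ} (hβ : β ∈ KN Adj q)
    (hg : ∀ A : Finset X, A.card = q + 2 → ∀ a ∈ A, KN_le_good β A a) : β = 0 := by
  funext a
  apply Module.Basis.ext_alternating (Pi.basisFun ℂ X)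
  intro v hv
  simp only [Pi.basisFun_apply, Pi.zero_apply, AlternatingMap.zero_apply]
  by_cases ha : a ∈ Set.range v
  · obtain ⟨i0, hi0⟩ := ha
    apply KN_le_perm (β a) v (Equiv.swap 0 i0)
    have h1 := KN_le_cons (fun i => v (Equiv.swap 0 i0 i))
    rw [h1]
    have h0 : v (Equiv.swap 0 i0 0) = a := by simp [hi0]
    rw [h0]
    exact hβ.1 a _
  · have hc : (insert a (Finset.univ.image v)).card = q + 2 := by
      rw [Finset.card_insert_of_notMem, Finset.card_image_of_injective _ hv, Finset.card_univ,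
        Fintype.card_fin]
      intro h
      obtain ⟨i, -, hi⟩ := Finset.mem_image.1 h
      exact ha ⟨i, hi⟩
    apply hg _ hc a (Finset.mem_insert_self _ _) v hv
    intro x
    constructor
    · rintro ⟨i, rfl⟩
      exact ⟨Finset.mem_insert_of_mem (Finset.mem_image_of_mem _ (Finset.mem_univ _)),
        fun h => ha ⟨i, h⟩⟩
    · rintro ⟨hx, hxa⟩
      obtain ⟨i, -, hi⟩ := Finset.mem_image.1 ((Finset.mem_insert.1 hx).resolve_left hxa)
      exact ⟨i, hi⟩

open Classical in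
/-- an enumeration of `A` minus `a` -/
noncomputable def KN_le_t {X : Type} (q : ℕ) (A : Finset X) (a : X) : Fin (q+1) → X :=
  if h : ∃ t : Fin (q+1) → X, Function.Injective t ∧ ∀ x, x ∈ Set.range t ↔ x ∈ A ∧ x ≠ a then
    h.choose else fun _ => a

theorem KN_le_t_spec {X : Type} [DecidableEq X] {q : ℕ} {A : Finset X} {a : X}
    (hc : A.card = q + 2) (ha : a ∈ A) : Function.Injective (KN_le_t q A a) ∧
      ∀ x, x ∈ Set.range (KN_le_t q A a) ↔ x ∈ A ∧ x ≠ a := by
  have h : ∃ t : Fin (q+1) → X, Function.Injective t ∧ ∀ x, x ∈ Set.range t ↔ x ∈ A ∧ x ≠ a := by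
    have h1 : (A.erase a).card = q + 1 := by
      rw [Finset.card_erase_of_mem ha, hc]; rfl
    refine ⟨fun i => ((A.erase a).equivFinOfCardEq h1).symm i, ?_, ?_⟩
    · exact Subtype.val_injective.comp (Equiv.injective _)
    · intro x
      constructor
      · rintro ⟨i, rfl⟩
        have := (((A.erase a).equivFinOfCardEq h1).symm i).2
        rw [Finset.mem_erase] at this
        exact ⟨this.2, this.1⟩
      · rintro ⟨hx, hxa⟩
        exact ⟨(A.erase a).equivFinOfCardEq h1 ⟨x, Finset.mem_erase.2 ⟨hxa, hx⟩⟩, by simp⟩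
  unfold KN_le_t
  rw [dif_pos h]
  exact h.choose_spec

/-- the evaluations -/
noncomputable def KN_le_map {X : Type} [Fintype X] [DecidableEq X] (Adj : X → X → Prop) (q : ℕ)
    (J : Finset (Σ _ : Finset X, X)) : KN Adj q →ₗ[ℂ] (J → ℂ) where
  toFun β := fun j => (β : X → (X → ℂ) [⋀^Fin (q+1)]→ₗ[ℂ] ℂ) j.1.2
    (fun i => Pi.single (KN_le_t q j.1.1 j.1.2 i) 1)
  map_add' _ _ := rfl
  map_smul' _ _ := rfl

theorem KN_le {X : Type} [Fintype X] [DecidableEq X] (Adj : X → X → Prop)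
    (hsymm : ∀ a b, Adj a b → Adj b a) (q : ℕ) (R : Finset X → Finset X)
    (hR : ∀ A : Finset X, A.card = q + 2 → R A ⊆ A ∧ ∀ a ∈ A, ∃ r ∈ R A,
      Relation.ReflTransGen (fun u v => Adj u v ∧ u ∈ A ∧ v ∈ A) a r) :
    finrank ℂ (KN Adj q) ≤ ∑ A ∈ (Finset.univ : Finset X).powersetCard (q+2), (R A).card := by
  classical
  set J := (Finset.powersetCard (q+2) (Finset.univ : Finset X)).sigma R with hJ
  have hinj : Function.Injective (KN_le_map Adj q J) := by
    rw [injective_iff_map_eq_zero]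
    intro β hβ
    apply Subtype.ext
    apply KN_le_zero β.2
    intro A hA a ha
    obtain ⟨hRA, hRc⟩ := hR A hA
    obtain ⟨r, hr, hpath⟩ := hRc a ha
    have hgr : KN_le_good (β : X → (X → ℂ) [⋀^Fin (q+1)]→ₗ[ℂ] ℂ) A r := by
      obtain ⟨h1, h2⟩ := KN_le_t_spec hA (hRA hr)
      apply KN_le_enum _ h1 h2
      have hmem : (⟨A, r⟩ : Σ _ : Finset X, X) ∈ J := by
        rw [hJ, Finset.mem_sigma]
        exact ⟨Finset.mem_powersetCard.2 ⟨Finset.subset_univ _, hA⟩, hr⟩
      exact congrFun hβ ⟨⟨A, r⟩, hmem⟩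
    induction hpath using Relation.ReflTransGen.head_induction_on with
    | refl => exact hgr
    | head h _ ih => exact KN_le_step β.2 h.1 h.2.1 h.2.2 (ih h.2.2)
  have h := LinearMap.finrank_le_finrank_of_injective hinj
  rw [Module.finrank_fintype_fun_eq_card, Fintype.card_coe, hJ, Finset.card_sigma] at h
  exact h

end H475
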