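import Pool.Agent.Helper475.Base

open scoped BigOperators

namespace H475
open Module




/-! auxiliary lemmas for the target -/

/-- Contraction of an alternating 2-form with a vector. -/
noncomputable def lower_bound_iota {M : Type} [AddCommGroup M] [Module ℂ M] (z : M) :
    (M [⋀^Fin 2]→ₗ[ℂ] ℂ) →ₗ[ℂ] (M →ₗ[ℂ] ℂ) where
  toFun ψ :=
    { toFun := fun y => ψ ![z, y]
      map_add' := by
        intro x y
        have h := ψ.map_update_add ![z, 0] 1 x y
        have e : ∀ w : M, Function.update ![z, 0] 1 w = ![z, w] := by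
          intro w; ext i; fin_cases i <;> simp
        simpa only [e] using h
      map_smul' := by
        intro c x
        have h := ψ.map_update_smul ![z, 0] 1 c x
        have e : ∀ w : M, Function.update ![z, 0] 1 w = ![z, w] := by
          intro w; ext i; fin_cases i <;> simp
        simpa only [e, RingHom.id_apply] using h }
  map_add' := by intros; ext; simp
  map_smul' := by intros; ext; simp

theorem lower_bound_iota_apply {M : Type} [AddCommGroup M] [Module ℂ M] (z : M)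
    (ψ : M [⋀^Fin 2]→ₗ[ℂ] ℂ) (y : M) : lower_bound_iota z ψ y = ψ ![z, y] := rfl

/-- The wedge of two functionals. -/
noncomputable def lower_bound_wedge {M : Type} [AddCommGroup M] [Module ℂ M]
    (ζ l : M →ₗ[ℂ] ℂ) : M [⋀^Fin 2]→ₗ[ℂ] ℂ where
  toFun v := ζ (v 0) * l (v 1) - ζ (v 1) * l (v 0)
  map_update_add' := by
    intro inst m i x y
    have : inst = instDecidableEqFin 2 := Subsingleton.elim _ _
    subst this
    fin_cases i <;> simp <;> ring
  map_update_smul' := by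
    intro inst m i c x
    have : inst = instDecidableEqFin 2 := Subsingleton.elim _ _
    subst this
    fin_cases i <;> simp <;> ring
  map_eq_zero_of_eq' := by
    intro v i j h hij
    fin_cases i <;> fin_cases j <;> simp_all

theorem lower_bound_iota_wedge {M : Type} [AddCommGroup M] [Module ℂ M] (z : M)
    (ζ l : M →ₗ[ℂ] ℂ) : lower_bound_iota z (lower_bound_wedge ζ l) = ζ z • l - l z • ζ := by
  ext y
  change ζ z * l y - ζ y * l z = ζ z * l y - l z * ζ y
  ring

/-- Coordinate functional. -/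
noncomputable def lower_bound_x {n : ℕ} [NeZero n] (c : ZMod n) : UU n →ₗ[ℂ] ℂ :=
  (LinearMap.proj c ∘ₗ (Z0 (ZMod n)).subtype) ∘ₗ LinearMap.fst ℂ _ _

theorem lower_bound_x_node {n : ℕ} [NeZero n] (ω : ZMod n) (c b : ZMod n) (i : Fin 3) :
    lower_bound_x c (node ω (b, i)) =
      (if c = b + ω ^ (i : ℕ) then 1 else 0) - (if c = b then 1 else 0) := by
  simp [lower_bound_x, node, dif, Pi.single_apply]

/-- The map `Φ`. -/
noncomputable def lower_bound_Phi {n : ℕ} [NeZero n] (ω : ZMod n) :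
    (UU n →ₗ[ℂ] (UU n) [⋀^Fin (2+1)]→ₗ[ℂ] ℂ) →ₗ[ℂ]
      (ZMod n × Fin 3 → (UU n) [⋀^Fin 2]→ₗ[ℂ] ℂ) :=
  LinearMap.pi fun e => (LinearMap.applyₗ (node ω e)) ∘ₗ
    (AlternatingMap.curryLeftLinearMap (R := ℂ) (M := UU n) (N := ℂ) (n := 2)) ∘ₗ
      (LinearMap.applyₗ (node ω e))

theorem lower_bound_Phi_apply {n : ℕ} [NeZero n] (ω : ZMod n)
    (B : UU n →ₗ[ℂ] (UU n) [⋀^Fin (2+1)]→ₗ[ℂ] ℂ) (e : ZMod n × Fin 3) (x : Fin 2 → UU n) :
    lower_bound_Phi ω B e x = B (node ω e) (Matrix.vecCons (node ω e) x) := rfl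

theorem lower_bound_ker_Phi {n : ℕ} [NeZero n] (ω : ZMod n) :
    LinearMap.ker (lower_bound_Phi ω) = Ktil ω 2 := by
  ext B
  rw [LinearMap.mem_ker]
  constructor
  · intro h e x
    rw [← lower_bound_Phi_apply, h]; rfl
  · intro h
    ext e x
    rw [lower_bound_Phi_apply]
    exact h e x

theorem lower_bound_dim {V A B : Type} [AddCommGroup V] [Module ℂ V] [AddCommGroup A] [Module ℂ A]
    [AddCommGroup B] [Module ℂ B] [FiniteDimensional ℂ V] [FiniteDimensional ℂ A]
    [FiniteDimensional ℂ B] (f : V →ₗ[ℂ] A) (g : V →ₗ[ℂ] B) (P : Submodule ℂ A)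
    (Q : Submodule ℂ B) (hP : ∀ s ∈ P, ∃ v, f v = s) (hQ : ∀ l ∈ Q, ∃ v, f v = 0 ∧ g v = l) :
    finrank ℂ (↥(LinearMap.ker f ⊓ LinearMap.ker g)) + finrank ℂ P + finrank ℂ Q ≤
      finrank ℂ V := by
  have h1 := LinearMap.finrank_range_add_finrank_ker f
  have h2 := LinearMap.finrank_range_add_finrank_ker (g.domRestrict (LinearMap.ker f))
  have h3 : finrank ℂ P ≤ finrank ℂ (LinearMap.range f) := by
    apply Submodule.finrank_mono
    intro s hs
    obtain ⟨v, hv⟩ := hP s hs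
    exact ⟨v, hv⟩
  have h4 : finrank ℂ Q ≤ finrank ℂ (LinearMap.range (g.domRestrict (LinearMap.ker f))) := by
    apply Submodule.finrank_mono
    intro s hs
    obtain ⟨v, hv, hv'⟩ := hQ s hs
    exact ⟨⟨v, hv⟩, hv'⟩
  have h5 : finrank ℂ (↥(LinearMap.ker f ⊓ LinearMap.ker g)) ≤
      finrank ℂ (LinearMap.ker (g.domRestrict (LinearMap.ker f))) := by
    let T : (↥(LinearMap.ker f ⊓ LinearMap.ker g)) →ₗ[ℂ]
        (LinearMap.ker (g.domRestrict (LinearMap.ker f))) :=
      LinearMap.codRestrict _ (LinearMap.codRestrict (LinearMap.ker f)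
        (LinearMap.ker f ⊓ LinearMap.ker g).subtype (fun v => v.2.1)) (fun v => v.2.2)
    apply LinearMap.finrank_le_finrank_of_injective (f := T)
    intro a b hab
    apply Subtype.ext
    have := congrArg (fun u => ((u : LinearMap.ker f) : V)) (congrArg Subtype.val hab)
    exact this
  omega

theorem lower_bound_ker {V W : Type} [AddCommGroup V] [Module ℂ V] [AddCommGroup W] [Module ℂ W]
    [FiniteDimensional ℂ V] [FiniteDimensional ℂ W] (h : V →ₗ[ℂ] W) :
    finrank ℂ V ≤ finrank ℂ (LinearMap.ker h) + finrank ℂ W := by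
  have h1 := LinearMap.finrank_range_add_finrank_ker h
  have h2 := Submodule.finrank_le (LinearMap.range h)
  omega

theorem lower_bound_ne {n : ℕ} [Fact n.Prime] (hn : 19 ≤ n) (ω : ZMod n)
    (hω : ω ^ 2 + ω + 1 = 0) (p q : ℤ) (h0 : 0 < p ^ 2 - p * q + q ^ 2)
    (h1 : p ^ 2 - p * q + q ^ 2 < 19) : (p : ZMod n) + q * ω ≠ 0 := by
  intro h
  have h2 : ((p ^ 2 - p * q + q ^ 2 : ℤ) : ZMod n) = 0 := by
    push_cast
    linear_combination (p + q * ω ^ 2 : ZMod n) * h - (p * q + q ^ 2 * (ω - 1) : ZMod n) * hω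
  rw [ZMod.intCast_zmod_eq_zero_iff_dvd] at h2
  have := Int.le_of_dvd h0 h2
  omega


theorem lower_bound_x0 {n : ℕ} [Fact n.Prime] (hn : 19 ≤ n) (ω : ZMod n)
    (hω : ω ^ 2 + ω + 1 = 0) (c b : ZMod n) (i : Fin 3) (p q p' q' : ℤ)
    (h1 : c - b = p + q * ω) (h2 : c - b - ω ^ (i : ℕ) = p' + q' * ω)
    (h3 : 0 < p ^ 2 - p * q + q ^ 2 ∧ p ^ 2 - p * q + q ^ 2 < 19)
    (h4 : 0 < p' ^ 2 - p' * q' + q' ^ 2 ∧ p' ^ 2 - p' * q' + q' ^ 2 < 19) :
    lower_bound_x c (node ω (b, i)) = 0 := by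
  rw [lower_bound_x_node]
  have e1 : c ≠ b := by
    intro h
    refine lower_bound_ne hn ω hω p q h3.1 h3.2 ?_
    rw [← h1, h, sub_self]
  have e2 : c ≠ b + ω ^ (i : ℕ) := by
    intro h
    refine lower_bound_ne hn ω hω p' q' h4.1 h4.2 ?_
    rw [← h2, h]; ring
  simp [e1, e2]

theorem lower_bound_x1 {n : ℕ} [Fact n.Prime] (hn : 19 ≤ n) (ω : ZMod n)
    (hω : ω ^ 2 + ω + 1 = 0) (c b : ZMod n) (i : Fin 3) (p q : ℤ)
    (h1 : c - b = p + q * ω) (h2 : c = b + ω ^ (i : ℕ))
    (h3 : 0 < p ^ 2 - p * q + q ^ 2 ∧ p ^ 2 - p * q + q ^ 2 < 19) :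
    lower_bound_x c (node ω (b, i)) = 1 := by
  rw [lower_bound_x_node]
  have e1 : c ≠ b := by
    intro h
    refine lower_bound_ne hn ω hω p q h3.1 h3.2 ?_
    rw [← h1, h, sub_self]
  rw [if_pos h2, if_neg e1]; norm_num

theorem lower_bound_x2 {n : ℕ} [Fact n.Prime] (hn : 19 ≤ n) (ω : ZMod n)
    (hω : ω ^ 2 + ω + 1 = 0) (c b : ZMod n) (i : Fin 3) (p q : ℤ)
    (h1 : - ω ^ (i : ℕ) = p + q * ω) (h2 : c = b)
    (h3 : 0 < p ^ 2 - p * q + q ^ 2 ∧ p ^ 2 - p * q + q ^ 2 < 19) :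
    lower_bound_x c (node ω (b, i)) = -1 := by
  rw [lower_bound_x_node]
  have e1 : c ≠ b + ω ^ (i : ℕ) := by
    intro h
    refine lower_bound_ne hn ω hω p q h3.1 h3.2 ?_
    rw [← h1]
    have : ω ^ (i : ℕ) = 0 := by
      have h' := h.symm.trans h2
      simpa using h'
    rw [this, neg_zero]
  rw [if_pos h2, if_neg e1]; norm_num

theorem lower_bound_sum {n : ℕ} [NeZero n] (ω : ZMod n) (u v w : ZMod n) (h1 : u + 1 = v)
    (h2 : v + ω = w) (h3 : w + ω ^ 2 = u) :
    node ω (u, 0) + node ω (v, 1) + node ω (w, 2) = 0 := by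
  apply Prod.ext
  · apply Subtype.ext
    simp only [node, dif, Prod.fst_add, Submodule.coe_add]
    have e0 : u + ω ^ ((0 : Fin 3) : ℕ) = v := by simpa using h1
    have e1 : v + ω ^ ((1 : Fin 3) : ℕ) = w := by simpa using h2
    have e2 : w + ω ^ ((2 : Fin 3) : ℕ) = u := by simpa using h3
    rw [e0, e1, e2]
    ext i
    simp
  · apply Subtype.ext
    simp only [node, dif, Prod.snd_add, Submodule.coe_add]
    ext i
    fin_cases i <;> simp

theorem lower_bound_sum' {n : ℕ} [NeZero n] (ω : ZMod n) (u v w : ZMod n) (h1 : u + 1 = w)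
    (h2 : v + ω = u) (h3 : w + ω ^ 2 = v) :
    node ω (u, 0) + node ω (v, 1) + node ω (w, 2) = 0 := by
  apply Prod.ext
  · apply Subtype.ext
    simp only [node, dif, Prod.fst_add, Submodule.coe_add]
    have e0 : u + ω ^ ((0 : Fin 3) : ℕ) = w := by simpa using h1
    have e1 : v + ω ^ ((1 : Fin 3) : ℕ) = u := by simpa using h2
    have e2 : w + ω ^ ((2 : Fin 3) : ℕ) = v := by simpa using h3
    rw [e0, e1, e2]
    ext i
    simp
  · apply Subtype.ext
    simp only [node, dif, Prod.snd_add, Submodule.coe_add]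
    ext i
    fin_cases i <;> simp

/-- One component of the map `Ψ`. -/
noncomputable def lower_bound_tri {n : ℕ} [NeZero n] (ω : ZMod n) (e0 e1 e2 : ZMod n × Fin 3) :
    (ZMod n × Fin 3 → (UU n) [⋀^Fin 2]→ₗ[ℂ] ℂ) →ₗ[ℂ] (UU n →ₗ[ℂ] ℂ) :=
  lower_bound_iota (node ω e1) ∘ₗ LinearMap.proj e0 +
    lower_bound_iota (node ω e2) ∘ₗ LinearMap.proj e1 +
    lower_bound_iota (node ω e0) ∘ₗ LinearMap.proj e2

theorem lower_bound_tri_Phi {n : ℕ} [NeZero n] (ω : ZMod n) (e0 e1 e2 : ZMod n × Fin 3)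
    (h : node ω e0 + node ω e1 + node ω e2 = 0)
    (B : UU n →ₗ[ℂ] (UU n) [⋀^Fin (2+1)]→ₗ[ℂ] ℂ) :
    lower_bound_tri ω e0 e1 e2 (lower_bound_Phi ω B) = 0 := by
  have key : ∀ (C : (UU n) [⋀^Fin (2+1)]→ₗ[ℂ] ℂ) (y : UU n),
      C ![node ω e1, node ω e2, y] = C ![node ω e0, node ω e1, y] ∧
      C ![node ω e2, node ω e0, y] = C ![node ω e0, node ω e1, y] := by
    intro C y
    have same1 : ∀ u v : UU n, C ![u, u, v] = 0 := fun u v =>
      C.map_eq_zero_of_eq _ (i := 0) (j := 1) (by simp) (by decide)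
    have add0 : ∀ u u' v w : UU n, C ![u + u', v, w] = C ![u, v, w] + C ![u', v, w] := by
      intro u u' v w
      exact C.map_vecCons_add ![v, w] u u'
    have add1 : ∀ u u' v w : UU n, C ![v, u + u', w] = C ![v, u, w] + C ![v, u', w] := by
      intro u u' v w
      have h := C.map_update_add ![v, 0, w] 1 u u'
      have e : ∀ t : UU n, Function.update ![v, 0, w] 1 t = ![v, t, w] := by
        intro t; funext i; fin_cases i <;> simp
      simpa only [e] using h
    have z0 : ∀ v w : UU n, C ![0, v, w] = 0 := fun v w => C.map_coord_zero (i := 0) (by simp)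
    have z1 : ∀ v w : UU n, C ![v, 0, w] = 0 := fun v w => C.map_coord_zero (i := 1) (by simp)
    have swap : ∀ u v w : UU n, C ![u, v, w] + C ![v, u, w] = 0 := by
      intro u v w
      have h := same1 (u + v) w
      rw [add0, add1, add1, same1, same1] at h
      linear_combination h
    constructor
    · have h1 := z1 (node ω e1) y
      rw [← h, add1, add1, same1] at h1
      have h2 := swap (node ω e0) (node ω e1) y
      linear_combination h1 - h2
    · have h1 := z0 (node ω e0) y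
      rw [← h, add0, add0, same1] at h1
      have h2 := swap (node ω e0) (node ω e1) y
      linear_combination h1 - h2
  refine LinearMap.ext fun y => ?_
  simp only [lower_bound_tri, LinearMap.add_apply, LinearMap.comp_apply, LinearMap.proj_apply,
    lower_bound_iota_apply, lower_bound_Phi_apply, LinearMap.zero_apply]
  have h1 := (key (B (node ω e1)) y).1
  have h2 := (key (B (node ω e2)) y).2
  have h3 : B (node ω e0 + node ω e1 + node ω e2) ![node ω e0, node ω e1, y] = 0 := by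
    rw [h, map_zero]; rfl
  rw [map_add, map_add] at h3
  simp only [AlternatingMap.add_apply] at h3
  linear_combination h1 + h2 + h3

theorem lower_bound_f_surj {n : ℕ} [Fact n.Prime] (hn : 19 ≤ n) (ω : ZMod n)
    (hω : ω ^ 2 + ω + 1 = 0) (s : ZMod n × Fin 3 → (UU n →ₗ[ℂ] ℂ))
    (hs : ∀ e, s e (node ω e) = 0) :
    ∃ v : ZMod n × Fin 3 → (UU n) [⋀^Fin 2]→ₗ[ℂ] ℂ, ∀ e, lower_bound_iota (node ω e) (v e) = s e := by
  refine ⟨fun e => - lower_bound_wedge (lower_bound_x e.1) (s e), ?_⟩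
  rintro ⟨a, i⟩
  have hx : lower_bound_x a (node ω (a, i)) = -1 := by
    fin_cases i
    · exact lower_bound_x2 hn ω hω a a 0 (-1) 0 (by simp) rfl (by norm_num)
    · exact lower_bound_x2 hn ω hω a a 1 0 (-1) (by simp) rfl (by norm_num)
    · refine lower_bound_x2 hn ω hω a a 2 1 1 ?_ rfl (by norm_num)
      simp only [Fin.val_two]; push_cast; linear_combination - hω
  rw [map_neg, lower_bound_iota_wedge, hs, hx]
  simp

theorem lower_bound_g_surj {n : ℕ} [Fact n.Prime] (hn : 19 ≤ n) (ω : ZMod n)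
    (hω : ω ^ 2 + ω + 1 = 0) (up dn : ZMod n → (UU n →ₗ[ℂ] ℂ))
    (hu0 : ∀ a, up a (node ω (a, 0)) = 0) (hu1 : ∀ a, up a (node ω (a + 1, 1)) = 0)
    (hd0 : ∀ a, dn a (node ω (a + ω, 0)) = 0) (hd1 : ∀ a, dn a (node ω (a, 1)) = 0) :
    ∃ v : ZMod n × Fin 3 → (UU n) [⋀^Fin 2]→ₗ[ℂ] ℂ,
      (∀ e, lower_bound_iota (node ω e) (v e) = 0) ∧
      (∀ a, lower_bound_tri ω (a, 0) (a + 1, 1) (a + 1 + ω, 2) v = up a) ∧
      (∀ a, lower_bound_tri ω (a + ω, 0) (a, 1) (a + 1 + ω, 2) v = dn a) := by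
  set β : ZMod n → (UU n →ₗ[ℂ] ℂ) := fun a => - (up a (node ω (a - ω, 1))) • lower_bound_x (a - ω) with hβ
  set δ : ZMod n → (UU n →ₗ[ℂ] ℂ) :=
    fun a => (dn a (node ω (a + 1 + ω, 1))) • lower_bound_x (a + 1 + 2 * ω) with hδ
  have bv : ∀ a z, β a z = - (up a (node ω (a - ω, 1))) * lower_bound_x (a - ω) z := by
    intro a z; simp [hβ]
  have dv : ∀ a z, δ a z = (dn a (node ω (a + 1 + ω, 1))) * lower_bound_x (a + 1 + 2 * ω) z := by
    intro a z; simp [hδ]
  refine ⟨fun e => ![lower_bound_wedge (lower_bound_x (e.1 + 1 + ω)) (up e.1 - β e.1) -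
      lower_bound_wedge (lower_bound_x (e.1 - ω)) (dn (e.1 - ω) - δ (e.1 - ω)),
      lower_bound_wedge (lower_bound_x (e.1 - 1)) (β (e.1 - 1)) -
      lower_bound_wedge (lower_bound_x (e.1 + 1 + ω)) (δ e.1), 0] e.2, ?_, ?_, ?_⟩
  · rintro ⟨a, i⟩
    fin_cases i
    · have e1 : lower_bound_x (a + 1 + ω) (node ω (a, 0)) = 0 :=
        lower_bound_x0 hn ω hω _ _ 0 1 1 0 1 (by push_cast; ring) (by simp; ring) (by norm_num) (by norm_num)
      have e2 : lower_bound_x (a - ω) (node ω (a, 0)) = 0 :=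
        lower_bound_x0 hn ω hω _ _ 0 0 (-1) (-1) (-1) (by push_cast; ring) (by simp; ring) (by norm_num) (by norm_num)
      have e3 : (up a - β a) (node ω (a, 0)) = 0 := by
        rw [LinearMap.sub_apply, hu0, bv, e2]; ring
      have e4 : (dn (a - ω) - δ (a - ω)) (node ω (a, 0)) = 0 := by
        have h1 := hd0 (a - ω)
        rw [sub_add_cancel] at h1
        have h2 : a - ω + 1 + 2 * ω = a + 1 + ω := by ring
        rw [LinearMap.sub_apply, h1, dv, h2, e1]; ring
      simp only [Fin.zero_eta, Matrix.cons_val_zero, map_sub, lower_bound_iota_wedge]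
      rw [e1, e2, e3, e4]; simp
    · have e1 : lower_bound_x (a - 1) (node ω (a, 1)) = 0 :=
        lower_bound_x0 hn ω hω _ _ 1 (-1) 0 (-1) (-1) (by push_cast; ring) (by simp; ring) (by norm_num) (by norm_num)
      have e2 : lower_bound_x (a - 1 - ω) (node ω (a, 1)) = 0 :=
        lower_bound_x0 hn ω hω _ _ 1 (-1) (-1) (-1) (-2) (by push_cast; ring) (by simp; ring) (by norm_num) (by norm_num)
      have e3 : lower_bound_x (a + 1 + ω) (node ω (a, 1)) = 0 :=
        lower_bound_x0 hn ω hω _ _ 1 1 1 1 0 (by push_cast; ring) (by simp; ring) (by norm_num) (by norm_num)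
      have e4 : lower_bound_x (a + 1 + 2 * ω) (node ω (a, 1)) = 0 :=
        lower_bound_x0 hn ω hω _ _ 1 1 2 1 1 (by push_cast; ring) (by simp; ring) (by norm_num) (by norm_num)
      have e5 : β (a - 1) (node ω (a, 1)) = 0 := by rw [bv, e2]; ring
      have e6 : δ a (node ω (a, 1)) = 0 := by rw [dv, e4]; ring
      simp only [Fin.mk_one, Matrix.cons_val_one, Matrix.cons_val_zero, map_sub, lower_bound_iota_wedge]
      rw [e1, e3, e5, e6]; simp
    · simp
  · intro a
    have e1 : lower_bound_x (a + 1 + ω) (node ω (a + 1, 1)) = 1 :=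
      lower_bound_x1 hn ω hω _ _ 1 0 1 (by push_cast; ring) (by simp) (by norm_num)
    have e2 : lower_bound_x (a - ω) (node ω (a + 1, 1)) = 0 :=
      lower_bound_x0 hn ω hω _ _ 1 (-1) (-1) (-1) (-2) (by push_cast; ring) (by simp; ring) (by norm_num) (by norm_num)
    have e3 : (up a - β a) (node ω (a + 1, 1)) = 0 := by
      rw [LinearMap.sub_apply, hu1, bv, e2]; ring
    have e4 : (dn (a - ω) - δ (a - ω)) (node ω (a + 1, 1)) = 0 := by
      have h2 : a - ω + 1 + 2 * ω = a + 1 + ω := by ring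
      have h3 : a - ω + 1 + ω = a + 1 := by ring
      rw [LinearMap.sub_apply, dv, h2, h3, e1]; ring
    have e5 : lower_bound_x a (node ω (a + 1 + ω, 2)) = 1 :=
      lower_bound_x1 hn ω hω _ _ 2 (-1) (-1) (by push_cast; ring)
        (by simp only [Fin.val_two]; linear_combination - hω) (by norm_num)
    have e6 : lower_bound_x (a - ω) (node ω (a + 1 + ω, 2)) = 0 :=
      lower_bound_x0 hn ω hω _ _ 2 (-1) (-2) 0 (-1) (by push_cast; ring)
        (by simp only [Fin.val_two]; push_cast; linear_combination - hω) (by norm_num) (by norm_num)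
    have e7 : lower_bound_x (a + 1 + 1 + ω) (node ω (a + 1 + ω, 2)) = 0 :=
      lower_bound_x0 hn ω hω _ _ 2 1 0 2 1 (by push_cast; ring)
        (by simp only [Fin.val_two]; push_cast; linear_combination - hω) (by norm_num) (by norm_num)
    have e8 : lower_bound_x (a + 1 + 1 + 2 * ω) (node ω (a + 1 + ω, 2)) = 0 :=
      lower_bound_x0 hn ω hω _ _ 2 1 1 2 2 (by push_cast; ring)
        (by simp only [Fin.val_two]; push_cast; linear_combination - hω) (by norm_num) (by norm_num)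
    have e9 : β a (node ω (a + 1 + ω, 2)) = 0 := by rw [bv, e6]; ring
    have e10 : δ (a + 1) (node ω (a + 1 + ω, 2)) = 0 := by rw [dv, e8]; ring
    have ea : a + 1 - 1 = a := by ring
    simp only [lower_bound_tri, LinearMap.add_apply, LinearMap.comp_apply, LinearMap.proj_apply,
      Matrix.cons_val_zero, Matrix.cons_val_one, Matrix.cons_val, map_sub, lower_bound_iota_wedge,
      ea, map_zero]
    rw [e1, e2, e3, e4, e5, e7, e9, e10]
    simp
  · intro a
    have e1 : lower_bound_x (a + ω + 1 + ω) (node ω (a, 1)) = 0 :=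
      lower_bound_x0 hn ω hω _ _ 1 1 2 1 1 (by push_cast; ring) (by simp; ring) (by norm_num) (by norm_num)
    have e2 : lower_bound_x (a + ω - ω) (node ω (a, 1)) = -1 :=
      lower_bound_x2 hn ω hω _ _ 1 0 (-1) (by simp) (by ring) (by norm_num)
    have e3 : (up (a + ω) - β (a + ω)) (node ω (a, 1)) = 0 := by
      rw [LinearMap.sub_apply, bv, e2, add_sub_cancel_right]; ring
    have e4 : (dn (a + ω - ω) - δ (a + ω - ω)) (node ω (a, 1)) = 0 := by
      rw [add_sub_cancel_right, LinearMap.sub_apply, hd1, dv]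
      have h2 : a + 1 + 2 * ω = a + ω + 1 + ω := by ring
      rw [h2, e1]; ring
    have e5 : lower_bound_x (a - 1) (node ω (a + 1 + ω, 2)) = 0 :=
      lower_bound_x0 hn ω hω _ _ 2 (-2) (-1) (-1) 0 (by push_cast; ring)
        (by simp only [Fin.val_two]; push_cast; linear_combination - hω) (by norm_num) (by norm_num)
    have e6 : lower_bound_x (a - 1 - ω) (node ω (a + 1 + ω, 2)) = 0 :=
      lower_bound_x0 hn ω hω _ _ 2 (-2) (-2) (-1) (-1) (by push_cast; ring)
        (by simp only [Fin.val_two]; push_cast; linear_combination - hω) (by norm_num) (by norm_num)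
    have e7 : lower_bound_x (a + 1 + ω) (node ω (a + 1 + ω, 2)) = -1 :=
      lower_bound_x2 hn ω hω _ _ 2 1 1
        (by simp only [Fin.val_two]; push_cast; linear_combination - hω) rfl (by norm_num)
    have e8 : lower_bound_x (a + 1 + 2 * ω) (node ω (a + 1 + ω, 2)) = 0 :=
      lower_bound_x0 hn ω hω _ _ 2 0 1 1 2 (by push_cast; ring)
        (by simp only [Fin.val_two]; push_cast; linear_combination - hω) (by norm_num) (by norm_num)
    have e9 : β (a - 1) (node ω (a + 1 + ω, 2)) = 0 := by rw [bv, e6]; ring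
    have e10 : δ a (node ω (a + 1 + ω, 2)) = 0 := by rw [dv, e8]; ring
    simp only [lower_bound_tri, LinearMap.add_apply, LinearMap.comp_apply, LinearMap.proj_apply,
      Matrix.cons_val_zero, Matrix.cons_val_one, Matrix.cons_val, map_sub, lower_bound_iota_wedge,
      map_zero]
    rw [e1, e2, e3, e4, e5, e7, e9, e10]
    simp

theorem lower_bound {n : ℕ} [Fact n.Prime] (hn : 19 ≤ n) (ω : ZMod n) (hω : ω ^ 2 + ω + 1 = 0) :
    (n+1) * (n+1).choose 3 + 2 * n * (n-1) ≤ finrank ℂ (Ktil ω 2) + 3 * n * n.choose 2 := by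
  have hfd2 := (finrank_alt (UU n) 2).1
  have hfd3 := (finrank_alt (UU n) (2+1)).1
  have d2 := (finrank_alt (UU n) 2).2
  have d3 := (finrank_alt (UU n) (2+1)).2
  rw [finrank_UU] at d2 d3
  have hdual : finrank ℂ (UU n →ₗ[ℂ] ℂ) = n + 1 := by
    rw [Module.finrank_linearMap, finrank_UU, Module.finrank_self, mul_one]
  set z := node ω with hz
  let f : (ZMod n × Fin 3 → (UU n) [⋀^Fin 2]→ₗ[ℂ] ℂ) →ₗ[ℂ] (ZMod n × Fin 3 → (UU n →ₗ[ℂ] ℂ)) :=
    LinearMap.pi fun e => lower_bound_iota (z e) ∘ₗ LinearMap.proj e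
  let g : (ZMod n × Fin 3 → (UU n) [⋀^Fin 2]→ₗ[ℂ] ℂ) →ₗ[ℂ]
      (ZMod n → (UU n →ₗ[ℂ] ℂ)) × (ZMod n → (UU n →ₗ[ℂ] ℂ)) :=
    LinearMap.prod (LinearMap.pi fun a => lower_bound_tri ω (a, 0) (a + 1, 1) (a + 1 + ω, 2))
      (LinearMap.pi fun a => lower_bound_tri ω (a + ω, 0) (a, 1) (a + 1 + ω, 2))
  let p : (ZMod n × Fin 3 → (UU n →ₗ[ℂ] ℂ)) →ₗ[ℂ] (ZMod n × Fin 3 → ℂ) :=
    LinearMap.pi fun e => LinearMap.applyₗ (z e) ∘ₗ LinearMap.proj e
  let q : (ZMod n → (UU n →ₗ[ℂ] ℂ)) × (ZMod n → (UU n →ₗ[ℂ] ℂ)) →ₗ[ℂ]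
      (ZMod n → ℂ × ℂ) × (ZMod n → ℂ × ℂ) :=
    LinearMap.prodMap
      (LinearMap.pi fun a => (LinearMap.prod (LinearMap.applyₗ (z (a, 0)))
        (LinearMap.applyₗ (z (a + 1, 1)))) ∘ₗ LinearMap.proj a)
      (LinearMap.pi fun a => (LinearMap.prod (LinearMap.applyₗ (z (a + ω, 0)))
        (LinearMap.applyₗ (z (a, 1)))) ∘ₗ LinearMap.proj a)
  have hdim := lower_bound_dim f g (LinearMap.ker p) (LinearMap.ker q) (by
    intro s hs
    have hs' : ∀ e, s e (node ω e) = 0 := fun e => congrFun (LinearMap.mem_ker.1 hs) e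
    obtain ⟨v, hv⟩ := lower_bound_f_surj hn ω hω s hs'
    exact ⟨v, funext hv⟩) (by
    rintro ⟨up, dn⟩ hl
    have hl' := LinearMap.mem_ker.1 hl
    have h1 := congrArg Prod.fst hl'
    have h2 := congrArg Prod.snd hl'
    obtain ⟨v, hv1, hv2, hv3⟩ := lower_bound_g_surj hn ω hω up dn
      (fun a => congrArg Prod.fst (congrFun h1 a)) (fun a => congrArg Prod.snd (congrFun h1 a))
      (fun a => congrArg Prod.fst (congrFun h2 a)) (fun a => congrArg Prod.snd (congrFun h2 a))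
    exact ⟨v, funext hv1, Prod.ext (funext hv2) (funext hv3)⟩)
  have kp := lower_bound_ker p
  have kq := lower_bound_ker q
  have hrange : LinearMap.range (lower_bound_Phi ω) ≤ LinearMap.ker f ⊓ LinearMap.ker g := by
    rintro _ ⟨B, rfl⟩
    refine ⟨?_, ?_⟩
    · change f (lower_bound_Phi ω B) = 0
      funext e
      refine LinearMap.ext fun y => ?_
      change B (node ω e) (Matrix.vecCons (node ω e) ![node ω e, y]) = 0
      exact (B (node ω e)).map_eq_zero_of_eq _ (i := 0) (j := 1) (by simp) (by decide)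
    · change g (lower_bound_Phi ω B) = 0
      refine Prod.ext (funext fun a => ?_) (funext fun a => ?_)
      · exact lower_bound_tri_Phi ω _ _ _
          (lower_bound_sum ω _ _ _ rfl rfl (by linear_combination hω)) B
      · exact lower_bound_tri_Phi ω _ _ _
          (lower_bound_sum' ω _ _ _ (by ring) (by ring) (by linear_combination hω)) B
  have hr := Submodule.finrank_mono hrange
  have hphi := LinearMap.finrank_range_add_finrank_ker (lower_bound_Phi ω)
  rw [lower_bound_ker_Phi, Module.finrank_linearMap, finrank_UU, d3] at hphi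
  have c1 : finrank ℂ (ZMod n × Fin 3 → (UU n) [⋀^Fin 2]→ₗ[ℂ] ℂ) = 3 * n * (n+1).choose 2 := by
    rw [Module.finrank_pi_fintype]
    simp only [d2, Finset.sum_const, Finset.card_univ, Fintype.card_prod, ZMod.card,
      Fintype.card_fin, smul_eq_mul]; ring
  have c2 : finrank ℂ (ZMod n × Fin 3 → (UU n →ₗ[ℂ] ℂ)) = 3 * n * (n+1) := by
    rw [Module.finrank_pi_fintype]
    simp only [hdual, Finset.sum_const, Finset.card_univ, Fintype.card_prod, ZMod.card,
      Fintype.card_fin, smul_eq_mul]; ring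
  have c3 : finrank ℂ (ZMod n × Fin 3 → ℂ) = 3 * n := by
    rw [Module.finrank_pi]
    simp [ZMod.card]; ring
  have c4 : finrank ℂ ((ZMod n → (UU n →ₗ[ℂ] ℂ)) × (ZMod n → (UU n →ₗ[ℂ] ℂ))) = 2 * n * (n+1) := by
    rw [Module.finrank_prod, Module.finrank_pi_fintype]
    simp only [hdual, Finset.sum_const, Finset.card_univ, ZMod.card, smul_eq_mul]; ring
  have c5 : finrank ℂ ((ZMod n → ℂ × ℂ) × (ZMod n → ℂ × ℂ)) = 4 * n := by
    rw [Module.finrank_prod, Module.finrank_pi_fintype]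
    simp [ZMod.card]; ring
  rw [c1] at hdim
  rw [c2, c3] at kp
  rw [c4, c5] at kq
  have e1 : (n+1).choose 2 = n + n.choose 2 := by
    rw [Nat.choose_succ_succ' n 1, Nat.choose_one_right]
  have hn1 : 1 ≤ n := by omega
  obtain ⟨m, rfl⟩ : ∃ m, n = m + 1 := ⟨n - 1, by omega⟩
  simp only [Nat.add_sub_cancel] at *
  rw [e1] at hdim
  have e3 : (m + 1 + 1) * (m+1+1).choose (2+1) = (m + 1 + 1) * (m+1+1).choose 3 := rfl
  nlinarith [hdim, kp, kq, hr, hphi]

end H475
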