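import Pool.Agent.Helper475.Base

open scoped BigOperators

namespace H475
open Module


/-- the six units, as pairs of integers -/
def ncl_three_U : Fin 6 → ℤ × ℤ := ![(1,0),(0,1),(-1,-1),(-1,0),(0,-1),(1,1)]

/-- the norm -/
def ncl_three_nrm (z : ℤ × ℤ) : ℤ := z.1 * z.1 - z.1 * z.2 + z.2 * z.2

/-- the lattice map -/
def ncl_three_phi {n : ℕ} (ω a : ZMod n) (z : ℤ × ℤ) : ZMod n := a + z.1 + z.2 * ω

theorem ncl_three_ne0 {n : ℕ} (hn : 19 ≤ n) (ω : ZMod n)
    (hω : ω ^ 2 + ω + 1 = 0) (p q : ℤ) (h1 : 0 < p * p - p * q + q * q) (h2 : p * p - p * q + q * q < 19) :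
    (p : ZMod n) + q * ω ≠ 0 := by
  intro h
  have h3 : ((p * p - p * q + q * q : ℤ) : ZMod n) = 0 := by
    push_cast
    have h4 : ω ^ 2 = -ω - 1 := by linear_combination hω
    have : ((p : ZMod n) * p - p * q + q * q) = (p + q * ω) * (p + q * ω ^ 2) := by
      have h5 : ω ^ 3 = 1 := by linear_combination (ω - 1) * hω
      linear_combination (-(p : ZMod n) * q) * hω - (q : ZMod n) * q * h5
    rw [this, h, zero_mul]
  rw [ZMod.intCast_zmod_eq_zero_iff_dvd] at h3
  have := Int.le_of_dvd h1 h3
  omega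

theorem ncl_three_adj {n : ℕ} (ω : ZMod n) (hω : ω ^ 2 + ω + 1 = 0) (a b : ZMod n) :
    Adj ω a b ↔ ∃ i : Fin 6, b = ncl_three_phi ω a (ncl_three_U i) := by
  have h4 : ω ^ 2 = -ω - 1 := by linear_combination hω
  have e0 : ncl_three_phi ω a (ncl_three_U 0) = a + 1 := by
    rw [show ncl_three_U 0 = (1, 0) from rfl]; simp [ncl_three_phi]
  have e1 : ncl_three_phi ω a (ncl_three_U 1) = a + ω := by
    rw [show ncl_three_U 1 = (0, 1) from rfl]; simp [ncl_three_phi]
  have e2 : ncl_three_phi ω a (ncl_three_U 2) = a - 1 - ω := by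
    rw [show ncl_three_U 2 = (-1, -1) from rfl]; simp [ncl_three_phi]; ring
  have e3 : ncl_three_phi ω a (ncl_three_U 3) = a - 1 := by
    rw [show ncl_three_U 3 = (-1, 0) from rfl]; simp [ncl_three_phi]; ring
  have e4 : ncl_three_phi ω a (ncl_three_U 4) = a - ω := by
    rw [show ncl_three_U 4 = (0, -1) from rfl]; simp [ncl_three_phi]; ring
  have e5 : ncl_three_phi ω a (ncl_three_U 5) = a + 1 + ω := by
    rw [show ncl_three_U 5 = (1, 1) from rfl]; simp [ncl_three_phi]
  unfold Adj
  constructor
  · rintro ⟨i, h | h⟩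
    · fin_cases i
      · refine ⟨0, ?_⟩
        rw [e0, h]; simp
      · refine ⟨1, ?_⟩
        rw [e1, h]; simp
      · refine ⟨2, ?_⟩
        rw [e2, h]
        simp only [Fin.reduceFinMk, Fin.val_two] at *
        linear_combination h4
    · fin_cases i
      · refine ⟨3, ?_⟩
        rw [e3, h]; simp
      · refine ⟨4, ?_⟩
        rw [e4, h]; simp
      · refine ⟨5, ?_⟩
        rw [e5, h]
        simp only [Fin.reduceFinMk, Fin.val_two] at *
        linear_combination -h4
  · rintro ⟨i, h⟩
    fin_cases i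
    · exact ⟨0, Or.inl (by simpa using h.trans e0)⟩
    · exact ⟨1, Or.inl (by simpa using h.trans e1)⟩
    · refine ⟨2, Or.inl ?_⟩
      have := h.trans e2
      rw [this]
      simp only [Fin.val_two]
      linear_combination -h4
    · refine ⟨0, Or.inr ?_⟩
      have := h.trans e3
      rw [this]
      simp
    · refine ⟨1, Or.inr ?_⟩
      have := h.trans e4
      rw [this]
      simp
    · refine ⟨2, Or.inr ?_⟩
      have := h.trans e5
      rw [this]
      simp only [Fin.val_two]
      linear_combination -h4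

theorem ncl_three_dec1 : ∀ i j k : Fin 6, ncl_three_U i + ncl_three_U j = ncl_three_U k ∨
    (0 < ncl_three_nrm (ncl_three_U i + ncl_three_U j - ncl_three_U k) ∧
      ncl_three_nrm (ncl_three_U i + ncl_three_U j - ncl_three_U k) < 19) := by
  decide

theorem ncl_three_dec2 : ∀ i j k : Fin 6, ncl_three_U i + ncl_three_U j = ncl_three_U k →
    ∃ x ∈ ({(0, 0), ncl_three_U i, ncl_three_U k} : Finset (ℤ × ℤ)),
      ({(0, 0), ncl_three_U i, ncl_three_U k} : Finset (ℤ × ℤ)) = {x, x + (1, 0), x + (1, 1)} ∨
      ({(0, 0), ncl_three_U i, ncl_three_U k} : Finset (ℤ × ℤ)) = {x, x + (0, 1), x + (1, 1)} := by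
  decide

/-- upward triangles -/
def ncl_three_up {n : ℕ} (ω a : ZMod n) : Finset (ZMod n) := {a, a + 1, a + 1 + ω}

/-- downward triangles -/
def ncl_three_dn {n : ℕ} (ω a : ZMod n) : Finset (ZMod n) := {a, a + ω, a + 1 + ω}

theorem ncl_three_symm {n : ℕ} (ω a b : ZMod n) (h : Adj ω a b) : Adj ω b a := by
  obtain ⟨i, h⟩ := h
  exact ⟨i, h.symm⟩

theorem ncl_three_tri {n : ℕ} (ω : ZMod n) (x y z : ZMod n) (hxy : x ≠ y) (hxz : x ≠ z) (hyz : y ≠ z)
    (h1 : Adj ω x y) (h2 : Adj ω x z) (h3 : Adj ω y z) :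
    ({x, y, z} : Finset (ZMod n)).card = 3 ∧ Cl (Adj ω) ({x, y, z} : Finset (ZMod n)) := by
  refine ⟨Finset.card_eq_three.2 ⟨x, y, z, hxy, hxz, hyz, rfl⟩, ?_⟩
  intro u hu v hv huv
  simp only [Finset.mem_insert, Finset.mem_singleton] at hu hv
  rcases hu with rfl | rfl | rfl <;> rcases hv with rfl | rfl | rfl
  · exact absurd rfl huv
  · exact h1
  · exact h2
  · exact ncl_three_symm _ _ _ h1
  · exact absurd rfl huv
  · exact h3
  · exact ncl_three_symm _ _ _ h2
  · exact ncl_three_symm _ _ _ h3
  · exact absurd rfl huv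

theorem ncl_three_mem {n : ℕ} (hn : 19 ≤ n) (ω : ZMod n)
    (hω : ω ^ 2 + ω + 1 = 0) (S : Finset (ZMod n)) :
    (S.card = 3 ∧ Cl (Adj ω) S) ↔ (∃ a, ncl_three_up ω a = S) ∨ (∃ a, ncl_three_dn ω a = S) := by
  have h4 : ω ^ 2 = -ω - 1 := by linear_combination hω
  have n1 := ncl_three_ne0 hn ω hω 1 0 (by norm_num) (by norm_num)
  have n2 := ncl_three_ne0 hn ω hω 0 1 (by norm_num) (by norm_num)
  have n3 := ncl_three_ne0 hn ω hω 1 1 (by norm_num) (by norm_num)
  push_cast at n1 n2 n3
  constructor
  · rintro ⟨hS, hcl⟩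
    obtain ⟨x, y, z, hxy, hxz, hyz, rfl⟩ := Finset.card_eq_three.1 hS
    have h1 := hcl x (by simp) y (by simp) hxy
    have h2 := hcl y (by simp) z (by simp) hyz
    have h3 := hcl x (by simp) z (by simp) hxz
    rw [ncl_three_adj ω hω] at h1 h2 h3
    obtain ⟨i, hi⟩ := h1
    obtain ⟨j, hj⟩ := h2
    obtain ⟨k, hk⟩ := h3
    have hijk : ncl_three_U i + ncl_three_U j = ncl_three_U k := by
      rcases ncl_three_dec1 i j k with h | ⟨h, h'⟩
      · exact h
      · exfalso
        apply ncl_three_ne0 hn ω hω _ _ h h'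
        rw [hi] at hj
        rw [hk] at hj
        unfold ncl_three_phi at hj
        simp only [Prod.fst_add, Prod.snd_add, Prod.fst_sub, Prod.snd_sub]
        push_cast
        linear_combination -hj
    have hS' : ({x, y, z} : Finset (ZMod n)) =
        Finset.image (ncl_three_phi ω x) ({(0, 0), ncl_three_U i, ncl_three_U k} : Finset (ℤ × ℤ)) := by
      rw [Finset.image_insert, Finset.image_insert, Finset.image_singleton, ← hi, ← hk]
      congr 1
      simp [ncl_three_phi]
    obtain ⟨w, _, hw | hw⟩ := ncl_three_dec2 i j k hijk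
    · left
      refine ⟨ncl_three_phi ω x w, ?_⟩
      rw [hS', hw, Finset.image_insert, Finset.image_insert, Finset.image_singleton]
      unfold ncl_three_up ncl_three_phi
      simp only [Prod.fst_add, Prod.snd_add]
      push_cast
      congr 1
      congr 1
      · ring
      · congr 1
        ring
    · right
      refine ⟨ncl_three_phi ω x w, ?_⟩
      rw [hS', hw, Finset.image_insert, Finset.image_insert, Finset.image_singleton]
      unfold ncl_three_dn ncl_three_phi
      simp only [Prod.fst_add, Prod.snd_add]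
      push_cast
      congr 1
      congr 1
      · ring
      · congr 1
        ring
  · rintro (⟨a, rfl⟩ | ⟨a, rfl⟩)
    · unfold ncl_three_up
      apply ncl_three_tri
      · intro h; apply n1; linear_combination -h
      · intro h; apply n3; linear_combination -h
      · intro h; apply n2; linear_combination -h
      · exact ⟨0, Or.inl (by simp)⟩
      · exact ⟨2, Or.inr (by simp only [Fin.val_two]; linear_combination -h4)⟩
      · exact ⟨1, Or.inl (by simp)⟩
    · unfold ncl_three_dn
      apply ncl_three_tri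
      · intro h; apply n2; linear_combination -h
      · intro h; apply n3; linear_combination -h
      · intro h; apply n1; linear_combination -h
      · exact ⟨1, Or.inl (by simp)⟩
      · exact ⟨2, Or.inr (by simp only [Fin.val_two]; linear_combination -h4)⟩
      · exact ⟨0, Or.inl (by simp only [Fin.val_zero, pow_zero]; ring)⟩

theorem ncl_three_sum_up {n : ℕ} (hn : 19 ≤ n) (ω : ZMod n)
    (hω : ω ^ 2 + ω + 1 = 0) (a : ZMod n) : ∑ x ∈ ncl_three_up ω a, x = 3 * a + 2 + ω := by
  have n1 := ncl_three_ne0 hn ω hω 1 0 (by norm_num) (by norm_num)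
  have n2 := ncl_three_ne0 hn ω hω 0 1 (by norm_num) (by norm_num)
  have n3 := ncl_three_ne0 hn ω hω 1 1 (by norm_num) (by norm_num)
  push_cast at n1 n2 n3
  unfold ncl_three_up
  rw [Finset.sum_insert, Finset.sum_insert, Finset.sum_singleton]
  · ring
  · rw [Finset.mem_singleton]
    intro h; apply n2; linear_combination -h
  · rw [Finset.mem_insert, Finset.mem_singleton]
    rintro (h | h)
    · apply n1; linear_combination -h
    · apply n3; linear_combination -h

theorem ncl_three_sum_dn {n : ℕ} (hn : 19 ≤ n) (ω : ZMod n)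
    (hω : ω ^ 2 + ω + 1 = 0) (a : ZMod n) : ∑ x ∈ ncl_three_dn ω a, x = 3 * a + 1 + 2 * ω := by
  have n1 := ncl_three_ne0 hn ω hω 1 0 (by norm_num) (by norm_num)
  have n2 := ncl_three_ne0 hn ω hω 0 1 (by norm_num) (by norm_num)
  have n3 := ncl_three_ne0 hn ω hω 1 1 (by norm_num) (by norm_num)
  push_cast at n1 n2 n3
  unfold ncl_three_dn
  rw [Finset.sum_insert, Finset.sum_insert, Finset.sum_singleton]
  · ring
  · rw [Finset.mem_singleton]
    intro h; apply n1; linear_combination -h
  · rw [Finset.mem_insert, Finset.mem_singleton]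
    rintro (h | h)
    · apply n2; linear_combination -h
    · apply n3; linear_combination -h

theorem ncl_three {n : ℕ} [Fact n.Prime] (hn : 19 ≤ n) (ω : ZMod n)
    (hω : ω ^ 2 + ω + 1 = 0) : ncl (Adj ω) 3 (Finset.univ : Finset (ZMod n)) = 2 * n := by
  classical
  have h3 : (3 : ZMod n) ≠ 0 := by
    intro h
    have h' : ((3 : ℕ) : ZMod n) = 0 := by exact_mod_cast h
    rw [ZMod.natCast_eq_zero_iff] at h'
    have := Nat.le_of_dvd (by norm_num) h'
    omega
  have hup : Function.Injective (ncl_three_up ω) := by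
    intro a b h
    have h1 := ncl_three_sum_up hn ω hω a
    rw [h, ncl_three_sum_up hn ω hω b] at h1
    have h2 : (3 : ZMod n) * (b - a) = 0 := by linear_combination h1
    rcases mul_eq_zero.1 h2 with h4 | h4
    · exact absurd h4 h3
    · linear_combination -h4
  have hdn : Function.Injective (ncl_three_dn ω) := by
    intro a b h
    have h1 := ncl_three_sum_dn hn ω hω a
    rw [h, ncl_three_sum_dn hn ω hω b] at h1
    have h2 : (3 : ZMod n) * (b - a) = 0 := by linear_combination h1
    rcases mul_eq_zero.1 h2 with h4 | h4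
    · exact absurd h4 h3
    · linear_combination -h4
  have hdisj : Disjoint (Finset.univ.image (ncl_three_up ω)) (Finset.univ.image (ncl_three_dn ω)) := by
    rw [Finset.disjoint_left]
    intro S hS hS'
    obtain ⟨a, _, rfl⟩ := Finset.mem_image.1 hS
    obtain ⟨b, _, hb⟩ := Finset.mem_image.1 hS'
    have h1 := ncl_three_sum_up hn ω hω a
    rw [← hb, ncl_three_sum_dn hn ω hω b] at h1
    have hmem : b ∈ ncl_three_up ω a := by
      rw [← hb]; simp [ncl_three_dn]
    unfold ncl_three_up at hmem
    simp only [Finset.mem_insert, Finset.mem_singleton] at hmem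
    have n1 := ncl_three_ne0 hn ω hω 1 (-1) (by norm_num) (by norm_num)
    have n2 := ncl_three_ne0 hn ω hω 2 1 (by norm_num) (by norm_num)
    have n3 := ncl_three_ne0 hn ω hω 2 4 (by norm_num) (by norm_num)
    push_cast at n1 n2 n3
    rcases hmem with h | h | h
    · apply n1; rw [h] at h1; linear_combination -h1
    · apply n2; rw [h] at h1; linear_combination h1
    · apply n3; rw [h] at h1; linear_combination h1
  unfold ncl
  have hEq : (Finset.powersetCard 3 (Finset.univ : Finset (ZMod n))).filter (Cl (Adj ω)) =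
      Finset.univ.image (ncl_three_up ω) ∪ Finset.univ.image (ncl_three_dn ω) := by
    ext S
    simp only [Finset.mem_filter, Finset.mem_powersetCard, Finset.subset_univ, true_and, Finset.mem_union,
      Finset.mem_image, Finset.mem_univ]
    exact ncl_three_mem hn ω hω S
  have hcard : ((Finset.powersetCard 3 (Finset.univ : Finset (ZMod n))).filter (Cl (Adj ω))).card = 2 * n := by
    rw [hEq, Finset.card_union_of_disjoint hdisj, Finset.card_image_of_injective _ hup,
      Finset.card_image_of_injective _ hdn, Finset.card_univ, ZMod.card]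
    ring
  convert hcard

end H475
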