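import Pool.Agent.Helper475.Base

open scoped BigOperators

namespace H475
open Module


/-- small combinations of `1, ω, ω ^ 2` do not vanish -/
theorem ncl_two_ne {n : ℕ} [Fact n.Prime] (hn : 19 ≤ n) (ω : ZMod n)
    (hω : ω ^ 2 + ω + 1 = 0) (p q : ℤ) (h0 : p ^ 2 - p * q + q ^ 2 ≠ 0)
    (h1 : p ^ 2 - p * q + q ^ 2 < 19) (h2 : -19 < p ^ 2 - p * q + q ^ 2) :
    (p : ZMod n) + q * ω ≠ 0 := by
  intro h
  have e : ((p ^ 2 - p * q + q ^ 2 : ℤ) : ZMod n) = 0 := by
    push_cast
    linear_combination ((p : ZMod n) + q * ω ^ 2) * h - (p * q + q ^ 2 * (ω - 1)) * hω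
  rw [ZMod.intCast_zmod_eq_zero_iff_dvd] at e
  have h3 : |p ^ 2 - p * q + q ^ 2| < (n : ℤ) := by
    rw [abs_lt]
    constructor <;> omega
  exact h0 (Int.eq_zero_of_abs_lt_dvd e h3)

theorem ncl_two_pow {n : ℕ} (ω : ZMod n) (i : Fin 3) :
    ω ^ (i : ℕ) = if i = 0 then 1 else if i = 1 then ω else ω ^ 2 := by
  fin_cases i <;> simp

/-- sums and differences of powers -/
theorem ncl_two_aux {n : ℕ} [Fact n.Prime] (hn : 19 ≤ n) (ω : ZMod n)
    (hω : ω ^ 2 + ω + 1 = 0) (i j : Fin 3) :
    (ω ^ (i : ℕ) = ω ^ (j : ℕ) → i = j) ∧ ω ^ (i : ℕ) + ω ^ (j : ℕ) ≠ 0 ∧ ω ^ (i : ℕ) ≠ 0 := by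
  have k := ncl_two_ne hn ω hω
  have w2 : ω ^ 2 = -ω - 1 := by linear_combination hω
  have a1 : (1 : ZMod n) ≠ 0 := by simpa using k 1 0 (by norm_num) (by norm_num) (by norm_num)
  have a2 : ω ≠ 0 := by simpa using k 0 1 (by norm_num) (by norm_num) (by norm_num)
  have a3 : (1 : ZMod n) + ω ≠ 0 := by
    simpa using k 1 1 (by norm_num) (by norm_num) (by norm_num)
  have a4 : (1 : ZMod n) - ω ≠ 0 := by
    have := k 1 (-1) (by norm_num) (by norm_num) (by norm_num)
    intro h
    apply this
    push_cast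
    linear_combination h
  have a5 : (1 : ZMod n) + 2 * ω ≠ 0 := by
    simpa using k 1 2 (by norm_num) (by norm_num) (by norm_num)
  have a6 : (2 : ZMod n) + ω ≠ 0 := by
    simpa using k 2 1 (by norm_num) (by norm_num) (by norm_num)
  have a7 : (2 : ZMod n) ≠ 0 := by
    simpa using k 2 0 (by norm_num) (by norm_num) (by norm_num)
  have hs : ω ^ (i : ℕ) + ω ^ (j : ℕ) ≠ 0 := by
    intro h
    fin_cases i <;> fin_cases j <;>
      simp only [Fin.mk_zero, Fin.mk_one, Fin.reduceFinMk, Fin.val_zero, Fin.val_one, Fin.val_two,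
        pow_zero, pow_one, Fin.isValue] at h
    · exact a7 (by linear_combination h)
    · exact a3 (by linear_combination h)
    · exact a2 (by linear_combination hω - h)
    · exact a3 (by linear_combination h)
    · exact (mul_ne_zero a7 a2) (by linear_combination h)
    · exact a1 (by linear_combination hω - h)
    · exact a2 (by linear_combination hω - h)
    · exact a1 (by linear_combination hω - h)
    · exact (mul_ne_zero a7 a3) (by linear_combination 2 * hω - h)
  have hd : ω ^ (i : ℕ) = ω ^ (j : ℕ) → i = j := by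
    intro h
    fin_cases i <;> fin_cases j <;>
      simp only [Fin.mk_zero, Fin.mk_one, Fin.reduceFinMk, Fin.val_zero, Fin.val_one, Fin.val_two,
        pow_zero, pow_one, Fin.isValue] at h ⊢
    · exact absurd (by linear_combination h) a4
    · exact absurd (by linear_combination hω + h) a6
    · exact absurd (by linear_combination -h) a4
    · exact absurd (by linear_combination hω + h) a5
    · exact absurd (by linear_combination hω - h) a6
    · exact absurd (by linear_combination hω - h) a5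
  exact ⟨hd, hs, fun h => hs (by
    have := hs
    fin_cases i <;>
      simp only [Fin.mk_zero, Fin.mk_one, Fin.reduceFinMk, Fin.val_zero, Fin.val_one, Fin.val_two,
        pow_zero, pow_one, Fin.isValue] at h
    · exact absurd h a1
    · exact absurd h a2
    · exact absurd h (pow_ne_zero 2 a2))⟩

theorem ncl_two {n : ℕ} [Fact n.Prime] (hn : 19 ≤ n) (ω : ZMod n)
    (hω : ω ^ 2 + ω + 1 = 0) : ncl (Adj ω) 2 (Finset.univ : Finset (ZMod n)) = 3 * n := by
  classical
  have haux := ncl_two_aux hn ω hω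
  have hne : ∀ (a : ZMod n) (i : Fin 3), a ≠ a + ω ^ (i : ℕ) := by
    intro a i h
    exact (haux i i).2.2 (by linear_combination -h)
  have hset : ((Finset.univ : Finset (ZMod n)).powersetCard 2).filter (Cl (Adj ω)) =
      (Finset.univ : Finset (ZMod n × Fin 3)).image
        (fun e => ({e.1, e.1 + ω ^ (e.2 : ℕ)} : Finset (ZMod n))) := by
    ext S
    rw [Finset.mem_filter, Finset.mem_powersetCard, Finset.mem_image]
    constructor
    · rintro ⟨⟨_, hS⟩, hcl⟩
      obtain ⟨a, b, hab, rfl⟩ := Finset.card_eq_two.1 hS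
      obtain ⟨i, hi | hi⟩ := hcl a (by simp) b (by simp) hab
      · exact ⟨(a, i), Finset.mem_univ _, by simp only; rw [hi]⟩
      · exact ⟨(b, i), Finset.mem_univ _, by simp only; rw [hi, Finset.pair_comm]⟩
    · rintro ⟨⟨a, i⟩, _, rfl⟩
      refine ⟨⟨Finset.subset_univ _, Finset.card_pair (hne a i)⟩, ?_⟩
      intro x hx y hy hxy
      simp only [Finset.mem_insert, Finset.mem_singleton] at hx hy
      rcases hx with rfl | rfl <;> rcases hy with rfl | rfl
      · exact absurd rfl hxy
      · exact ⟨i, Or.inl rfl⟩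
      · exact ⟨i, Or.inr rfl⟩
      · exact absurd rfl hxy
  have hinj : Function.Injective
      (fun e : ZMod n × Fin 3 => ({e.1, e.1 + ω ^ (e.2 : ℕ)} : Finset (ZMod n))) := by
    rintro ⟨a, i⟩ ⟨b, j⟩ h
    simp only at h
    have h1 : a ∈ ({b, b + ω ^ (j : ℕ)} : Finset (ZMod n)) := by rw [← h]; simp
    have h2 : a + ω ^ (i : ℕ) ∈ ({b, b + ω ^ (j : ℕ)} : Finset (ZMod n)) := by rw [← h]; simp
    simp only [Finset.mem_insert, Finset.mem_singleton] at h1 h2
    rcases h1 with h1 | h1 <;> rcases h2 with h2 | h2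
    · exact absurd (by rw [h2, h1]) (hne a i)
    · subst h1
      have := (haux i j).1 (by linear_combination h2)
      rw [this]
    · exact absurd (show ω ^ (i : ℕ) + ω ^ (j : ℕ) = 0 by linear_combination h2 - h1)
        (haux i j).2.1
    · exact absurd (by rw [h2, h1]) (hne a i)
  unfold ncl
  have hcard : (((Finset.univ : Finset (ZMod n)).powersetCard 2).filter (Cl (Adj ω))).card =
      3 * n := by
    rw [hset, Finset.card_image_of_injective _ hinj, Finset.card_univ, Fintype.card_prod,
      ZMod.card, Fintype.card_fin, mul_comm]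
  convert hcard

end H475
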