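import Pool.Agent.Helper475.Base

open scoped BigOperators

namespace H475
open Module

/-- first coordinates of the six units -/
def no_C4_P : Fin 6 → ℤ := ![1, -1, 0, 0, -1, 1]

/-- second coordinates of the six units -/
def no_C4_Q : Fin 6 → ℤ := ![0, 0, 1, -1, -1, 1]

theorem no_C4_check : ∀ e1 e2 e3 e4 : Fin 6,
    (0 < (no_C4_P e1 + no_C4_P e2 + no_C4_P e3 + no_C4_P e4) ^ 2 -
        (no_C4_P e1 + no_C4_P e2 + no_C4_P e3 + no_C4_P e4) *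
          (no_C4_Q e1 + no_C4_Q e2 + no_C4_Q e3 + no_C4_Q e4) +
        (no_C4_Q e1 + no_C4_Q e2 + no_C4_Q e3 + no_C4_Q e4) ^ 2 ∧
      (no_C4_P e1 + no_C4_P e2 + no_C4_P e3 + no_C4_P e4) ^ 2 -
        (no_C4_P e1 + no_C4_P e2 + no_C4_P e3 + no_C4_P e4) *
          (no_C4_Q e1 + no_C4_Q e2 + no_C4_Q e3 + no_C4_Q e4) +
        (no_C4_Q e1 + no_C4_Q e2 + no_C4_Q e3 + no_C4_Q e4) ^ 2 < 19) ∨
    (no_C4_P e1 + no_C4_P e2 = 0 ∧ no_C4_Q e1 + no_C4_Q e2 = 0) ∨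
    (no_C4_P e2 + no_C4_P e3 = 0 ∧ no_C4_Q e2 + no_C4_Q e3 = 0) ∨
    (∃ e, no_C4_P e1 + no_C4_P e2 = no_C4_P e ∧ no_C4_Q e1 + no_C4_Q e2 = no_C4_Q e) ∨
    (∃ e, no_C4_P e2 + no_C4_P e3 = no_C4_P e ∧ no_C4_Q e2 + no_C4_Q e3 = no_C4_Q e) := by
  decide +kernel

theorem no_C4_adj {n : ℕ} (ω : ZMod n) (hω : ω ^ 2 + ω + 1 = 0) (a b : ZMod n) :
    Adj ω a b ↔ ∃ e : Fin 6, b = a + ((no_C4_P e : ZMod n) + (no_C4_Q e : ZMod n) * ω) := by
  have hw : ω ^ 2 = -1 - ω := by linear_combination hω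
  constructor
  · rintro ⟨i, h | h⟩
    · fin_cases i
      · exact ⟨0, by rw [h]; simp [no_C4_P, no_C4_Q]⟩
      · exact ⟨2, by rw [h]; simp [no_C4_P, no_C4_Q]⟩
      · refine ⟨4, ?_⟩
        rw [h]
        simp only [no_C4_P, no_C4_Q]
        simp
        linear_combination hw
    · fin_cases i
      · refine ⟨1, ?_⟩
        rw [h]
        simp [no_C4_P, no_C4_Q]
      · refine ⟨3, ?_⟩
        rw [h]
        simp [no_C4_P, no_C4_Q]
      · refine ⟨5, ?_⟩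
        rw [h]
        simp only [no_C4_P, no_C4_Q]
        simp
        linear_combination -hw
  · rintro ⟨e, h⟩
    unfold Adj
    fin_cases e
    · exact ⟨0, Or.inl (by rw [h]; simp [no_C4_P, no_C4_Q])⟩
    · exact ⟨0, Or.inr (by rw [h]; simp [no_C4_P, no_C4_Q])⟩
    · exact ⟨1, Or.inl (by rw [h]; simp [no_C4_P, no_C4_Q])⟩
    · exact ⟨1, Or.inr (by rw [h]; simp [no_C4_P, no_C4_Q])⟩
    · refine ⟨2, Or.inl ?_⟩
      rw [h]
      simp only [no_C4_P, no_C4_Q]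
      simp
      linear_combination -hw
    · refine ⟨2, Or.inr ?_⟩
      rw [h]
      simp only [no_C4_P, no_C4_Q]
      simp
      linear_combination -hw

theorem no_C4 {n : ℕ} [Fact n.Prime] (hn : 19 ≤ n) (ω : ZMod n)
    (hω : ω ^ 2 + ω + 1 = 0) (a b c d : ZMod n) (hac : a ≠ c) (hbd : b ≠ d)
    (h1 : Adj ω a b) (h2 : Adj ω b c) (h3 : Adj ω c d) (h4 : Adj ω d a) :
    Adj ω a c ∨ Adj ω b d := by
  rw [no_C4_adj ω hω] at h1 h2 h3 h4
  obtain ⟨e1, h1⟩ := h1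
  obtain ⟨e2, h2⟩ := h2
  obtain ⟨e3, h3⟩ := h3
  obtain ⟨e4, h4⟩ := h4
  have hw : ω ^ 2 = -1 - ω := by linear_combination hω
  rcases no_C4_check e1 e2 e3 e4 with h | h | h | ⟨e, h⟩ | ⟨e, h⟩
  · exfalso
    have hsum : ((no_C4_P e1 + no_C4_P e2 + no_C4_P e3 + no_C4_P e4 : ℤ) : ZMod n) +
        ((no_C4_Q e1 + no_C4_Q e2 + no_C4_Q e3 + no_C4_Q e4 : ℤ) : ZMod n) * ω = 0 := by
      push_cast
      rw [h3, h2, h1] at h4
      linear_combination -h4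
    generalize no_C4_P e1 + no_C4_P e2 + no_C4_P e3 + no_C4_P e4 = p at *
    generalize no_C4_Q e1 + no_C4_Q e2 + no_C4_Q e3 + no_C4_Q e4 = q at *
    have h0 : ((p ^ 2 - p * q + q ^ 2 : ℤ) : ZMod n) = 0 := by
      push_cast
      linear_combination ((p : ZMod n) - q - q * ω) * hsum + (q : ZMod n) ^ 2 * hω
    rw [ZMod.intCast_zmod_eq_zero_iff_dvd] at h0
    have := Int.le_of_dvd h.1 h0
    omega
  · exfalso
    apply hac
    have e1' : ((no_C4_P e1 + no_C4_P e2 : ℤ) : ZMod n) = 0 := by rw [h.1]; simp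
    have e2' : ((no_C4_Q e1 + no_C4_Q e2 : ℤ) : ZMod n) = 0 := by rw [h.2]; simp
    push_cast at e1' e2'
    rw [h2, h1]
    linear_combination -e1' - ω * e2'
  · exfalso
    apply hbd
    have e1' : ((no_C4_P e2 + no_C4_P e3 : ℤ) : ZMod n) = 0 := by rw [h.1]; simp
    have e2' : ((no_C4_Q e2 + no_C4_Q e3 : ℤ) : ZMod n) = 0 := by rw [h.2]; simp
    push_cast at e1' e2'
    rw [h3, h2]
    linear_combination -e1' - ω * e2'
  · left
    rw [no_C4_adj ω hω]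
    refine ⟨e, ?_⟩
    rw [← h.1, ← h.2, h2, h1]
    push_cast
    ring
  · right
    rw [no_C4_adj ω hω]
    refine ⟨e, ?_⟩
    rw [← h.1, ← h.2, h3, h2]
    push_cast
    ring

end H475
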