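import Pool.Agent.Helper475.Base

open scoped BigOperators

namespace H475
open Module

/-- the six units, as pairs of coordinates on 1 and ω -/
def no_K4_vec : Fin 6 → ℤ × ℤ := ![(1, 0), (-1, 0), (0, 1), (0, -1), (1, 1), (-1, -1)]

theorem no_K4_norm : ∀ i j x : Fin 6,
    ((no_K4_vec j).1 - (no_K4_vec i).1 - (no_K4_vec x).1) ^ 2
      - ((no_K4_vec j).1 - (no_K4_vec i).1 - (no_K4_vec x).1)
        * ((no_K4_vec j).2 - (no_K4_vec i).2 - (no_K4_vec x).2)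
      + ((no_K4_vec j).2 - (no_K4_vec i).2 - (no_K4_vec x).2) ^ 2 < 19 := by
  decide

theorem no_K4_fin : ∀ i j l : Fin 6,
    ¬ ((∃ x, no_K4_vec j - no_K4_vec i = no_K4_vec x) ∧
      (∃ x, no_K4_vec l - no_K4_vec i = no_K4_vec x) ∧
      (∃ x, no_K4_vec l - no_K4_vec j = no_K4_vec x)) := by
  decide

theorem no_K4_unit {n : ℕ} (ω : ZMod n) (hω : ω ^ 2 + ω + 1 = 0) (a b : ZMod n)
    (hab : Adj ω a b) : ∃ i : Fin 6, b - a = ((no_K4_vec i).1 : ZMod n) + (no_K4_vec i).2 * ω := by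
  obtain ⟨i, hi⟩ := hab
  have h2 : ω ^ 2 = -1 - ω := by linear_combination hω
  fin_cases i
  · rcases hi with hi | hi
    · refine ⟨0, ?_⟩
      simp [no_K4_vec] at hi ⊢
      rw [hi]; ring
    · refine ⟨1, ?_⟩
      simp [no_K4_vec] at hi ⊢
      rw [hi]; ring
  · rcases hi with hi | hi
    · refine ⟨2, ?_⟩
      simp [no_K4_vec] at hi ⊢
      rw [hi]; ring
    · refine ⟨3, ?_⟩
      simp [no_K4_vec] at hi ⊢
      rw [hi]; ring
  · rcases hi with hi | hi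
    · refine ⟨5, ?_⟩
      simp [no_K4_vec] at hi ⊢
      rw [hi, h2]; ring
    · refine ⟨4, ?_⟩
      simp [no_K4_vec] at hi ⊢
      rw [hi, h2]; ring

theorem no_K4_zero {n : ℕ} (hn : 19 ≤ n) (ω : ZMod n) (hω : ω ^ 2 + ω + 1 = 0) (P Q : ℤ)
    (h19 : P ^ 2 - P * Q + Q ^ 2 < 19) (h : (P : ZMod n) + Q * ω = 0) : P = 0 ∧ Q = 0 := by
  have h0 : ((P ^ 2 - P * Q + Q ^ 2 : ℤ) : ZMod n) = 0 := by
    push_cast
    linear_combination ((P : ZMod n) + Q * ω ^ 2) * h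
      - ((P : ZMod n) * Q + (Q : ZMod n) ^ 2 * (ω - 1)) * hω
  rw [ZMod.intCast_zmod_eq_zero_iff_dvd] at h0
  have hnn : 0 ≤ P ^ 2 - P * Q + Q ^ 2 := by nlinarith [sq_nonneg (P - Q), sq_nonneg P, sq_nonneg Q]
  have hz : P ^ 2 - P * Q + Q ^ 2 = 0 := by
    by_contra hne
    have hle := Int.le_of_dvd (lt_of_le_of_ne hnn (Ne.symm hne)) h0
    have : (19 : ℤ) ≤ n := by exact_mod_cast hn
    linarith
  constructor
  · nlinarith [sq_nonneg (P - 2 * Q), sq_nonneg P, sq_nonneg Q, sq_nonneg (2 * P - Q)]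
  · nlinarith [sq_nonneg (P - 2 * Q), sq_nonneg P, sq_nonneg Q, sq_nonneg (2 * P - Q)]

theorem no_K4_diff {n : ℕ} (hn : 19 ≤ n) (ω : ZMod n) (hω : ω ^ 2 + ω + 1 = 0) (a b c : ZMod n)
    (i j : Fin 6) (hi : b - a = ((no_K4_vec i).1 : ZMod n) + (no_K4_vec i).2 * ω)
    (hj : c - a = ((no_K4_vec j).1 : ZMod n) + (no_K4_vec j).2 * ω) (hbc : Adj ω b c) :
    ∃ x, no_K4_vec j - no_K4_vec i = no_K4_vec x := by
  obtain ⟨x, hx⟩ := no_K4_unit ω hω b c hbc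
  refine ⟨x, ?_⟩
  have hz := no_K4_zero hn ω hω _ _ (no_K4_norm i j x) (by
    push_cast
    linear_combination hi - hj + hx)
  ext
  · simp only [Prod.fst_sub]
    linarith [hz.1]
  · simp only [Prod.snd_sub]
    linarith [hz.2]

theorem no_K4 {n : ℕ} [Fact n.Prime] (hn : 19 ≤ n) (ω : ZMod n)
    (hω : ω ^ 2 + ω + 1 = 0) (a b c d : ZMod n) (hab : Adj ω a b) (hac : Adj ω a c)
    (had : Adj ω a d) (hbc : Adj ω b c) (hbd : Adj ω b d) (hcd : Adj ω c d) : False := by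
  obtain ⟨i, hi⟩ := no_K4_unit ω hω a b hab
  obtain ⟨j, hj⟩ := no_K4_unit ω hω a c hac
  obtain ⟨l, hl⟩ := no_K4_unit ω hω a d had
  exact no_K4_fin i j l ⟨no_K4_diff hn ω hω a b c i j hi hj hbc,
    no_K4_diff hn ω hω a b d i l hi hl hbd, no_K4_diff hn ω hω a c d j l hj hl hcd⟩

end H475
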