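import Pool.Agent.Helper475.Base
import Pool.Agent.Helper475.NoK4

open scoped BigOperators

namespace H475
open Module




theorem strictness_quad {n k : ℕ} [NeZero n] (ξ : UU n →ₗ[ℂ] UU n) (z0 z1 : UU n)
    (B : UU n →ₗ[ℂ] (UU n) [⋀^Fin (k+1)]→ₗ[ℂ] ℂ) (x : Fin k → UU n)
    (h0 : B (ξ z0) (Matrix.vecCons z0 x) + B z0 (Matrix.vecCons (ξ z0) x) = 0)
    (h1 : B (ξ z1) (Matrix.vecCons z1 x) + B z1 (Matrix.vecCons (ξ z1) x) = 0)
    (h2 : B (ξ (z0 + z1)) (Matrix.vecCons (z0 + z1) x) +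
      B (z0 + z1) (Matrix.vecCons (ξ (z0 + z1)) x) = 0) (p r : ℂ) :
    B (ξ (p • z0 + r • z1)) (Matrix.vecCons (p • z0 + r • z1) x) +
      B (p • z0 + r • z1) (Matrix.vecCons (ξ (p • z0 + r • z1)) x) = 0 := by
  simp only [map_add, map_smul, AlternatingMap.add_apply,
    AlternatingMap.smul_apply, AlternatingMap.map_vecCons_add, AlternatingMap.map_vecCons_smul,
    smul_eq_mul] at h2 ⊢
  linear_combination (p^2 - p*r) * h0 + (r^2 - p*r) * h1 + p*r*h2

/-- coordinate functional -/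
noncomputable def strictness_xf {n : ℕ} [NeZero n] (a : ZMod n) : UU n →ₗ[ℂ] ℂ :=
  (LinearMap.proj a).comp ((Z0 (ZMod n)).subtype.comp (LinearMap.fst ℂ _ _))

theorem strictness_xf_apply {n : ℕ} [NeZero n] (a : ZMod n) (z : UU n) :
    strictness_xf a z = (z.1 : ZMod n → ℂ) a := rfl

/-- coordinate functional -/
noncomputable def strictness_cf {n : ℕ} [NeZero n] (a : Fin 3) : UU n →ₗ[ℂ] ℂ :=
  (LinearMap.proj a).comp ((Z0 (Fin 3)).subtype.comp (LinearMap.snd ℂ _ _))

theorem strictness_cf_apply {n : ℕ} [NeZero n] (a : Fin 3) (z : UU n) :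
    strictness_cf a z = (z.2 : Fin 3 → ℂ) a := rfl

theorem strictness_dif_apply {X : Type} [Fintype X] [DecidableEq X] (x y d : X) :
    (dif x y : X → ℂ) d = (if d = x then 1 else 0) - (if d = y then 1 else 0) := by
  simp [dif, Pi.single_apply]

theorem strictness_one_ne {n : ℕ} [Fact n.Prime] : (1 : ZMod n) ≠ 0 := one_ne_zero

theorem strictness_two_ne {n : ℕ} [Fact n.Prime] (hn : 19 ≤ n) : (2 : ZMod n) ≠ 0 := by
  intro h
  have h2 : ((2 : ℕ) : ZMod n) = 0 := by exact_mod_cast h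
  rw [ZMod.natCast_eq_zero_iff] at h2
  have := Nat.le_of_dvd (by norm_num) h2
  omega

theorem strictness_three_ne {n : ℕ} [Fact n.Prime] (hn : 19 ≤ n) : (3 : ZMod n) ≠ 0 := by
  intro h
  have h2 : ((3 : ℕ) : ZMod n) = 0 := by exact_mod_cast h
  rw [ZMod.natCast_eq_zero_iff] at h2
  have := Nat.le_of_dvd (by norm_num) h2
  omega

theorem strictness_w_ne {n : ℕ} [Fact n.Prime] (ω : ZMod n)
    (hω : ω ^ 2 + ω + 1 = 0) (i : Fin 3) : ω ^ (i : ℕ) ≠ 0 := by
  apply pow_ne_zero
  rintro rfl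
  simp at hω

theorem strictness_w_add_ne {n : ℕ} [Fact n.Prime] (hn : 19 ≤ n) (ω : ZMod n)
    (hω : ω ^ 2 + ω + 1 = 0) (i j : Fin 3) : ω ^ (i : ℕ) + ω ^ (j : ℕ) ≠ 0 := by
  have h2 := strictness_two_ne hn
  have hw1 : ω ≠ 0 := by
    rintro rfl
    simp at hω
  have hw2 : ω ^ 2 ≠ 0 := pow_ne_zero 2 hw1
  have a1 : (1 : ZMod n) + 1 ≠ 0 := by
    intro h; apply h2; linear_combination h
  have a2 : ω + ω ≠ 0 := by
    intro h
    have : (2 : ZMod n) * ω = 0 := by linear_combination h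
    rcases mul_eq_zero.mp this with h | h
    · exact h2 h
    · exact hw1 h
  have a3 : ω^2 + ω^2 ≠ 0 := by
    intro h
    have : (2 : ZMod n) * ω^2 = 0 := by linear_combination h
    rcases mul_eq_zero.mp this with h | h
    · exact h2 h
    · exact hw2 h
  have a4 : (1 : ZMod n) + ω ≠ 0 := by
    intro h; apply hw2; linear_combination hω - h
  have a5 : (1 : ZMod n) + ω^2 ≠ 0 := by
    intro h; apply hw1; linear_combination hω - h
  have a6 : ω + ω^2 ≠ 0 := by
    intro h; apply one_ne_zero (α := ZMod n); linear_combination hω - h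
  fin_cases i <;> fin_cases j <;> simp <;>
    first
    | exact a1 | exact a2 | exact a3 | exact a4 | exact a5 | exact a6
    | (intro h; apply a4; linear_combination h)
    | (intro h; apply a5; linear_combination h)
    | (intro h; apply a6; linear_combination h)

theorem strictness_w_inj {n : ℕ} [Fact n.Prime] (hn : 19 ≤ n) (ω : ZMod n)
    (hω : ω ^ 2 + ω + 1 = 0) (i j : Fin 3) (hij : i ≠ j) : ω ^ (i : ℕ) ≠ ω ^ (j : ℕ) := by
  have h3 := strictness_three_ne hn
  have hw1 : ω ≠ 0 := by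
    rintro rfl
    simp at hω
  have a1 : (1 : ZMod n) ≠ ω := by
    intro h; rw [← h] at hω; apply h3; linear_combination hω
  have a2 : (1 : ZMod n) ≠ ω^2 := by
    intro h
    have h' : ω = -2 := by linear_combination hω + h
    rw [h'] at hω
    apply h3; linear_combination hω
  have a3 : ω ≠ ω^2 := by
    intro h
    have : ω * (ω - 1) = 0 := by linear_combination -h
    rcases mul_eq_zero.mp this with h | h
    · exact hw1 h
    · apply a1; linear_combination -h
  fin_cases i <;> fin_cases j <;> simp at hij ⊢ <;>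
    first
    | exact a1 | exact a2 | exact a3 | exact a1.symm | exact a2.symm | exact a3.symm
    | exact ⟨fun h => a2 (by rw [h]; ring), fun h => a2 (by rw [h]; ring)⟩

theorem strictness_w_sum {n : ℕ} (ω : ZMod n)
    (hω : ω ^ 2 + ω + 1 = 0) (i j l : Fin 3) (hij : i ≠ j) (hjl : j ≠ l) (hil : i ≠ l) :
    ω ^ (i : ℕ) + ω ^ (j : ℕ) + ω ^ (l : ℕ) = 0 := by
  fin_cases i <;> fin_cases j <;> fin_cases l <;> simp at hij hjl hil ⊢ <;>
    linear_combination hω

theorem strictness_c_sum (i j l : Fin 3) (hij : i ≠ j) (hjl : j ≠ l) (hil : i ≠ l) :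
    dif i (i+1) + dif j (j+1) + dif l (l+1) = 0 := by
  apply Subtype.ext
  funext m
  simp only [Submodule.coe_add, Pi.add_apply, strictness_dif_apply, Submodule.coe_zero,
    Pi.zero_apply]
  fin_cases i <;> fin_cases j <;> fin_cases l <;> simp at hij hjl hil ⊢

theorem strictness_tri {n : ℕ} [NeZero n] (ω : ZMod n)
    (hω : ω ^ 2 + ω + 1 = 0) (a : ZMod n) (i j l : Fin 3) (hij : i ≠ j) (hjl : j ≠ l)
    (hil : i ≠ l) :
    node ω (a, i) + node ω (a + ω ^ (i : ℕ), j) + node ω (a - ω ^ (l : ℕ), l) = 0 := by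
  have h1 := strictness_w_sum ω hω i j l hij hjl hil
  have h2 := strictness_c_sum i j l hij hjl hil
  have h3 : a + ω ^ (i : ℕ) + ω ^ (j : ℕ) = a - ω ^ (l : ℕ) := by
    linear_combination h1
  apply Prod.ext
  · apply Subtype.ext
    funext d
    simp only [node, Prod.fst_add, Submodule.coe_add, Pi.add_apply, strictness_dif_apply, h3,
      Prod.fst_zero, Submodule.coe_zero, Pi.zero_apply, sub_add_cancel]
    ring
  · simpa [node] using h2

open Classical in
theorem strictness_choose {n : ℕ} [Fact n.Prime] (hn : 19 ≤ n) (ω : ZMod n) (k : ℕ) (hk' : k ≤ 3)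
    (a d1 : ZMod n) : ∃ dd : Fin k → ZMod n, Function.Injective dd ∧
      ∀ j, dd j ≠ a ∧ ¬ Adj ω a (dd j) ∧ dd j ≠ d1 := by
  let N : Finset (ZMod n) := (Finset.univ.image (fun i : Fin 3 => a + ω ^ (i : ℕ))) ∪
    (Finset.univ.image (fun i : Fin 3 => a - ω ^ (i : ℕ))) ∪ {a, d1}
  have hN : N.card ≤ 8 := by
    have h1 := Finset.card_union_le ((Finset.univ.image (fun i : Fin 3 => a + ω ^ (i : ℕ))) ∪
      (Finset.univ.image (fun i : Fin 3 => a - ω ^ (i : ℕ)))) {a, d1}
    have h2 := Finset.card_union_le (Finset.univ.image (fun i : Fin 3 => a + ω ^ (i : ℕ)))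
      (Finset.univ.image (fun i : Fin 3 => a - ω ^ (i : ℕ)))
    have h3 : (Finset.univ.image (fun i : Fin 3 => a + ω ^ (i : ℕ))).card ≤ 3 :=
      Finset.card_image_le
    have h4 : (Finset.univ.image (fun i : Fin 3 => a - ω ^ (i : ℕ))).card ≤ 3 :=
      Finset.card_image_le
    have h5 : ({a, d1} : Finset (ZMod n)).card ≤ 2 := Finset.card_le_two
    show (_ ∪ _ ∪ _ : Finset (ZMod n)).card ≤ 8
    omega
  have hc : k ≤ Nᶜ.card := by
    rw [Finset.card_compl, ZMod.card]
    omega
  obtain ⟨S, hS, hSc⟩ := Finset.exists_subset_card_eq hc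
  let e := S.equivFin
  refine ⟨fun j => (e.symm (Fin.cast hSc.symm j) : ZMod n), ?_, ?_⟩
  · intro i j hij
    have := Subtype.ext hij
    have := e.symm.injective this
    simpa using this
  · intro j
    have hm : ((e.symm (Fin.cast hSc.symm j) : S) : ZMod n) ∈ Nᶜ := hS (e.symm _).2
    simp only [Finset.mem_compl, N, Finset.mem_union, Finset.mem_image, Finset.mem_univ,
      true_and, Finset.mem_insert, Finset.mem_singleton, not_or, not_exists] at hm
    obtain ⟨⟨h1, h2⟩, h3, h4⟩ := hm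
    refine ⟨h3, ?_, h4⟩
    rintro ⟨i, h | h⟩
    · exact h1 i h.symm
    · exact h2 i (by rw [h]; ring)

theorem strictness_core {n : ℕ} [Fact n.Prime] (hn : 19 ≤ n) (ω : ZMod n) (k : ℕ) (hk' : k ≤ 3)
    (ξ : UU n →ₗ[ℂ] UU n) (a d1 : ZMod n) (y0 : UU n →ₗ[ℂ] ℂ)
    (hy0 : ∀ i : Fin 3, y0 (node ω (a, i)) = 0)
    (hy0' : ∀ i : Fin 3, y0 (node ω (a - ω ^ (i : ℕ), i)) = 0)
    (hy1 : ∀ d, d ≠ a → ¬ Adj ω a d → d ≠ d1 → y0 (dif d a, 0) = 0)
    (z : UU n)
    (hz : ∀ B ∈ Ktil ω k, ∀ x : Fin k → UU n,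
      B (ξ z) (Matrix.vecCons z x) + B z (Matrix.vecCons (ξ z) x) = 0)
    (hz' : ∀ y : UU n →ₗ[ℂ] ℂ, (∀ i : Fin 3, y (node ω (a, i)) = 0) →
      (∀ i : Fin 3, y (node ω (a - ω ^ (i : ℕ), i)) = 0) → y z = 0)
    (hza : (z.1 : ZMod n → ℂ) a ≠ 0) : y0 (ξ z) = 0 := by
  obtain ⟨dd, hinj, hdd⟩ := strictness_choose hn ω k hk' a d1
  let y : Fin (k+1) → (UU n →ₗ[ℂ] ℂ) := Fin.cons y0 (fun j => strictness_xf (dd j))
  have hyn : ∀ m, ∀ i : Fin 3, y m (node ω (a, i)) = 0 := by
    intro m i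
    refine Fin.cases (hy0 i) (fun j => ?_) m
    show (node ω (a, i)).1.1 (dd j) = 0
    simp only [node, strictness_dif_apply]
    rw [if_neg, if_neg, sub_zero]
    · exact (hdd j).1
    · intro h
      exact (hdd j).2.1 ⟨i, Or.inl h⟩
  have hyn' : ∀ m, ∀ i : Fin 3, y m (node ω (a - ω ^ (i : ℕ), i)) = 0 := by
    intro m i
    refine Fin.cases (hy0' i) (fun j => ?_) m
    show (node ω (a - ω ^ (i : ℕ), i)).1.1 (dd j) = 0
    simp only [node, strictness_dif_apply]
    rw [if_neg, if_neg, sub_zero]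
    · intro h
      exact (hdd j).2.1 ⟨i, Or.inr (by rw [h]; ring)⟩
    · intro h
      exact (hdd j).1 (by rw [h]; ring)
  let D : (UU n) [⋀^Fin (k+1)]→ₗ[ℂ] ℂ :=
    (Matrix.detRowAlternating (R := ℂ) (n := Fin (k+1))).compLinearMap (LinearMap.pi y)
  let B : UU n →ₗ[ℂ] (UU n) [⋀^Fin (k+1)]→ₗ[ℂ] ℂ := (strictness_xf a).smulRight D
  have hB : ∀ u v, B u v = (u.1 : ZMod n → ℂ) a * Matrix.det (fun i j => y j (v i)) := by
    intro u v
    rfl
  have hzero : ∀ (w : UU n) (x : Fin k → UU n), (∀ m, y m w = 0) →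
      Matrix.det (fun i j => y j (Matrix.vecCons w x i)) = 0 := by
    intro w x hw
    apply Matrix.det_eq_zero_of_row_eq_zero 0
    intro j
    simpa using hw j
  have hBK : B ∈ Ktil ω k := by
    rintro ⟨b, i⟩ x
    rw [hB]
    by_cases h1 : b = a
    · subst h1
      rw [hzero _ _ (fun m => hyn m i), mul_zero]
    by_cases h2 : b + ω ^ (i : ℕ) = a
    · have h3 : b = a - ω ^ (i : ℕ) := by rw [← h2]; ring
      rw [h3, hzero _ _ (fun m => hyn' m i), mul_zero]
    · simp only [node, strictness_dif_apply]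
      rw [if_neg (fun h => h2 h.symm), if_neg (fun h => h1 h.symm)]
      ring
  have h1 := hz B hBK (fun j => (dif (dd j) a, 0))
  rw [hB, hB, hzero z _ (fun m => hz' _ (hyn m) (hyn' m)), mul_zero, zero_add] at h1
  have h2 := (mul_eq_zero.mp h1).resolve_left hza
  let A : Matrix (Fin (k+1)) (Fin (k+1)) ℂ := fun i j => y j (Matrix.vecCons (ξ z)
      (fun j => ((dif (dd j) a, 0) : UU n)) i)
  have h2' : Matrix.det A = 0 := h2
  rw [Matrix.det_succ_column_zero (n := k) A, Fin.sum_univ_succ] at h2'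
  have h3 : ∀ j : Fin k, y0 (dif (dd j) a, 0) = 0 := fun j =>
    hy1 _ (hdd j).1 (hdd j).2.1 (hdd j).2.2
  have h4 : (A.submatrix (Fin.succAbove (0 : Fin (k+1))) Fin.succ :
        Matrix (Fin k) (Fin k) ℂ) = 1 := by
    ext i j
    simp only [Fin.succAbove_zero, A]
    show (dif (dd i) a : ZMod n → ℂ) (dd j) = _
    rw [strictness_dif_apply, if_neg (hdd j).1, Matrix.one_apply, sub_zero]
    by_cases hij : i = j
    · simp [hij]
    · rw [if_neg hij, if_neg (fun h => hij (hinj h).symm)]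
  rw [h4, Matrix.det_one] at h2'
  simpa [A, y, h3] using h2'

/-- difference of opposite neighbours -/
noncomputable def strictness_X {n : ℕ} [NeZero n] (ω a : ZMod n) (m : Fin 3) : UU n →ₗ[ℂ] ℂ :=
  strictness_xf (a + ω ^ (m : ℕ)) - strictness_xf (a - ω ^ (m : ℕ))

/-- the corrected second factor functional -/
noncomputable def strictness_yf {n : ℕ} [NeZero n] (ω a : ZMod n) (m : Fin 3) : UU n →ₗ[ℂ] ℂ :=
  strictness_cf (m + 1) - (strictness_X ω a (m + 1) - strictness_X ω a m)

theorem strictness_X_apply {n : ℕ} [NeZero n] (ω a : ZMod n) (m : Fin 3) (z : UU n) :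
    strictness_X ω a m z = (z.1 : ZMod n → ℂ) (a + ω ^ (m : ℕ)) -
      (z.1 : ZMod n → ℂ) (a - ω ^ (m : ℕ)) := rfl

theorem strictness_X_node {n : ℕ} [Fact n.Prime] (hn : 19 ≤ n) (ω : ZMod n)
    (hω : ω ^ 2 + ω + 1 = 0) (a : ZMod n) (m i : Fin 3) :
    strictness_X ω a m (node ω (a, i)) = if m = i then 1 else 0 := by
  have h1 := strictness_w_ne ω hω
  have h2 := strictness_w_add_ne hn ω hω
  have h3 := strictness_w_inj hn ω hω
  rw [strictness_X_apply]
  simp only [node, strictness_dif_apply]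
  rw [if_neg (c := a + ω ^ (m : ℕ) = a), if_neg (c := a - ω ^ (m : ℕ) = a + ω ^ (i : ℕ)),
    if_neg (c := a - ω ^ (m : ℕ) = a)]
  · by_cases hm : m = i
    · simp [hm]
    · rw [if_neg hm, if_neg]
      · ring
      · intro h; exact h3 m i hm (by linear_combination h)
  · intro h; exact h1 m (by linear_combination -h)
  · intro h; exact h2 m i (by linear_combination -h)
  · intro h; exact h1 m (by linear_combination h)

theorem strictness_X_node' {n : ℕ} [Fact n.Prime] (hn : 19 ≤ n) (ω : ZMod n)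
    (hω : ω ^ 2 + ω + 1 = 0) (a : ZMod n) (m i : Fin 3) :
    strictness_X ω a m (node ω (a - ω ^ (i : ℕ), i)) = if m = i then 1 else 0 := by
  have h1 := strictness_w_ne ω hω
  have h2 := strictness_w_add_ne hn ω hω
  have h3 := strictness_w_inj hn ω hω
  rw [strictness_X_apply]
  simp only [node, strictness_dif_apply, sub_add_cancel]
  rw [if_neg (c := a + ω ^ (m : ℕ) = a), if_neg (c := a + ω ^ (m : ℕ) = a - ω ^ (i : ℕ)),
    if_neg (c := a - ω ^ (m : ℕ) = a)]
  · by_cases hm : m = i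
    · simp [hm]
    · rw [if_neg hm, if_neg]
      · ring
      · intro h; exact h3 m i hm (by linear_combination -h)
  · intro h; exact h1 m (by linear_combination -h)
  · intro h; exact h2 m i (by linear_combination h)
  · intro h; exact h1 m (by linear_combination h)

theorem strictness_yf_node {n : ℕ} [Fact n.Prime] (hn : 19 ≤ n) (ω : ZMod n)
    (hω : ω ^ 2 + ω + 1 = 0) (a : ZMod n) (m i : Fin 3) :
    strictness_yf ω a m (node ω (a, i)) = 0 := by
  simp only [strictness_yf, LinearMap.sub_apply, strictness_X_node hn ω hω, strictness_cf_apply]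
  simp only [node, strictness_dif_apply, add_left_inj]
  ring

theorem strictness_yf_node' {n : ℕ} [Fact n.Prime] (hn : 19 ≤ n) (ω : ZMod n)
    (hω : ω ^ 2 + ω + 1 = 0) (a : ZMod n) (m i : Fin 3) :
    strictness_yf ω a m (node ω (a - ω ^ (i : ℕ), i)) = 0 := by
  simp only [strictness_yf, LinearMap.sub_apply, strictness_X_node' hn ω hω, strictness_cf_apply]
  simp only [node, strictness_dif_apply, add_left_inj]
  ring

theorem strictness_X_dif {n : ℕ} [Fact n.Prime] (ω : ZMod n)
    (hω : ω ^ 2 + ω + 1 = 0) (a d : ZMod n) (had : ¬ Adj ω a d) (m : Fin 3) :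
    strictness_X ω a m ((dif d a, 0) : UU n) = 0 := by
  have h1 := strictness_w_ne ω hω
  rw [strictness_X_apply]
  simp only [strictness_dif_apply]
  rw [if_neg, if_neg, if_neg, if_neg]
  · ring
  · intro h; exact h1 m (by linear_combination -h)
  · intro h; exact had ⟨m, Or.inr (by linear_combination h)⟩
  · intro h; exact h1 m (by linear_combination h)
  · intro h; exact had ⟨m, Or.inl h.symm⟩

theorem strictness_vertex {n : ℕ} [Fact n.Prime] (hn : 19 ≤ n) (ω : ZMod n)
    (hω : ω ^ 2 + ω + 1 = 0) (k : ℕ) (hk' : k ≤ 3)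
    (ξ : UU n →ₗ[ℂ] UU n) (a : ZMod n) (i l : Fin 3) (z : UU n)
    (hz : ∀ B ∈ Ktil ω k, ∀ x : Fin k → UU n,
      B (ξ z) (Matrix.vecCons z x) + B z (Matrix.vecCons (ξ z) x) = 0) (s t : ℂ)
    (hz' : z = s • node ω (a, i) + t • node ω (a - ω ^ (l : ℕ), l)) (hst : s ≠ t) :
    (∀ d, d ≠ a → ¬ Adj ω a d → ((ξ z).1 : ZMod n → ℂ) d = 0) ∧
      ∀ m, strictness_yf ω a m (ξ z) = 0 := by
  have h1 := strictness_w_ne ω hω
  have hsp : ∀ y : UU n →ₗ[ℂ] ℂ, (∀ i : Fin 3, y (node ω (a, i)) = 0) →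
      (∀ i : Fin 3, y (node ω (a - ω ^ (i : ℕ), i)) = 0) → y z = 0 := by
    intro y hy hy'
    rw [hz', map_add, map_smul, map_smul, hy, hy']
    simp
  have hza : (z.1 : ZMod n → ℂ) a ≠ 0 := by
    have : (z.1 : ZMod n → ℂ) a = t - s := by
      rw [hz']
      simp only [node, Prod.fst_add, Prod.smul_fst, Submodule.coe_add, Submodule.coe_smul,
        Pi.add_apply, Pi.smul_apply, strictness_dif_apply, sub_add_cancel, smul_eq_mul]
      rw [if_neg (c := a = a + ω ^ (i : ℕ)), if_neg (c := a = a - ω ^ (l : ℕ)), if_pos trivial]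
      · ring
      · intro h; exact h1 l (by linear_combination h)
      · intro h; exact h1 i (by linear_combination -h)
    rw [this]
    intro h
    exact hst (by linear_combination -h)
  refine ⟨fun d hda had => ?_, fun m => ?_⟩
  · refine strictness_core hn ω k hk' ξ a d (strictness_xf d) ?_ ?_ ?_ z hz hsp hza
    · intro i
      rw [strictness_xf_apply]
      simp only [node, strictness_dif_apply]
      rw [if_neg, if_neg hda, sub_zero]
      intro h
      exact had ⟨i, Or.inl h⟩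
    · intro i
      rw [strictness_xf_apply]
      simp only [node, strictness_dif_apply, sub_add_cancel]
      rw [if_neg hda, if_neg, sub_zero]
      intro h
      exact had ⟨i, Or.inr (by linear_combination -h)⟩
    · intro d' h1 h2 h3
      rw [strictness_xf_apply]
      simp only [strictness_dif_apply]
      rw [if_neg (fun h => h3 h.symm), if_neg hda, sub_zero]
  · refine strictness_core hn ω k hk' ξ a a (strictness_yf ω a m)
      (fun i => strictness_yf_node hn ω hω a m i) (fun i => strictness_yf_node' hn ω hω a m i) ?_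
      z hz hsp hza
    intro d hda had _
    simp only [strictness_yf, LinearMap.sub_apply, strictness_X_dif ω hω a d had]
    simp [strictness_cf_apply]

theorem strictness_supp {n : ℕ} [NeZero n] (w : Z0 (ZMod n)) (a b c : ZMod n) (hab : a ≠ b)
    (hac : a ≠ c) (hbc : b ≠ c) (h : ∀ d, d ≠ a → d ≠ b → d ≠ c → (w : ZMod n → ℂ) d = 0) :
    (w : ZMod n → ℂ) a + (w : ZMod n → ℂ) b + (w : ZMod n → ℂ) c = 0 := by
  have h1 := (mem_Z0 _).mp w.2
  rw [← Finset.sum_subset (Finset.subset_univ {a, b, c}) (fun d _ hd => ?_)] at h1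
  · rw [Finset.sum_insert (by simp [hab, hac]), Finset.sum_insert (by simp [hbc]),
      Finset.sum_singleton] at h1
    linear_combination h1
  · simp only [Finset.mem_insert, Finset.mem_singleton, not_or] at hd
    exact h d hd.1 hd.2.1 hd.2.2

theorem strictness_five {n : ℕ} [Fact n.Prime] (hn : 19 ≤ n) (ω : ZMod n)
    (hω : ω ^ 2 + ω + 1 = 0) (k : ℕ) (hk' : k ≤ 3)
    (ξ : UU n →ₗ[ℂ] UU n)
    (h : ∀ B ∈ Ktil ω k, ∀ e, ∀ x : Fin k → UU n,
      B (ξ (node ω e)) (Matrix.vecCons (node ω e) x) +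
      B (node ω e) (Matrix.vecCons (ξ (node ω e)) x) = 0)
    (a : ZMod n) (i j l : Fin 3) (hij : i ≠ j) (hjl : j ≠ l) (hil : i ≠ l) (p r : ℂ)
    (hp : p ≠ 0) (hr : r ≠ 0) (hpr : p ≠ r) :
    ∃ s t : ℂ, ξ (p • node ω (a, i) + r • node ω (a + ω ^ (i : ℕ), j)) =
      s • node ω (a, i) + t • node ω (a - ω ^ (l : ℕ), l) := by
  have h1 := strictness_w_ne ω hω
  have h2 := strictness_w_add_ne hn ω hω
  have h3 := strictness_w_inj hn ω hω
  have htri := strictness_tri ω hω a i j l hij hjl hil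
  have hsum := strictness_w_sum ω hω i j l hij hjl hil
  set z := p • node ω (a, i) + r • node ω (a + ω ^ (i : ℕ), j) with hzdef
  have e1 : node ω (a, i) + node ω (a + ω ^ (i : ℕ), j) =
      (-1 : ℂ) • node ω (a - ω ^ (l : ℕ), l) :=
    (eq_neg_of_add_eq_zero_left htri).trans (neg_one_smul ℂ _).symm
  have hz : ∀ B ∈ Ktil ω k, ∀ x : Fin k → UU n,
      B (ξ z) (Matrix.vecCons z x) + B z (Matrix.vecCons (ξ z) x) = 0 := by
    intro B hB x
    apply strictness_quad ξ _ _ B x (h B hB _ x) (h B hB _ x)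
    rw [e1]
    simp only [map_smul, AlternatingMap.smul_apply, AlternatingMap.map_vecCons_smul, smul_eq_mul]
    linear_combination h B hB (a - ω ^ (l : ℕ), l) x
  have hea : z = (p - r) • node ω (a, i) + (-r) • node ω (a - ω ^ (l : ℕ), l) := by
    have : node ω (a - ω ^ (l : ℕ), l) = -(node ω (a, i) + node ω (a + ω ^ (i : ℕ), j)) :=
      eq_neg_of_add_eq_zero_right htri
    rw [this, hzdef]
    module
  have heb : z = r • node ω (a + ω ^ (i : ℕ), j) +
      p • node ω (a + ω ^ (i : ℕ) - ω ^ (i : ℕ), i) := by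
    rw [add_sub_cancel_right, hzdef, add_comm]
  have hec : z = (-p) • node ω (a - ω ^ (l : ℕ), l) +
      (r - p) • node ω (a - ω ^ (l : ℕ) - ω ^ (j : ℕ), j) := by
    have e2 : a - ω ^ (l : ℕ) - ω ^ (j : ℕ) = a + ω ^ (i : ℕ) := by linear_combination -hsum
    have : node ω (a - ω ^ (l : ℕ), l) = -(node ω (a, i) + node ω (a + ω ^ (i : ℕ), j)) :=
      eq_neg_of_add_eq_zero_right htri
    rw [e2, this, hzdef]
    module
  have hva := strictness_vertex hn ω hω k hk' ξ a i l z hz (p - r) (-r) hea (by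
    intro h; apply hp; linear_combination h)
  have hvb := strictness_vertex hn ω hω k hk' ξ (a + ω ^ (i : ℕ)) j i z hz r p heb hpr.symm
  have hvc := strictness_vertex hn ω hω k hk' ξ (a - ω ^ (l : ℕ)) l j z hz (-p) (r - p) hec (by
    intro h; apply hr; linear_combination -h)
  set w := ξ z with hw
  set b := a + ω ^ (i : ℕ) with hb
  set c := a - ω ^ (l : ℕ) with hc
  have hab : a ≠ b := by intro h; exact h1 i (by rw [hb] at h; linear_combination -h)
  have hac : a ≠ c := by intro h; exact h1 l (by rw [hc] at h; linear_combination h)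
  have hbc : b ≠ c := by
    intro h; rw [hb, hc] at h; exact h2 i l (by linear_combination h)
  have hAab : Adj ω a b := ⟨i, Or.inl rfl⟩
  have hAac : Adj ω a c := ⟨l, Or.inr (by rw [hc]; ring)⟩
  have hAbc : Adj ω b c := ⟨j, Or.inl (by rw [hb, hc]; linear_combination -hsum)⟩
  have hsupp : ∀ d, d ≠ a → d ≠ b → d ≠ c → (w.1 : ZMod n → ℂ) d = 0 := by
    intro d hda hdb hdc
    by_cases h4 : Adj ω a d
    · by_cases h5 : Adj ω b d
      · by_cases h6 : Adj ω c d
        · exact (no_K4 hn ω hω a b c d hAab hAac h4 hAbc h5 h6).elim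
        · exact hvc.1 d hdc h6
      · exact hvb.1 d hdb h5
    · exact hva.1 d hda h4
  have hs0 := strictness_supp w.1 a b c hab hac hbc hsupp
  have hX : ∀ m : Fin 3, strictness_X ω a m w = (w.1 : ZMod n → ℂ) b * (if m = i then 1 else 0) -
      (w.1 : ZMod n → ℂ) c * (if m = l then 1 else 0) := by
    intro m
    rw [strictness_X_apply]
    congr 1
    · by_cases hm : m = i
      · rw [hm, if_pos rfl, mul_one]
      · rw [if_neg hm, mul_zero]
        apply hsupp
        · intro h; exact h1 m (by linear_combination h)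
        · intro h; exact h3 m i hm (by rw [hb] at h; linear_combination h)
        · intro h; exact h2 m l (by rw [hc] at h; linear_combination h)
    · by_cases hm : m = l
      · rw [hm, if_pos rfl, mul_one]
      · rw [if_neg hm, mul_zero]
        apply hsupp
        · intro h; exact h1 m (by linear_combination -h)
        · intro h; exact h2 m i (by rw [hb] at h; linear_combination -h)
        · intro h; exact h3 m l hm (by rw [hc] at h; linear_combination -h)
  refine ⟨(w.1 : ZMod n → ℂ) b, -(w.1 : ZMod n → ℂ) c, ?_⟩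
  apply Prod.ext
  · apply Subtype.ext
    funext d
    simp only [node, Prod.fst_add, Prod.smul_fst, Submodule.coe_add, Submodule.coe_smul,
      Pi.add_apply, Pi.smul_apply, strictness_dif_apply, smul_eq_mul, ← hb]
    rw [hc, sub_add_cancel, ← hc]
    by_cases h4 : d = a
    · rw [h4, if_neg hab, if_pos rfl, if_neg hac]
      linear_combination hs0
    by_cases h5 : d = b
    · rw [h5, if_neg hab.symm, if_pos rfl, if_neg hbc]
      ring
    by_cases h6 : d = c
    · rw [h6, if_neg hbc.symm, if_neg hac.symm, if_pos rfl]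
      ring
    rw [if_neg h4, if_neg h5, if_neg h6, hsupp d h4 h5 h6]
    ring
  · apply Subtype.ext
    funext m'
    obtain ⟨m, rfl⟩ : ∃ m : Fin 3, m' = m + 1 := ⟨m' - 1, (sub_add_cancel m' 1).symm⟩
    have h7 := hva.2 m
    simp only [strictness_yf, LinearMap.sub_apply, hX, strictness_cf_apply] at h7
    simp only [node, Prod.snd_add, Prod.smul_snd, Submodule.coe_add, Submodule.coe_smul,
      Pi.add_apply, Pi.smul_apply, strictness_dif_apply, smul_eq_mul, add_left_inj]
    linear_combination h7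

theorem strictness_six {n : ℕ} [Fact n.Prime] (hn : 19 ≤ n) (ω : ZMod n)
    (hω : ω ^ 2 + ω + 1 = 0) (k : ℕ) (hk' : k ≤ 3)
    (ξ : UU n →ₗ[ℂ] UU n)
    (h : ∀ B ∈ Ktil ω k, ∀ e, ∀ x : Fin k → UU n,
      B (ξ (node ω e)) (Matrix.vecCons (node ω e) x) +
      B (node ω e) (Matrix.vecCons (ξ (node ω e)) x) = 0)
    (a : ZMod n) (i j l : Fin 3) (hij : i ≠ j) (hjl : j ≠ l) (hil : i ≠ l) :
    ∃ s t : ℂ, ξ (node ω (a, i)) =
      s • node ω (a, i) + t • node ω (a - ω ^ (l : ℕ), l) := by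
  obtain ⟨s1, t1, h1⟩ := strictness_five hn ω hω k hk' ξ h a i j l hij hjl hil 1 (-1)
    one_ne_zero (neg_ne_zero.mpr one_ne_zero) (by norm_num)
  obtain ⟨s2, t2, h2⟩ := strictness_five hn ω hω k hk' ξ h a i j l hij hjl hil 2 1
    two_ne_zero one_ne_zero (by norm_num)
  refine ⟨(s1 + s2) / 3, (t1 + t2) / 3, ?_⟩
  have h3 : node ω (a, i) = (1/3 : ℂ) • (((1 : ℂ) • node ω (a, i) + (-1 : ℂ) •
      node ω (a + ω ^ (i : ℕ), j)) + ((2 : ℂ) • node ω (a, i) + (1 : ℂ) •
      node ω (a + ω ^ (i : ℕ), j))) := by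
    module
  conv_lhs => rw [h3, map_smul, map_add, h1, h2]
  module

theorem strictness_eig {n : ℕ} [Fact n.Prime] (hn : 19 ≤ n) (ω : ZMod n)
    (hω : ω ^ 2 + ω + 1 = 0) (k : ℕ) (hk' : k ≤ 3)
    (ξ : UU n →ₗ[ℂ] UU n)
    (h : ∀ B ∈ Ktil ω k, ∀ e, ∀ x : Fin k → UU n,
      B (ξ (node ω e)) (Matrix.vecCons (node ω e) x) +
      B (node ω e) (Matrix.vecCons (ξ (node ω e)) x) = 0)
    (a : ZMod n) (i : Fin 3) :
    ∃ s : ℂ, ξ (node ω (a, i)) = s • node ω (a, i) := by
  have h1 := strictness_w_ne ω hω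
  have h2 := strictness_w_add_ne hn ω hω
  have h3 := strictness_w_inj hn ω hω
  obtain ⟨j, l, hij, hjl, hil⟩ : ∃ j l : Fin 3, i ≠ j ∧ j ≠ l ∧ i ≠ l := by
    revert i; decide
  obtain ⟨s, t, h4⟩ := strictness_six hn ω hω k hk' ξ h a i j l hij hjl hil
  obtain ⟨s', t', h5⟩ := strictness_six hn ω hω k hk' ξ h a i l j hil hjl.symm hij
  have h6 : t = 0 := by
    have h7 : ((ξ (node ω (a, i))).1 : ZMod n → ℂ) (a - ω ^ (l : ℕ)) = -t := by
      rw [h4]
      simp only [node, Prod.fst_add, Prod.smul_fst, Submodule.coe_add, Submodule.coe_smul,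
        Pi.add_apply, Pi.smul_apply, strictness_dif_apply, sub_add_cancel, smul_eq_mul]
      rw [if_neg (c := a - ω ^ (l : ℕ) = a + ω ^ (i : ℕ)), if_neg (c := a - ω ^ (l : ℕ) = a),
        if_pos trivial]
      · ring
      · intro h; exact h1 l (by linear_combination -h)
      · intro h; exact h2 i l (by linear_combination -h)
    have h8 : ((ξ (node ω (a, i))).1 : ZMod n → ℂ) (a - ω ^ (l : ℕ)) = 0 := by
      rw [h5]
      simp only [node, Prod.fst_add, Prod.smul_fst, Submodule.coe_add, Submodule.coe_smul,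
        Pi.add_apply, Pi.smul_apply, strictness_dif_apply, sub_add_cancel, smul_eq_mul]
      rw [if_neg (c := a - ω ^ (l : ℕ) = a + ω ^ (i : ℕ)), if_neg (c := a - ω ^ (l : ℕ) = a),
        if_neg (c := a - ω ^ (l : ℕ) = a - ω ^ (j : ℕ))]
      · ring
      · intro h; exact h3 l j hjl.symm (by linear_combination -h)
      · intro h; exact h1 l (by linear_combination -h)
      · intro h; exact h2 i l (by linear_combination -h)
    linear_combination h7 - h8
  refine ⟨s, ?_⟩
  rw [h4, h6]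
  module

theorem strictness_lam {n : ℕ} [Fact n.Prime] (hn : 19 ≤ n) (ω : ZMod n)
    (hω : ω ^ 2 + ω + 1 = 0) (ξ : UU n →ₗ[ℂ] UU n) (lam : ZMod n → Fin 3 → ℂ)
    (hlam : ∀ a i, ξ (node ω (a, i)) = lam a i • node ω (a, i)) (a : ZMod n)
    (i j l : Fin 3) (hij : i ≠ j) (hjl : j ≠ l) (hil : i ≠ l) :
    lam a i = lam (a - ω ^ (l : ℕ)) l := by
  have h1 := strictness_w_ne ω hω
  have h2 := strictness_w_add_ne hn ω hω
  have htri := strictness_tri ω hω a i j l hij hjl hil
  have h3 : node ω (a + ω ^ (i : ℕ), j) = (-1 : ℂ) • node ω (a, i) +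
      (-1 : ℂ) • node ω (a - ω ^ (l : ℕ), l) := by
    rw [← sub_eq_zero, ← htri]
    module
  have h4 := congrArg ξ h3
  rw [hlam, map_add, map_smul, map_smul, hlam, hlam, h3] at h4
  have h5 : (lam (a + ω ^ (i : ℕ)) j - lam a i) • node ω (a, i) +
      (lam (a + ω ^ (i : ℕ)) j - lam (a - ω ^ (l : ℕ)) l) • node ω (a - ω ^ (l : ℕ), l) = 0 := by
    rw [← sub_eq_zero.mpr h4.symm]
    module
  have h6 := congrArg (fun z : UU n => (z.1 : ZMod n → ℂ) (a + ω ^ (i : ℕ))) h5
  have h7 := congrArg (fun z : UU n => (z.1 : ZMod n → ℂ) (a - ω ^ (l : ℕ))) h5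
  simp only [node, Prod.fst_add, Prod.smul_fst, Submodule.coe_add, Submodule.coe_smul,
    Pi.add_apply, Pi.smul_apply, strictness_dif_apply, sub_add_cancel, smul_eq_mul,
    Prod.fst_zero, Submodule.coe_zero, Pi.zero_apply] at h6 h7
  rw [if_neg (c := a + ω ^ (i : ℕ) = a - ω ^ (l : ℕ)), if_neg (c := a + ω ^ (i : ℕ) = a),
    if_pos trivial] at h6
  rw [if_neg (c := a - ω ^ (l : ℕ) = a + ω ^ (i : ℕ)), if_neg (c := a - ω ^ (l : ℕ) = a),
    if_pos trivial] at h7
  · linear_combination -h6 - h7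
  · intro h; exact h1 l (by linear_combination -h)
  · intro h; exact h2 i l (by linear_combination -h)
  · intro h; exact h1 i (by linear_combination h)
  · intro h; exact h2 i l (by linear_combination h)

theorem strictness_span {n : ℕ} [Fact n.Prime] (ω : ZMod n)
    (S : Submodule ℂ (UU n)) (hS : ∀ e, node ω e ∈ S) (z : UU n) : z ∈ S := by
  have hn0 : (n : ℂ) ≠ 0 := Nat.cast_ne_zero.mpr (Fact.out : n.Prime).ne_zero
  have h1 : ∀ i : Fin 3, ((0, dif i (i + 1)) : UU n) ∈ S := by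
    intro i
    have h2 : ∑ a : ZMod n, node ω (a, i) = (n : ℂ) • ((0, dif i (i + 1)) : UU n) := by
      apply Prod.ext
      · rw [Prod.fst_sum]
        apply Subtype.ext
        funext d
        simp only [node, Submodule.coe_sum, Finset.sum_apply, strictness_dif_apply,
          Finset.sum_sub_distrib, Prod.smul_fst, smul_zero, Submodule.coe_zero, Pi.zero_apply]
        rw [Finset.sum_ite_eq]
        have h3 : ∀ a : ZMod n, (d = a + ω ^ (i : ℕ)) ↔ (d - ω ^ (i : ℕ) = a) := by
          intro a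
          constructor
          · intro h; rw [h]; ring
          · intro h; rw [← h]; ring
        simp only [h3]
        rw [Finset.sum_ite_eq]
        simp
      · rw [Prod.snd_sum]
        simp only [node, Finset.sum_const, Finset.card_univ, ZMod.card, Prod.smul_snd]
        rw [Nat.cast_smul_eq_nsmul]
    have h4 : ((0, dif i (i + 1)) : UU n) = (n : ℂ)⁻¹ • ∑ a : ZMod n, node ω (a, i) := by
      rw [h2, smul_smul, inv_mul_cancel₀ hn0, one_smul]
    rw [h4]
    exact S.smul_mem _ (S.sum_mem fun a _ => hS _)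
  have h2 : ∀ a : ZMod n, ((dif (a + 1) a, 0) : UU n) ∈ S := by
    intro a
    have h3 : ((dif (a + 1) a, 0) : UU n) = node ω (a, 0) - ((0, dif 0 (0 + 1)) : UU n) := by
      simp [node]
    rw [h3]
    exact S.sub_mem (hS _) (h1 0)
  have h3 : ∀ m : ℕ, ((dif (m : ZMod n) 0, 0) : UU n) ∈ S := by
    intro m
    induction m with
    | zero =>
      have : ((dif ((0 : ℕ) : ZMod n) 0, 0) : UU n) = 0 := by
        apply Prod.ext
        · apply Subtype.ext
          funext d
          simp [strictness_dif_apply]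
        · rfl
      rw [this]
      exact S.zero_mem
    | succ m ih =>
      have : ((dif ((m + 1 : ℕ) : ZMod n) 0, 0) : UU n) =
          ((dif ((m : ZMod n) + 1) m, 0) : UU n) + ((dif (m : ZMod n) 0, 0) : UU n) := by
        apply Prod.ext
        · apply Subtype.ext
          funext d
          simp [strictness_dif_apply]
        · simp
      rw [this]
      exact S.add_mem (h2 _) ih
  have h4 : ∀ f : Z0 (ZMod n), ((f, 0) : UU n) ∈ S := by
    intro f
    have h5 : ((f, 0) : UU n) = ∑ a : ZMod n, (f : ZMod n → ℂ) a •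
        ((dif ((a.val : ℕ) : ZMod n) 0, 0) : UU n) := by
      apply Prod.ext
      · rw [Prod.fst_sum]
        apply Subtype.ext
        funext d
        have h6 := (mem_Z0 _).mp f.2
        simp only [Prod.smul_fst, Submodule.coe_sum, Finset.sum_apply, Submodule.coe_smul,
          Pi.smul_apply, strictness_dif_apply, ZMod.natCast_val, ZMod.cast_id', id_eq,
          smul_eq_mul, mul_sub, Finset.sum_sub_distrib, ← Finset.sum_mul, h6]
        simp
      · rw [Prod.snd_sum]
        simp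
    rw [h5]
    exact S.sum_mem fun a _ => S.smul_mem _ (h3 _)
  have h5 : ∀ g : Z0 (Fin 3), ((0, g) : UU n) ∈ S := by
    intro g
    have h6 := (mem_Z0 _).mp g.2
    rw [Fin.sum_univ_three] at h6
    have h7 : ((0, g) : UU n) = (g : Fin 3 → ℂ) 0 • ((0, dif 0 (0 + 1)) : UU n) +
        (-(g : Fin 3 → ℂ) 2) • ((0, dif 1 (1 + 1)) : UU n) := by
      apply Prod.ext
      · simp
      · apply Subtype.ext
        funext d
        simp only [Prod.snd_add, Prod.smul_snd, Submodule.coe_add, Submodule.coe_smul,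
          Pi.add_apply, Pi.smul_apply, strictness_dif_apply, smul_eq_mul]
        fin_cases d
        · simp
        · simp
          linear_combination h6
        · simp
    rw [h7]
    exact S.add_mem (S.smul_mem _ (h1 0)) (S.smul_mem _ (h1 1))
  have h6 : z = ((z.1, 0) : UU n) + ((0, z.2) : UU n) := by
    simp
  rw [h6]
  exact S.add_mem (h4 _) (h5 _)

theorem strictness {n : ℕ} [Fact n.Prime] (hn : 19 ≤ n) (ω : ZMod n) (hω : ω ^ 2 + ω + 1 = 0)
    (k : ℕ) (hk : 1 ≤ k) (hk' : k ≤ 3) (ξ : UU n →ₗ[ℂ] UU n)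
    (h : ∀ B ∈ Ktil ω k, ∀ e, ∀ x : Fin k → UU n,
      B (ξ (node ω e)) (Matrix.vecCons (node ω e) x) +
      B (node ω e) (Matrix.vecCons (ξ (node ω e)) x) = 0) :
    ∃ c : ℂ, ξ = c • LinearMap.id := by
  choose lam hlam using fun a i => strictness_eig hn ω hω k hk' ξ h a i
  have key := strictness_lam hn ω hω ξ lam hlam
  -- `lam a i = lam (a - ω ^ l) l` for `l ≠ i`
  have k1 : ∀ (a : ZMod n) (i l : Fin 3), i ≠ l → lam a i = lam (a - ω ^ (l : ℕ)) l := by
    intro a i l hil
    obtain ⟨j, hij, hjl⟩ : ∃ j : Fin 3, i ≠ j ∧ j ≠ l := by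
      revert i l; decide
    exact key a i j l hij hjl hil
  have k2 : ∀ (a : ZMod n) (i m : Fin 3), lam a i = lam a m := by
    intro a i m
    obtain ⟨l, hil, hml⟩ : ∃ l : Fin 3, i ≠ l ∧ m ≠ l := by
      revert i m; decide
    rw [k1 a i l hil, k1 a m l hml]
  have k3 : ∀ a : ZMod n, lam (a + 1) 0 = lam a 0 := by
    intro a
    have h1 := k1 (a + 1) 1 0 (by decide)
    rw [k2 (a + 1) 1 0] at h1
    simpa using h1
  have k4 : ∀ m : ℕ, lam (m : ZMod n) 0 = lam 0 0 := by
    intro m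
    induction m with
    | zero => simp
    | succ m ih => rw [Nat.cast_succ, k3, ih]
  have k5 : ∀ (a : ZMod n) (i : Fin 3), lam a i = lam 0 0 := by
    intro a i
    rw [k2 a i 0]
    have := k4 a.val
    simpa using this
  refine ⟨lam 0 0, ?_⟩
  have h7 : ∀ z : UU n, z ∈ LinearMap.ker (ξ - lam 0 0 • LinearMap.id) := by
    apply strictness_span ω
    rintro ⟨a, i⟩
    rw [LinearMap.mem_ker, LinearMap.sub_apply, LinearMap.smul_apply, LinearMap.id_apply, hlam,
      k5 a i, sub_self]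
  refine LinearMap.ext fun z => ?_
  have h8 := h7 z
  rw [LinearMap.mem_ker, LinearMap.sub_apply, sub_eq_zero] at h8
  exact h8

end H475
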