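import Pool.Agent.Helper475.Base
import Pool.Agent.Helper475.Strictness
import Pool.Agent.Helper475.Decomp

open scoped BigOperators

namespace H475
open Module



theorem scalar_of_Dact {n : ℕ} [Fact n.Prime] (hn : 19 ≤ n) (ω : ZMod n)
    (hω : ω ^ 2 + ω + 1 = 0) (k : ℕ) (hk : 1 ≤ k) (hk' : k ≤ 3) (ξ : UU n →ₗ[ℂ] UU n)
    (h : ∀ τ ∈ (K0 ω k).map (toMul (UU n) k), Dact ξ τ ∈ (K0 ω k).map (toMul (UU n) k)) :
    ∃ c : ℂ, ξ = c • LinearMap.id := by
  apply strictness hn ω hω k hk hk' ξ
  intro B hB e x
  obtain ⟨z, hz⟩ : ∃ z, z = node ω e := ⟨_, rfl⟩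
  obtain ⟨A, hA⟩ := decomp k B
  have hAK : A.curryLeft ∈ Ktil ω k := by
    intro e' x'
    rw [AlternatingMap.curryLeft_apply_apply]
    exact A.map_eq_zero_of_eq _ (i := 0) (j := 1) rfl (Fin.succ_ne_zero (0 : Fin (k + 1))).symm
  obtain ⟨B0, hB0⟩ : ∃ B0, B0 = B - A.curryLeft := ⟨_, rfl⟩
  have hB0K : B0 ∈ Ktil ω k := by rw [hB0]; exact Submodule.sub_mem _ hB hAK
  have hB00 : B0 ∈ K0 ω k := ⟨hB0K, by rw [hB0]; exact hA⟩
  have hBe : B = B0 + A.curryLeft := by rw [hB0]; abel
  -- the alternating part
  have hswap : A.curryLeft (ξ z) (Matrix.vecCons z x) + A.curryLeft z (Matrix.vecCons (ξ z) x) = 0 := by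
    rw [AlternatingMap.curryLeft_apply_apply, AlternatingMap.curryLeft_apply_apply]
    have h1 := A.map_swap (Matrix.vecCons z (Matrix.vecCons (ξ z) x)) (i := 0) (j := 1)
      (Fin.succ_ne_zero (0 : Fin (k + 1))).symm
    have h2 : (Matrix.vecCons z (Matrix.vecCons (ξ z) x)) ∘ (Equiv.swap (0 : Fin (k + 2)) 1) =
        Matrix.vecCons (ξ z) (Matrix.vecCons z x) := by
      funext i
      refine Fin.cases ?_ (fun i => Fin.cases ?_ (fun i => ?_) i) i
      · simp [Equiv.swap_apply_left]
      · have : (Fin.succ (0 : Fin (k + 1))) = (1 : Fin (k + 2)) := rfl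
        rw [Function.comp_apply, this, Equiv.swap_apply_right]
        rfl
      · rw [Function.comp_apply, Equiv.swap_apply_of_ne_of_ne]
        · rfl
        · exact Fin.succ_ne_zero _
        · intro h3
          have h4 : (Fin.succ (Fin.succ i)) = Fin.succ (0 : Fin (k + 1)) := h3
          exact Fin.succ_ne_zero _ (Fin.succ_injective _ h4)
    rw [h2] at h1
    rw [h1]; ring
  -- the part in K0
  obtain ⟨B1, hB1, hB1e⟩ := h (toMul (UU n) k B0) (Submodule.mem_map_of_mem hB00)
  have hev := congrArg (fun τ => τ (Matrix.vecCons z (Matrix.vecCons z x))) hB1e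
  have hl : toMul (UU n) k B1 (Matrix.vecCons z (Matrix.vecCons z x)) = 0 := by
    rw [toMul_apply, hz]
    exact hB1.1 e x
  have hterm : ∀ m : Fin (k + 2), (toMul (UU n) k B0).compLinearMap (fun i => if i = m then ξ else LinearMap.id)
      (Matrix.vecCons z (Matrix.vecCons z x)) =
      B0 ((if (0 : Fin (k + 2)) = m then ξ else LinearMap.id) z)
        (fun j => (if j.succ = m then ξ else LinearMap.id) (Matrix.vecCons z x j)) := by
    intro m
    rw [MultilinearMap.compLinearMap_apply, toMul_apply]
    rfl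
  have hr : Dact ξ (toMul (UU n) k B0) (Matrix.vecCons z (Matrix.vecCons z x)) =
      B0 (ξ z) (Matrix.vecCons z x) + B0 z (Matrix.vecCons (ξ z) x) := by
    unfold Dact
    rw [MultilinearMap.sum_apply, Finset.sum_congr rfl (fun m _ => hterm m), Fin.sum_univ_succ,
      Fin.sum_univ_succ]
    have t0 : B0 ((if (0 : Fin (k + 2)) = 0 then ξ else LinearMap.id) z)
        (fun j => (if j.succ = 0 then ξ else LinearMap.id) (Matrix.vecCons z x j)) =
        B0 (ξ z) (Matrix.vecCons z x) := by
      rw [if_pos rfl]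
      congr 1
    have t1 : B0 ((if (0 : Fin (k + 2)) = (0 : Fin (k + 1)).succ then ξ else LinearMap.id) z)
        (fun j => (if j.succ = (0 : Fin (k + 1)).succ then ξ else LinearMap.id) (Matrix.vecCons z x j)) =
        B0 z (Matrix.vecCons (ξ z) x) := by
      rw [if_neg (Fin.succ_ne_zero _).symm]
      congr 1
      funext j
      refine Fin.cases ?_ (fun j => ?_) j
      · rw [if_pos rfl]; rfl
      · rw [if_neg (fun h3 => Fin.succ_ne_zero _ (Fin.succ_injective _ h3))]; rfl
    have t2 : ∀ i : Fin k, B0 ((if (0 : Fin (k + 2)) = i.succ.succ then ξ else LinearMap.id) z)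
        (fun j => (if j.succ = i.succ.succ then ξ else LinearMap.id) (Matrix.vecCons z x j)) = 0 := by
      intro i
      rw [if_neg (Fin.succ_ne_zero _).symm]
      have e1 : (fun j => (if j.succ = i.succ.succ then ξ else LinearMap.id) (Matrix.vecCons z x j)) =
          Matrix.vecCons z (fun j => (if j = i then ξ else LinearMap.id) (x j)) := by
        funext j
        refine Fin.cases ?_ (fun j => ?_) j
        · rw [if_neg (fun h3 => Fin.succ_ne_zero _ (Fin.succ_injective _ h3).symm)]; rfl
        · by_cases hji : j = i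
          · subst hji
            rw [if_pos rfl]
            change ξ (x j) = (if j = j then ξ else LinearMap.id) (x j)
            rw [if_pos rfl]
          · rw [if_neg (fun h3 => hji (Fin.succ_injective _ (Fin.succ_injective _ h3)))]
            change x j = (if j = i then ξ else LinearMap.id) (x j)
            rw [if_neg hji]
            rfl
      rw [e1, hz]
      exact hB0K e _
    rw [t0, t1, Finset.sum_eq_zero (fun i _ => t2 i), add_zero]
  have hev' : toMul (UU n) k B1 (Matrix.vecCons z (Matrix.vecCons z x)) =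
      Dact ξ (toMul (UU n) k B0) (Matrix.vecCons z (Matrix.vecCons z x)) := hev
  rw [hl, hr] at hev'
  rw [← hz, hBe]
  simp only [LinearMap.add_apply, AlternatingMap.add_apply]
  linear_combination hswap - hev'

end H475
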