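import Pool.Agent.Helper475.Base

open scoped BigOperators

namespace H475
open Module

theorem sum_ncl_count {X : Type} [Fintype X] [DecidableEq X] (s m : ℕ) (hsm : s ≤ m)
    (S : Finset X) (hS : S.card = s) :
    (((Finset.univ : Finset X).powersetCard m).filter (fun A => S ⊆ A)).card =
      (Fintype.card X - s).choose (m - s) := by
  have h1 : (Finset.univ \ S).card = Fintype.card X - s := by
    rw [Finset.card_sdiff_of_subset (Finset.subset_univ S), Finset.card_univ, hS]
  rw [← h1, ← Finset.card_powersetCard]
  refine Finset.card_nbij' (fun A => A \ S) (fun B => B ∪ S) ?_ ?_ ?_ ?_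
  · intro A hA
    simp only [Finset.coe_filter, Finset.mem_powersetCard, Set.mem_ofPred_eq] at hA
    simp only [Finset.mem_coe, Finset.mem_powersetCard]
    refine ⟨Finset.sdiff_subset_sdiff (Finset.subset_univ A) (Finset.Subset.refl S), ?_⟩
    rw [Finset.card_sdiff_of_subset hA.2, hA.1.2, hS]
  · intro B hB
    simp only [Finset.mem_coe, Finset.mem_powersetCard] at hB
    simp only [Finset.coe_filter, Finset.mem_powersetCard, Set.mem_ofPred_eq]
    refine ⟨⟨Finset.subset_univ _, ?_⟩, Finset.subset_union_right⟩
    have hd : Disjoint B S := by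
      rw [Finset.disjoint_left]
      intro x hx hx'
      exact (Finset.mem_sdiff.1 (hB.1 hx)).2 hx'
    rw [Finset.card_union_of_disjoint hd, hB.2, hS]
    omega
  · intro A hA
    simp only [Finset.coe_filter, Finset.mem_powersetCard, Set.mem_ofPred_eq] at hA
    exact Finset.sdiff_union_of_subset hA.2
  · intro B hB
    simp only [Finset.mem_coe, Finset.mem_powersetCard] at hB
    have hd : Disjoint B S := by
      rw [Finset.disjoint_left]
      intro x hx hx'
      exact (Finset.mem_sdiff.1 (hB.1 hx)).2 hx'
    exact Finset.union_sdiff_cancel_right hd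

theorem sum_ncl {X : Type} [Fintype X] [DecidableEq X] (Adj : X → X → Prop) (s m : ℕ)
    (hsm : s ≤ m) :
    ∑ A ∈ (Finset.univ : Finset X).powersetCard m, ncl Adj s A =
      ncl Adj s Finset.univ * (Fintype.card X - s).choose (m - s) := by
  classical
  have h1 : ∀ A ∈ (Finset.univ : Finset X).powersetCard m, ncl Adj s A =
      ∑ S ∈ ((Finset.univ : Finset X).powersetCard s).filter (Cl Adj), if S ⊆ A then 1 else 0 := by
    intro A _
    unfold ncl
    rw [← Finset.sum_filter, Finset.sum_const, smul_eq_mul, mul_one]
    congr 1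
    ext S
    simp only [Finset.mem_filter, Finset.mem_powersetCard, Finset.subset_univ, true_and]
    tauto
  rw [Finset.sum_congr rfl h1, Finset.sum_comm]
  have h2 : ∀ S ∈ ((Finset.univ : Finset X).powersetCard s).filter (Cl Adj),
      (∑ A ∈ (Finset.univ : Finset X).powersetCard m, if S ⊆ A then 1 else 0) =
        (Fintype.card X - s).choose (m - s) := by
    intro S hS
    rw [← Finset.sum_filter, Finset.sum_const, smul_eq_mul, mul_one]
    exact sum_ncl_count s m hsm S (Finset.mem_powersetCard.1 (Finset.mem_filter.1 hS).1).2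
  rw [Finset.sum_congr rfl h2, Finset.sum_const, smul_eq_mul]
  unfold ncl
  congr!

end H475
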