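import Pool.Agent.Helper475.Base

open scoped BigOperators

namespace H475
open Module

theorem sym_K0 {n : ℕ} [NeZero n] (ω : ZMod n) (k : ℕ) (L : UU n →ₗ[ℂ] UU n)
    (hL : ∀ e, ∃ e', L (node ω e) = node ω e') :
    ∀ τ ∈ (K0 ω k).map (toMul (UU n) k),
      τ.compLinearMap (fun _ => L) ∈ (K0 ω k).map (toMul (UU n) k) := by
  rintro τ ⟨B, ⟨hB1, hB2⟩, rfl⟩
  let B' : UU n →ₗ[ℂ] (UU n) [⋀^Fin (k+1)]→ₗ[ℂ] ℂ :=
    { toFun := fun u => (B (L u)).compLinearMap L
      map_add' := by
        intro u v
        ext x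
        simp
      map_smul' := by
        intro c u
        ext x
        simp }
  have hB'ap : ∀ (u : UU n) (x : Fin (k+1) → UU n), B' u x = B (L u) (fun j => L (x j)) := by
    intro u x
    rfl
  refine ⟨B', ⟨?_, ?_⟩, ?_⟩
  · intro e x
    obtain ⟨e', he'⟩ := hL e
    rw [hB'ap, he']
    have h := hB1 e' (fun j => L (x j))
    have hv : (fun j => L ((Matrix.vecCons (node ω e) x : Fin (k+1) → UU n) j)) =
        Matrix.vecCons (node ω e') (fun j => L (x j)) := by
      funext j
      refine Fin.cases ?_ (fun i => ?_) j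
      · simpa using he'
      · simp
    rw [hv]
    exact h
  · intro x
    have h := hB2 (fun i => L (x i))
    exact h
  · ext x
    rfl

end H475

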