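import Pool.Agent.Helper475.Base
import Pool.Agent.Helper475.ExistsInjMany
import Pool.Agent.Helper475.DactMemOfConst

open scoped BigOperators

namespace H475
open Module



theorem torus_stable_inv {J : Type} [Fintype J] [DecidableEq J] (Γ : Finset (Equiv.Perm J))
    (w : J → ℝ) (γ0 : Equiv.Perm J) (h : ∀ γ ∈ Γ, γ * γ0 ∈ Γ) (j : J) :
    ∑ γ ∈ Γ, w (γ (γ0 j)) = ∑ γ ∈ Γ, w (γ j) := by
  classical
  have hinj : Function.Injective (fun γ : Equiv.Perm J => γ * γ0) := fun a b hab => by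
    simpa using hab
  have himg : Γ.image (fun γ => γ * γ0) = Γ := by
    apply Finset.eq_of_subset_of_card_le
    · intro γ hγ
      obtain ⟨a, ha, rfl⟩ := Finset.mem_image.1 hγ
      exact h a ha
    · rw [Finset.card_image_of_injective _ hinj]
  calc ∑ γ ∈ Γ, w (γ (γ0 j)) = ∑ γ ∈ Γ, w ((γ * γ0) j) := by simp
    _ = ∑ γ ∈ Γ.image (fun γ => γ * γ0), w (γ j) := by
        rw [Finset.sum_image (fun a _ b _ hab => hinj hab)]
    _ = ∑ γ ∈ Γ, w (γ j) := by rw [himg]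

theorem torus_stable_two {J : Type} (J1 : Finset J) (W : J → ℝ)
    (h : ∀ j k : J, (j ∈ J1 ↔ k ∈ J1) → W j = W k) :
    ∃ A B : ℝ, ∀ j, (j ∈ J1 → W j = A) ∧ (j ∉ J1 → W j = B) := by
  classical
  by_cases h1 : ∃ a, a ∈ J1
  · obtain ⟨a, ha⟩ := h1
    by_cases h2 : ∃ b, b ∉ J1
    · obtain ⟨b, hb⟩ := h2
      exact ⟨W a, W b, fun j => ⟨fun hj => h j a (by simp [hj, ha]),
        fun hj => h j b (by simp [hj, hb])⟩⟩
    · exact ⟨W a, 0, fun j => ⟨fun hj => h j a (by simp [hj, ha]),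
        fun hj => (h2 ⟨j, hj⟩).elim⟩⟩
  · by_cases h2 : ∃ b, b ∉ J1
    · obtain ⟨b, hb⟩ := h2
      exact ⟨0, W b, fun j => ⟨fun hj => (h1 ⟨j, hj⟩).elim,
        fun hj => h j b (by simp [hj, hb])⟩⟩
    · exact ⟨0, 0, fun j => ⟨fun hj => (h1 ⟨j, hj⟩).elim, fun hj => (h2 ⟨j, hj⟩).elim⟩⟩

theorem torus_stable_sum {T J : Type} [Fintype T] [DecidableEq J] (J1 : Finset J) (W : J → ℝ)
    (A B : ℝ) (h : ∀ j, (j ∈ J1 → W j = A) ∧ (j ∉ J1 → W j = B)) (g : T → J) :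
    ∑ t, W (g t) = ((Finset.univ.filter (fun t => g t ∈ J1)).card : ℝ) * A +
      ((Fintype.card T : ℝ) - ((Finset.univ.filter (fun t => g t ∈ J1)).card : ℝ)) * B := by
  classical
  have h1 : ∀ t, W (g t) = (if g t ∈ J1 then A - B else 0) + B := by
    intro t
    by_cases ht : g t ∈ J1
    · rw [if_pos ht, (h _).1 ht]; ring
    · rw [if_neg ht, (h _).2 ht]; ring
  rw [Finset.sum_congr rfl fun t _ => h1 t, Finset.sum_add_distrib, ← Finset.sum_filter,
    Finset.sum_const, Finset.sum_const, nsmul_eq_mul, nsmul_eq_mul, Finset.card_univ]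
  ring

theorem torus_stable {M J : Type} [AddCommGroup M] [Module ℂ M] [FiniteDimensional ℂ M]
    [Fintype J] [DecidableEq J] {r : ℕ}
    (K : Submodule ℂ (MultilinearMap ℂ (fun _ : Fin r => M) ℂ)) (f : Basis J ℂ M)
    (J1 : Finset J)
    (hperm : ∀ j k : J, (j ∈ J1 ↔ k ∈ J1) → ∃ γ : Equiv.Perm J, γ j = k ∧
      (∀ i, γ i ∈ J1 ↔ i ∈ J1) ∧
      ∀ y : Fin (finrank ℂ K) → Fin r → J, Inj K f y → Inj K f (fun i m => γ (y i m)))
    (hF1 : ∃ y : Fin (finrank ℂ K) → Fin r → J, Inj K f y ∧ ∀ i m, y i m ∉ J1)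
    (hF2 : ∃ y : Fin (finrank ℂ K) → Fin r → J, Inj K f y ∧
      J1.card * (r * finrank ℂ K) < Fintype.card J *
        (Finset.univ.filter (fun q : Fin (finrank ℂ K) × Fin r => y q.1 q.2 ∈ J1)).card)
    (hS : ∀ ξ : M →ₗ[ℂ] M, (∀ τ ∈ K, Dact ξ τ ∈ K) → ∃ c : ℂ, ξ = c • LinearMap.id)
    (w : J → ℝ) (hw : w ≠ 0) (hw0 : ∑ j, w j = 0) :
    ∃ y : Fin (finrank ℂ K) → Fin r → J, Inj K f y ∧ ∑ i, ∑ m, w (y i m) < 0 := by
  classical
  by_contra hcon
  push Not at hcon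
  set Γ : Finset (Equiv.Perm J) := Finset.univ.filter (fun γ =>
    (∀ i, γ i ∈ J1 ↔ i ∈ J1) ∧
      ∀ y : Fin (finrank ℂ K) → Fin r → J, Inj K f y → Inj K f (fun i m => γ (y i m))) with hΓ
  have hmemΓ : ∀ γ, γ ∈ Γ ↔ ((∀ i, γ i ∈ J1 ↔ i ∈ J1) ∧
      ∀ y : Fin (finrank ℂ K) → Fin r → J, Inj K f y → Inj K f (fun i m => γ (y i m))) := by
    intro γ
    rw [hΓ, Finset.mem_filter]
    simp
  have hmul : ∀ γ0 ∈ Γ, ∀ γ ∈ Γ, γ * γ0 ∈ Γ := by
    intro γ0 h0 γ hγ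
    rw [hmemΓ] at h0 hγ ⊢
    refine ⟨fun i => ?_, fun y hy => ?_⟩
    · rw [Equiv.Perm.mul_apply, hγ.1, h0.1]
    · exact hγ.2 _ (h0.2 y hy)
  have hone : (1 : Equiv.Perm J) ∈ Γ := by
    rw [hmemΓ]
    exact ⟨fun i => by simp, fun y hy => by simpa using hy⟩
  set W : J → ℝ := fun j => ∑ γ ∈ Γ, w (γ j) with hW
  have hWinv : ∀ j k : J, (j ∈ J1 ↔ k ∈ J1) → W j = W k := by
    intro j k hjk
    obtain ⟨γ0, h0, h1, h2⟩ := hperm j k hjk
    have hγ0 : γ0 ∈ Γ := (hmemΓ γ0).2 ⟨h1, h2⟩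
    have h3 := torus_stable_inv Γ w γ0 (fun γ hγ => hmul γ0 hγ0 γ hγ) j
    rw [h0] at h3
    exact h3.symm
  obtain ⟨A, B, hAB⟩ := torus_stable_two J1 W hWinv
  have hWsum : ∑ j, W j = 0 := by
    rw [hW, Finset.sum_comm]
    apply Finset.sum_eq_zero
    intro γ _
    rw [Equiv.sum_comp γ w, hw0]
  have hJ : (J1.card : ℝ) * A + ((Fintype.card J : ℝ) - (J1.card : ℝ)) * B = 0 := by
    have h := torus_stable_sum (T := J) J1 W A B hAB id
    simp only [id] at h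
    rw [hWsum] at h
    have h2 : (Finset.univ.filter (fun t => t ∈ J1)) = J1 := by
      ext t; simp
    rw [h2] at h
    exact h.symm
  -- sums over pairs
  have hy : ∀ y : Fin (finrank ℂ K) → Fin r → J, ∑ γ ∈ Γ, ∑ i, ∑ m, w (γ (y i m)) =
      ((Finset.univ.filter (fun q : Fin (finrank ℂ K) × Fin r => y q.1 q.2 ∈ J1)).card : ℝ) * A +
      (((r * finrank ℂ K : ℕ) : ℝ) - ((Finset.univ.filter
        (fun q : Fin (finrank ℂ K) × Fin r => y q.1 q.2 ∈ J1)).card : ℝ)) * B := by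
    intro y
    have h := torus_stable_sum (T := Fin (finrank ℂ K) × Fin r) J1 W A B hAB (fun q => y q.1 q.2)
    have hc : Fintype.card (Fin (finrank ℂ K) × Fin r) = r * finrank ℂ K := by
      rw [Fintype.card_prod, Fintype.card_fin, Fintype.card_fin, mul_comm]
    rw [hc] at h
    rw [← h, Fintype.sum_prod_type, Finset.sum_comm]
    apply Finset.sum_congr rfl
    intro i _
    rw [Finset.sum_comm]
  have hnn : ∀ y : Fin (finrank ℂ K) → Fin r → J, Inj K f y →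
      ∀ γ ∈ Γ, 0 ≤ ∑ i, ∑ m, w (γ (y i m)) := by
    intro y hyi γ hγ
    exact hcon _ (((hmemΓ γ).1 hγ).2 y hyi)
  obtain ⟨y1, hy1, hy1'⟩ := hF1
  obtain ⟨y2, hy2, hy2'⟩ := hF2
  have hN1 : (Finset.univ.filter (fun q : Fin (finrank ℂ K) × Fin r => y1 q.1 q.2 ∈ J1)) = ∅ := by
    apply Finset.filter_eq_empty_iff.2
    intro q _
    exact hy1' _ _
  have hs1 := hy y1
  have hs2 := hy y2
  have hp1 := Finset.sum_nonneg (hnn y1 hy1)
  have hp2 := Finset.sum_nonneg (hnn y2 hy2)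
  rw [hs1, hN1, Finset.card_empty] at hp1
  rw [hs2] at hp2
  set N := (Finset.univ.filter (fun q : Fin (finrank ℂ K) × Fin r => y2 q.1 q.2 ∈ J1)).card with hN
  have hNle : N ≤ r * finrank ℂ K := by
    calc N ≤ (Finset.univ : Finset (Fin (finrank ℂ K) × Fin r)).card := Finset.card_filter_le _ _
      _ = r * finrank ℂ K := by
        rw [Finset.card_univ, Fintype.card_prod, Fintype.card_fin, Fintype.card_fin, mul_comm]
  have hNpos : 0 < N := by
    rcases Nat.eq_zero_or_pos N with h | h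
    · rw [h] at hy2'; simp at hy2'
    · exact h
  have hrd : 0 < r * finrank ℂ K := lt_of_lt_of_le hNpos hNle
  have hrd' : (0 : ℝ) < ((r * finrank ℂ K : ℕ) : ℝ) := by exact_mod_cast hrd
  have hJ1pos : 0 < J1.card := by
    obtain ⟨q, hq⟩ := Finset.card_pos.1 hNpos
    exact Finset.card_pos.2 ⟨_, (Finset.mem_filter.1 hq).2⟩
  have hJ1pos' : (0 : ℝ) < (J1.card : ℝ) := by exact_mod_cast hJ1pos
  have hB0 : 0 ≤ B := by
    by_contra hneg
    push Not at hneg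
    have : ((r * finrank ℂ K : ℕ) : ℝ) * B < 0 := mul_neg_of_pos_of_neg hrd' hneg
    simp only [Nat.cast_zero, zero_mul, zero_add, sub_zero] at hp1
    linarith
  have hB1 : B ≤ 0 := by
    by_contra hpos
    push Not at hpos
    have h2 : ((J1.card * (r * finrank ℂ K) : ℕ) : ℝ) < ((Fintype.card J * N : ℕ) : ℝ) := by
      exact_mod_cast hy2'
    rw [Nat.cast_mul, Nat.cast_mul (Fintype.card J) N] at h2
    have h3 : 0 ≤ (J1.card : ℝ) * ((N : ℝ) * A + (((r * finrank ℂ K : ℕ) : ℝ) - (N : ℝ)) * B) :=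
      mul_nonneg hJ1pos'.le hp2
    have h4 : (J1.card : ℝ) * ((N : ℝ) * A + (((r * finrank ℂ K : ℕ) : ℝ) - (N : ℝ)) * B)
        = B * ((J1.card : ℝ) * ((r * finrank ℂ K : ℕ) : ℝ) - (Fintype.card J : ℝ) * (N : ℝ)) := by
      linear_combination (N : ℝ) * hJ
    rw [h4] at h3
    have h5 : B * ((J1.card : ℝ) * ((r * finrank ℂ K : ℕ) : ℝ) - (Fintype.card J : ℝ) * (N : ℝ)) < 0 :=
      mul_neg_of_pos_of_neg hpos (by linarith)
    linarith
  have hB : B = 0 := le_antisymm hB1 hB0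
  have hA : A = 0 := by
    rw [hB, mul_zero, add_zero] at hJ
    rcases mul_eq_zero.1 hJ with h | h
    · exact absurd h hJ1pos'.ne'
    · exact h
  have hzero : ∀ y : Fin (finrank ℂ K) → Fin r → J, Inj K f y → ∑ i, ∑ m, w (y i m) = 0 := by
    intro y hyi
    have h1 := hy y
    rw [hA, hB, mul_zero, mul_zero, add_zero] at h1
    have h2 := (Finset.sum_eq_zero_iff_of_nonneg (hnn y hyi)).1 h1 1 hone
    simpa using h2
  -- the diagonal endomorphism
  set ξ : M →ₗ[ℂ] M := f.constr ℂ (fun j => (w j : ℂ) • f j) with hξ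
  have hξj : ∀ j, ξ (f j) = (w j : ℂ) • f j := fun j => by rw [hξ, Basis.constr_basis]
  obtain ⟨c, hc⟩ := hS ξ (Dact_mem_of_const K f w hzero ξ hξj)
  have hwc : ∀ j, (w j : ℂ) = c := by
    intro j
    have h1 := hξj j
    rw [hc, LinearMap.smul_apply, LinearMap.id_apply] at h1
    have h2 := congrArg (fun v => f.repr v j) h1
    simp only [map_smul, Finsupp.smul_apply, Basis.repr_self, Finsupp.single_eq_same, smul_eq_mul,
      mul_one] at h2
    exact h2.symm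
  obtain ⟨j0, hj0⟩ := Finset.card_pos.1 hJ1pos
  have hconst : ∀ j, w j = w j0 := by
    intro j
    have : (w j : ℂ) = (w j0 : ℂ) := by rw [hwc j, hwc j0]
    exact_mod_cast this
  have hw00 : w j0 = 0 := by
    rw [Finset.sum_congr rfl fun j _ => hconst j, Finset.sum_const, nsmul_eq_mul,
      Finset.card_univ] at hw0
    rcases mul_eq_zero.1 hw0 with h | h
    · have : Nonempty J := ⟨j0⟩
      have : 0 < Fintype.card J := Fintype.card_pos
      exact absurd h (by exact_mod_cast this.ne')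
    · exact h
  apply hw
  funext j
  rw [hconst j, hw00]
  rfl

end H475
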