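import Pool.Agent.Helper475.Base

open scoped BigOperators

namespace H475
open Module


set_option linter.unusedSimpArgs false

/-- Contraction with a vector, as a bilinear map. -/
noncomputable def upper_bound_C (M : Type) [AddCommGroup M] [Module ℂ M] (m : ℕ) :
    M →ₗ[ℂ] (M [⋀^Fin (m+1)]→ₗ[ℂ] ℂ) →ₗ[ℂ] (M [⋀^Fin m]→ₗ[ℂ] ℂ) :=
  (AlternatingMap.curryLeftLinearMap (R := ℂ) (M := M) (N := ℂ) (n := m)).flip

theorem upper_bound_C_apply {M : Type} [AddCommGroup M] [Module ℂ M] {m : ℕ} (v : M)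
    (a : M [⋀^Fin (m+1)]→ₗ[ℂ] ℂ) (x : Fin m → M) :
    upper_bound_C M m v a x = a (Matrix.vecCons v x) := rfl

theorem upper_bound_C_self {M : Type} [AddCommGroup M] [Module ℂ M] {m : ℕ} (v : M)
    (a : M [⋀^Fin (m+2)]→ₗ[ℂ] ℂ) :
    upper_bound_C M m v (upper_bound_C M (m+1) v a) = 0 :=
  AlternatingMap.curryLeft_same a v

theorem upper_bound_C_anti {M : Type} [AddCommGroup M] [Module ℂ M] {m : ℕ} (u v : M)
    (a : M [⋀^Fin (m+2)]→ₗ[ℂ] ℂ) :
    upper_bound_C M m u (upper_bound_C M (m+1) v a) =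
      - upper_bound_C M m v (upper_bound_C M (m+1) u a) := by
  have h := upper_bound_C_self (u + v) a
  simp only [map_add, LinearMap.add_apply, upper_bound_C_self, zero_add, add_zero] at h
  rw [eq_neg_iff_add_eq_zero, add_comm]
  exact h

/-- Restriction along a linear map. -/
noncomputable def upper_bound_R {M M' : Type} [AddCommGroup M] [Module ℂ M] [AddCommGroup M']
    [Module ℂ M'] (f : M' →ₗ[ℂ] M) (m : ℕ) :
    (M [⋀^Fin m]→ₗ[ℂ] ℂ) →ₗ[ℂ] (M' [⋀^Fin m]→ₗ[ℂ] ℂ) where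
  toFun a := a.compLinearMap f
  map_add' a b := by ext x; simp
  map_smul' c a := by ext x; simp

theorem upper_bound_R_C {M M' : Type} [AddCommGroup M] [Module ℂ M] [AddCommGroup M']
    [Module ℂ M'] (f : M' →ₗ[ℂ] M) (m : ℕ) (u : M') (a : M [⋀^Fin (m+1)]→ₗ[ℂ] ℂ) :
    upper_bound_R f m (upper_bound_C M m (f u) a) =
      upper_bound_C M' m u (upper_bound_R f (m+1) a) :=
  (AlternatingMap.curryLeft_compLinearMap f a u).symm

theorem upper_bound_step {E F : Type} [AddCommGroup E] [Module ℂ E] [FiniteDimensional ℂ E]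
    [AddCommGroup F] [Module ℂ F] [FiniteDimensional ℂ F] (G : Submodule ℂ E) (f : E →ₗ[ℂ] F)
    (P : Submodule ℂ F) (h : ∀ x ∈ G, f x ∈ P) :
    finrank ℂ G ≤ finrank ℂ P + finrank ℂ (G ⊓ LinearMap.ker f : Submodule ℂ E) := by
  let g : G →ₗ[ℂ] P := (f.domRestrict G).codRestrict P (fun x => h x x.2)
  have h1 := LinearMap.finrank_range_add_finrank_ker g
  have h2 : finrank ℂ (LinearMap.range g) ≤ finrank ℂ P := Submodule.finrank_le _
  have h3 : finrank ℂ (LinearMap.ker g) ≤ finrank ℂ (G ⊓ LinearMap.ker f : Submodule ℂ E) := by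
    let k : LinearMap.ker g →ₗ[ℂ] (G ⊓ LinearMap.ker f : Submodule ℂ E) :=
      { toFun := fun x => ⟨x.1.1, x.1.2, by
          have := x.2
          rw [LinearMap.mem_ker] at this
          have h4 := congrArg Subtype.val this
          exact h4⟩
        map_add' := fun x y => rfl
        map_smul' := fun c x => rfl }
    refine LinearMap.finrank_le_finrank_of_injective (f := k) ?_
    intro x y hxy
    have := congrArg Subtype.val hxy
    exact Subtype.ext (Subtype.ext this)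
  omega

theorem upper_bound_slot {M : Type} [AddCommGroup M] [Module ℂ M] {m : ℕ}
    (a : M [⋀^Fin (m+1)]→ₗ[ℂ] ℂ) (w : Fin (m+1) → M) (i : Fin (m+1))
    (h : upper_bound_C M m (w i) a = 0) : a w = 0 := by
  have key : ∀ w' : Fin (m+1) → M, w' 0 = w i → a w' = 0 := by
    intro w' hw'
    have h1 : upper_bound_C M m (w i) a (Matrix.vecTail w') = 0 := by rw [h]; rfl
    rw [upper_bound_C_apply, ← hw'] at h1
    have h2 : Matrix.vecCons (w' 0) (Matrix.vecTail w') = w' := Matrix.cons_head_tail w'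
    rw [h2] at h1
    exact h1
  by_cases hi : i = 0
  · exact key w (by rw [hi])
  · have h1 := a.map_swap w (Ne.symm hi)
    have h2 := key (w ∘ Equiv.swap 0 i) (by simp)
    rw [h2] at h1
    exact neg_eq_zero.1 h1.symm

section
variable {U' U1 : Type} [AddCommGroup U'] [Module ℂ U'] [AddCommGroup U1] [Module ℂ U1]

theorem upper_bound_P {m : ℕ} (ε1 ε2 : U1) (hspan : ∀ c : U1, ∃ s t : ℂ, c = s • ε1 + t • ε2)
    (a : (U' × U1) [⋀^Fin (m+1)]→ₗ[ℂ] ℂ) (h0 : upper_bound_R (LinearMap.inl ℂ U' U1) (m+1) a = 0)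
    (h1 : upper_bound_C _ m (LinearMap.inr ℂ U' U1 ε1) a = 0)
    (h2 : upper_bound_C _ m (LinearMap.inr ℂ U' U1 ε2) a = 0) : a = 0 := by
  have hc : ∀ c : U1, upper_bound_C _ m (LinearMap.inr ℂ U' U1 c) a = 0 := by
    intro c
    obtain ⟨s, t, rfl⟩ := hspan c
    simp only [map_add, map_smul, LinearMap.add_apply, LinearMap.smul_apply, h1, h2, smul_zero,
      add_zero]
  ext x
  have hx : x = (fun i => LinearMap.inl ℂ U' U1 (x i).1) + (fun i => LinearMap.inr ℂ U' U1 (x i).2) := by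
    funext i
    simp
  have h3 : a x = a.toMultilinearMap x := rfl
  rw [h3, hx, MultilinearMap.map_add_univ]
  refine Finset.sum_eq_zero fun s _ => ?_
  by_cases hs : s = Finset.univ
  · subst hs
    rw [Finset.piecewise_univ]
    have h4 := congrArg (fun b => b (fun i => (x i).1)) h0
    exact h4
  · have : ∃ i, i ∉ s := by
      by_contra hcon
      push Not at hcon
      exact hs (Finset.eq_univ_iff_forall.2 hcon)
    obtain ⟨i, hi⟩ := this
    refine upper_bound_slot a _ i ?_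
    rw [Finset.piecewise_eq_of_notMem _ _ _ hi]
    exact hc _

/-- `B ↦ T (B v)` -/
noncomputable def upper_bound_mA {M F A : Type} [AddCommGroup M] [Module ℂ M] [AddCommGroup F]
    [Module ℂ F] [AddCommGroup A] [Module ℂ A] (T : A →ₗ[ℂ] F) (v : M) : (M →ₗ[ℂ] A) →ₗ[ℂ] F :=
  T ∘ₗ LinearMap.applyₗ v

/-- `B ↦ T ∘ B ∘ l` -/
noncomputable def upper_bound_mB {M M' F A : Type} [AddCommGroup M] [Module ℂ M] [AddCommGroup M']
    [Module ℂ M'] [AddCommGroup F] [Module ℂ F] [AddCommGroup A] [Module ℂ A] (T : A →ₗ[ℂ] F)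
    (l : M' →ₗ[ℂ] M) : (M →ₗ[ℂ] A) →ₗ[ℂ] (M' →ₗ[ℂ] F) where
  toFun B := T ∘ₗ B ∘ₗ l
  map_add' a b := by ext x; simp
  map_smul' c a := by ext x; simp

theorem upper_bound_mA_apply {M F A : Type} [AddCommGroup M] [Module ℂ M] [AddCommGroup F]
    [Module ℂ F] [AddCommGroup A] [Module ℂ A] (T : A →ₗ[ℂ] F) (v : M) (B : M →ₗ[ℂ] A) :
    upper_bound_mA T v B = T (B v) := rfl

theorem upper_bound_mB_apply {M M' F A : Type} [AddCommGroup M] [Module ℂ M] [AddCommGroup M']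
    [Module ℂ M'] [AddCommGroup F] [Module ℂ F] [AddCommGroup A] [Module ℂ A] (T : A →ₗ[ℂ] F)
    (l : M' →ₗ[ℂ] M) (B : M →ₗ[ℂ] A) (u : M') :
    upper_bound_mB T l B u = T (B (l u)) := rfl

theorem upper_bound_gen [FiniteDimensional ℂ U'] [FiniteDimensional ℂ U1] (ε1 ε2 : U1)
    (hspan : ∀ c : U1, ∃ s t : ℂ, c = s • ε1 + t • ε2) {J : Type} (z : J → U' × U1) (q : ℕ)
    (K : Submodule ℂ (U' × U1 →ₗ[ℂ] (U' × U1) [⋀^Fin (q+3)]→ₗ[ℂ] ℂ))
    (hK : ∀ B ∈ K, ∀ e, upper_bound_C _ (q+2) (z e) (B (z e)) = 0)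
    (P0 : Submodule ℂ (U' →ₗ[ℂ] U' [⋀^Fin (q+1)]→ₗ[ℂ] ℂ))
    (P1 : Submodule ℂ (U' →ₗ[ℂ] U' [⋀^Fin (q+2)]→ₗ[ℂ] ℂ))
    (P2 : Submodule ℂ (U' →ₗ[ℂ] U' [⋀^Fin (q+3)]→ₗ[ℂ] ℂ))
    (hP0 : ∀ B : U' →ₗ[ℂ] U' [⋀^Fin (q+1)]→ₗ[ℂ] ℂ,
      (∀ e, upper_bound_C _ q (z e).1 (B (z e).1) = 0) → B ∈ P0)
    (hP1 : ∀ B : U' →ₗ[ℂ] U' [⋀^Fin (q+2)]→ₗ[ℂ] ℂ,
      (∀ e, upper_bound_C _ (q+1) (z e).1 (B (z e).1) = 0) → B ∈ P1)
    (hP2 : ∀ B : U' →ₗ[ℂ] U' [⋀^Fin (q+3)]→ₗ[ℂ] ℂ,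
      (∀ e, upper_bound_C _ (q+2) (z e).1 (B (z e).1) = 0) → B ∈ P2) :
    finrank ℂ K ≤ 2 * (finrank ℂ U').choose (q+1) + finrank ℂ P0
      + 4 * (finrank ℂ U').choose (q+2) + 2 * finrank ℂ P1
      + 2 * (finrank ℂ U').choose (q+3) + finrank ℂ P2 := by
  have fdU : ∀ m, FiniteDimensional ℂ ((U' × U1) [⋀^Fin m]→ₗ[ℂ] ℂ) := fun m => (finrank_alt _ m).1
  have fdU' : ∀ m, FiniteDimensional ℂ (U' [⋀^Fin m]→ₗ[ℂ] ℂ) := fun m => (finrank_alt _ m).1
  have ch : ∀ m, finrank ℂ (⊤ : Submodule ℂ (U' [⋀^Fin m]→ₗ[ℂ] ℂ)) = (finrank ℂ U').choose m := by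
    intro m
    rw [finrank_top]
    exact (finrank_alt _ m).2
  set l := LinearMap.inl ℂ U' U1 with hl
  set e1 := LinearMap.inr ℂ U' U1 ε1 with he1
  set e2 := LinearMap.inr ℂ U' U1 ε2 with he2
  have hz : ∀ e, ∃ s t : ℂ, z e = l (z e).1 + (s • e1 + t • e2) := by
    intro e
    obtain ⟨s, t, h⟩ := hspan (z e).2
    refine ⟨s, t, ?_⟩
    rw [he1, he2, ← map_smul, ← map_smul, ← map_add, ← h, hl]
    simp
  -- rewriting rules
  have r11 : ∀ (m : ℕ) (x : (U' × U1) [⋀^Fin (m+2)]→ₗ[ℂ] ℂ),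
      upper_bound_C _ m e1 (upper_bound_C _ (m+1) e1 x) = 0 := fun m x => upper_bound_C_self _ _
  have r22 : ∀ (m : ℕ) (x : (U' × U1) [⋀^Fin (m+2)]→ₗ[ℂ] ℂ),
      upper_bound_C _ m e2 (upper_bound_C _ (m+1) e2 x) = 0 := fun m x => upper_bound_C_self _ _
  have r12 : ∀ (m : ℕ) (x : (U' × U1) [⋀^Fin (m+2)]→ₗ[ℂ] ℂ),
      upper_bound_C _ m e1 (upper_bound_C _ (m+1) e2 x) =
        - upper_bound_C _ m e2 (upper_bound_C _ (m+1) e1 x) := fun m x => upper_bound_C_anti _ _ _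
  have r1l : ∀ (m : ℕ) (u : U') (x : (U' × U1) [⋀^Fin (m+2)]→ₗ[ℂ] ℂ),
      upper_bound_C _ m e1 (upper_bound_C _ (m+1) (l u) x) =
        - upper_bound_C _ m (l u) (upper_bound_C _ (m+1) e1 x) := fun m u x => upper_bound_C_anti _ _ _
  have r2l : ∀ (m : ℕ) (u : U') (x : (U' × U1) [⋀^Fin (m+2)]→ₗ[ℂ] ℂ),
      upper_bound_C _ m e2 (upper_bound_C _ (m+1) (l u) x) =
        - upper_bound_C _ m (l u) (upper_bound_C _ (m+1) e2 x) := fun m u x => upper_bound_C_anti _ _ _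
  have rR : ∀ (m : ℕ) (u : U') (x : (U' × U1) [⋀^Fin (m+1)]→ₗ[ℂ] ℂ),
      upper_bound_R l m (upper_bound_C _ m (l u) x) = upper_bound_C _ m u (upper_bound_R l (m+1) x) :=
    fun m u x => upper_bound_R_C l m u x
  -- operators
  set T12 := upper_bound_R l (q+1) ∘ₗ upper_bound_C (U' × U1) (q+1) e2 ∘ₗ
    upper_bound_C (U' × U1) (q+2) e1 with hT12
  set T1 := upper_bound_R l (q+2) ∘ₗ upper_bound_C (U' × U1) (q+2) e1 with hT1
  set T2 := upper_bound_R l (q+2) ∘ₗ upper_bound_C (U' × U1) (q+2) e2 with hT2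
  set T0 := upper_bound_R l (q+3) with hT0
  set G1 := K ⊓ LinearMap.ker (upper_bound_mA T12 e1) with hG1
  set G2 := G1 ⊓ LinearMap.ker (upper_bound_mA T12 e2) with hG2
  set G3 := G2 ⊓ LinearMap.ker (upper_bound_mB T12 l) with hG3
  set G4 := G3 ⊓ LinearMap.ker (upper_bound_mA T1 e1) with hG4
  set G5 := G4 ⊓ LinearMap.ker (upper_bound_mA T1 e2) with hG5
  set G6 := G5 ⊓ LinearMap.ker (upper_bound_mA T2 e1) with hG6
  set G7 := G6 ⊓ LinearMap.ker (upper_bound_mA T2 e2) with hG7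
  set G8 := G7 ⊓ LinearMap.ker (upper_bound_mB T1 l) with hG8
  set G9 := G8 ⊓ LinearMap.ker (upper_bound_mB T2 l) with hG9
  set G10 := G9 ⊓ LinearMap.ker (upper_bound_mA T0 e1) with hG10
  set G11 := G10 ⊓ LinearMap.ker (upper_bound_mA T0 e2) with hG11
  set G12 := G11 ⊓ LinearMap.ker (upper_bound_mB T0 l) with hG12
  have s1 := upper_bound_step K (upper_bound_mA T12 e1) ⊤ (fun _ _ => trivial)
  have s2 := upper_bound_step G1 (upper_bound_mA T12 e2) ⊤ (fun _ _ => trivial)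
  have s4 := upper_bound_step G3 (upper_bound_mA T1 e1) ⊤ (fun _ _ => trivial)
  have s5 := upper_bound_step G4 (upper_bound_mA T1 e2) ⊤ (fun _ _ => trivial)
  have s6 := upper_bound_step G5 (upper_bound_mA T2 e1) ⊤ (fun _ _ => trivial)
  have s7 := upper_bound_step G6 (upper_bound_mA T2 e2) ⊤ (fun _ _ => trivial)
  have s10 := upper_bound_step G9 (upper_bound_mA T0 e1) ⊤ (fun _ _ => trivial)
  have s11 := upper_bound_step G10 (upper_bound_mA T0 e2) ⊤ (fun _ _ => trivial)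
  rw [ch] at s1 s2 s4 s5 s6 s7 s10 s11
  -- unpacking
  have u2 : ∀ B ∈ G2, B ∈ K ∧ T12 (B e1) = 0 ∧ T12 (B e2) = 0 := by
    intro B hB
    exact ⟨hB.1.1, hB.1.2, hB.2⟩
  have u7 : ∀ B ∈ G7, B ∈ K ∧ T12 (B e1) = 0 ∧ T12 (B e2) = 0 ∧ (∀ u, T12 (B (l u)) = 0) ∧
      T1 (B e1) = 0 ∧ T1 (B e2) = 0 ∧ T2 (B e1) = 0 ∧ T2 (B e2) = 0 := by
    intro B hB
    have h2 := u2 B hB.1.1.1.1.1
    have h3 : upper_bound_mB T12 l B = 0 := hB.1.1.1.1.2
    exact ⟨h2.1, h2.2.1, h2.2.2, fun u => by rw [← upper_bound_mB_apply, h3]; rfl,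
      hB.1.1.1.2, hB.1.1.2, hB.1.2, hB.2⟩
  have u11 : ∀ B ∈ G11, (B ∈ K ∧ T12 (B e1) = 0 ∧ T12 (B e2) = 0 ∧ (∀ u, T12 (B (l u)) = 0) ∧
      T1 (B e1) = 0 ∧ T1 (B e2) = 0 ∧ T2 (B e1) = 0 ∧ T2 (B e2) = 0) ∧
      (∀ u, T1 (B (l u)) = 0) ∧ (∀ u, T2 (B (l u)) = 0) ∧ T0 (B e1) = 0 ∧ T0 (B e2) = 0 := by
    intro B hB
    have h8 : upper_bound_mB T1 l B = 0 := hB.1.1.1.2
    have h9 : upper_bound_mB T2 l B = 0 := hB.1.1.2
    exact ⟨u7 B hB.1.1.1.1, fun u => by rw [← upper_bound_mB_apply, h8]; rfl,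
      fun u => by rw [← upper_bound_mB_apply, h9]; rfl, hB.1.2, hB.2⟩
  -- memberships
  have s3 := upper_bound_step G2 (upper_bound_mB T12 l) P0 (by
    intro B hB
    obtain ⟨hBK, a1, a2⟩ := u2 B hB
    refine hP0 _ fun e => ?_
    obtain ⟨s, t, hst⟩ := hz e
    have h := congrArg (fun a => upper_bound_R l q (upper_bound_C _ q e2 (upper_bound_C _ (q+1) e1 a)))
      (hK B hBK e)
    rw [hst] at h
    have a1' : upper_bound_R l (q+1) (upper_bound_C (U' × U1) (q+1) e2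
      (upper_bound_C (U' × U1) (q+2) e1 (B e1))) = 0 := a1
    have a2' : upper_bound_R l (q+1) (upper_bound_C (U' × U1) (q+1) e2
      (upper_bound_C (U' × U1) (q+2) e1 (B e2))) = 0 := a2
    simp only [map_add, map_smul, LinearMap.add_apply, LinearMap.smul_apply, r11, r22, r12, r1l,
      r2l, rR, a1', a2', map_neg, map_zero, smul_zero, add_zero, zero_add, neg_neg, neg_zero,
      smul_neg] at h
    exact h)
  have s8 := upper_bound_step G7 (upper_bound_mB T1 l) P1 (by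
    intro B hB
    obtain ⟨hBK, a1, a2, a3, b11, b12, b21, b22⟩ := u7 B hB
    refine hP1 _ fun e => ?_
    obtain ⟨s, t, hst⟩ := hz e
    have h := congrArg (fun a => upper_bound_R l (q+1) (upper_bound_C _ (q+1) e1 a)) (hK B hBK e)
    rw [hst] at h
    have a1' : upper_bound_R l (q+1) (upper_bound_C (U' × U1) (q+1) e2
      (upper_bound_C (U' × U1) (q+2) e1 (B e1))) = 0 := a1
    have a2' : upper_bound_R l (q+1) (upper_bound_C (U' × U1) (q+1) e2
      (upper_bound_C (U' × U1) (q+2) e1 (B e2))) = 0 := a2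
    have a3' : ∀ u, upper_bound_R l (q+1) (upper_bound_C (U' × U1) (q+1) e2
      (upper_bound_C (U' × U1) (q+2) e1 (B (l u)))) = 0 := a3
    have b1' : upper_bound_R l (q+2) (upper_bound_C (U' × U1) (q+2) e1 (B e1)) = 0 := b11
    have b2' : upper_bound_R l (q+2) (upper_bound_C (U' × U1) (q+2) e1 (B e2)) = 0 := b12
    simp only [map_add, map_smul, LinearMap.add_apply, LinearMap.smul_apply, r11, r22, r12, r1l,
      r2l, rR, a1', a2', a3', b1', b2', map_neg, map_zero, smul_zero, add_zero, zero_add, neg_neg,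
      neg_zero, smul_neg, neg_eq_zero] at h
    exact h)
  have s9 := upper_bound_step G8 (upper_bound_mB T2 l) P1 (by
    intro B hB
    obtain ⟨hBK, a1, a2, a3, b11, b12, b21, b22⟩ := u7 B hB.1
    refine hP1 _ fun e => ?_
    obtain ⟨s, t, hst⟩ := hz e
    have h := congrArg (fun a => upper_bound_R l (q+1) (upper_bound_C _ (q+1) e2 a)) (hK B hBK e)
    rw [hst] at h
    have a1' : upper_bound_R l (q+1) (upper_bound_C (U' × U1) (q+1) e2
      (upper_bound_C (U' × U1) (q+2) e1 (B e1))) = 0 := a1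
    have a2' : upper_bound_R l (q+1) (upper_bound_C (U' × U1) (q+1) e2
      (upper_bound_C (U' × U1) (q+2) e1 (B e2))) = 0 := a2
    have a3' : ∀ u, upper_bound_R l (q+1) (upper_bound_C (U' × U1) (q+1) e2
      (upper_bound_C (U' × U1) (q+2) e1 (B (l u)))) = 0 := a3
    have b1' : upper_bound_R l (q+2) (upper_bound_C (U' × U1) (q+2) e2 (B e1)) = 0 := b21
    have b2' : upper_bound_R l (q+2) (upper_bound_C (U' × U1) (q+2) e2 (B e2)) = 0 := b22
    simp only [map_add, map_smul, LinearMap.add_apply, LinearMap.smul_apply, r11, r22, r12, r1l,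
      r2l, rR, a1', a2', a3', b1', b2', map_neg, map_zero, smul_zero, add_zero, zero_add, neg_neg,
      neg_zero, smul_neg, neg_eq_zero] at h
    exact h)
  have s12 := upper_bound_step G11 (upper_bound_mB T0 l) P2 (by
    intro B hB
    obtain ⟨⟨hBK, a1, a2, a3, b11, b12, b21, b22⟩, c1, c2, d1, d2⟩ := u11 B hB
    refine hP2 _ fun e => ?_
    obtain ⟨s, t, hst⟩ := hz e
    have h := congrArg (fun a => upper_bound_R l (q+2) a) (hK B hBK e)
    rw [hst] at h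
    have b1' : upper_bound_R l (q+2) (upper_bound_C (U' × U1) (q+2) e2 (B e1)) = 0 := b21
    have b2' : upper_bound_R l (q+2) (upper_bound_C (U' × U1) (q+2) e2 (B e2)) = 0 := b22
    have b3' : upper_bound_R l (q+2) (upper_bound_C (U' × U1) (q+2) e1 (B e1)) = 0 := b11
    have b4' : upper_bound_R l (q+2) (upper_bound_C (U' × U1) (q+2) e1 (B e2)) = 0 := b12
    have c1' : ∀ u, upper_bound_R l (q+2) (upper_bound_C (U' × U1) (q+2) e1 (B (l u))) = 0 := c1
    have c2' : ∀ u, upper_bound_R l (q+2) (upper_bound_C (U' × U1) (q+2) e2 (B (l u))) = 0 := c2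
    have d1' : upper_bound_R l (q+3) (B e1) = 0 := d1
    have d2' : upper_bound_R l (q+3) (B e2) = 0 := d2
    simp only [map_add, map_smul, LinearMap.add_apply, LinearMap.smul_apply, r11, r22, r12, r1l,
      r2l, rR, b1', b2', b3', b4', c1', c2', d1', d2', map_neg, map_zero, smul_zero, add_zero,
      zero_add, neg_neg, neg_zero, smul_neg, neg_eq_zero] at h
    exact h)
  have zero_of : ∀ x : (U' × U1) [⋀^Fin (q+3)]→ₗ[ℂ] ℂ, T12 x = 0 → T1 x = 0 → T2 x = 0 →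
      T0 x = 0 → x = 0 := by
    intro x h12 h1 h2 h0
    have k12 : upper_bound_C _ (q+1) e2 (upper_bound_C _ (q+2) e1 x) = 0 := by
      refine upper_bound_P ε1 ε2 hspan _ h12 ?_ ?_
      · show upper_bound_C _ q e1 _ = 0
        rw [r12, r11, map_zero, neg_zero]
      · exact r22 _ _
    have k1 : upper_bound_C _ (q+2) e1 x = 0 := by
      refine upper_bound_P ε1 ε2 hspan _ h1 ?_ ?_
      · exact r11 _ _
      · exact k12
    have k2 : upper_bound_C _ (q+2) e2 x = 0 := by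
      refine upper_bound_P ε1 ε2 hspan _ h2 ?_ ?_
      · show upper_bound_C _ (q+1) e1 _ = 0
        rw [r12, k12, neg_zero]
      · exact r22 _ _
    exact upper_bound_P ε1 ε2 hspan _ h0 k1 k2
  have hbot : G12 = ⊥ := by
    rw [eq_bot_iff]
    intro B hB
    obtain ⟨⟨hBK, a1, a2, a3, b11, b12, b21, b22⟩, c1, c2, d1, d2⟩ := u11 B hB.1
    have h12 : upper_bound_mB T0 l B = 0 := hB.2
    have d3 : ∀ u, T0 (B (l u)) = 0 := fun u => by rw [← upper_bound_mB_apply, h12]; rfl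
    have z1 := zero_of (B e1) a1 b11 b21 d1
    have z2 := zero_of (B e2) a2 b12 b22 d2
    have z3 : ∀ u, B (l u) = 0 := fun u => zero_of _ (a3 u) (c1 u) (c2 u) (d3 u)
    have : B = 0 := by
      refine LinearMap.ext fun v => ?_
      obtain ⟨s, t, h⟩ := hspan v.2
      have hv : v = l v.1 + (s • e1 + t • e2) := by
        rw [he1, he2, ← map_smul, ← map_smul, ← map_add, ← h, hl]
        simp
      rw [hv, map_add, map_add, map_smul, map_smul, z1, z2, z3]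
      simp
    rw [this]
    exact Submodule.zero_mem _
  have hb : finrank ℂ G12 = 0 := by rw [hbot]; exact finrank_bot ℂ _
  rw [← hG1] at s1
  rw [← hG2] at s2
  rw [← hG3] at s3
  rw [← hG4] at s4
  rw [← hG5] at s5
  rw [← hG6] at s6
  rw [← hG7] at s7
  rw [← hG8] at s8
  rw [← hG9] at s9
  rw [← hG10] at s10
  rw [← hG11] at s11
  rw [← hG12] at s12
  omega

end

theorem upper_bound {n : ℕ} [NeZero n] (ω : ZMod n) (q : ℕ) :
    finrank ℂ (Ktil ω (q+2)) ≤ 2 * (n-1).choose (q+1) + finrank ℂ (KP (Adj ω) q)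
      + 4 * (n-1).choose (q+2) + 2 * finrank ℂ (KP (Adj ω) (q+1))
      + 2 * (n-1).choose (q+3) + finrank ℂ (KP (Adj ω) (q+2)) := by
  have hspan : ∀ c : Z0 (Fin 3), ∃ s t : ℂ, c = s • dif 0 1 + t • dif 1 2 := by
    intro c
    have hc := (mem_Z0 c.1).1 c.2
    rw [Fin.sum_univ_three] at hc
    refine ⟨c.1 0, c.1 0 + c.1 1, Subtype.ext (funext fun i => ?_)⟩
    have e : ((c.1 0 • dif (0 : Fin 3) 1 + (c.1 0 + c.1 1) • dif 1 2 : Z0 (Fin 3)) : Fin 3 → ℂ) i =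
      c.1 0 * ((Pi.single 0 1 - Pi.single 1 1 : Fin 3 → ℂ) i) +
      (c.1 0 + c.1 1) * ((Pi.single 1 1 - Pi.single 2 1 : Fin 3 → ℂ) i) := rfl
    rw [e]
    fin_cases i
    · simp
    · simp
    · simp
      linear_combination hc
  have hdim : finrank ℂ (Z0 (ZMod n)) = n - 1 := by
    have h1 := LinearMap.finrank_range_add_finrank_ker (sumL (ZMod n))
    have h2 : LinearMap.range (sumL (ZMod n)) = ⊤ := by
      rw [LinearMap.range_eq_top]
      intro c
      exact ⟨Pi.single 0 c, by simp [sumL]⟩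
    rw [h2, finrank_top] at h1
    simp only [Module.finrank_self, Module.finrank_fintype_fun_eq_card, ZMod.card] at h1
    show finrank ℂ (LinearMap.ker (sumL (ZMod n))) = n - 1
    omega
  have hmem : ∀ (m : ℕ) (B : Z0 (ZMod n) →ₗ[ℂ] (Z0 (ZMod n)) [⋀^Fin (m+1)]→ₗ[ℂ] ℂ),
      (∀ e, upper_bound_C _ m (node ω e).1 (B (node ω e).1) = 0) → B ∈ KP (Adj ω) m := by
    intro m B hB a b hab x
    obtain ⟨i, h | h⟩ := hab
    · have h1 := congrArg (fun f => f x) (hB (a, i))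
      subst h
      exact h1
    · have h1 := congrArg (fun f => f x) (hB (b, i))
      subst h
      have h2 : dif b (b + ω ^ (i : ℕ)) = - dif (b + ω ^ (i : ℕ)) b := by
        refine Subtype.ext ?_
        show (Pi.single b 1 - Pi.single (b + ω ^ (i : ℕ)) 1 : ZMod n → ℂ) =
          - (Pi.single (b + ω ^ (i : ℕ)) 1 - Pi.single b 1)
        rw [neg_sub]
      rw [h2]
      have h3 : B (- dif (b + ω ^ (i : ℕ)) b) (Matrix.vecCons (- dif (b + ω ^ (i : ℕ)) b) x) =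
        upper_bound_C _ m (- dif (b + ω ^ (i : ℕ)) b) (B (- dif (b + ω ^ (i : ℕ)) b)) x := rfl
      rw [h3]
      simp only [map_neg, LinearMap.neg_apply, neg_neg]
      exact h1
  have key := upper_bound_gen (dif (0 : Fin 3) 1) (dif 1 2) hspan (node ω) q (Ktil ω (q+2))
    (by
      intro B hB e
      ext x
      exact hB e x) (KP (Adj ω) q) (KP (Adj ω) (q+1)) (KP (Adj ω) (q+2)) (hmem q) (hmem (q+1))
      (hmem (q+2))
  rw [hdim] at key
  exact key

end H475
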