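import Pool.Agent.Helper475.ExistsRingequivPow
import Pool.Agent.Helper475.ExistsInjMany
import Pool.Agent.Helper475.DactMemOfConst
import Pool.Agent.Helper475.ExistsDetForm
import Pool.Agent.Helper475.KnIdentity
import Pool.Agent.Helper475.ExistsCritical
import Pool.Agent.Helper475.ExistsUnitaryFlag
import Pool.Agent.Helper475.KempfNess
import Pool.Agent.Helper475.TorusStable
import Pool.Agent.Helper475.AltOfRestrict
import Pool.Agent.Helper475.Strictness
import Pool.Agent.Helper475.Decomp
import Pool.Agent.Helper475.CurryleftMemWsp
import Pool.Agent.Helper475.FinrankInfWsp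
import Pool.Agent.Helper475.LowerBound
import Pool.Agent.Helper475.UpperBound
import Pool.Agent.Helper475.FinrankK00
import Pool.Agent.Helper475.ExtTrick
import Pool.Agent.Helper475.KnLe
import Pool.Agent.Helper475.ExistsReps
import Pool.Agent.Helper475.SumNcl
import Pool.Agent.Helper475.NclTwo
import Pool.Agent.Helper475.NclThree
import Pool.Agent.Helper475.NoC4
import Pool.Agent.Helper475.NoK4
import Pool.Agent.Helper475.CharBasis
import Pool.Agent.Helper475.GaloisInj
import Pool.Agent.Helper475.SymK0
import Pool.Agent.Helper475.ScalarOfDact
import Pool.Agent.Helper475.ExistsEigenbasis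
import Pool.Agent.Helper475.F1Exists
import Pool.Agent.Helper475.F2Exists
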