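import Pool.Agent.Helper475.Defs

open scoped BigOperators
open Module

namespace H475

theorem finrank_alt (M : Type) [AddCommGroup M] [Module ℂ M] [FiniteDimensional ℂ M] (k : ℕ) :
    FiniteDimensional ℂ (M [⋀^Fin k]→ₗ[ℂ] ℂ) ∧
    finrank ℂ (M [⋀^Fin k]→ₗ[ℂ] ℂ) = (finrank ℂ M).choose k := by
  have e : (M [⋀^Fin k]→ₗ[ℂ] ℂ) ≃ₗ[ℂ] (⋀[ℂ]^k M →ₗ[ℂ] ℂ) :=
    exteriorPower.alternatingMapLinearEquiv
  constructor
  · exact Module.Finite.equiv e.symm
  · rw [e.finrank_eq]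
    have : finrank ℂ (⋀[ℂ]^k M →ₗ[ℂ] ℂ) = finrank ℂ (⋀[ℂ]^k M) :=
      Subspace.dual_finrank_eq
    rw [this, exteriorPower.finrank_eq]

instance finite_alt (M : Type) [AddCommGroup M] [Module ℂ M] [FiniteDimensional ℂ M] (k : ℕ) :
    FiniteDimensional ℂ (M [⋀^Fin k]→ₗ[ℂ] ℂ) := (finrank_alt M k).1

theorem adj_symm {n : ℕ} (ω : ZMod n) (a b : ZMod n) (h : Adj ω a b) : Adj ω b a := by
  obtain ⟨i, h | h⟩ := h
  · exact ⟨i, Or.inr h⟩
  · exact ⟨i, Or.inl h⟩

theorem adj_irrefl {n : ℕ} [Fact n.Prime] (_hn : 19 ≤ n) (ω : ZMod n)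
    (hω : ω ^ 2 + ω + 1 = 0) (a : ZMod n) : ¬ Adj ω a a := by
  rintro ⟨i, h⟩
  have h0 : ω ^ (i : ℕ) = 0 := by
    rcases h with h | h <;> simpa using h.symm
  have hw : ω = 0 := by
    by_contra h
    exact pow_ne_zero _ h h0
  rw [hw] at hω
  simp at hω

theorem toMul_injective {M : Type} [AddCommGroup M] [Module ℂ M] (k : ℕ) :
    Function.Injective (toMul M k) := by
  intro B B' h
  ext u v
  have := congrArg (fun τ => τ (Fin.cons u v : Fin (k+2) → M)) h
  simp only [toMul_apply] at this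
  simpa using this

theorem finrank_Z0 (X : Type) [Fintype X] [Nonempty X] :
    finrank ℂ (Z0 X) = Fintype.card X - 1 := by
  classical
  have h1 := LinearMap.finrank_range_add_finrank_ker (sumL X)
  have h2 : LinearMap.range (sumL X) = ⊤ := by
    rw [LinearMap.range_eq_top]
    intro c
    refine ⟨Pi.single (Classical.arbitrary X) c, ?_⟩
    simp [sumL]
  rw [h2, finrank_top, Module.finrank_self, Module.finrank_pi] at h1
  change finrank ℂ (LinearMap.ker (sumL X)) = _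
  omega

theorem finrank_UU (n : ℕ) [NeZero n] : finrank ℂ (UU n) = n + 1 := by
  have : 0 < n := Nat.pos_of_ne_zero (NeZero.ne n)
  rw [Module.finrank_prod, finrank_Z0, finrank_Z0, ZMod.card, Fintype.card_fin]
  omega

end H475
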