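import Mathlib

/-!
Definitions for the syzygies of the toroidal canonical graph curves.
-/

open scoped BigOperators

namespace H475

/-- The sum functional on functions on a finite type. -/
noncomputable def sumL (X : Type) [Fintype X] : (X → ℂ) →ₗ[ℂ] ℂ := ∑ a : X, LinearMap.proj a

/-- Complex functions with zero sum. -/
noncomputable def Z0 (X : Type) [Fintype X] : Submodule ℂ (X → ℂ) := LinearMap.ker (sumL X)

theorem mem_Z0 {X : Type} [Fintype X] (f : X → ℂ) : f ∈ Z0 X ↔ ∑ a, f a = 0 := by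
  simp [Z0, sumL]

theorem dif_mem {X : Type} [Fintype X] [DecidableEq X] (x y : X) :
    (Pi.single x 1 - Pi.single y 1 : X → ℂ) ∈ Z0 X := by
  rw [mem_Z0]; simp [Finset.sum_sub_distrib]

/-- The difference `δ_x - δ_y` of two coordinate vectors. -/
noncomputable def dif {X : Type} [Fintype X] [DecidableEq X] (x y : X) : Z0 X :=
  ⟨Pi.single x 1 - Pi.single y 1, dif_mem x y⟩

/-- The space `U = V^*` where `V = H^0(C, K_C)`: pairs of functions with zero sum. -/
abbrev UU (n : ℕ) [NeZero n] : Type := Z0 (ZMod n) × Z0 (Fin 3)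

/-- The node of the curve attached to the edge `e = (a, i)`, which joins the vertices `a` and
`a + ω ^ i` of the triangulated torus. -/
noncomputable def node {n : ℕ} [NeZero n] (ω : ZMod n) (e : ZMod n × Fin 3) : UU n :=
  (dif (e.1 + ω ^ (e.2 : ℕ)) e.1, dif e.2 (e.2 + 1))

/-- The condition `B(z)(z, ...) = 0` at all nodes `z`. -/
def KoszulZero {n : ℕ} [NeZero n] (ω : ZMod n) (k : ℕ)
    (B : UU n →ₗ[ℂ] (UU n) [⋀^Fin (k+1)]→ₗ[ℂ] ℂ) : Prop :=
  ∀ e, ∀ x : Fin k → UU n, B (node ω e) (Matrix.vecCons (node ω e) x) = 0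

theorem KoszulZero.zero {n : ℕ} [NeZero n] (ω : ZMod n) (k : ℕ) :
    KoszulZero ω k 0 := by intro e x; simp

theorem KoszulZero.add {n : ℕ} [NeZero n] {ω : ZMod n} {k : ℕ}
    {a b : UU n →ₗ[ℂ] (UU n) [⋀^Fin (k+1)]→ₗ[ℂ] ℂ}
    (ha : KoszulZero ω k a) (hb : KoszulZero ω k b) : KoszulZero ω k (a + b) := by
  intro e x
  simp [ha e x, hb e x]

theorem KoszulZero.smul {n : ℕ} [NeZero n] {ω : ZMod n} {k : ℕ} (c : ℂ)
    {a : UU n →ₗ[ℂ] (UU n) [⋀^Fin (k+1)]→ₗ[ℂ] ℂ}
    (ha : KoszulZero ω k a) : KoszulZero ω k (c • a) := by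
  intro e x
  simp [ha e x]

/-- Linear maps `B : U → Alt^(k+1) U` (that is, elements of `V ⊗ ⋀^(k+1) V`) with
`B(z)(z, ...) = 0` at all nodes `z`: the kernel of the Koszul map (with `p = k+1`). -/
noncomputable def Ktil {n : ℕ} [NeZero n] (ω : ZMod n) (k : ℕ) :
    Submodule ℂ (UU n →ₗ[ℂ] (UU n) [⋀^Fin (k+1)]→ₗ[ℂ] ℂ) where
  carrier := {B | KoszulZero ω k B}
  zero_mem' := KoszulZero.zero ω k
  add_mem' := KoszulZero.add
  smul_mem' := fun c _ ha => KoszulZero.smul c ha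

/-- The full alternation of `B` vanishes. -/
def AltZero (M : Type) [AddCommGroup M] [Module ℂ M] (k : ℕ)
    (B : M →ₗ[ℂ] M [⋀^Fin (k+1)]→ₗ[ℂ] ℂ) : Prop :=
  ∀ x : Fin (k+2) → M,
    ∑ i : Fin (k+2), (-1 : ℂ) ^ (i : ℕ) * B (x i) (fun j => x (i.succAbove j)) = 0

theorem AltZero.zero (M : Type) [AddCommGroup M] [Module ℂ M] (k : ℕ) :
    AltZero M k 0 := by intro x; simp

theorem AltZero.add {M : Type} [AddCommGroup M] [Module ℂ M] {k : ℕ}
    {a b : M →ₗ[ℂ] M [⋀^Fin (k+1)]→ₗ[ℂ] ℂ} (ha : AltZero M k a) (hb : AltZero M k b) :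
    AltZero M k (a + b) := by
  intro x
  simp only [LinearMap.add_apply, AlternatingMap.add_apply, mul_add, Finset.sum_add_distrib,
    ha x, hb x, add_zero]

theorem AltZero.smul {M : Type} [AddCommGroup M] [Module ℂ M] {k : ℕ} (c : ℂ)
    {a : M →ₗ[ℂ] M [⋀^Fin (k+1)]→ₗ[ℂ] ℂ} (ha : AltZero M k a) : AltZero M k (c • a) := by
  intro x
  have h := ha x
  simp only [LinearMap.smul_apply, AlternatingMap.smul_apply, smul_eq_mul]
  calc ∑ i : Fin (k+2), (-1 : ℂ) ^ (i : ℕ) * (c * a (x i) (fun j => x (i.succAbove j)))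
      = c * ∑ i : Fin (k+2), (-1 : ℂ) ^ (i : ℕ) * a (x i) (fun j => x (i.succAbove j)) := by
        rw [Finset.mul_sum]; exact Finset.sum_congr rfl fun i _ => by ring
    _ = 0 := by rw [h, mul_zero]

/-- Linear maps `B : U → Alt^(k+1) U` whose full alternation vanishes: a complement of
`⋀^(k+2) V` in `V ⊗ ⋀^(k+1) V`. -/
noncomputable def Wsp (M : Type) [AddCommGroup M] [Module ℂ M] (k : ℕ) :
    Submodule ℂ (M →ₗ[ℂ] M [⋀^Fin (k+1)]→ₗ[ℂ] ℂ) where
  carrier := {B | AltZero M k B}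
  zero_mem' := AltZero.zero M k
  add_mem' := AltZero.add
  smul_mem' := fun c _ ha => AltZero.smul c ha

/-- The syzygy space `K_{p,1}` of the curve, `p = k+1`, realised inside the kernel of the
alternation map. -/
noncomputable def K0 {n : ℕ} [NeZero n] (ω : ZMod n) (k : ℕ) :
    Submodule ℂ (UU n →ₗ[ℂ] (UU n) [⋀^Fin (k+1)]→ₗ[ℂ] ℂ) :=
  Ktil ω k ⊓ Wsp (UU n) k

/-- View `B : M → Alt^(k+1) M` as a multilinear form in `k+2` variables. -/
noncomputable def toMul (M : Type) [AddCommGroup M] [Module ℂ M] (k : ℕ) :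
    (M →ₗ[ℂ] M [⋀^Fin (k+1)]→ₗ[ℂ] ℂ) →ₗ[ℂ] MultilinearMap ℂ (fun _ : Fin (k+2) => M) ℂ where
  toFun B := LinearMap.uncurryLeft
    ((AlternatingMap.toMultilinearMapLM (R := ℂ) (S := ℂ)).comp B)
  map_add' a b := by ext x; simp
  map_smul' c a := by ext x; simp

theorem toMul_apply {M : Type} [AddCommGroup M] [Module ℂ M] {k : ℕ}
    (B : M →ₗ[ℂ] M [⋀^Fin (k+1)]→ₗ[ℂ] ℂ) (x : Fin (k+2) → M) :
    toMul M k B x = B (x 0) (fun j => x j.succ) := rfl

/-- Linear maps `B : Z0 X → Alt^(q+1) (Z0 X)` with `B(z)(z, ...) = 0` for `z = δ_b - δ_a`,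
`a` and `b` adjacent. -/
noncomputable def KP {X : Type} [Fintype X] [DecidableEq X] (Adj : X → X → Prop) (q : ℕ) :
    Submodule ℂ (Z0 X →ₗ[ℂ] (Z0 X) [⋀^Fin (q+1)]→ₗ[ℂ] ℂ) where
  carrier := {B | ∀ a b, Adj a b → ∀ x : Fin q → Z0 X, B (dif b a) (Matrix.vecCons (dif b a) x) = 0}
  zero_mem' := by intro e x; simp
  add_mem' := by
    intro a b ha hb e f h x
    simp [ha e f h x, hb e f h x]
  smul_mem' := by
    intro c a ha e f h x
    simp [ha e f h x]

/-- The same for the space of all functions on `X`. -/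
noncomputable def KN {X : Type} [Fintype X] [DecidableEq X] (Adj : X → X → Prop) (q : ℕ) :
    Submodule ℂ (X → (X → ℂ) [⋀^Fin (q+1)]→ₗ[ℂ] ℂ) where
  carrier := {β | (∀ a, ∀ x : Fin q → (X → ℂ), β a (Matrix.vecCons (Pi.single a 1) x) = 0) ∧
    ∀ a b, Adj a b → ∀ x : Fin q → (X → ℂ),
      β a (Matrix.vecCons (Pi.single b 1) x) + β b (Matrix.vecCons (Pi.single a 1) x) = 0}
  zero_mem' := by constructor <;> intros <;> simp
  add_mem' := by
    intro a b ha hb
    refine ⟨fun e x => ?_, fun e f h x => ?_⟩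
    · simp [ha.1 e x, hb.1 e x]
    · have h1 := ha.2 e f h x
      have h2 := hb.2 e f h x
      simp only [Pi.add_apply, AlternatingMap.add_apply]
      linear_combination h1 + h2
  smul_mem' := by
    intro c a ha
    refine ⟨fun e x => ?_, fun e f h x => ?_⟩
    · simp [ha.1 e x]
    · have h1 := ha.2 e f h x
      simp only [Pi.smul_apply, AlternatingMap.smul_apply, smul_eq_mul]
      linear_combination c * h1

/-- Adjacency in the triangulated torus. -/
def Adj {n : ℕ} (ω : ZMod n) (a b : ZMod n) : Prop :=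
  ∃ i : Fin 3, b = a + ω ^ (i : ℕ) ∨ a = b + ω ^ (i : ℕ)

/-- Joint injectivity on `K` of the evaluations at the tuples `f ∘ y i`. -/
def Inj {M J : Type} [AddCommGroup M] [Module ℂ M] {r d : ℕ}
    (K : Submodule ℂ (MultilinearMap ℂ (fun _ : Fin r => M) ℂ)) (f : J → M)
    (y : Fin d → Fin r → J) : Prop :=
  ∀ τ ∈ K, (∀ i, τ (fun m => f (y i m)) = 0) → τ = 0

/-- The infinitesimal action of an endomorphism on multilinear forms. -/
noncomputable def Dact {M : Type} [AddCommGroup M] [Module ℂ M] {r : ℕ} (ξ : M →ₗ[ℂ] M)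
    (τ : MultilinearMap ℂ (fun _ : Fin r => M) ℂ) : MultilinearMap ℂ (fun _ : Fin r => M) ℂ :=
  ∑ m : Fin r, τ.compLinearMap (fun i => if i = m then ξ else LinearMap.id)

/-- `S` is a clique of the graph `Adj`. -/
def Cl {X : Type} (Adj : X → X → Prop) (S : Finset X) : Prop :=
  ∀ x ∈ S, ∀ y ∈ S, x ≠ y → Adj x y

open Classical in
/-- The number of cliques with `s` elements contained in `A`. -/
noncomputable def ncl {X : Type} (Adj : X → X → Prop) (s : ℕ) (A : Finset X) : ℕ :=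
  ((A.powersetCard s).filter (Cl Adj)).card

/-- The subspace of `K0` of the `B` that vanish as soon as one of the `k+2` arguments lies in
the second factor of `UU n`. -/
noncomputable def K00 {n : ℕ} [NeZero n] (ω : ZMod n) (k : ℕ) :
    Submodule ℂ (UU n →ₗ[ℂ] (UU n) [⋀^Fin (k+1)]→ₗ[ℂ] ℂ) where
  carrier := {B | B ∈ K0 ω k ∧ ∀ x : Fin (k+2) → UU n, (∃ i, (x i).1 = 0) →
    B (x 0) (fun j => x j.succ) = 0}
  zero_mem' := ⟨Submodule.zero_mem _, by intro x _; simp⟩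
  add_mem' := by
    rintro a b ⟨ha, ha'⟩ ⟨hb, hb'⟩
    exact ⟨Submodule.add_mem _ ha hb, fun x hx => by simp [ha' x hx, hb' x hx]⟩
  smul_mem' := by
    rintro c a ⟨ha, ha'⟩
    exact ⟨Submodule.smul_mem _ c ha, fun x hx => by simp [ha' x hx]⟩

end H475
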