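import Pool.Agent.Helper475.Base

open scoped BigOperators

namespace H475
open Module

theorem exists_ringEquiv_pow_aux {F K L : Type} [Field F] [Field K] [Field L] [Algebra F K]
    [Algebra F L] [IsAlgClosed K] [IsAlgClosed L] {ι κ : Type} (v : ι → K) (w : κ → L)
    (hv : IsTranscendenceBasis F v) (hw : IsTranscendenceBasis F w) (e : ι ≃ κ) :
    ∃ σ : K ≃+* L, ∀ x : F, σ (algebraMap F K x) = algebraMap F L x := by
  have i1 := IsAlgClosed.isAlgClosure_of_transcendence_basis v hv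
  have i2 := IsAlgClosed.isAlgClosure_of_transcendence_basis w hw
  let E : Algebra.adjoin F (Set.range v) ≃ₐ[F] Algebra.adjoin F (Set.range w) :=
    (hv.1.aevalEquiv.symm.trans (MvPolynomial.renameEquiv F e)).trans hw.1.aevalEquiv
  refine ⟨IsAlgClosure.equivOfEquiv K L E.toRingEquiv, fun x => ?_⟩
  have h1 : algebraMap F K x = algebraMap (Algebra.adjoin F (Set.range v)) K
      (algebraMap F (Algebra.adjoin F (Set.range v)) x) := rfl
  rw [h1, IsAlgClosure.equivOfEquiv_algebraMap]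
  show algebraMap (Algebra.adjoin F (Set.range w)) L
    (E (algebraMap F (Algebra.adjoin F (Set.range v)) x)) = _
  rw [E.commutes]
  rfl

theorem exists_ringEquiv_pow_aux2 {F : Type} [Field F] (hF : Cardinal.mk F ≤ Cardinal.aleph0)
    (f g : F →+* ℂ) : ∃ σ : ℂ ≃+* ℂ, ∀ x : F, σ (f x) = g x := by
  have hC : Cardinal.aleph0 < Cardinal.mk ℂ := by
    rw [Cardinal.mk_complex]
    exact Cardinal.aleph0_lt_continuum
  obtain ⟨ι, v, hv⟩ : ∃ (ι : Type) (v : ι → ℂ), @IsTranscendenceBasis ι F ℂ _ _ f.toAlgebra v := by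
    let _ := f.toAlgebra
    exact exists_isTranscendenceBasis' F ℂ
  obtain ⟨κ, w, hw⟩ : ∃ (ι : Type) (v : ι → ℂ), @IsTranscendenceBasis ι F ℂ _ _ g.toAlgebra v := by
    let _ := g.toAlgebra
    exact exists_isTranscendenceBasis' F ℂ
  have c1 : Cardinal.mk ℂ = Cardinal.mk ι := by
    let _ := f.toAlgebra
    exact IsAlgClosed.cardinal_eq_cardinal_transcendence_basis_of_aleph0_lt' v hv hF hC
  have c2 : Cardinal.mk ℂ = Cardinal.mk κ := by
    let _ := g.toAlgebra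
    exact IsAlgClosed.cardinal_eq_cardinal_transcendence_basis_of_aleph0_lt' w hw hF hC
  obtain ⟨e⟩ := Cardinal.eq.mp (c1.symm.trans c2)
  exact @exists_ringEquiv_pow_aux F ℂ ℂ _ _ _ f.toAlgebra g.toAlgebra _ _ ι κ v w hv hw e

theorem exists_ringEquiv_pow (N : ℕ) (hN : 0 < N) (ζ : ℂ) (hζ : IsPrimitiveRoot ζ N)
    (c : ℕ) (hc : Nat.Coprime c N) : ∃ σ : ℂ ≃+* ℂ, σ ζ = ζ ^ c := by
  have hirr : Fact (Irreducible (Polynomial.cyclotomic N ℚ)) :=
    ⟨Polynomial.cyclotomic.irreducible_rat hN⟩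
  have hroot : ∀ z : ℂ, IsPrimitiveRoot z N →
      (Polynomial.cyclotomic N ℚ).eval₂ (algebraMap ℚ ℂ) z = 0 := by
    intro z hz
    rw [Polynomial.eval₂_eq_eval_map, Polynomial.map_cyclotomic]
    exact hz.isRoot_cyclotomic hN
  let F := AdjoinRoot (Polynomial.cyclotomic N ℚ)
  let f : F →+* ℂ := AdjoinRoot.lift (algebraMap ℚ ℂ) ζ (hroot ζ hζ)
  let g : F →+* ℂ := AdjoinRoot.lift (algebraMap ℚ ℂ) (ζ ^ c) (hroot _ (hζ.pow_of_coprime c hc))
  have hF : Cardinal.mk F ≤ Cardinal.aleph0 := by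
    have h1 : Countable (Polynomial ℚ) := by
      rw [← Cardinal.mk_le_aleph0_iff]
      refine Polynomial.cardinalMk_le_max.trans ?_
      simp
    exact Cardinal.mk_le_aleph0_iff.mpr
      (AdjoinRoot.mk_surjective (g := Polynomial.cyclotomic N ℚ)).countable
  obtain ⟨σ, hσ⟩ := exists_ringEquiv_pow_aux2 hF f g
  refine ⟨σ, ?_⟩
  have h1 := hσ (AdjoinRoot.root _)
  have h2 : f (AdjoinRoot.root _) = ζ := AdjoinRoot.lift_root _
  have h3 : g (AdjoinRoot.root _) = ζ ^ c := AdjoinRoot.lift_root _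
  rwa [h2, h3] at h1

end H475
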