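import Pool.Agent.Helper475.Base
import Pool.Agent.Helper475.ExistsRingequivPow
import Pool.Agent.Helper475.CharBasis
import Pool.Agent.Helper475.GaloisInj
import Pool.Agent.Helper475.SymK0

open scoped BigOperators

namespace H475
open Module





namespace exists_eigenbasis_aux

/-- permutation of coordinates -/
noncomputable def pm {X : Type} [Fintype X] (e : Equiv.Perm X) : Z0 X →ₗ[ℂ] Z0 X where
  toFun x := ⟨fun a => (x : X → ℂ) (e.symm a), by
    rw [mem_Z0]
    have h := (mem_Z0 (x : X → ℂ)).1 x.2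
    rw [← h]
    exact Equiv.sum_comp e.symm (x : X → ℂ)⟩
  map_add' x y := by
    apply Subtype.ext
    funext a
    rfl
  map_smul' c x := by
    apply Subtype.ext
    funext a
    rfl

theorem pm_apply {X : Type} [Fintype X] (e : Equiv.Perm X) (x : Z0 X) (a : X) :
    (pm e x : X → ℂ) a = (x : X → ℂ) (e.symm a) := rfl

theorem pm_dif {X : Type} [Fintype X] [DecidableEq X] (e : Equiv.Perm X) (x y : X) :
    pm e (dif x y) = dif (e x) (e y) := by
  apply Subtype.ext
  funext a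
  rw [pm_apply]
  simp only [dif, Pi.sub_apply, Pi.single_apply]
  congr 1
  · congr 1
    rw [Equiv.symm_apply_eq]
  · congr 1
    rw [Equiv.symm_apply_eq]

theorem chi_add {N : ℕ} [NeZero N] {ζ : ℂ} (hζ : ζ ^ N = 1) (x y : ZMod N) :
    ζ ^ (x + y).val = ζ ^ x.val * ζ ^ y.val := by
  rw [← pow_add, ZMod.val_add]
  conv_rhs => rw [← Nat.mod_add_div (x.val + y.val) N, pow_add, pow_mul, hζ, one_pow, mul_one]

theorem chi_nat {N : ℕ} [NeZero N] {ζ : ℂ} (hζ : ζ ^ N = 1) (c : ℕ) (x : ZMod N) :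
    ζ ^ ((c : ZMod N) * x).val = (ζ ^ c) ^ x.val := by
  rw [← pow_mul, ZMod.val_mul, ZMod.val_natCast]
  have h1 : c % N * x.val % N = c * x.val % N := by
    rw [Nat.mod_mul_mod]
  rw [h1]
  conv_rhs => rw [← Nat.mod_add_div (c * x.val) N, pow_add, pow_mul, hζ, one_pow, mul_one]

theorem chi_inj {N : ℕ} [NeZero N] {ζ : ℂ} (hζ : IsPrimitiveRoot ζ N) {x y : ZMod N}
    (h : ζ ^ x.val = ζ ^ y.val) : x = y :=
  ZMod.val_injective N (hζ.pow_inj (ZMod.val_lt x) (ZMod.val_lt y) h)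

/-- multiplication on nonzero elements -/
def mulNZ {F : Type} [Field F] (u : F) (hu : u ≠ 0) : Equiv.Perm {j : F // j ≠ 0} where
  toFun j := ⟨u * j, mul_ne_zero hu j.2⟩
  invFun j := ⟨u⁻¹ * j, mul_ne_zero (inv_ne_zero hu) j.2⟩
  left_inv j := by
    apply Subtype.ext
    simp [hu]
  right_inv j := by
    apply Subtype.ext
    simp [hu]

theorem exists_c {n : ℕ} [Fact n.Prime] (hn : 19 ≤ n) (u : ZMod n) (hu : u ≠ 0) (v : ZMod 3)
    (hv : v ≠ 0) : ∃ c : ℕ, (c : ZMod n) = u ∧ (c : ZMod 3) = v ∧ Nat.Coprime c (3 * n) := by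
  have hnp : n.Prime := Fact.out
  have hco : Nat.Coprime n 3 := by
    rw [Nat.coprime_primes hnp Nat.prime_three]
    omega
  obtain ⟨c, h1, h2⟩ := Nat.chineseRemainder hco u.val v.val
  have e1 : (c : ZMod n) = u := by
    rw [(ZMod.natCast_eq_natCast_iff c u.val n).2 h1, ZMod.natCast_zmod_val]
  have e2 : (c : ZMod 3) = v := by
    rw [(ZMod.natCast_eq_natCast_iff c v.val 3).2 h2, ZMod.natCast_zmod_val]
  refine ⟨c, e1, e2, ?_⟩
  apply Nat.Coprime.mul_right
  · rw [Nat.coprime_comm, Nat.Prime.coprime_iff_not_dvd Nat.prime_three]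
    intro hd
    exact hv (by rw [← e2]; exact (ZMod.natCast_eq_zero_iff c 3).2 hd)
  · rw [Nat.coprime_comm, Nat.Prime.coprime_iff_not_dvd hnp]
    intro hd
    exact hu (by rw [← e1]; exact (ZMod.natCast_eq_zero_iff c n).2 hd)

theorem basis3 (ζ : ℂ) (hζ : IsPrimitiveRoot ζ 3) :
    ∃ f : Basis {j : ZMod 3 // j ≠ 0} ℂ (Z0 (Fin 3)),
      ∀ j (a : ZMod 3), (f j : Fin 3 → ℂ) a = ζ ^ ((j : ZMod 3) * a).val :=
  char_basis 3 ζ hζ

end exists_eigenbasis_aux

open exists_eigenbasis_aux in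
theorem exists_eigenbasis {n : ℕ} [Fact n.Prime] (hn : 19 ≤ n) (ω : ZMod n)
    (hω : ω ^ 2 + ω + 1 = 0) (k : ℕ) :
    ∃ f : Basis ({j : ZMod n // j ≠ 0} ⊕ {i : ZMod 3 // i ≠ 0}) ℂ (UU n),
      (∀ j, (f (Sum.inl j)).2 = 0) ∧ (∀ i, (f (Sum.inr i)).1 = 0) ∧
      (∀ j j', j ≠ j' → ∃ (L : UU n →ₗ[ℂ] UU n)
        (π : Equiv.Perm ({j : ZMod n // j ≠ 0} ⊕ {i : ZMod 3 // i ≠ 0}))
        (φ : ({j : ZMod n // j ≠ 0} ⊕ {i : ZMod 3 // i ≠ 0}) → ℂ),
        (∀ i, ‖φ i‖ = 1) ∧ (∀ i, L (f i) = φ i • f (π i)) ∧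
        (∀ τ ∈ (K0 ω k).map (toMul (UU n) k),
          τ.compLinearMap (fun _ => L) ∈ (K0 ω k).map (toMul (UU n) k)) ∧
        π j = j ∧ π j' = j' ∧ φ j ≠ φ j') ∧
      (∀ j j', j.isLeft = j'.isLeft →
        ∃ γ : Equiv.Perm ({j : ZMod n // j ≠ 0} ⊕ {i : ZMod 3 // i ≠ 0}), γ j = j' ∧
          (∀ i, (γ i).isLeft = i.isLeft) ∧
          ∀ (d : ℕ) (y : Fin d → Fin (k+2) → ({j : ZMod n // j ≠ 0} ⊕ {i : ZMod 3 // i ≠ 0})),
            Inj ((K0 ω k).map (toMul (UU n) k)) f y →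
            Inj ((K0 ω k).map (toMul (UU n) k)) f (fun i m => γ (y i m))) := by
  have hnp : n.Prime := Fact.out
  have hn0 : 0 < n := hnp.pos
  have hN : 3 * n ≠ 0 := by omega
  have hζ := Complex.isPrimitiveRoot_exp (3 * n) hN
  set ζ : ℂ := Complex.exp (2 * Real.pi * Complex.I / ((3 * n : ℕ) : ℂ)) with hζdef
  have hζn : IsPrimitiveRoot (ζ ^ 3) n := hζ.pow (by omega) rfl
  have hζ3 : IsPrimitiveRoot (ζ ^ n) 3 := hζ.pow (by omega) (mul_comm 3 n)
  obtain ⟨fN, hfN⟩ := char_basis n (ζ ^ 3) hζn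
  obtain ⟨f3, hf3⟩ := basis3 (ζ ^ n) hζ3
  set ζn := ζ ^ 3 with hζn_def
  set ζ3 := ζ ^ n with hζ3_def
  have hnn : ‖ζn‖ = 1 := hζn.norm'_eq_one (by omega)
  have hn3 : ‖ζ3‖ = 1 := hζ3.norm'_eq_one (by omega)
  have l1 : ∀ j, ((fN.prod f3) (Sum.inl j)) = (fN j, 0) := fun j =>
    Prod.ext (Basis.prod_apply_inl_fst fN f3 j) (Basis.prod_apply_inl_snd fN f3 j)
  have l2 : ∀ j, ((fN.prod f3) (Sum.inr j)) = (0, f3 j) := fun j =>
    Prod.ext (Basis.prod_apply_inr_fst fN f3 j) (Basis.prod_apply_inr_snd fN f3 j)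
  refine ⟨fN.prod f3, fun j => by rw [l1], fun i => by rw [l2], ?_, ?_⟩
  · -- translation
    have hA : ∃ (L : UU n →ₗ[ℂ] UU n)
        (φ : ({j : ZMod n // j ≠ 0} ⊕ {i : ZMod 3 // i ≠ 0}) → ℂ),
        (∀ i, ‖φ i‖ = 1) ∧ (∀ i, L ((fN.prod f3) i) = φ i • (fN.prod f3) i) ∧
        (∀ τ ∈ (K0 ω k).map (toMul (UU n) k),
          τ.compLinearMap (fun _ => L) ∈ (K0 ω k).map (toMul (UU n) k)) ∧
        (∀ j, φ (Sum.inl j) = ζn ^ (-(j : ZMod n)).val) ∧ (∀ i, φ (Sum.inr i) = 1) := by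
      refine ⟨LinearMap.prodMap (pm (Equiv.addRight (1 : ZMod n))) LinearMap.id,
        Sum.elim (fun j => ζn ^ (-(j : ZMod n)).val) (fun _ => 1), ?_, ?_, ?_, ?_, ?_⟩
      · rintro (j | i)
        · simp [hnn]
        · simp
      · rintro (j | i)
        · rw [l1, LinearMap.prodMap_apply, Sum.elim_inl, Prod.smul_mk, smul_zero]
          refine Prod.ext (Subtype.ext (funext fun a => ?_)) rfl
          change (fN j : ZMod n → ℂ) ((Equiv.addRight (1 : ZMod n)).symm a) =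
            ζn ^ (-(j : ZMod n)).val * (fN j : ZMod n → ℂ) a
          rw [hfN, hfN, ← chi_add hζn.pow_eq_one]
          congr 2
          simp only [Equiv.addRight_symm, Equiv.coe_addRight]
          ring
        · rw [l2, LinearMap.prodMap_apply, Sum.elim_inr, one_smul, map_zero, LinearMap.id_apply]
      · apply sym_K0
        rintro ⟨a, i⟩
        refine ⟨(a + 1, i), ?_⟩
        unfold node
        rw [LinearMap.prodMap_apply, pm_dif, LinearMap.id_apply]
        simp only [Equiv.coe_addRight]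
        rw [show a + ω ^ (i : ℕ) + 1 = a + 1 + ω ^ (i : ℕ) by ring]
      · intro j; rfl
      · intro i; rfl
    obtain ⟨L, φ, hφ1, hL, hK, hφl, hφr⟩ := hA
    -- rotation
    have hω3 : ω ^ 3 = 1 := by linear_combination (ω - 1) * hω
    have hω0 : ω ≠ 0 := by
      rintro rfl
      simp at hω
    have hR : ∃ (L : UU n →ₗ[ℂ] UU n)
        (π : Equiv.Perm ({j : ZMod n // j ≠ 0} ⊕ {i : ZMod 3 // i ≠ 0}))
        (φ : ({j : ZMod n // j ≠ 0} ⊕ {i : ZMod 3 // i ≠ 0}) → ℂ),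
        (∀ i, ‖φ i‖ = 1) ∧ (∀ i, L ((fN.prod f3) i) = φ i • (fN.prod f3) (π i)) ∧
        (∀ τ ∈ (K0 ω k).map (toMul (UU n) k),
          τ.compLinearMap (fun _ => L) ∈ (K0 ω k).map (toMul (UU n) k)) ∧
        (∀ i, π (Sum.inr i) = Sum.inr i) ∧
        (∀ i, φ (Sum.inr i) = ζ3 ^ (-(i : ZMod 3)).val) := by
      let eω : Equiv.Perm (ZMod n) :=
        { toFun := fun a => ω * a
          invFun := fun a => ω ^ 2 * a
          left_inv := fun a => by linear_combination a * hω3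
          right_inv := fun a => by linear_combination a * hω3 }
      refine ⟨LinearMap.prodMap (pm eω) (pm (Equiv.addRight (1 : Fin 3))),
        Equiv.sumCongr (mulNZ (ω ^ 2) (pow_ne_zero 2 hω0)) (Equiv.refl _),
        Sum.elim (fun _ => 1) (fun i => ζ3 ^ (-(i : ZMod 3)).val), ?_, ?_, ?_, ?_, ?_⟩
      · rintro (j | i)
        · simp
        · simp [hn3]
      · rintro (j | i)
        · rw [Equiv.sumCongr_apply, Sum.map_inl, l1, l1, LinearMap.prodMap_apply, Sum.elim_inl,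
            one_smul, map_zero]
          refine Prod.ext (Subtype.ext (funext fun a => ?_)) rfl
          change (fN j : ZMod n → ℂ) (ω ^ 2 * a) =
            (fN (mulNZ (ω ^ 2) (pow_ne_zero 2 hω0) j) : ZMod n → ℂ) a
          rw [hfN, hfN]
          congr 2
          simp only [mulNZ, Equiv.coe_fn_mk]
          ring
        · rw [Equiv.sumCongr_apply, Sum.map_inr, l2, l2, LinearMap.prodMap_apply, Sum.elim_inr,
            Prod.smul_mk, smul_zero, map_zero]
          refine Prod.ext rfl (Subtype.ext (funext fun (a : ZMod 3) => ?_))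
          change (f3 i : Fin 3 → ℂ) ((Equiv.addRight (1 : Fin 3)).symm a) =
            ζ3 ^ (-(i : ZMod 3)).val * (f3 i : Fin 3 → ℂ) a
          rw [hf3, hf3, ← chi_add hζ3.pow_eq_one]
          congr 2
          change (i : ZMod 3) * (a + -1) = -(i : ZMod 3) + (i : ZMod 3) * a
          ring
      · apply sym_K0
        rintro ⟨a, i⟩
        refine ⟨(ω * a, i + 1), ?_⟩
        unfold node
        rw [LinearMap.prodMap_apply, pm_dif, pm_dif]
        refine Prod.ext ?_ rfl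
        change dif (ω * (a + ω ^ (i : ℕ))) (ω * a) =
          dif (ω * a + ω ^ ((i + 1 : Fin 3) : ℕ)) (ω * a)
        have e : ω * (a + ω ^ (i : ℕ)) = ω * a + ω ^ ((i + 1 : Fin 3) : ℕ) := by
          have e2 : ω ^ ((i + 1 : Fin 3) : ℕ) = ω * ω ^ (i : ℕ) := by
            fin_cases i
            · simp
            · simp [pow_two]
            · change ω ^ 0 = ω * ω ^ 2
              linear_combination -hω3
          rw [e2]
          ring
        rw [e]
      · intro i; rfl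
      · intro i; rfl
    obtain ⟨L', π', φ', hφ1', hL', hK', hπ', hφr'⟩ := hR
    rintro (j | i) (j' | i') hne
    · refine ⟨L, Equiv.refl _, φ, hφ1, hL, hK, rfl, rfl, ?_⟩
      rw [hφl, hφl]
      intro h
      have := neg_injective (chi_inj hζn h)
      exact hne (by rw [Subtype.ext this])
    · refine ⟨L, Equiv.refl _, φ, hφ1, hL, hK, rfl, rfl, ?_⟩
      rw [hφl, hφr]
      intro h
      have h2 : ζn ^ (-(j : ZMod n)).val = ζn ^ (0 : ZMod n).val := by
        rw [h, ZMod.val_zero, pow_zero]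
      exact j.2 (neg_eq_zero.1 (chi_inj hζn h2))
    · refine ⟨L, Equiv.refl _, φ, hφ1, hL, hK, rfl, rfl, ?_⟩
      rw [hφl, hφr]
      intro h
      have h2 : ζn ^ (-(j' : ZMod n)).val = ζn ^ (0 : ZMod n).val := by
        rw [← h, ZMod.val_zero, pow_zero]
      exact j'.2 (neg_eq_zero.1 (chi_inj hζn h2))
    · refine ⟨L', π', φ', hφ1', hL', hK', hπ' i, hπ' i', ?_⟩
      rw [hφr', hφr']
      intro h
      have := neg_injective (chi_inj hζ3 h)
      exact hne (by rw [Subtype.ext this])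
  · -- Galois action
    have hG : ∀ (u : ZMod n) (hu : u ≠ 0) (v : ZMod 3) (hv : v ≠ 0) (d : ℕ)
        (y : Fin d → Fin (k+2) → ({j : ZMod n // j ≠ 0} ⊕ {i : ZMod 3 // i ≠ 0})),
        Inj ((K0 ω k).map (toMul (UU n) k)) (fN.prod f3) y →
        Inj ((K0 ω k).map (toMul (UU n) k)) (fN.prod f3)
          (fun i m => (Equiv.sumCongr (mulNZ u hu) (mulNZ v hv)) (y i m)) := by
      intro u hu v hv d y hy
      obtain ⟨c, hc1, hc2, hc⟩ := exists_c hn u hu v hv
      obtain ⟨σ, hσ⟩ := exists_ringEquiv_pow (3 * n) (by omega) ζ hζ c hc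
      have hσn : σ ζn = ζn ^ c := by
        rw [hζn_def, map_pow, hσ, ← pow_mul, ← pow_mul, mul_comm]
      have hσ3 : σ ζ3 = ζ3 ^ c := by
        rw [hζ3_def, map_pow, hσ, ← pow_mul, ← pow_mul, mul_comm]
      have := galois_Inj ω k σ (fN.prod f3)
        (fun j => (fN.prod f3) ((Equiv.sumCongr (mulNZ u hu) (mulNZ v hv)) j)) ?_ ?_ y hy
      · exact this
      · rintro (j | i) a
        · rw [Equiv.sumCongr_apply, Sum.map_inl, l1, l1]
          simp only
          rw [hfN, hfN, map_pow, hσn, ← chi_nat hζn.pow_eq_one, hc1]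
          congr 2
          simp only [mulNZ, Equiv.coe_fn_mk]
          ring
        · rw [Equiv.sumCongr_apply, Sum.map_inr, l2, l2]
          simp
      · rintro (j | i) a
        · rw [Equiv.sumCongr_apply, Sum.map_inl, l1, l1]
          simp
        · rw [Equiv.sumCongr_apply, Sum.map_inr, l2, l2]
          simp only
          rw [hf3, hf3, map_pow, hσ3, ← chi_nat hζ3.pow_eq_one, hc2]
          congr 2
          simp only [mulNZ, Equiv.coe_fn_mk]
          ring
    rintro (j | i) (j' | i') hside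
    · refine ⟨Equiv.sumCongr (mulNZ ((j' : ZMod n) * (j : ZMod n)⁻¹)
        (mul_ne_zero j'.2 (inv_ne_zero j.2))) (mulNZ 1 one_ne_zero), ?_, ?_, hG _ _ _ _⟩
      · rw [Equiv.sumCongr_apply, Sum.map_inl]
        congr 1
        apply Subtype.ext
        have := j.2
        simp only [mulNZ, Equiv.coe_fn_mk]
        field_simp
      · rintro (x | x) <;> rfl
    · simp at hside
    · simp at hside
    · refine ⟨Equiv.sumCongr (mulNZ 1 one_ne_zero) (mulNZ ((i' : ZMod 3) * (i : ZMod 3)⁻¹)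
        (mul_ne_zero i'.2 (inv_ne_zero i.2))), ?_, ?_, hG _ _ _ _⟩
      · rw [Equiv.sumCongr_apply, Sum.map_inr]
        congr 1
        apply Subtype.ext
        have := i.2
        simp only [mulNZ, Equiv.coe_fn_mk]
        field_simp
      · rintro (x | x) <;> rfl

end H475
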