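import Pool.Agent.Helper475.Main

/-!
Final definitions for the statement: the syzygy spaces of the canonical graph curve of the
honeycomb torus and the Hilbert-Mumford criterion for them.
-/

open scoped BigOperators
open Module

namespace H475

/-- The space `U = V^*` where `V = H^0(C, K_C)`: pairs of complex functions on `ZMod n` and on
`Fin 3`, each with sum zero. -/
def UV (n : ℕ) [NeZero n] : Type := Z0 (ZMod n) × Z0 (Fin 3)

noncomputable instance instACGUV (n : ℕ) [NeZero n] : AddCommGroup (UV n) :=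
  (Prod.instAddCommGroup : AddCommGroup (Z0 (ZMod n) × Z0 (Fin 3)))

noncomputable instance instModUV (n : ℕ) [NeZero n] : Module ℂ (UV n) :=
  (Prod.instModule : Module ℂ (Z0 (ZMod n) × Z0 (Fin 3)))

instance instFinUV (n : ℕ) [NeZero n] : FiniteDimensional ℂ (UV n) :=
  inferInstanceAs (FiniteDimensional ℂ (Z0 (ZMod n) × Z0 (Fin 3)))

/-- The node of the curve attached to the edge `(a, i)` which joins the vertices `a` and
`a + ω ^ i` of the triangulated torus: `(δ_{a + ω^i} - δ_a, δ_i - δ_{i+1})`. -/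
noncomputable def nd {n : ℕ} [NeZero n] (ω a : ZMod n) (i : Fin 3) : UV n :=
  (dif (a + ω ^ (i : ℕ)) a, dif i (i + 1))

/-- The cone over the curve `C`, a union of `2 n` lines in `P(U)`: for each `a` the line through
the nodes `(a, 0)`, `(a + 1, 1)`, `(a + 1 + ω, 2)` and the line through the nodes `(a + ω, 0)`,
`(a, 1)`, `(a + 1 + ω, 2)`. -/
def coneC {n : ℕ} [NeZero n] (ω : ZMod n) : Set (UV n) :=
  {z | ∃ (a : ZMod n) (s t : ℂ), z = s • nd ω a 0 + t • nd ω (a + 1) 1 ∨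
    z = s • nd ω (a + ω) 0 + t • nd ω a 1}

/-- `V ⊗ ⋀^p V` for `V = M^*`, realised as the linear maps from `M` to alternating `p`-forms. -/
def Frm (M : Type) [AddCommGroup M] [Module ℂ M] (p : ℕ) : Type := M →ₗ[ℂ] M [⋀^Fin p]→ₗ[ℂ] ℂ

noncomputable instance instACGFrm (M : Type) [AddCommGroup M] [Module ℂ M] (p : ℕ) :
    AddCommGroup (Frm M p) := (LinearMap.addCommGroup : AddCommGroup (M →ₗ[ℂ] M [⋀^Fin p]→ₗ[ℂ] ℂ))

noncomputable instance instModFrm (M : Type) [AddCommGroup M] [Module ℂ M] (p : ℕ) :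
    Module ℂ (Frm M p) := (LinearMap.module : Module ℂ (M →ₗ[ℂ] M [⋀^Fin p]→ₗ[ℂ] ℂ))

instance instFinFrm (M : Type) [AddCommGroup M] [Module ℂ M] [FiniteDimensional ℂ M] (p : ℕ) :
    FiniteDimensional ℂ (Frm M p) :=
  inferInstanceAs (FiniteDimensional ℂ (M →ₗ[ℂ] M [⋀^Fin p]→ₗ[ℂ] ℂ))

/-- The value `B (u; x_1, ..., x_p)`, with `x = (x_1, ..., x_p)`. -/
noncomputable def Frm.ev {M : Type} [AddCommGroup M] [Module ℂ M] {p : ℕ} (B : Frm M p) (u : M)
    (x : Fin p → M) : ℂ := (show M →ₗ[ℂ] M [⋀^Fin p]→ₗ[ℂ] ℂ from B) u x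

theorem Frm.ev_zero {M : Type} [AddCommGroup M] [Module ℂ M] {p : ℕ} (u : M) (x : Fin p → M) :
    (0 : Frm M p).ev u x = 0 := by
  show (show M →ₗ[ℂ] M [⋀^Fin p]→ₗ[ℂ] ℂ from 0) u x = 0
  simp

theorem Frm.ev_add {M : Type} [AddCommGroup M] [Module ℂ M] {p : ℕ} (B B' : Frm M p) (u : M)
    (x : Fin p → M) : (B + B').ev u x = B.ev u x + B'.ev u x := rfl

theorem Frm.ev_smul {M : Type} [AddCommGroup M] [Module ℂ M] {p : ℕ} (c : ℂ) (B : Frm M p)
    (u : M) (x : Fin p → M) : (c • B).ev u x = c * B.ev u x := rfl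

/-- The alternation of `B` vanishes: `B` lies in the complement of `⋀^{p+1} V` in
`V ⊗ ⋀^p V`. -/
def Frm.AltZ {M : Type} [AddCommGroup M] [Module ℂ M] {p : ℕ} (B : Frm M p) : Prop :=
  ∀ x : Fin (p + 1) → M,
    ∑ i : Fin (p + 1), (-1 : ℂ) ^ (i : ℕ) * B.ev (x i) (fun j => x (i.succAbove j)) = 0

/-- `B` lies in the kernel of the Koszul map to `⋀^{p-1} V ⊗ H^0(C, 2 K_C)`: for all points `z`
of the cone over `C`, `B (z; x_1, ..., x_p) = 0` as soon as one of the `x_i` is `z`. -/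
def Kosz {n : ℕ} [NeZero n] (ω : ZMod n) {p : ℕ} (B : Frm (UV n) p) : Prop :=
  ∀ z ∈ coneC ω, ∀ x : Fin p → UV n, (∃ i, x i = z) → B.ev z x = 0

/-- The syzygy space `K_{p,1}(C, K_C)`, inside the kernel of the alternation map, which is
isomorphic to `W_p`. -/
noncomputable def Syz {n : ℕ} [NeZero n] (ω : ZMod n) (p : ℕ) :
    Submodule ℂ (Frm (UV n) p) where
  carrier := {B | B.AltZ ∧ Kosz ω B}
  zero_mem' := by
    refine ⟨fun x => ?_, fun z _ x _ => Frm.ev_zero _ _⟩
    simp [Frm.ev_zero]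
  add_mem' := by
    rintro B B' ⟨h1, h2⟩ ⟨h1', h2'⟩
    refine ⟨fun x => ?_, fun z hz x hx => ?_⟩
    · simp only [Frm.ev_add, mul_add, Finset.sum_add_distrib, h1 x, h1' x, add_zero]
    · rw [Frm.ev_add, h2 z hz x hx, h2' z hz x hx, add_zero]
  smul_mem' := by
    rintro c B ⟨h1, h2⟩
    refine ⟨fun x => ?_, fun z hz x hx => ?_⟩
    · have h := h1 x
      simp only [Frm.ev_smul]
      rw [← mul_zero c, ← h, Finset.mul_sum]
      exact Finset.sum_congr rfl fun i _ => by ring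
    · rw [Frm.ev_smul, h2 z hz x hx, mul_zero]

/-- The Plücker coordinate of the subspace `K` of `V ⊗ ⋀^p V` with basis `c` at the list `y` of
multi-indices: the determinant of the values `c_i (b_{y_j 0}; b_{y_j 1}, ..., b_{y_j p})`. -/
noncomputable def pluck {M : Type} [AddCommGroup M] [Module ℂ M] {p g d : ℕ}
    (b : Basis (Fin g) ℂ M) {K : Submodule ℂ (Frm M p)} (c : Basis (Fin d) ℂ K)
    (y : Fin d → Fin (p + 1) → Fin g) : ℂ :=
  Matrix.det (fun i j => (c i : Frm M p).ev (b (y j 0)) (fun m => b (y j m.succ)))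

/-- The Hilbert-Mumford criterion for the stability of the point `K` of the Grassmannian of
`V ⊗ ⋀^p V` under `SL(V)`, with respect to the Plücker line bundle: for all bases `b` of
`M = V^*` and all nonzero weight vectors `w` with sum zero, some nonzero Plücker coordinate
has negative weight. -/
def HMStable {M : Type} [AddCommGroup M] [Module ℂ M] {p : ℕ} (K : Submodule ℂ (Frm M p)) :
    Prop :=
  ∀ (g d : ℕ) (b : Basis (Fin g) ℂ M) (c : Basis (Fin d) ℂ K) (w : Fin g → ℝ), w ≠ 0 →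
    ∑ i, w i = 0 → ∃ y : Fin d → Fin (p + 1) → Fin g, pluck b c y ≠ 0 ∧ ∑ j, ∑ m, w (y j m) < 0

end H475
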