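import Pool.Agent.Helper475.Final

open scoped BigOperators
open Module

namespace H475

theorem finrank_UV (n : ℕ) [NeZero n] : finrank ℂ (UV n) = n + 1 := finrank_UU n

/-- `K0` as a submodule of `Frm`. -/
noncomputable def K0F {n : ℕ} [NeZero n] (ω : ZMod n) (k : ℕ) : Submodule ℂ (Frm (UV n) (k+1)) :=
  (K0 ω k : Submodule ℂ (UU n →ₗ[ℂ] (UU n) [⋀^Fin (k+1)]→ₗ[ℂ] ℂ))

theorem finrank_K0F {n : ℕ} [NeZero n] (ω : ZMod n) (k : ℕ) :
    finrank ℂ (K0F ω k) = finrank ℂ (K0 ω k) := rfl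

theorem mem_K0F {n : ℕ} [NeZero n] (ω : ZMod n) (k : ℕ) (B : Frm (UV n) (k+1)) :
    B ∈ K0F ω k ↔ (∀ (a : ZMod n) (i : Fin 3) (x : Fin k → UV n),
      B.ev (nd ω a i) (Matrix.vecCons (nd ω a i) x) = 0) ∧ B.AltZ := by
  constructor
  · rintro ⟨h1, h2⟩
    exact ⟨fun a i x => h1 (a, i) x, fun x => h2 x⟩
  · rintro ⟨h1, h2⟩
    exact ⟨fun e x => h1 e.1 e.2 x, fun x => h2 x⟩

/-- A quadratic condition on a plane vanishes when it vanishes on three lines. -/
theorem Frm.line {M : Type} [AddCommGroup M] [Module ℂ M] {k : ℕ} (B : Frm M (k+1)) (u v : M)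
    (hu : ∀ x : Fin k → M, B.ev u (Matrix.vecCons u x) = 0)
    (hv : ∀ x : Fin k → M, B.ev v (Matrix.vecCons v x) = 0)
    (huv : ∀ x : Fin k → M, B.ev (u + v) (Matrix.vecCons (u + v) x) = 0)
    (s t : ℂ) (x : Fin k → M) :
    B.ev (s • u + t • v) (Matrix.vecCons (s • u + t • v) x) = 0 := by
  let B' : M →ₗ[ℂ] M [⋀^Fin (k+1)]→ₗ[ℂ] ℂ := B
  have e : ∀ (u : M) (x : Fin (k+1) → M), B.ev u x = B' u x := fun _ _ => rfl
  have h1 := hu x
  have h2 := hv x
  have h3 := huv x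
  rw [e] at h1 h2 h3 ⊢
  have add2 : ∀ (C : M [⋀^Fin (k+1)]→ₗ[ℂ] ℂ) (p q : M), C (Matrix.vecCons (p + q) x) =
      C (Matrix.vecCons p x) + C (Matrix.vecCons q x) := by
    intro C p q
    exact C.map_vecCons_add x p q
  have smul2 : ∀ (C : M [⋀^Fin (k+1)]→ₗ[ℂ] ℂ) (c : ℂ) (p : M), C (Matrix.vecCons (c • p) x) =
      c * C (Matrix.vecCons p x) := by
    intro C c p
    exact C.map_vecCons_smul x c p
  rw [map_add, AlternatingMap.add_apply, add2, add2] at h3
  rw [map_add, map_smul, map_smul, AlternatingMap.add_apply, AlternatingMap.smul_apply,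
    AlternatingMap.smul_apply, add2, add2, smul2, smul2, smul2, smul2]
  simp only [smul_eq_mul]
  linear_combination (s ^ 2 - s * t) * h1 + (t ^ 2 - s * t) * h2 + s * t * h3

theorem dif_add_dif {X : Type} [Fintype X] [DecidableEq X] (x y z : X) :
    dif x y + dif y z = dif x z := by
  apply Subtype.ext
  show (Pi.single x 1 - Pi.single y 1 : X → ℂ) + (Pi.single y 1 - Pi.single z 1) =
    Pi.single x 1 - Pi.single z 1
  abel

theorem neg_dif {X : Type} [Fintype X] [DecidableEq X] (x y : X) :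
    - dif x y = dif y x := by
  apply Subtype.ext
  show -(Pi.single x 1 - Pi.single y 1 : X → ℂ) = Pi.single y 1 - Pi.single x 1
  abel

theorem nd_add_up {n : ℕ} [NeZero n] (ω a : ZMod n) (hω : ω ^ 2 + ω + 1 = 0) :
    nd ω a 0 + nd ω (a + 1) 1 = - nd ω (a + 1 + ω) 2 := by
  have h : a + 1 + ω + ω ^ 2 = a := by linear_combination hω
  have key : ((dif (a + ω ^ 0) a, dif 0 (0 + 1)) : Z0 (ZMod n) × Z0 (Fin 3)) +
      (dif (a + 1 + ω ^ 1) (a + 1), dif 1 (1 + 1)) =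
      -(dif (a + 1 + ω + ω ^ 2) (a + 1 + ω), dif 2 (2 + 1)) := by
    rw [h, pow_zero, pow_one, Prod.mk_add_mk, Prod.neg_mk, neg_dif, neg_dif,
      add_comm (dif (a + 1) a), dif_add_dif]
    congr 1
    exact dif_add_dif (0 : Fin 3) 1 2
  exact key

theorem nd_add_dn {n : ℕ} [NeZero n] (ω a : ZMod n) (hω : ω ^ 2 + ω + 1 = 0) :
    nd ω (a + ω) 0 + nd ω a 1 = - nd ω (a + 1 + ω) 2 := by
  have h : a + 1 + ω + ω ^ 2 = a := by linear_combination hω
  have h' : a + ω + 1 = a + 1 + ω := by ring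
  have key : ((dif (a + ω + ω ^ 0) (a + ω), dif 0 (0 + 1)) : Z0 (ZMod n) × Z0 (Fin 3)) +
      (dif (a + ω ^ 1) a, dif 1 (1 + 1)) =
      -(dif (a + 1 + ω + ω ^ 2) (a + 1 + ω), dif 2 (2 + 1)) := by
    rw [h, pow_zero, pow_one, h', Prod.mk_add_mk, Prod.neg_mk, neg_dif, neg_dif, dif_add_dif]
    congr 1
    exact dif_add_dif (0 : Fin 3) 1 2
  exact key

theorem ev_neg_neg {M : Type} [AddCommGroup M] [Module ℂ M] {k : ℕ} (B : Frm M (k+1)) (u : M)
    (x : Fin k → M) (h : B.ev u (Matrix.vecCons u x) = 0) :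
    B.ev (-u) (Matrix.vecCons (-u) x) = 0 := by
  let B' : M →ₗ[ℂ] M [⋀^Fin (k+1)]→ₗ[ℂ] ℂ := B
  have e : ∀ (u : M) (x : Fin (k+1) → M), B.ev u x = B' u x := fun _ _ => rfl
  rw [e] at h ⊢
  have h2 : (-u : M) = (-1 : ℂ) • u := by simp
  rw [h2, map_smul, AlternatingMap.smul_apply, (B' u).map_vecCons_smul x (-1) u, h]
  simp

theorem mem_Syz {n : ℕ} [NeZero n] (ω : ZMod n) (p : ℕ) (B : Frm (UV n) p) :
    B ∈ Syz ω p ↔ B.AltZ ∧ Kosz ω B := Iff.rfl

theorem Syz_eq {n : ℕ} [NeZero n] (ω : ZMod n) (hω : ω ^ 2 + ω + 1 = 0) (k : ℕ) :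
    Syz ω (k+1) = K0F ω k := by
  ext B
  rw [mem_K0F, mem_Syz]
  constructor
  · rintro ⟨h1, h2⟩
    refine ⟨fun a i x => ?_, h1⟩
    refine h2 _ ?_ _ ⟨0, rfl⟩
    fin_cases i
    · exact ⟨a, 1, 0, Or.inl (by simp)⟩
    · exact ⟨a, 0, 1, Or.inr (by simp)⟩
    · refine ⟨a - 1 - ω, -1, -1, Or.inl ?_⟩
      have := nd_add_up ω (a - 1 - ω) hω
      have e : a - 1 - ω + 1 + ω = a := by ring
      rw [e] at this
      show nd ω a 2 = _
      rw [neg_one_smul, neg_one_smul, ← neg_add, this, neg_neg]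
  · rintro ⟨h1, h2⟩
    refine ⟨h2, ?_⟩
    have key : ∀ z ∈ coneC ω, ∀ x : Fin k → UV n, B.ev z (Matrix.vecCons z x) = 0 := by
      rintro z ⟨a, s, t, rfl | rfl⟩ x
      · refine Frm.line B _ _ (h1 a 0) (h1 (a+1) 1) ?_ s t x
        intro x
        rw [nd_add_up ω a hω]
        exact ev_neg_neg B _ x (h1 _ _ x)
      · refine Frm.line B _ _ (h1 (a + ω) 0) (h1 a 1) ?_ s t x
        intro x
        rw [nd_add_dn ω a hω]
        exact ev_neg_neg B _ x (h1 _ _ x)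
    rintro z hz x ⟨i, hi⟩
    let B' : UV n →ₗ[ℂ] (UV n) [⋀^Fin (k+1)]→ₗ[ℂ] ℂ := B
    show B' z x = 0
    by_cases hi0 : i = 0
    · subst hi0
      have : x = Matrix.vecCons z (fun j => x j.succ) := by
        ext j
        refine Fin.cases ?_ (fun j => ?_) j
        · exact hi
        · rfl
      rw [this]
      exact key z hz _
    · have hsw := (B' z).map_swap x (i := 0) (j := i) (Ne.symm hi0)
      have : x ∘ Equiv.swap 0 i = Matrix.vecCons z (fun j => (x ∘ Equiv.swap 0 i) j.succ) := by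
        ext j
        refine Fin.cases ?_ (fun j => ?_) j
        · simp [hi]
        · rfl
      rw [this] at hsw
      have h0 : (B' z) (Matrix.vecCons z (fun j => (x ∘ Equiv.swap 0 i) j.succ)) = 0 :=
        key z hz _
      rw [h0] at hsw
      have := neg_eq_zero.mp hsw.symm
      exact this

/-- From joint injectivity to a nonzero determinant. -/
theorem pluck_ne_zero {M : Type} [AddCommGroup M] [Module ℂ M] {p g d : ℕ}
    (b : Basis (Fin g) ℂ M) {K : Submodule ℂ (Frm M p)} (c : Basis (Fin d) ℂ K)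
    (y : Fin d → Fin (p + 1) → Fin g)
    (h : ∀ B ∈ K, (∀ j, B.ev (b (y j 0)) (fun m => b (y j m.succ)) = 0) → B = 0) :
    pluck b c y ≠ 0 := by
  intro hdet
  unfold pluck at hdet
  obtain ⟨v, hv, hv0⟩ := Matrix.exists_vecMul_eq_zero_iff.mpr hdet
  apply hv
  have hsum : (∑ i, v i • c i : K) = 0 := by
    apply Subtype.ext
    apply h _ (Subtype.mem _)
    intro j
    have h1 := congrFun hv0 j
    rw [Matrix.vecMul, dotProduct] at h1
    have h2 : ∀ (s : Finset (Fin d)), ((∑ i ∈ s, v i • c i : K) : Frm M p).ev (b (y j 0))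
        (fun m => b (y j m.succ)) =
        ∑ i ∈ s, v i * (c i : Frm M p).ev (b (y j 0)) (fun m => b (y j m.succ)) := by
      classical
      intro s
      induction s using Finset.induction_on with
      | empty => simp [Frm.ev_zero]
      | insert a s ha ih =>
        rw [Finset.sum_insert ha, Finset.sum_insert ha, Submodule.coe_add, Frm.ev_add, ih,
          Submodule.coe_smul, Frm.ev_smul]
    rw [h2]
    exact h1
  have := Fintype.linearIndependent_iff.mp c.linearIndependent v hsum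
  ext i
  exact this i

theorem HMStable_of {n : ℕ} [NeZero n] (ω : ZMod n) (hω : ω ^ 2 + ω + 1 = 0) (k : ℕ)
    (h : ∀ {g : ℕ} (b : Basis (Fin g) ℂ (UU n)) (w : Fin g → ℝ), w ≠ 0 → ∑ i, w i = 0 →
    ∃ y : Fin (finrank ℂ (K0 ω k)) → Fin (k+2) → Fin g,
      (∀ B ∈ K0 ω k, (∀ i, B (b (y i 0)) (fun j => b (y i j.succ)) = 0) → B = 0) ∧
      ∑ i, ∑ m, w (y i m) < 0) : HMStable (Syz ω (k+1)) := by
  rw [Syz_eq ω hω k]
  intro g d b c w hw hw0
  obtain ⟨y, hy, hyw⟩ := h b w hw hw0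
  have hd : finrank ℂ (K0 ω k) = d := by
    rw [← finrank_K0F, finrank_eq_card_basis c, Fintype.card_fin]
  subst hd
  exact ⟨y, pluck_ne_zero b c y (fun B hB hB' => hy B hB hB'), hyw⟩

end H475
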