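import Pool.Agent.Helper475.All

open scoped BigOperators
open Module

namespace H475

/-! ### choose as polynomials -/
theorem ch2 (n : ℕ) : 2 * (n.choose 2 : ℤ) = n * (n - 1) := by
  induction n with
  | zero => simp
  | succ m ih =>
    rw [Nat.choose_succ_succ' m 1, Nat.choose_one_right]
    push_cast
    linear_combination ih

theorem ch3 (n : ℕ) : 6 * (n.choose 3 : ℤ) = n * (n - 1) * (n - 2) := by
  induction n with
  | zero => simp
  | succ m ih =>
    rw [Nat.choose_succ_succ' m 2]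
    have := ch2 m
    push_cast
    linear_combination ih + 3 * this

theorem ch4 (n : ℕ) : 24 * (n.choose 4 : ℤ) = n * (n - 1) * (n - 2) * (n - 3) := by
  induction n with
  | zero => simp
  | succ m ih =>
    rw [Nat.choose_succ_succ' m 3]
    have := ch3 m
    push_cast
    linear_combination ih + 4 * this

theorem KP_bound_aux {n : ℕ} [Fact n.Prime] (hn : 19 ≤ n) (ω : ZMod n)
    (hω : ω ^ 2 + ω + 1 = 0) (q : ℕ) (hq : q ≤ 2) :
    finrank ℂ (KP (Adj ω) q) + (n - 1).choose (q+1) + 3 * n * (n - 2).choose q ≤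
      (q+2) * n.choose (q+2) +
      ∑ A ∈ (Finset.univ : Finset (ZMod n)).powersetCard (q+2), ncl (Adj ω) 3 A := by
  classical
  have hsymm := adj_symm ω
  have hR : ∀ A : Finset (ZMod n), ∃ R : Finset (ZMod n), A.card = q + 2 →
      R ⊆ A ∧ (∀ a ∈ A, ∃ r ∈ R,
      Relation.ReflTransGen (fun u v => Adj ω u v ∧ u ∈ A ∧ v ∈ A) a r) ∧
      R.card + ncl (Adj ω) 2 A ≤ A.card + ncl (Adj ω) 3 A := by
    intro A
    by_cases hA : A.card = q + 2
    · obtain ⟨R, h1, h2, h3⟩ := exists_reps (Adj ω) hsymm (adj_irrefl hn ω hω)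
        (fun a b c d hac hbd h1 h2 h3 h4 => no_C4 hn ω hω a b c d hac hbd h1 h2 h3 h4) A
        (by omega)
      exact ⟨R, fun _ => ⟨h1, h2, h3⟩⟩
    · exact ⟨∅, fun h => absurd h hA⟩
  choose R hR' using hR
  have h1 := ext_trick (Adj ω) q
  rw [ZMod.card] at h1
  have h2 := KN_le (Adj ω) hsymm q R (fun A hA => ⟨(hR' A hA).1, (hR' A hA).2.1⟩)
  have h3 : ∑ A ∈ (Finset.univ : Finset (ZMod n)).powersetCard (q+2), (R A).card +
      ∑ A ∈ (Finset.univ : Finset (ZMod n)).powersetCard (q+2), ncl (Adj ω) 2 A ≤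
      ∑ A ∈ (Finset.univ : Finset (ZMod n)).powersetCard (q+2), A.card +
      ∑ A ∈ (Finset.univ : Finset (ZMod n)).powersetCard (q+2), ncl (Adj ω) 3 A := by
    rw [← Finset.sum_add_distrib, ← Finset.sum_add_distrib]
    refine Finset.sum_le_sum fun A hA => ?_
    rw [Finset.mem_powersetCard] at hA
    exact (hR' A hA.2).2.2
  have h4 : ∑ A ∈ (Finset.univ : Finset (ZMod n)).powersetCard (q+2), A.card =
      (q+2) * n.choose (q+2) := by
    rw [Finset.sum_congr rfl (fun A hA => (Finset.mem_powersetCard.mp hA).2),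
      Finset.sum_const, Finset.card_powersetCard, Finset.card_univ, ZMod.card, smul_eq_mul,
      mul_comm]
  have h5 := sum_ncl (Adj ω) 2 (q+2) (by omega)
  rw [ncl_two hn ω hω, ZMod.card, Nat.add_sub_cancel] at h5
  rw [h5, h4] at h3
  omega

theorem KP_bound0 {n : ℕ} [Fact n.Prime] (hn : 19 ≤ n) (ω : ZMod n)
    (hω : ω ^ 2 + ω + 1 = 0) :
    finrank ℂ (KP (Adj ω) 0) + (n - 1) + 3 * n ≤ 2 * n.choose 2 := by
  have h := KP_bound_aux hn ω hω 0 (by omega)
  have h0 : ∑ A ∈ (Finset.univ : Finset (ZMod n)).powersetCard 2, ncl (Adj ω) 3 A = 0 := by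
    apply Finset.sum_eq_zero
    intro A hA
    rw [Finset.mem_powersetCard] at hA
    unfold ncl
    rw [Finset.powersetCard_eq_empty.mpr (by omega)]
    simp
  simp only [zero_add] at h
  rw [h0] at h
  simpa using h

theorem KP_bound {n : ℕ} [Fact n.Prime] (hn : 19 ≤ n) (ω : ZMod n)
    (hω : ω ^ 2 + ω + 1 = 0) (q : ℕ) (hq : q + 1 ≤ 2) :
    finrank ℂ (KP (Adj ω) (q+1)) + (n - 1).choose (q+2) + 3 * n * (n - 2).choose (q+1) ≤
      (q+3) * n.choose (q+3) + 2 * n * (n - 3).choose q := by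
  have h := KP_bound_aux hn ω hω (q+1) hq
  have h5 := sum_ncl (Adj ω) 3 (q+1+2) (by omega)
  rw [ncl_three hn ω hω, ZMod.card] at h5
  have e : q + 1 + 2 - 3 = q := by omega
  rw [e] at h5
  rw [h5] at h
  exact h

/-- the number `b` -/
theorem finrank_K0 {n : ℕ} [Fact n.Prime] (hn : 19 ≤ n) (ω : ZMod n)
    (hω : ω ^ 2 + ω + 1 = 0) :
    8 * (finrank ℂ (K0 ω 2) : ℤ) = n * (n - 1) * (n - 3) * (n - 6) ∧
    8 * (finrank ℂ (K00 ω 2) : ℤ) ≤ n * (n - 3) * ((n : ℤ) ^ 2 - 15 * n + 42) := by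
  have hprime : n.Prime := Fact.out
  have h1 := lower_bound hn ω hω
  have h2 := upper_bound ω 0
  have h3 := finrank_K00 ω 2
  have k0 := KP_bound0 hn ω hω
  have k1 := KP_bound hn ω hω 0 (by omega)
  have k2 := KP_bound hn ω hω 1 (by omega)
  have hS : ∀ A : (UU n) [⋀^Fin (2+2)]→ₗ[ℂ] ℂ, A.curryLeft ∈ Ktil ω 2 := by
    intro A e x
    rw [AlternatingMap.curryLeft_apply_apply]
    exact A.map_eq_zero_of_eq _ (i := 0) (j := 1) rfl (by decide)
  have h4 := finrank_inf_Wsp 2 (Ktil ω 2) hS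
  rw [finrank_UU] at h4
  change finrank ℂ (Ktil ω 2) = finrank ℂ (K0 ω 2) + _ at h4
  simp only [zero_add, Nat.reduceAdd] at *
  have c2 := ch2 n
  have c3 := ch3 n
  have c4 := ch4 n
  have d2 := ch2 (n-1)
  have d3 := ch3 (n-1)
  have d4 := ch4 (n-1)
  have e2 := ch2 (n-2)
  have f2 := ch2 (n-3)
  have g3 := ch3 (n+1)
  have g4 := ch4 (n+1)
  have n1 : ((n - 1 : ℕ) : ℤ) = n - 1 := by omega
  have n2 : ((n - 2 : ℕ) : ℤ) = n - 2 := by omega
  have n3 : ((n - 3 : ℕ) : ℤ) = n - 3 := by omega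
  rw [n1] at d2 d3 d4
  rw [n2] at e2
  rw [n3] at f2
  zify at h1 h2 h3 h4 k0 k1 k2
  simp only [Nat.choose_one_right, Nat.choose_zero_right] at *
  push_cast at *
  rw [n1] at h1 h2 k0
  rw [n2] at k1
  rw [n3] at k2
  have hn' : (19 : ℤ) ≤ n := by exact_mod_cast hn
  have c2' : 2 * ((n : ℤ) * (n.choose 2 : ℤ)) = n * (n * (n - 1)) := by
    linear_combination (n : ℤ) * c2
  have g3' : 6 * (((n : ℤ) + 1) * ((n+1).choose 3 : ℤ)) =
      ((n : ℤ) + 1) * (((n : ℤ) + 1) * n * (n - 1)) := by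
    linear_combination ((n : ℤ) + 1) * g3
  have e2' : 2 * ((n : ℤ) * ((n-2).choose 2 : ℤ)) = n * ((n - 2) * (n - 3)) := by
    linear_combination (n : ℤ) * e2
  constructor
  · apply le_antisymm
    · linarith only [h2, h4, k0, k1, k2, c2, c3, c4, d2, d3, d4, e2, e2', f2, g3, g4]
    · linarith only [h1, h4, c2, c2', c3, c4, d2, d3, d4, e2, f2, g3, g3', g4]
  · linarith only [h3, k2, c4, d4, d3, e2, e2']

theorem finrank_map_toMul {n : ℕ} [NeZero n] (ω : ZMod n) (k : ℕ) :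
    finrank ℂ ((K0 ω k).map (toMul (UU n) k)) = finrank ℂ (K0 ω k) :=
  (Submodule.equivMapOfInjective _ (toMul_injective k) (K0 ω k)).finrank_eq.symm

/-- From the numerical inequality to stability. -/
theorem stable_aux {n : ℕ} [Fact n.Prime] (hn : 19 ≤ n) (ω : ZMod n)
    (hω : ω ^ 2 + ω + 1 = 0) (k : ℕ) (hk : 1 ≤ k) (hk' : k ≤ 3)
    (hnum : ∀ N : ℕ, finrank ℂ (K0 ω k) ≤ N + finrank ℂ (K00 ω k) →
      2 * ((k+2) * finrank ℂ (K0 ω k)) < (n+1) * N)
    {g : ℕ} (b : Basis (Fin g) ℂ (UU n)) (w : Fin g → ℝ) (hw : w ≠ 0) (hw0 : ∑ i, w i = 0) :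
    ∃ y : Fin (finrank ℂ (K0 ω k)) → Fin (k+2) → Fin g,
      (∀ B ∈ K0 ω k, (∀ i, B (b (y i 0)) (fun j => b (y i j.succ)) = 0) → B = 0) ∧
      ∑ i, ∑ m, w (y i m) < 0 := by
  classical
  have hS : ∀ ξ : UU n →ₗ[ℂ] UU n, (∀ τ ∈ (K0 ω k).map (toMul (UU n) k),
      Dact ξ τ ∈ (K0 ω k).map (toMul (UU n) k)) → ∃ c : ℂ, ξ = c • LinearMap.id :=
    fun ξ h => scalar_of_Dact hn ω hω k hk hk' ξ h
  obtain ⟨f, hl, hr, hsym, hperm⟩ := exists_eigenbasis hn ω hω k
  have hfr := finrank_map_toMul ω k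
  have hcardJ : Fintype.card ({j : ZMod n // j ≠ 0} ⊕ {i : ZMod 3 // i ≠ 0}) = n + 1 := by
    rw [← finrank_UU n, finrank_eq_card_basis f]
  have hle : finrank ℂ (K00 ω k) ≤ finrank ℂ (K0 ω k) := by
    apply Submodule.finrank_mono
    intro B hB
    exact hB.1
  have hT : ∀ w : ({j : ZMod n // j ≠ 0} ⊕ {i : ZMod 3 // i ≠ 0}) → ℝ, w ≠ 0 → ∑ j, w j = 0 →
      ∃ y : Fin (finrank ℂ ((K0 ω k).map (toMul (UU n) k))) → Fin (k+2) →
        ({j : ZMod n // j ≠ 0} ⊕ {i : ZMod 3 // i ≠ 0}),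
        Inj ((K0 ω k).map (toMul (UU n) k)) f y ∧ ∑ i, ∑ m, w (y i m) < 0 := by
    intro w hw hw0
    refine torus_stable ((K0 ω k).map (toMul (UU n) k)) f
      (Finset.univ.filter (fun j => j.isRight = true)) ?_ ?_ ?_ hS w hw hw0
    · intro j j' hjj
      have hjj' : j.isLeft = j'.isLeft := by
        rcases j with j | j <;> rcases j' with j' | j' <;> simp at hjj ⊢
      obtain ⟨γ, h1, h2, h3⟩ := hperm j j' hjj'
      refine ⟨γ, h1, ?_, fun y hy => h3 _ y hy⟩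
      intro i
      have := h2 i
      simp only [Finset.mem_filter, Finset.mem_univ, true_and]
      have e1 : ∀ s : ({j : ZMod n // j ≠ 0} ⊕ {i : ZMod 3 // i ≠ 0}),
          s.isRight = !s.isLeft := by intro s; cases s <;> rfl
      rw [e1, e1, this]
    · obtain ⟨y, hy, hy'⟩ := F1_exists ω hω k f hl hr
      refine ⟨y, hy, fun i m => ?_⟩
      have := hy' i m
      simp only [Finset.mem_filter, Finset.mem_univ, true_and]
      intro h
      have e1 : ∀ s : ({j : ZMod n // j ≠ 0} ⊕ {i : ZMod 3 // i ≠ 0}),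
          s.isRight = !s.isLeft := by intro s; cases s <;> rfl
      rw [e1, this] at h
      exact absurd h (by decide)
    · obtain ⟨y, hy, hy'⟩ := F2_exists ω k f hl hr (finrank ℂ (K0 ω k) - finrank ℂ (K00 ω k))
        (by omega)
      refine ⟨y, hy, ?_⟩
      have hJ1 : (Finset.univ.filter (fun j : {j : ZMod n // j ≠ 0} ⊕ {i : ZMod 3 // i ≠ 0} =>
          j.isRight = true)).card = 2 := by
        have : (Finset.univ.filter (fun j : {j : ZMod n // j ≠ 0} ⊕ {i : ZMod 3 // i ≠ 0} =>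
          j.isRight = true)) = (Finset.univ : Finset {i : ZMod 3 // i ≠ 0}).map
            Function.Embedding.inr := by
          ext j
          cases j <;> simp
        rw [this, Finset.card_map]
        decide
      rw [hJ1, hcardJ]
      have hle2 := Nat.mul_le_mul_left (n+1) hy'
      have hlt := hnum (finrank ℂ (K0 ω k) - finrank ℂ (K00 ω k)) (by omega)
      rw [← hfr] at hlt
      rw [← hfr] at hle2
      refine lt_of_lt_of_le hlt (hle2.trans (le_of_eq ?_))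
      congr 2
      ext q
      simp
  obtain ⟨y, hy, hyw⟩ := kempf_ness ((K0 ω k).map (toMul (UU n) k)) f hsym hT hS b w hw hw0
  refine ⟨fun i m => y (Fin.cast hfr.symm i) m, ?_, ?_⟩
  · intro B hB h
    have h1 : toMul (UU n) k B = 0 := by
      apply hy _ (Submodule.mem_map_of_mem hB)
      intro i
      have := h (Fin.cast hfr i)
      simpa [toMul_apply] using this
    exact toMul_injective k (by rw [h1, map_zero])
  · refine lt_of_eq_of_lt ?_ hyw
    exact Fintype.sum_equiv (finCongr hfr.symm) _ _ (fun i => rfl)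

theorem stable_three {n : ℕ} [Fact n.Prime] (hn : 19 ≤ n) (ω : ZMod n)
    (hω : ω ^ 2 + ω + 1 = 0)
    {g : ℕ} (b : Basis (Fin g) ℂ (UU n)) (w : Fin g → ℝ) (hw : w ≠ 0) (hw0 : ∑ i, w i = 0) :
    ∃ y : Fin (finrank ℂ (K0 ω 2)) → Fin 4 → Fin g,
      (∀ B ∈ K0 ω 2, (∀ i, B (b (y i 0)) (fun j => b (y i j.succ)) = 0) → B = 0) ∧
      ∑ i, ∑ m, w (y i m) < 0 := by
  refine stable_aux hn ω hω 2 (by norm_num) (by norm_num) ?_ b w hw hw0
  intro N hN
  obtain ⟨h1, h2⟩ := finrank_K0 hn ω hω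
  have hn' : (19 : ℤ) ≤ n := by exact_mod_cast hn
  zify at hN ⊢
  have h3 : (n : ℤ) * (n - 3) * (8 * n - 36) ≤ 8 * N := by
    nlinarith [h1, h2, hN]
  have h4 : ((n : ℤ) + 1) * (n * (n - 3) * (8 * n - 36)) ≤ ((n : ℤ) + 1) * (8 * N) :=
    mul_le_mul_of_nonneg_left h3 (by linarith)
  have h5 : 8 * (n * (n - 1) * (n - 3) * (n - 6)) < ((n : ℤ) + 1) * (n * (n - 3) * (8 * n - 36)) := by
    have : (0 : ℤ) < n * (n - 3) * (28 * n - 84) := by
      apply mul_pos (mul_pos (by linarith) (by linarith)) (by linarith)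
    nlinarith [this]
  nlinarith [h1, h4, h5]

end H475
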